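import Mathlib

/-!
# Divided differences and the operators `D i`, `xi i` on polynomials
-/

set_option autoImplicit false

open MvPolynomial Finset

namespace Pool.Agent.Helper61.Jack

noncomputable section

variable {R : Type*} [CommRing R] [IsDomain R]

/-- Swap of two variables. -/
abbrev sw (i j : ℕ) : MvPolynomial ℕ R →ₐ[R] MvPolynomial ℕ R := rename (Equiv.swap i j)

/-- Action of a permutation of the variables. -/
abbrev act (σ : Equiv.Perm ℕ) : MvPolynomial ℕ R →ₐ[R] MvPolynomial ℕ R := rename σ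

omit [IsDomain R] in
lemma act_act (σ τ : Equiv.Perm ℕ) (f : MvPolynomial ℕ R) :
    act σ (act τ f) = act (σ * τ) f := by
  rw [rename_rename]; rfl

omit [IsDomain R] in
@[simp] lemma act_one (f : MvPolynomial ℕ R) : act 1 f = f := by
  show rename _ f = f
  exact rename_id_apply f

omit [IsDomain R] in
lemma sw_comm (i j : ℕ) : (sw i j : MvPolynomial ℕ R →ₐ[R] MvPolynomial ℕ R) = sw j i := by
  simp only [sw, Equiv.swap_comm]

omit [IsDomain R] in
@[simp] lemma sw_sw (i j : ℕ) (f : MvPolynomial ℕ R) : sw i j (sw i j f) = f := by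
  have := act_act (Equiv.swap i j) (Equiv.swap i j) f
  rw [Equiv.swap_mul_self, act_one] at this
  exact this

omit [IsDomain R] in
lemma act_sw (σ : Equiv.Perm ℕ) (i j : ℕ) (f : MvPolynomial ℕ R) :
    act σ (sw i j f) = sw (σ i) (σ j) (act σ f) := by
  have h1 := act_act σ (Equiv.swap i j) f
  have h2 := act_act (Equiv.swap (σ i) (σ j)) σ f
  rw [h1, h2]
  congr 1
  rw [Equiv.mul_swap_eq_swap_mul]

omit [IsDomain R] in
@[simp] lemma sw_self (i : ℕ) (f : MvPolynomial ℕ R) : sw i i f = f := by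
  have : (sw i i f) = act 1 f := by rw [sw, Equiv.swap_self]; rfl
  rw [this, act_one]

omit [IsDomain R] in
lemma exists_dd (i j : ℕ) (f : MvPolynomial ℕ R) :
    ∃ q : MvPolynomial ℕ R, (X i - X j) * q = f - sw i j f := by
  induction f using MvPolynomial.induction_on with
  | C a => exact ⟨0, by simp⟩
  | add p q hp hq =>
    obtain ⟨a, ha⟩ := hp
    obtain ⟨b, hb⟩ := hq
    exact ⟨a + b, by rw [mul_add, ha, hb, map_add]; ring⟩
  | mul_X p k hp =>
    obtain ⟨a, ha⟩ := hp
    have hk : ∃ c : MvPolynomial ℕ R, (X i - X j) * c = X k - X (Equiv.swap i j k) := by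
      by_cases h1 : k = i
      · subst h1; exact ⟨1, by rw [Equiv.swap_apply_left, mul_one]⟩
      · by_cases h2 : k = j
        · subst h2; exact ⟨-1, by rw [Equiv.swap_apply_right]; ring⟩
        · exact ⟨0, by rw [Equiv.swap_apply_of_ne_of_ne h1 h2]; ring⟩
    obtain ⟨c, hc⟩ := hk
    refine ⟨a * X k + sw i j p * c, ?_⟩
    rw [map_mul, rename_X]
    calc (X i - X j) * (a * X k + sw i j p * c)
        = ((X i - X j) * a) * X k + sw i j p * ((X i - X j) * c) := by ring
      _ = _ := by rw [ha, hc]; ring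

lemma X_sub_X_ne {i j : ℕ} (h : i ≠ j) : (X i - X j : MvPolynomial ℕ R) ≠ 0 := by
  intro h0
  have : (X i : MvPolynomial ℕ R) = X j := sub_eq_zero.mp h0
  exact h (X_injective this)

/-- Divided difference `(f - s_{ij} f) / (x_i - x_j)` (zero for `i = j`). -/
def dd (i j : ℕ) : MvPolynomial ℕ R →ₗ[R] MvPolynomial ℕ R :=
  if h : i = j then 0 else
  { toFun := fun f => Classical.choose (exists_dd i j f)
    map_add' := by
      intro f g
      apply mul_left_cancel₀ (X_sub_X_ne h)
      rw [mul_add, Classical.choose_spec (exists_dd i j (f + g)),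
        Classical.choose_spec (exists_dd i j f), Classical.choose_spec (exists_dd i j g), map_add]
      ring
    map_smul' := by
      intro c f
      apply mul_left_cancel₀ (X_sub_X_ne h)
      rw [Classical.choose_spec (exists_dd i j (c • f)), RingHom.id_apply, mul_smul_comm,
        Classical.choose_spec (exists_dd i j f), map_smul, smul_sub] }

lemma dd_spec {i j : ℕ} (f : MvPolynomial ℕ R) : (X i - X j) * dd i j f = f - sw i j f := by
  by_cases h : i = j
  · subst h; simp
  · unfold dd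
    rw [dif_neg h]
    exact Classical.choose_spec (exists_dd i j f)

lemma dd_unique {i j : ℕ} (h : i ≠ j) {f q : MvPolynomial ℕ R} (hq : (X i - X j) * q = f - sw i j f) :
    dd i j f = q := by
  apply mul_left_cancel₀ (X_sub_X_ne h)
  rw [dd_spec, hq]

lemma act_dd (σ : Equiv.Perm ℕ) {i j : ℕ} (h : i ≠ j) (f : MvPolynomial ℕ R) :
    act σ (dd i j f) = dd (σ i) (σ j) (act σ f) := by
  symm
  apply dd_unique (by simpa using h)
  have := congrArg (act σ) (dd_spec (i := i) (j := j) f)
  rw [map_mul, map_sub, map_sub, act_sw, rename_X, rename_X] at this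
  exact this

lemma dd_X_left {i j : ℕ} (h : i ≠ j) (f : MvPolynomial ℕ R) :
    dd i j (X i * f) = X i * dd i j f + sw i j f := by
  apply dd_unique h
  rw [mul_add, mul_left_comm, dd_spec, map_mul, rename_X, Equiv.swap_apply_left]
  ring

lemma dd_X_right {i j : ℕ} (h : i ≠ j) (f : MvPolynomial ℕ R) :
    dd i j (X j * f) = X j * dd i j f - sw i j f := by
  apply dd_unique h
  rw [mul_sub, mul_left_comm, dd_spec, map_mul, rename_X, Equiv.swap_apply_right]
  ring

lemma dd_mul_of_symm {i j : ℕ} (h : i ≠ j) {g : MvPolynomial ℕ R} (hg : sw i j g = g)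
    (f : MvPolynomial ℕ R) : dd i j (g * f) = g * dd i j f := by
  apply dd_unique h
  rw [mul_left_comm, dd_spec, map_mul, hg]
  ring

lemma dd_X_other {i j k : ℕ} (h : i ≠ j) (hi : k ≠ i) (hj : k ≠ j) (f : MvPolynomial ℕ R) :
    dd i j (X k * f) = X k * dd i j f := by
  apply dd_mul_of_symm h
  rw [rename_X, Equiv.swap_apply_of_ne_of_ne hi hj]

variable (N : ℕ) (α : R)

/-- The operator `D i = α x_i ∂_i + ∑_{j ≠ i} x_j (1 - s_ij) / (x_i - x_j)`. -/
def Dop (i : ℕ) : MvPolynomial ℕ R →ₗ[R] MvPolynomial ℕ R :=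
  α • ((LinearMap.mulLeft R (X i)).comp (pderiv i).toLinearMap) +
    ∑ j ∈ (range N).erase i, (LinearMap.mulLeft R (X j)).comp (dd i j)

lemma Dop_apply (i : ℕ) (f : MvPolynomial ℕ R) :
    Dop N α i f = α • (X i * pderiv i f) + ∑ j ∈ (range N).erase i, X j * dd i j f := by
  simp [Dop, LinearMap.sum_apply]

/-- The Cherednik operator `ξ_i = D_i - ∑_{j < i} s_ij`. -/
def xi (i : ℕ) : MvPolynomial ℕ R →ₗ[R] MvPolynomial ℕ R :=
  Dop N α i - ∑ j ∈ range i, (sw i j).toLinearMap

lemma xi_apply (i : ℕ) (f : MvPolynomial ℕ R) :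
    xi N α i f = Dop N α i f - ∑ j ∈ range i, sw i j f := by
  simp [xi, LinearMap.sum_apply]

variable {N}

lemma act_Dop {σ : Equiv.Perm ℕ} (hσ : ∀ k, σ k < N ↔ k < N) (i : ℕ) (f : MvPolynomial ℕ R) :
    act σ (Dop N α i f) = Dop N α (σ i) (act σ f) := by
  rw [Dop_apply, Dop_apply, map_add, map_smul, map_mul, map_sum, rename_X,
    pderiv_rename σ.injective]
  congr 1
  refine Finset.sum_bij' (fun j _ => σ j) (fun j _ => σ.symm j) ?_ ?_ ?_ ?_ ?_
  · intro j hj
    rw [mem_erase, mem_range] at *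
    exact ⟨by simpa using hj.1, (hσ j).mpr hj.2⟩
  · intro j hj
    rw [mem_erase, mem_range] at *
    refine ⟨fun h => hj.1 (by rw [← h]; simp), ?_⟩
    rw [← hσ]; simpa using hj.2
  · intro j _; simp
  · intro j _; simp
  · intro j hj
    rw [mem_erase] at hj
    rw [map_mul, rename_X, act_dd σ (Ne.symm hj.1)]

/-- `D_i x_i = x_i D_i + α x_i + ∑_{j ≠ i} s_ij x_i`. -/
lemma Dop_X_self {i : ℕ} (f : MvPolynomial ℕ R) :
    Dop N α i (X i * f) = X i * Dop N α i f + α • (X i * f) +
      ∑ j ∈ (range N).erase i, sw i j (X i * f) := by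
  rw [Dop_apply, Dop_apply]
  have h1 : pderiv i (X i * f) = f + X i * pderiv i f := by
    rw [Derivation.leibniz, pderiv_X_self]
    simp only [smul_eq_mul, mul_one]; ring
  have h2 : ∀ j ∈ (range N).erase i, X j * dd i j (X i * f) =
      X i * (X j * dd i j f) + sw i j (X i * f) := by
    intro j hj
    rw [mem_erase] at hj
    rw [dd_X_left (Ne.symm hj.1), map_mul, rename_X, Equiv.swap_apply_left]
    ring
  rw [Finset.sum_congr rfl h2, Finset.sum_add_distrib, ← Finset.mul_sum, h1]
  simp only [smul_eq_C_mul]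
  ring

/-- `D_j x_i = x_i D_j - x_i s_ij` for `j ≠ i`. -/
lemma Dop_X_other {i j : ℕ} (hij : i ≠ j) (hi : i < N) (f : MvPolynomial ℕ R) :
    Dop N α j (X i * f) = X i * Dop N α j f - X i * sw i j f := by
  rw [Dop_apply, Dop_apply]
  have h1 : pderiv j (X i * f) = X i * pderiv j f := by
    rw [Derivation.leibniz, pderiv_X_of_ne hij]
    simp
  have hmem : i ∈ (range N).erase j := mem_erase.mpr ⟨hij, mem_range.mpr hi⟩
  rw [← Finset.add_sum_erase _ _ hmem, ← Finset.add_sum_erase _ _ hmem]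
  have h2 : ∀ k ∈ ((range N).erase j).erase i, X k * dd j k (X i * f) =
      X i * (X k * dd j k f) := by
    intro k hk
    rw [mem_erase, mem_erase] at hk
    rw [dd_X_other (Ne.symm hk.2.1) hij (Ne.symm hk.1)]
    ring
  rw [Finset.sum_congr rfl h2, ← Finset.mul_sum, h1, dd_X_right hij.symm, sw_comm i j]
  simp only [smul_eq_C_mul]
  ring

end

end Pool.Agent.Helper61.Jack
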