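import Pool.Agent.Helper61.Jack.A2

/-!
# Supports and leading coefficients
-/

set_option autoImplicit false

open MvPolynomial Finset

namespace Pool.Agent.Helper61.Jack

noncomputable section

variable {R : Type*} [CommRing R] [IsDomain R]

/-! ### Coefficients of the basic operators -/

/-- Action of a permutation on exponents. -/
def pm (σ : Equiv.Perm ℕ) (d : ℕ →₀ ℕ) : ℕ →₀ ℕ := Finsupp.mapDomain σ d

lemma pm_apply (σ : Equiv.Perm ℕ) (d : ℕ →₀ ℕ) (i : ℕ) : pm σ d i = d (σ.symm i) :=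
  Finsupp.mapDomain_equiv_apply d i

omit [IsDomain R] in
lemma coeff_act (σ : Equiv.Perm ℕ) (f : MvPolynomial ℕ R) (d : ℕ →₀ ℕ) :
    coeff d (act σ f) = coeff (pm σ.symm d) f := by
  have h := coeff_rename_mapDomain σ σ.injective f (pm σ.symm d)
  have h2 : (pm σ.symm d).mapDomain σ = d := by
    show pm σ (pm σ.symm d) = d
    ext i
    rw [pm_apply, pm_apply]
    simp
  rw [h2] at h
  exact h

omit [IsDomain R] in
lemma coeff_sw (i j : ℕ) (f : MvPolynomial ℕ R) (d : ℕ →₀ ℕ) :
    coeff d (sw i j f) = coeff (pm (Equiv.swap i j) d) f := by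
  have h := coeff_act (Equiv.swap i j) f d
  rwa [Equiv.symm_swap] at h

lemma pm_swap_apply (i j : ℕ) (d : ℕ →₀ ℕ) (k : ℕ) :
    pm (Equiv.swap i j) d k = d (Equiv.swap i j k) := by
  rw [pm_apply, Equiv.symm_swap]

/-- The exponent `d` before the rotation. -/
def unrot (m : ℕ) (d : ℕ →₀ ℕ) : ℕ →₀ ℕ := pm (rot m).symm (d - Finsupp.single m 1)

lemma unrot_apply (m : ℕ) (d : ℕ →₀ ℕ) (i : ℕ) :
    unrot m d i = if i = 0 then d m - 1 else if i ≤ m then d (i - 1) else d i := by
  unfold unrot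
  rw [pm_apply, Equiv.symm_symm, Finsupp.tsub_apply, rot_apply]
  by_cases h0 : i = 0
  · rw [if_pos h0, if_pos h0, Finsupp.single_eq_same]
  · rw [if_neg h0, if_neg h0]
    by_cases h1 : i ≤ m
    · rw [if_pos h1, if_pos h1, Finsupp.single_eq_of_ne (by omega), Nat.sub_zero]
    · rw [if_neg h1, if_neg h1, Finsupp.single_eq_of_ne (by omega), Nat.sub_zero]

omit [IsDomain R] in
lemma coeff_Phi (m : ℕ) (f : MvPolynomial ℕ R) (d : ℕ →₀ ℕ) :
    coeff d (Phi m f) = if d m = 0 then 0 else coeff (unrot m d) f := by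
  rw [Phi_apply, coeff_X_mul']
  by_cases h : d m = 0
  · rw [if_pos h, if_neg (by simpa using h)]
  · rw [if_neg h, if_pos (by simpa using h), coeff_act]
    rfl

/-- Exponent of a list. -/
def ex (L : List ℕ) : ℕ →₀ ℕ := L.toFinsupp

lemma ex_apply (L : List ℕ) (i : ℕ) : ex L i = L.getD i 0 := rfl

lemma ex_append_zero (L : List ℕ) : ex (L ++ [0]) = ex L := by
  ext i
  rw [ex_apply, ex_apply]
  rcases lt_or_ge i L.length with h | h
  · rw [List.getD_append _ _ _ _ h]
  · rw [List.getD_append_right _ _ _ _ h, List.getD_eq_default (l := L) _ h]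
    rcases Nat.eq_zero_or_pos (i - L.length) with h0 | h0
    · rw [h0]; rfl
    · rw [List.getD_eq_default _ _ (by simp; omega)]

lemma unrot_ex (L : List ℕ) (t : ℕ) : unrot L.length (ex (L ++ [t + 1])) = ex (t :: L) := by
  ext i
  rw [unrot_apply]
  simp only [ex_apply]
  by_cases h0 : i = 0
  · subst h0
    simp
  · rw [if_neg h0]
    obtain ⟨k, rfl⟩ : ∃ k, i = k + 1 := ⟨i - 1, by omega⟩
    by_cases h1 : k + 1 ≤ L.length
    · rw [if_pos h1, List.getD_append _ _ _ _ (by omega), List.getD_cons_succ]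
      simp
    · rw [if_neg h1, List.getD_cons_succ, List.getD_eq_default _ _ (by simp; omega),
        List.getD_eq_default _ _ (by omega)]

/-! ### Truncated sums -/

/-- `∑_{i<N} max(d i + [i < k] - t, 0)`. -/
def hts (N k t : ℕ) (d : ℕ → ℕ) : ℕ := ∑ i ∈ range N, (d i + (if i < k then 1 else 0) - t)

lemma hts_pair {N k t i j : ℕ} (hi : i < N) (hj : j < N) (hij : i ≠ j) {d e : ℕ → ℕ}
    (h : ∀ l, l ≠ i → l ≠ j → d l = e l) :
    hts N k t d + ((e i + (if i < k then 1 else 0) - t) + (e j + (if j < k then 1 else 0) - t)) =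
      hts N k t e + ((d i + (if i < k then 1 else 0) - t) +
        (d j + (if j < k then 1 else 0) - t)) := by
  unfold hts
  have hmi : i ∈ range N := mem_range.mpr hi
  have hmj : j ∈ (range N).erase i := mem_erase.mpr ⟨hij.symm, mem_range.mpr hj⟩
  rw [← add_sum_erase _ _ hmi, ← add_sum_erase _ _ hmj, ← add_sum_erase (range N)
    (fun l => e l + (if l < k then 1 else 0) - t) hmi, ← add_sum_erase _
    (fun l => e l + (if l < k then 1 else 0) - t) hmj]
  have h2 : ∑ l ∈ ((range N).erase i).erase j, (d l + (if l < k then 1 else 0) - t) =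
      ∑ l ∈ ((range N).erase i).erase j, (e l + (if l < k then 1 else 0) - t) := by
    apply sum_congr rfl
    intro l hl
    rw [mem_erase, mem_erase] at hl
    rw [h l hl.2.1 hl.1]
  rw [h2]
  omega

lemma sum_pair {N i j : ℕ} (hi : i < N) (hj : j < N) (hij : i ≠ j) {d e : ℕ → ℕ}
    (h : ∀ l, l ≠ i → l ≠ j → d l = e l) :
    ∑ l ∈ range N, d l + (e i + e j) = ∑ l ∈ range N, e l + (d i + d j) := by
  have := hts_pair (k := 0) (t := 0) hi hj hij h
  simpa [hts] using this

/-- Domination. -/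
structure Le (N : ℕ) (Q : ℕ → Prop) (c : ℕ → ℕ) (d : ℕ →₀ ℕ) : Prop where
  out : ∀ i, N ≤ i → d i = 0
  tot : ∑ i ∈ range N, d i = ∑ i ∈ range N, c i
  sd : ∀ k, Q k → ∀ t, hts N k t d ≤ hts N k t c

/-- Moves for `i < j`. -/
def Mv1 (d e : ℕ →₀ ℕ) (i j : ℕ) : Prop :=
  (∀ l, l ≠ i → l ≠ j → d l = e l) ∧ e i + e j = d i + d j ∧
    ((d j ≤ e i ∧ e i < d i) ∨ (d i ≤ e i ∧ e i < d j))

/-- Moves for `j < i`. -/
def Mv2 (d e : ℕ →₀ ℕ) (i j : ℕ) : Prop :=
  (∀ l, l ≠ i → l ≠ j → d l = e l) ∧ e i + e j = d i + d j ∧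
    ((d j < e i ∧ e i ≤ d i) ∨ (d i < e i ∧ e i ≤ d j))

lemma Le.mv1 {N : ℕ} {Q : ℕ → Prop} {c : ℕ → ℕ} {d e : ℕ →₀ ℕ} (h : Le N Q c d) {i j : ℕ}
    (hij : i < j) (hj : j < N) (hm : Mv1 d e i j) : Le N Q c e := by
  obtain ⟨h1, h2, h3⟩ := hm
  refine ⟨?_, ?_, ?_⟩
  · intro l hl
    rw [← h1 l (by omega) (by omega)]
    exact h.out l hl
  · rw [← h.tot]
    have := sum_pair (N := N) (by omega) hj (by omega) h1
    omega
  · intro k hk t
    refine le_trans ?_ (h.sd k hk t)
    have := hts_pair (N := N) (k := k) (t := t) (by omega) hj (by omega) h1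
    split_ifs at this <;> omega

lemma Le.mv2 {N : ℕ} {Q : ℕ → Prop} {c : ℕ → ℕ} {d e : ℕ →₀ ℕ} (h : Le N Q c d) {i j : ℕ}
    (hij : j < i) (hi : i < N) (hm : Mv2 d e i j) : Le N Q c e := by
  obtain ⟨h1, h2, h3⟩ := hm
  refine ⟨?_, ?_, ?_⟩
  · intro l hl
    rw [← h1 l (by omega) (by omega)]
    exact h.out l hl
  · rw [← h.tot]
    have := sum_pair (N := N) hi (by omega) (by omega) h1
    omega
  · intro k hk t
    refine le_trans ?_ (h.sd k hk t)
    have := hts_pair (N := N) (k := k) (t := t) hi (by omega) (by omega) h1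
    split_ifs at this <;> omega

/-! ### Divided differences of monomials -/

/-- Change the entries `i, j` of `d` to `c` and `d i + d j - c`. -/
def upd (d : ℕ →₀ ℕ) (i j c : ℕ) : ℕ →₀ ℕ := (d.update i c).update j (d i + d j - c)

lemma upd_apply (d : ℕ →₀ ℕ) (i j c l : ℕ) :
    upd d i j c l = if l = j then d i + d j - c else if l = i then c else d l := by
  unfold upd
  rw [Finsupp.coe_update, Function.update_apply, Finsupp.coe_update, Function.update_apply]

omit [IsDomain R] in
lemma telescoping {i j : ℕ} (hij : i ≠ j) (d : ℕ →₀ ℕ) {a b : ℕ} (hba : b ≤ a)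
    (ha : a ≤ d i + d j) :
    (X i - X j) * ∑ c ∈ Ico b a, monomial (upd d i j c) (1 : R) =
      X j * monomial (upd d i j a) 1 - X j * monomial (upd d i j b) 1 := by
  induction a, hba using Nat.le_induction with
  | base => simp
  | succ a hba ih =>
    rw [sum_Ico_succ_top hba, mul_add, ih (by omega)]
    have h : (X i : MvPolynomial ℕ R) * monomial (upd d i j a) 1 =
        X j * monomial (upd d i j (a + 1)) 1 := by
      have hex : (Finsupp.single i 1 + upd d i j a : ℕ →₀ ℕ) =
          Finsupp.single j 1 + upd d i j (a + 1) := by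
        ext l
        rw [Finsupp.add_apply, Finsupp.add_apply, upd_apply, upd_apply]
        by_cases h1 : l = j
        · subst h1
          rw [if_pos rfl, if_pos rfl, Finsupp.single_eq_same, Finsupp.single_eq_of_ne (by omega)]
          omega
        · rw [if_neg h1, if_neg h1, Finsupp.single_eq_of_ne (a := j) h1]
          by_cases h2 : l = i
          · subst h2
            rw [if_pos rfl, if_pos rfl, Finsupp.single_eq_same]
            omega
          · rw [if_neg h2, if_neg h2, Finsupp.single_eq_of_ne h2]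
      rw [X, X, monomial_mul, monomial_mul, hex]
    rw [sub_mul, h]
    ring

lemma upd_self {i j : ℕ} (_hij : i ≠ j) (d : ℕ →₀ ℕ) : upd d i j (d i) = d := by
  ext l
  rw [upd_apply]
  split_ifs with h1 h2
  · subst h1; omega
  · subst h2; rfl
  · rfl

lemma upd_swap {i j : ℕ} (hij : i ≠ j) (d : ℕ →₀ ℕ) :
    upd d i j (d j) = pm (Equiv.swap i j) d := by
  ext l
  rw [upd_apply, pm_swap_apply]
  split_ifs with h1 h2
  · subst h1; rw [Equiv.swap_apply_right]; omega
  · subst h2; rw [Equiv.swap_apply_left]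
  · rw [Equiv.swap_apply_of_ne_of_ne h2 h1]

omit [IsDomain R] in
lemma sw_monomial (i j : ℕ) (d : ℕ →₀ ℕ) (r : R) :
    sw i j (monomial d r) = monomial (pm (Equiv.swap i j) d) r := rename_monomial _ _ _

lemma X_dd_monomial {i j : ℕ} (hij : i ≠ j) (d : ℕ →₀ ℕ) :
    X j * dd i j (monomial d (1 : R)) = ∑ c ∈ Ico (d j) (d i), monomial (upd d i j c) 1 -
      ∑ c ∈ Ico (d i) (d j), monomial (upd d i j c) 1 := by
  apply mul_left_cancel₀ (X_sub_X_ne (R := R) hij)
  rw [mul_left_comm, dd_spec, sw_monomial, mul_sub, mul_sub]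
  rcases le_total (d j) (d i) with h | h
  · rw [telescoping hij d h (by omega), Ico_eq_empty (by omega), sum_empty, mul_zero, sub_zero,
      upd_self hij, upd_swap hij]
  · rw [telescoping hij d h (by omega), Ico_eq_empty (a := d j) (by omega), sum_empty, mul_zero,
      zero_sub, upd_self hij, upd_swap hij]
    ring

lemma sum_Ioc_add {M : Type*} [AddCommMonoid M] (F : ℕ → M) {a b : ℕ} (h : b ≤ a) :
    ∑ c ∈ Ioc b a, F c + F b = ∑ c ∈ Ico b a, F c + F a := by
  induction a, h using Nat.le_induction with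
  | base => simp
  | succ a h ih =>
    rw [sum_Ioc_succ_top (by omega), sum_Ico_succ_top h, add_right_comm, ih]

lemma X_dd_monomial' {i j : ℕ} (hij : i ≠ j) (d : ℕ →₀ ℕ) :
    X i * dd i j (monomial d (1 : R)) = ∑ c ∈ Ioc (d j) (d i), monomial (upd d i j c) 1 -
      ∑ c ∈ Ioc (d i) (d j), monomial (upd d i j c) 1 := by
  have h0 : X i * dd i j (monomial d (1 : R)) = X j * dd i j (monomial d (1 : R)) +
      (monomial d 1 - sw i j (monomial d 1)) := by
    rw [← dd_spec]; ring
  rw [h0, X_dd_monomial hij, sw_monomial]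
  rcases le_total (d j) (d i) with h | h
  · rw [Ico_eq_empty (a := d i) (by omega), Ioc_eq_empty (a := d i) (by omega)]
    simp only [sum_empty, sub_zero]
    have h1 : ∑ c ∈ Ioc (d j) (d i), monomial (upd d i j c) (1 : R) +
        monomial (upd d i j (d j)) 1 =
        ∑ c ∈ Ico (d j) (d i), monomial (upd d i j c) 1 + monomial (upd d i j (d i)) 1 :=
      sum_Ioc_add _ h
    rw [upd_self hij, upd_swap hij] at h1
    rw [← add_sub_assoc, ← h1]
    ring
  · rw [Ico_eq_empty (a := d j) (by omega), Ioc_eq_empty (a := d j) (by omega)]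
    simp only [sum_empty, zero_sub]
    have h1 : ∑ c ∈ Ioc (d i) (d j), monomial (upd d i j c) (1 : R) +
        monomial (upd d i j (d i)) 1 =
        ∑ c ∈ Ico (d i) (d j), monomial (upd d i j c) 1 + monomial (upd d i j (d j)) 1 :=
      sum_Ioc_add _ h
    rw [upd_self hij, upd_swap hij] at h1
    have h2 : ∑ c ∈ Ioc (d i) (d j), monomial (upd d i j c) (1 : R) =
        ∑ c ∈ Ico (d i) (d j), monomial (upd d i j c) 1 +
          monomial (pm (Equiv.swap i j) d) 1 - monomial d 1 := by rw [← h1]; ring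
    rw [h2]
    ring

/-! ### Support predicates -/

/-- All exponents of `f` satisfy `P`. -/
def PSup (P : (ℕ →₀ ℕ) → Prop) (f : MvPolynomial ℕ R) : Prop := ∀ d, coeff d f ≠ 0 → P d

omit [IsDomain R] in
lemma PSup.zero {P : (ℕ →₀ ℕ) → Prop} : PSup P (0 : MvPolynomial ℕ R) := by
  intro d hd; simp at hd

omit [IsDomain R] in
lemma PSup.add {P : (ℕ →₀ ℕ) → Prop} {f g : MvPolynomial ℕ R} (hf : PSup P f) (hg : PSup P g) :
    PSup P (f + g) := by
  intro d hd
  rw [coeff_add] at hd
  by_cases h : coeff d f = 0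
  · rw [h, zero_add] at hd; exact hg d hd
  · exact hf d h

omit [IsDomain R] in
lemma PSup.neg {P : (ℕ →₀ ℕ) → Prop} {f : MvPolynomial ℕ R} (hf : PSup P f) : PSup P (-f) := by
  intro d hd
  rw [coeff_neg, neg_ne_zero] at hd
  exact hf d hd

omit [IsDomain R] in
lemma PSup.sub {P : (ℕ →₀ ℕ) → Prop} {f g : MvPolynomial ℕ R} (hf : PSup P f) (hg : PSup P g) :
    PSup P (f - g) := by
  rw [sub_eq_add_neg]; exact hf.add hg.neg

omit [IsDomain R] in
lemma PSup.smul {P : (ℕ →₀ ℕ) → Prop} {f : MvPolynomial ℕ R} (hf : PSup P f) (c : R) :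
    PSup P (c • f) := by
  intro d hd
  rw [coeff_smul, smul_eq_mul] at hd
  exact hf d (right_ne_zero_of_mul hd)

omit [IsDomain R] in
lemma PSup.sum {P : (ℕ →₀ ℕ) → Prop} {ι : Type*} {s : Finset ι} {F : ι → MvPolynomial ℕ R}
    (h : ∀ i ∈ s, PSup P (F i)) : PSup P (∑ i ∈ s, F i) := by
  classical
  induction s using Finset.induction_on with
  | empty => rw [sum_empty]; exact PSup.zero
  | insert a s ha ih =>
    rw [sum_insert ha]
    exact (h a (mem_insert_self _ _)).add (ih fun i hi => h i (mem_insert_of_mem hi))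

omit [IsDomain R] in
lemma PSup.monomial {P : (ℕ →₀ ℕ) → Prop} {d : ℕ →₀ ℕ} (h : P d) (r : R) :
    PSup P (monomial d r) := by
  classical
  intro e he
  rw [coeff_monomial] at he
  split_ifs at he with h1
  · rwa [← h1]
  · exact absurd rfl he

omit [IsDomain R] in
lemma PSup.mono {P P' : (ℕ →₀ ℕ) → Prop} (h : ∀ d, P d → P' d) {f : MvPolynomial ℕ R}
    (hf : PSup P f) : PSup P' f := fun d hd => h d (hf d hd)

omit [IsDomain R] in
lemma PSup.sw {P : (ℕ →₀ ℕ) → Prop} {i j : ℕ} (h : ∀ d, P d → P (pm (Equiv.swap i j) d))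
    {f : MvPolynomial ℕ R} (hf : PSup P f) : PSup P (sw i j f) := by
  intro d hd
  rw [coeff_sw] at hd
  have := h _ (hf _ hd)
  have h2 : pm (Equiv.swap i j) (pm (Equiv.swap i j) d) = d := by
    ext k; rw [pm_swap_apply, pm_swap_apply, Equiv.swap_apply_self]
  rwa [h2] at this

lemma PSup.of_smul {P : (ℕ →₀ ℕ) → Prop} {f : MvPolynomial ℕ R} {c : R} (hc : c ≠ 0)
    (hf : PSup P (c • f)) : PSup P f := by
  intro d hd
  apply hf d
  rw [coeff_smul, smul_eq_mul]
  exact mul_ne_zero hc hd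

omit [IsDomain R] in
/-- Extension of support statements from monomials. -/
lemma PSup.linear {P : (ℕ →₀ ℕ) → Prop} (T : MvPolynomial ℕ R →ₗ[R] MvPolynomial ℕ R)
    (h : ∀ d, P d → PSup P (T (MvPolynomial.monomial d 1))) {f : MvPolynomial ℕ R}
    (hf : PSup P f) : PSup P (T f) := by
  have h1 : T f = ∑ d ∈ f.support, coeff d f • T (MvPolynomial.monomial d (1 : R)) := by
    conv_lhs => rw [f.as_sum, map_sum]
    apply sum_congr rfl
    intro d _
    rw [← map_smul, smul_monomial, smul_eq_mul, mul_one]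
  rw [h1]
  apply PSup.sum
  intro d hd
  exact (h d (hf d (mem_support_iff.mp hd))).smul _

variable {N : ℕ} {α : R}

lemma xi_apply' {i : ℕ} (hi : i < N) (f : MvPolynomial ℕ R) :
    xi N α i f = α • (X i * pderiv i f) + ∑ j ∈ Ico (i + 1) N, X j * dd i j f +
      ∑ j ∈ range i, (X i * dd i j f - f) := by
  rw [xi_apply, Dop_apply, range_erase_eq hi, sum_union (by
      rw [disjoint_left]; intro k; simp only [mem_range, mem_Ico]; omega)]
  have h : ∀ j ∈ range i, X i * dd i j f - f = X j * dd i j f - sw i j f := by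
    intro j _
    have := dd_spec (i := i) (j := j) f
    linear_combination this
  rw [sum_congr rfl h, sum_sub_distrib]
  abel

lemma xi_PSup {Q : ℕ → Prop} {c : ℕ → ℕ} {i : ℕ} (hi : i < N) {f : MvPolynomial ℕ R}
    (hf : PSup (Le N Q c) f) : PSup (Le N Q c) (xi N α i f) := by
  refine PSup.linear _ ?_ hf
  intro d hd
  rw [xi_apply' hi, X_mul_pderiv_monomial, ← Nat.cast_smul_eq_nsmul R]
  have e1 : PSup (Le N Q c) (α • ((d i : ℕ) : R) • MvPolynomial.monomial d (1 : R)) :=
    ((PSup.monomial hd (1 : R)).smul ((d i : ℕ) : R)).smul α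
  refine PSup.add (PSup.add e1 (PSup.sum ?_)) (PSup.sum ?_)
  · intro j hj
    rw [mem_Ico] at hj
    rw [X_dd_monomial (by omega)]
    refine (PSup.sum ?_).sub (PSup.sum ?_) <;> intro k hk <;> rw [mem_Ico] at hk <;>
      refine PSup.monomial ?_ _ <;> refine hd.mv1 (i := i) (j := j) (by omega) hj.2 ⟨?_, ?_, ?_⟩
    · intro l h1 h2; rw [upd_apply, if_neg h2, if_neg h1]
    · rw [upd_apply, upd_apply, if_neg (by omega), if_pos rfl, if_pos rfl]; omega
    · rw [upd_apply, if_neg (by omega), if_pos rfl]; omega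
    · intro l h1 h2; rw [upd_apply, if_neg h2, if_neg h1]
    · rw [upd_apply, upd_apply, if_neg (by omega), if_pos rfl, if_pos rfl]; omega
    · rw [upd_apply, if_neg (by omega), if_pos rfl]; omega
  · intro j hj
    rw [mem_range] at hj
    rw [X_dd_monomial' (by omega)]
    refine ((PSup.sum ?_).sub (PSup.sum ?_)).sub (PSup.monomial hd _) <;> intro k hk <;>
      rw [mem_Ioc] at hk <;>
      refine PSup.monomial ?_ _ <;> refine hd.mv2 (i := i) (j := j) (by omega) hi ⟨?_, ?_, ?_⟩
    · intro l h1 h2; rw [upd_apply, if_neg h2, if_neg h1]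
    · rw [upd_apply, upd_apply, if_neg (by omega), if_pos rfl, if_pos rfl]; omega
    · rw [upd_apply, if_neg (by omega), if_pos rfl]; omega
    · intro l h1 h2; rw [upd_apply, if_neg h2, if_neg h1]
    · rw [upd_apply, upd_apply, if_neg (by omega), if_pos rfl, if_pos rfl]; omega
    · rw [upd_apply, if_neg (by omega), if_pos rfl]; omega

end

end Pool.Agent.Helper61.Jack
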