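import Pool.Agent.Helper61.Jack.A3
import Pool.Agent.Helper61.Jack.A6

/-!
# Supports of the nonsymmetric Jack polynomials; action of `xi` on leading coefficients
-/

set_option autoImplicit false

open MvPolynomial Finset

namespace Pool.Agent.Helper61.Jack

noncomputable section

variable {R : Type*} [CommRing R] [IsDomain R] {N : ℕ} {α : R}

omit [IsDomain R] in
lemma coeff_linear (T : MvPolynomial ℕ R →ₗ[R] MvPolynomial ℕ R) (e : ℕ →₀ ℕ)
    (f : MvPolynomial ℕ R) :
    coeff e (T f) = ∑ d ∈ f.support, coeff d f * coeff e (T (monomial d 1)) := by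
  have h1 : T f = ∑ d ∈ f.support, coeff d f • T (MvPolynomial.monomial d (1 : R)) := by
    conv_lhs => rw [f.as_sum, map_sum]
    apply sum_congr rfl
    intro d _
    rw [← map_smul, smul_monomial, smul_eq_mul, mul_one]
  rw [h1, coeff_sum]
  apply sum_congr rfl
  intro d _
  rw [coeff_smul, smul_eq_mul]

omit [IsDomain R] in
/-- If only the exponent `e` contributes to the coefficient of `e`. -/
lemma coeff_linear_single (T : MvPolynomial ℕ R →ₗ[R] MvPolynomial ℕ R) (e : ℕ →₀ ℕ)
    (f : MvPolynomial ℕ R)
    (h : ∀ d, coeff d f ≠ 0 → d ≠ e → coeff e (T (monomial d 1)) = 0) :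
    coeff e (T f) = coeff e f * coeff e (T (monomial e 1)) := by
  rw [coeff_linear, Finset.sum_eq_single e]
  · intro d hd hde
    rw [h d (mem_support_iff.mp hd) hde, mul_zero]
  · intro he
    rw [notMem_support_iff.mp he, zero_mul]

lemma upd_eq_iff {i j : ℕ} (hij : i ≠ j) {d e : ℕ →₀ ℕ} {c : ℕ} (h : upd d i j c = e) :
    (∀ l, l ≠ i → l ≠ j → d l = e l) ∧ e i = c ∧ e j = d i + d j - c := by
  subst h
  refine ⟨?_, ?_, ?_⟩
  · intro l h1 h2; rw [upd_apply, if_neg h2, if_neg h1]
  · rw [upd_apply, if_neg hij, if_pos rfl]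
  · rw [upd_apply, if_pos rfl]

omit [IsDomain R] in
lemma coeff_sum_upd_ne {i j : ℕ} {d e : ℕ →₀ ℕ} {s : Finset ℕ}
    (h : coeff e (∑ c ∈ s, monomial (upd d i j c) (1 : R)) ≠ 0) : ∃ c ∈ s, upd d i j c = e := by
  classical
  by_contra hn
  push Not at hn
  apply h
  rw [coeff_sum]
  apply sum_eq_zero
  intro c hc
  rw [coeff_monomial, if_neg (hn c hc)]

lemma strict_inside {Q : ℕ → Prop} {d e : ℕ →₀ ℕ} {i j : ℕ} (hi : i < N) (hj : j < N)
    (hij : i ≠ j) (hd : Le N Q e d) (hQ : Q 0) (h : ∀ l, l ≠ i → l ≠ j → d l = e l) (M : ℕ)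
    (hM : d i = M ∨ d j = M) (hM0 : 0 < M) (h1 : e i < M) (h2 : e j < M) : False := by
  have h3 := hd.sd 0 hQ (M - 1)
  have h4 := hts_pair (N := N) (k := 0) (t := M - 1) hi hj hij h
  simp only [Nat.not_lt_zero, if_false, add_zero] at h4
  omega

/-- The action of `xi i` on the coefficient of a dominating exponent. -/
lemma coeff_xi {Q : ℕ → Prop} {e : ℕ →₀ ℕ} {i : ℕ} (hi : i < N) (hQ : Q 0)
    {f : MvPolynomial ℕ R} (hf : PSup (Le N Q e) f)
    (h1 : ∀ j, i < j → j < N → e j ≤ e i)
    (h2 : ∀ j, j < i → e j < e i → coeff (pm (Equiv.swap i j) e) f = 0) :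
    coeff e (xi N α i f) = ((e i : R) * α - (((range i).filter (fun j => e i ≤ e j)).card : R)) *
      coeff e f := by
  rw [xi_apply' hi, coeff_add, coeff_add, coeff_smul, coeff_sum, coeff_sum]
  -- the derivative
  have hder : coeff e (X i * pderiv i f) = (e i : R) * coeff e f := by
    have := coeff_linear_single ((LinearMap.mulLeft R (X i)).comp (pderiv i).toLinearMap) e f ?_
    · simp only [LinearMap.comp_apply, LinearMap.mulLeft_apply, Derivation.coeFn_coe] at this
      rw [this, X_mul_pderiv_monomial, ← Nat.cast_smul_eq_nsmul R, coeff_smul, coeff_monomial,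
        if_pos rfl]
      simp only [smul_eq_mul]
      ring
    · intro d _ hde
      simp only [LinearMap.comp_apply, LinearMap.mulLeft_apply, Derivation.coeFn_coe]
      rw [X_mul_pderiv_monomial, ← Nat.cast_smul_eq_nsmul R, coeff_smul, coeff_monomial,
        if_neg hde, smul_zero]
  have hgt : ∀ j ∈ Ico (i + 1) N, coeff e (X j * dd i j f) = 0 := by
    intro j hj
    rw [mem_Ico] at hj
    have hij : i ≠ j := by omega
    have := coeff_linear_single ((LinearMap.mulLeft R (X j)).comp (dd i j)) e f ?_
    · simp only [LinearMap.comp_apply, LinearMap.mulLeft_apply] at this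
      rw [this, X_dd_monomial hij]
      have h3 : coeff e (∑ c ∈ Ico (e j) (e i), monomial (upd e i j c) (1 : R) -
          ∑ c ∈ Ico (e i) (e j), monomial (upd e i j c) 1) = 0 := by
        rw [coeff_sub, sub_eq_zero]
        have a1 : coeff e (∑ c ∈ Ico (e j) (e i), monomial (upd e i j c) (1 : R)) = 0 := by
          by_contra hne
          obtain ⟨c, hc, hce⟩ := coeff_sum_upd_ne hne
          have := (upd_eq_iff hij hce).2.1
          rw [mem_Ico] at hc; omega
        have a2 : coeff e (∑ c ∈ Ico (e i) (e j), monomial (upd e i j c) (1 : R)) = 0 := by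
          by_contra hne
          obtain ⟨c, hc, hce⟩ := coeff_sum_upd_ne hne
          have := h1 j (by omega) hj.2
          rw [mem_Ico] at hc; omega
        rw [a1, a2]
      rw [h3, mul_zero]
    · intro d hd hde
      simp only [LinearMap.comp_apply, LinearMap.mulLeft_apply]
      rw [X_dd_monomial hij]
      have hle := hf d hd
      have h0 := h1 j (by omega) hj.2
      have key : ∀ c, ((d j ≤ c ∧ c < d i) ∨ (d i ≤ c ∧ c < d j)) → upd d i j c ≠ e := by
        intro c hc hce
        obtain ⟨b1, b2, b3⟩ := upd_eq_iff hij hce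
        by_cases hcase : d j < d i
        · by_cases hc2 : c = d j
          · omega
          · exact strict_inside hi hj.2 hij hle hQ b1 (d i) (Or.inl rfl) (by omega) (by omega)
              (by omega)
        · by_cases hc2 : c = d i
          · apply hde
            rw [← hce, hc2, upd_self hij]
          · exact strict_inside hi hj.2 hij hle hQ b1 (d j) (Or.inr rfl) (by omega) (by omega)
              (by omega)
      rw [coeff_sub, sub_eq_zero]
      have a1 : coeff e (∑ c ∈ Ico (d j) (d i), monomial (upd d i j c) (1 : R)) = 0 := by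
        by_contra hne
        obtain ⟨c, hc, hce⟩ := coeff_sum_upd_ne hne
        rw [mem_Ico] at hc
        exact key c (Or.inl hc) hce
      have a2 : coeff e (∑ c ∈ Ico (d i) (d j), monomial (upd d i j c) (1 : R)) = 0 := by
        by_contra hne
        obtain ⟨c, hc, hce⟩ := coeff_sum_upd_ne hne
        rw [mem_Ico] at hc
        exact key c (Or.inr hc) hce
      rw [a1, a2]
  have hlt : ∀ j ∈ range i, coeff e (X i * dd i j f - f) =
      -(if e i ≤ e j then coeff e f else 0) := by
    intro j hj
    rw [mem_range] at hj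
    have hij : i ≠ j := by omega
    have hjN : j < N := by omega
    rw [coeff_sub]
    have := coeff_linear_single ((LinearMap.mulLeft R (X i)).comp (dd i j)) e f ?_
    · simp only [LinearMap.comp_apply, LinearMap.mulLeft_apply] at this
      rw [this, X_dd_monomial' hij]
      have a2 : coeff e (∑ c ∈ Ioc (e i) (e j), monomial (upd e i j c) (1 : R)) = 0 := by
        by_contra hne
        obtain ⟨c, hc, hce⟩ := coeff_sum_upd_ne hne
        have := (upd_eq_iff hij hce).2.1
        rw [mem_Ioc] at hc; omega
      rw [coeff_sub, a2, sub_zero]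
      by_cases hc : e i ≤ e j
      · rw [if_pos hc, Ioc_eq_empty (by omega), sum_empty, coeff_zero, mul_zero, zero_sub]
      · rw [if_neg hc, coeff_sum, Finset.sum_eq_single (e i)]
        · rw [upd_self hij, coeff_monomial, if_pos rfl]; ring
        · intro c _ hce
          rw [coeff_monomial, if_neg]
          intro h
          exact hce (upd_eq_iff hij h).2.1.symm
        · intro h
          exfalso; apply h; rw [mem_Ioc]; omega
    · intro d hd hde
      simp only [LinearMap.comp_apply, LinearMap.mulLeft_apply]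
      rw [X_dd_monomial' hij]
      have hle := hf d hd
      have key : ∀ c, ((d j < c ∧ c ≤ d i) ∨ (d i < c ∧ c ≤ d j)) → upd d i j c ≠ e := by
        intro c hc hce
        obtain ⟨b1, b2, b3⟩ := upd_eq_iff hij hce
        by_cases hcase : d j < d i
        · by_cases hc2 : c = d i
          · apply hde
            rw [← hce, hc2, upd_self hij]
          · exact strict_inside hi hjN hij hle hQ b1 (d i) (Or.inl rfl) (by omega) (by omega)
              (by omega)
        · by_cases hc2 : c = d j
          · apply hd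
            have h5 : d = pm (Equiv.swap i j) e := by
              rw [← hce, hc2, upd_swap hij]
              ext k; rw [pm_swap_apply, pm_swap_apply, Equiv.swap_apply_self]
            rw [h5]
            exact h2 j hj (by omega)
          · exact strict_inside hi hjN hij hle hQ b1 (d j) (Or.inr rfl) (by omega) (by omega)
              (by omega)
      rw [coeff_sub, sub_eq_zero]
      have a1 : coeff e (∑ c ∈ Ioc (d j) (d i), monomial (upd d i j c) (1 : R)) = 0 := by
        by_contra hne
        obtain ⟨c, hc, hce⟩ := coeff_sum_upd_ne hne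
        rw [mem_Ioc] at hc
        exact key c (Or.inl hc) hce
      have a2 : coeff e (∑ c ∈ Ioc (d i) (d j), monomial (upd d i j c) (1 : R)) = 0 := by
        by_contra hne
        obtain ⟨c, hc, hce⟩ := coeff_sum_upd_ne hne
        rw [mem_Ioc] at hc
        exact key c (Or.inr hc) hce
      rw [a1, a2]
  rw [hder, sum_congr rfl hgt, sum_congr rfl hlt, sum_const_zero, sum_neg_distrib,
    ← Finset.sum_filter, sum_const, ← Nat.cast_smul_eq_nsmul R]
  simp only [smul_eq_mul]
  ring

/-! ### Supports of `Jk` -/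

lemma hts_perm {σ : Equiv.Perm ℕ} (hσ : ∀ l, σ l < N ↔ l < N) (G : ℕ → ℕ) :
    ∑ l ∈ range N, G l = ∑ l ∈ range N, G (σ l) := by
  symm
  refine Finset.sum_bij' (fun l _ => σ l) (fun l _ => σ.symm l) ?_ ?_ ?_ ?_ ?_
  · intro l hl; rw [mem_range] at *; exact (hσ l).mpr hl
  · intro l hl; rw [mem_range] at *; rw [← hσ]; simpa using hl
  · intro l _; simp
  · intro l _; simp
  · intro l _; rfl

lemma hts_swap {k t i j : ℕ} (hi : i < N) (hj : j < N)
    (h : (i < k ↔ j < k)) (d : ℕ →₀ ℕ) : hts N k t (pm (Equiv.swap i j) d) = hts N k t d := by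
  unfold hts
  rw [hts_perm (swap_lt hi hj) (fun l => d l + (if l < k then 1 else 0) - t)]
  apply sum_congr rfl
  intro l _
  rw [pm_swap_apply]
  congr 2
  rw [Equiv.swap_apply_def]
  by_cases h1 : l = i
  · rw [if_pos h1, h1]
    by_cases h2 : i < k
    · rw [if_pos h2, if_pos (h.mp h2)]
    · rw [if_neg h2, if_neg (fun h3 => h2 (h.mpr h3))]
  · rw [if_neg h1]
    by_cases h2 : l = j
    · rw [if_pos h2, h2]
      by_cases h3 : j < k
      · rw [if_pos h3, if_pos (h.mpr h3)]
      · rw [if_neg h3, if_neg (fun h4 => h3 (h.mp h4))]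
    · rw [if_neg h2]

lemma Le.swap {Q : ℕ → Prop} {c : ℕ → ℕ} {d : ℕ →₀ ℕ} {i j : ℕ} (hi : i < N) (hj : j < N)
    (h : ∀ k, Q k → (i < k ↔ j < k)) (hd : Le N Q c d) : Le N Q c (pm (Equiv.swap i j) d) := by
  refine ⟨?_, ?_, ?_⟩
  · intro l hl
    rw [pm_swap_apply, Equiv.swap_apply_of_ne_of_ne (by omega) (by omega)]
    exact hd.out l hl
  · rw [← hd.tot]
    have := hts_swap (k := 0) (t := 0) hi hj (by simp) d
    simpa [hts] using this
  · intro k hk t
    rw [hts_swap hi hj (h k hk)]
    exact hd.sd k hk t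

omit [IsDomain R] in
lemma PSup.Asym {Q : ℕ → Prop} {c : ℕ → ℕ} {q : ℕ} (r : ℕ) (hr : q + r ≤ N)
    (h : ∀ k, Q k → k ≤ q ∨ q + r ≤ k) {f : MvPolynomial ℕ R} (hf : PSup (Le N Q c) f) :
    PSup (Le N Q c) (Asym q r f) := by
  have key : ∀ r', r' ≤ r → PSup (Le N Q c) (Jack.Asym q r' f) := by
    intro r'
    induction r' with
    | zero => intro _; exact hf
    | succ r' ih =>
      intro hr'
      rw [Asym_succ, Nn_apply]
      refine (ih (by omega)).sub (PSup.sum ?_)
      intro i hi
      rw [mem_Ico] at hi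
      refine PSup.sw ?_ (ih (by omega))
      intro d hd
      refine hd.swap (by omega) (by omega) ?_
      intro k hk
      have := h k hk
      omega
  exact key r le_rfl

lemma hts_unrot {m k t : ℕ} (hm : m < N) (hk : k ≤ m) (d : ℕ →₀ ℕ) (hdm : d m ≠ 0) :
    hts N k t d = hts N (k + 1) t (unrot m d) := by
  unfold hts
  rw [hts_perm (rot_lt hm) (fun l => d l + (if l < k then 1 else 0) - t)]
  apply sum_congr rfl
  intro l _
  rw [unrot_apply, rot_apply]
  by_cases h0 : l = 0
  · subst h0
    rw [if_pos rfl, if_pos rfl, if_neg (by omega), if_pos (by omega)]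
    omega
  · rw [if_neg h0, if_neg h0]
    by_cases h1 : l ≤ m
    · rw [if_pos h1, if_pos h1]
      by_cases h2 : l < k + 1
      · rw [if_pos h2, if_pos (by omega)]
      · rw [if_neg h2, if_neg (by omega)]
    · rw [if_neg h1, if_neg h1, if_neg (by omega), if_neg (by omega)]

lemma sum_unrot {m : ℕ} (hm : m < N) (d : ℕ →₀ ℕ) (hdm : d m ≠ 0) :
    ∑ i ∈ range N, d i = ∑ i ∈ range N, unrot m d i + 1 := by
  have h := hts_unrot (k := 0) (t := 0) hm (Nat.zero_le _) d hdm
  unfold hts at h
  simp only [Nat.not_lt_zero, if_false, add_zero, Nat.sub_zero, zero_add] at h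
  rw [h, sum_add_distrib]
  congr 1
  have h0 : 0 ∈ range N := mem_range.mpr (by omega)
  have h2 : ∑ x ∈ (range N).erase 0, (if x < 1 then 1 else 0) = 0 := by
    apply sum_eq_zero
    intro x hx
    rw [mem_erase] at hx
    rw [if_neg (by omega)]
  rw [← add_sum_erase _ _ h0, h2, if_pos (by omega)]

/-- If `c` is supported in `[0, M)` then the conditions for `k ≥ M` follow from `k = 0`. -/
lemma sd_of_zero {M k : ℕ} (hMk : M ≤ k) {c d : ℕ → ℕ} (hc : ∀ i, M ≤ i → c i = 0)
    (htot : ∑ i ∈ range N, d i = ∑ i ∈ range N, c i) (h0 : ∀ t, hts N 0 t d ≤ hts N 0 t c)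
    (t : ℕ) : hts N k t d ≤ hts N k t c := by
  rcases Nat.eq_zero_or_pos t with ht | ht
  · subst ht
    unfold hts
    simp only [Nat.sub_zero, sum_add_distrib]
    rw [htot]
  · have h1 : hts N k t d ≤ hts N 0 (t - 1) d := by
      unfold hts
      apply sum_le_sum
      intro i _
      split_ifs <;> omega
    have h2 : hts N 0 (t - 1) c = hts N k t c := by
      unfold hts
      apply sum_congr rfl
      intro i _
      by_cases hi : i < k
      · rw [if_neg (by omega), if_pos hi]; omega
      · rw [if_neg (by omega), if_neg hi, hc i (by omega)]; omega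
    rw [← h2]
    exact h1.trans (h0 _)

lemma ex_out (L : List ℕ) (i : ℕ) (hi : L.length ≤ i) : ex L i = 0 := by
  rw [ex_apply, List.getD_eq_default _ _ hi]

omit [IsDomain R] in
lemma PSup_Aop {m : ℕ} (hm : m < N) {e : ℕ →₀ ℕ} (hem : e m ≠ 0) (he : ∀ i, m + 1 ≤ i → e i = 0)
    {f : MvPolynomial ℕ R} (hf : PSup (Le N (fun _ => True) (unrot m e)) f) (y : R) :
    PSup (Le N (fun _ => True) e) (Aop N m y f) := by
  have h1 : PSup (Le N (fun k => k ≤ m) e) (Phi m f) := by
    intro d hd
    rw [coeff_Phi] at hd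
    by_cases hdm : d m = 0
    · rw [if_pos hdm] at hd; exact absurd rfl hd
    · rw [if_neg hdm] at hd
      have h := hf _ hd
      refine ⟨?_, ?_, ?_⟩
      · intro i hi
        have := h.out i hi
        rw [unrot_apply, if_neg (by omega), if_neg (by omega)] at this
        exact this
      · rw [sum_unrot hm d hdm, sum_unrot hm e hem, h.tot]
      · intro k hk t
        rw [hts_unrot hm hk d hdm, hts_unrot hm hk e hem]
        exact h.sd _ trivial t
  have h2 : PSup (Le N (fun k => k ≤ m) e) (Aop N m y f) := by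
    rw [Aop_apply]
    refine (h1.smul _).add (PSup.sum ?_)
    intro k hk
    rw [mem_Ico] at hk
    refine PSup.sw ?_ h1
    intro d hd
    exact hd.swap hm hk.2 (by intro k' hk'; omega)
  refine h2.mono ?_
  intro d hd
  refine ⟨hd.out, hd.tot, ?_⟩
  intro k _ t
  by_cases hk : k ≤ m
  · exact hd.sd k hk t
  · exact sd_of_zero (M := m + 1) (by omega) he hd.tot (hd.sd 0 (Nat.zero_le _)) t

omit [IsDomain R] in
/-- Triangularity of `Jk`. -/
theorem PSup_Jk (l : List ℕ) (hl : l.length ≤ N) :
    PSup (Le N (fun _ => True) (ex l.reverse)) (Jk N α l) := by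
  match l with
  | [] =>
    rw [Jk_nil]
    intro d hd
    rw [coeff_one] at hd
    have h0 : d = 0 := by
      by_contra h
      rw [if_neg (fun h' => h h'.symm)] at hd
      exact hd rfl
    subst h0
    refine ⟨fun i _ => rfl, ?_, ?_⟩
    · simp [ex_apply]
    · intro k _ t
      simp [hts, ex_apply]
  | 0 :: l =>
    rw [Jk_zero, List.reverse_cons, ex_append_zero]
    exact PSup_Jk l (by simp at hl; omega)
  | (t + 1) :: l =>
    rw [Jk_succ]
    have ih := PSup_Jk (l ++ [t]) (by simpa using hl)
    have hlN : l.length < N := by simp at hl; omega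
    have hrev : (l ++ [t]).reverse = t :: l.reverse := by simp
    rw [hrev] at ih
    have hex : unrot l.length (ex (l.reverse ++ [t + 1])) = ex (t :: l.reverse) := by
      have := unrot_ex l.reverse t
      rwa [List.length_reverse] at this
    rw [List.reverse_cons]
    refine PSup_Aop hlN ?_ ?_ ?_ _
    · rw [ex_apply, List.getD_append_right _ _ _ _ (by simp)]
      simp
    · intro i hi
      apply ex_out
      simp only [List.length_append, List.length_reverse, List.length_cons, List.length_nil]
      omega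
    · rw [hex]
      exact ih
termination_by l.sum + l.length
decreasing_by all_goals (simp; try omega)

end

end Pool.Agent.Helper61.Jack
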