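import Mathlib

/-!
# Combinatorial factors
-/

set_option autoImplicit false

open Finset

namespace Pool.Agent.Helper61.Jack

noncomputable section

variable {R : Type*} [CommRing R]

/-- The factor attached to a pair `b < a` of fermionic parts. -/
def cr (α : R) (a b : ℕ) (A B F : Multiset ℕ) : R :=
  ((a - b : ℕ) : R) * α + (A.countP (fun x => b ≤ x ∧ x < a) : R) +
    (B.countP (fun x => b < x ∧ x ≤ a) : R) + (F.countP (fun x => x < a) : R)

/-- The product of the factors `cr` over all pairs. -/
def PT (α : R) (A B : Multiset ℕ) : List ℕ → R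
  | [] => 1
  | b :: F => (F.map (fun a => cr α a b A B (F : Multiset ℕ))).prod * PT α A B F

lemma cr_rot (α : R) (a b t : ℕ) (A B F : Multiset ℕ) :
    cr α a b (t ::ₘ A) B F = cr α a b A ((t + 1) ::ₘ B) F := by
  unfold cr
  rw [Multiset.countP_cons, Multiset.countP_cons]
  have : (if b ≤ t ∧ t < a then 1 else 0) = (if b < t + 1 ∧ t + 1 ≤ a then 1 else 0) := by
    congr 1; apply propext; omega
  rw [this]
  push_cast
  ring

lemma PT_rot (α : R) (t : ℕ) (A B : Multiset ℕ) (F : List ℕ) :
    PT α (t ::ₘ A) B F = PT α A ((t + 1) ::ₘ B) F := by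
  induction F with
  | nil => rfl
  | cons b F ih =>
    simp only [PT, ih, cr_rot]

lemma PT_zero (α : R) (A B : Multiset ℕ) (F : List ℕ) :
    PT α A (0 ::ₘ B) F = PT α A B F := by
  induction F with
  | nil => rfl
  | cons b F ih =>
    simp only [PT, ih]
    congr 2
    apply List.map_congr_left
    intro a _
    unfold cr
    rw [Multiset.countP_cons]
    simp

lemma countP_map_succ (F : Multiset ℕ) (a : ℕ) :
    (F.map Nat.succ).countP (fun x => x < a + 1) = F.countP (fun x => x < a) := by
  rw [Multiset.countP_map]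
  rw [Multiset.countP_eq_card_filter]
  congr 1
  apply Multiset.filter_congr
  intro x _
  omega

lemma cr_shift (α : R) (a b : ℕ) (A F : Multiset ℕ) :
    cr α (a + 1) (b + 1) A 0 (F.map Nat.succ) = cr α a b 0 A F := by
  unfold cr
  rw [countP_map_succ]
  have h1 : A.countP (fun x => b + 1 ≤ x ∧ x < a + 1) = A.countP (fun x => b < x ∧ x ≤ a) := by
    apply Multiset.countP_congr rfl
    intro x _
    apply propext; omega
  rw [h1, show a + 1 - (b + 1) = a - b by omega]
  simp

lemma PT_shift (α : R) (A : Multiset ℕ) (S : List ℕ) :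
    PT α A 0 (S.map Nat.succ) = PT α 0 A S := by
  induction S with
  | nil => rfl
  | cons b F ih =>
    simp only [PT, List.map_cons, ih]
    congr 1
    rw [List.map_map]
    congr 1
    apply List.map_congr_left
    intro a _
    have := cr_shift α a b A (F : Multiset ℕ)
    rw [Multiset.map_coe] at this
    exact this

/-- Products of the factors of the successive rotations. -/
def prodc (α : R) : List ℕ → List ℕ → R
  | [], _ => 1
  | f :: F, L => (((f + 1 : ℕ) : R) * α + (L.countP (fun x => x < f + 1) : R)) *
      prodc α F (L ++ [f])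

lemma prodc_eq (α : R) : ∀ (F P A : List ℕ), F.Pairwise (· < ·) → (∀ x ∈ P, ∀ f ∈ F, x < f) →
    prodc α F (A ++ P) = (F.map (fun f => ((f + 1 : ℕ) : R) * α +
      ((A.countP (fun x => x < f + 1) : R) + (P.length : R) +
        (F.countP (fun x => x < f) : R)))).prod := by
  intro F
  induction F with
  | nil => intro P A _ _; rfl
  | cons f F ih =>
    intro P A hF hP
    rw [List.pairwise_cons] at hF
    rw [prodc, List.append_assoc, ih (P ++ [f]) A hF.2 (by
      intro x hx g hg
      rcases List.mem_append.mp hx with h | h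
      · exact hP x h g (List.mem_cons_of_mem _ hg)
      · rw [List.mem_singleton] at h; rw [h]; exact hF.1 g hg)]
    rw [List.map_cons, List.prod_cons]
    congr 1
    · have h1 : (f :: F).countP (fun x => decide (x < f)) = 0 := by
        rw [List.countP_eq_zero]
        intro x hx
        rcases List.mem_cons.mp hx with h | h
        · subst h; simp
        · have := hF.1 x h; simp only [decide_eq_true_eq]; omega
      have h2 : P.countP (fun x => decide (x < f + 1)) = P.length := by
        rw [List.countP_eq_length]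
        intro x hx
        have := hP x hx f List.mem_cons_self
        simp only [decide_eq_true_eq]; omega
      rw [List.countP_append, h1, h2]
      push_cast
      ring
    · congr 1
      apply List.map_congr_left
      intro g hg
      have h1 : (f :: F).countP (fun x => decide (x < g)) =
          F.countP (fun x => decide (x < g)) + 1 := by
        rw [List.countP_cons_of_pos]
        simpa using hF.1 g hg
      rw [h1, List.length_append]
      simp only [List.length_cons, List.length_nil]
      push_cast
      ring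

lemma prodc_eq_cr (α : R) (S A : List ℕ) (hS : S.Pairwise (· < ·)) :
    prodc α S A = ((S.map Nat.succ).map (fun a => cr α a 0 (A : Multiset ℕ) 0
      ((S.map Nat.succ : List ℕ) : Multiset ℕ))).prod := by
  have := prodc_eq α S [] A hS (by simp)
  rw [List.append_nil] at this
  rw [this, List.map_map]
  congr 1
  apply List.map_congr_left
  intro f _
  simp only [Function.comp, cr]
  have h1 : Multiset.countP (fun x => 0 ≤ x ∧ x < f.succ) (A : Multiset ℕ) =
      A.countP (fun x => x < f + 1) := by
    rw [Multiset.coe_countP]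
    apply List.countP_congr
    intro x _; simp
  have h2 : Multiset.countP (fun x => x < f.succ) ((S.map Nat.succ : List ℕ) : Multiset ℕ) =
      S.countP (fun x => x < f) := by
    have := countP_map_succ (S : Multiset ℕ) f
    rw [Multiset.map_coe, Multiset.coe_countP, Multiset.coe_countP] at this
    rw [Multiset.coe_countP]
    exact this
  rw [h1, h2]
  simp only [Nat.sub_zero, List.length_nil, Nat.cast_zero, Multiset.countP_zero, Nat.succ_eq_add_one]
  ring

/-- `α` is generic. -/
def Gen (α : R) : Prop := ∀ a b : ℕ, 0 < a → (a : R) * α + (b : R) ≠ 0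

lemma cr_ne_zero {α : R} (hα : Gen α) {a b : ℕ} (h : b < a) (A B F : Multiset ℕ) :
    cr α a b A B F ≠ 0 := by
  have := hα (a - b) (A.countP (fun x => b ≤ x ∧ x < a) + B.countP (fun x => b < x ∧ x ≤ a) +
    F.countP (fun x => x < a)) (by omega)
  unfold cr
  intro h0
  apply this
  rw [← h0]
  push_cast
  ring

lemma PT_ne_zero [IsDomain R] {α : R} (hα : Gen α) (A B : Multiset ℕ) (F : List ℕ)
    (hF : F.Pairwise (· < ·)) : PT α A B F ≠ 0 := by
  induction F with
  | nil => exact one_ne_zero
  | cons b F ih =>
    rw [List.pairwise_cons] at hF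
    rw [PT]
    refine mul_ne_zero ?_ (ih hF.2)
    apply List.prod_ne_zero
    intro h
    rw [List.mem_map] at h
    obtain ⟨a, ha, h0⟩ := h
    exact cr_ne_zero hα (hF.1 a ha) _ _ _ h0

lemma prodc_ne_zero [IsDomain R] {α : R} (hα : Gen α) (F L : List ℕ) : prodc α F L ≠ 0 := by
  induction F generalizing L with
  | nil => exact one_ne_zero
  | cons f F ih =>
    rw [prodc]
    exact mul_ne_zero (hα _ _ (by omega)) (ih _)

/-! ### Leading coefficients -/

/-- The factor of the box `j` (`0 ≤ j < x`) of a row of length `x`. -/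
def bx (α : R) (x j : ℕ) (aft bef : Multiset ℕ) : R :=
  ((x - j : ℕ) : R) * α + 1 + (bef.countP (fun y => j ≤ y ∧ y < x) : R) +
    (aft.countP (fun y => j < y ∧ y ≤ x) : R)

/-- The product over the boxes of a bosonic row. -/
def rowB (α : R) (x : ℕ) (aft bef : Multiset ℕ) : R := ∏ j ∈ range x, bx α x j aft bef

/-- The product over the boxes of a fermionic row. -/
def rowT (α : R) (T : Finset ℕ) (x : ℕ) (aft bef : Multiset ℕ) : R :=
  ∏ j ∈ (range x).filter (· ∉ T), bx α x j aft bef

/-- Bosonic rows. -/
def bos (α : R) : List ℕ → Multiset ℕ → Multiset ℕ → R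
  | [], _, _ => 1
  | x :: l, aft, rest => rowB α x aft (↑l + rest) * bos α l (x ::ₘ aft) rest

/-- Fermionic rows. -/
def fer (α : R) (T : Finset ℕ) : List ℕ → Multiset ℕ → Multiset ℕ → R
  | [], _, _ => 1
  | x :: l, aft, rest => rowT α T x aft (↑l + rest) * fer α T l (x ::ₘ aft) rest

/-- The leading coefficient. -/
def VV (α : R) (A F B : List ℕ) : R :=
  bos α B 0 (↑F + ↑A) * fer α F.toFinset F ↑B ↑A * bos α A (↑B + ↑F) 0

lemma bx_rot (α : R) (x j t : ℕ) (aft bef : Multiset ℕ) :
    bx α x j ((t + 1) ::ₘ aft) bef = bx α x j aft (t ::ₘ bef) := by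
  unfold bx
  rw [Multiset.countP_cons, Multiset.countP_cons]
  have : (if j < t + 1 ∧ t + 1 ≤ x then 1 else 0) = (if j ≤ t ∧ t < x then 1 else 0) := by
    congr 1; apply propext; omega
  rw [this]
  push_cast
  ring

lemma bx_zero (α : R) (x j : ℕ) (aft bef : Multiset ℕ) :
    bx α x j (0 ::ₘ aft) bef = bx α x j aft bef := by
  unfold bx
  rw [Multiset.countP_cons]
  simp

lemma bos_rot (α : R) (l : List ℕ) (t : ℕ) (aft rest : Multiset ℕ) :
    bos α l ((t + 1) ::ₘ aft) rest = bos α l aft (t ::ₘ rest) := by
  induction l generalizing aft with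
  | nil => rfl
  | cons x l ih =>
    simp only [bos, rowB]
    rw [Multiset.cons_swap, ih]
    congr 1
    apply prod_congr rfl
    intro j _
    rw [bx_rot, Multiset.add_cons]

lemma fer_rot (α : R) (T : Finset ℕ) (l : List ℕ) (t : ℕ) (aft rest : Multiset ℕ) :
    fer α T l ((t + 1) ::ₘ aft) rest = fer α T l aft (t ::ₘ rest) := by
  induction l generalizing aft with
  | nil => rfl
  | cons x l ih =>
    simp only [fer, rowT]
    rw [Multiset.cons_swap, ih]
    congr 1
    apply prod_congr rfl
    intro j _
    rw [bx_rot, Multiset.add_cons]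

lemma bos_zero (α : R) (l : List ℕ) (aft rest : Multiset ℕ) :
    bos α l (0 ::ₘ aft) rest = bos α l aft rest := by
  induction l generalizing aft with
  | nil => rfl
  | cons x l ih =>
    simp only [bos, rowB]
    rw [Multiset.cons_swap, ih]
    congr 1
    apply prod_congr rfl
    intro j _
    rw [bx_zero]

lemma fer_zero (α : R) (T : Finset ℕ) (l : List ℕ) (aft rest : Multiset ℕ) :
    fer α T l (0 ::ₘ aft) rest = fer α T l aft rest := by
  induction l generalizing aft with
  | nil => rfl
  | cons x l ih =>
    simp only [fer, rowT]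
    rw [Multiset.cons_swap, ih]
    congr 1
    apply prod_congr rfl
    intro j _
    rw [bx_zero]

lemma bos_append (α : R) (l : List ℕ) (t : ℕ) (aft rest : Multiset ℕ) :
    bos α (l ++ [t]) aft rest = bos α l aft (t ::ₘ rest) * rowB α t (↑l + aft) rest := by
  induction l generalizing aft with
  | nil => simp [bos]
  | cons x l ih =>
    rw [List.cons_append, bos, bos, ih, mul_assoc]
    have h1 : ((l ++ [t] : List ℕ) : Multiset ℕ) + rest = ↑l + t ::ₘ rest := by
      rw [← Multiset.coe_add, add_assoc, Multiset.coe_singleton, Multiset.singleton_add]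
    have h2 : (↑l : Multiset ℕ) + x ::ₘ aft = ↑(x :: l) + aft := by
      rw [Multiset.add_cons, ← Multiset.cons_coe, Multiset.cons_add]
    rw [h1, h2]

/-- The leading factor of a rotation. -/
lemma rowB_succ (α : R) (t : ℕ) (M : Multiset ℕ) :
    rowB α (t + 1) 0 M = (((t + 1 : ℕ) : R) * α + 1 + (M.countP (fun y => y < t + 1) : R)) *
      rowB α t M 0 := by
  unfold rowB
  rw [prod_range_succ', mul_comm]
  congr 1
  · unfold bx
    simp
  · apply prod_congr rfl
    intro j _
    unfold bx
    have h : M.countP (fun y => j + 1 ≤ y ∧ y < t + 1) = M.countP (fun y => j < y ∧ y ≤ t) := by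
      apply Multiset.countP_congr rfl
      intro x _
      apply propext; omega
    rw [h, show t + 1 - (j + 1) = t - j by omega]
    simp

/-- (c) -/
lemma VV_rot (α : R) (A F B : List ℕ) (t : ℕ) :
    VV α A F ((t + 1) :: B) = (((t + 1 : ℕ) : R) * α + 1 +
      ((B ++ F ++ A).countP (fun y => y < t + 1) : R)) * VV α (A ++ [t]) F B := by
  unfold VV
  rw [bos, rowB_succ]
  have h1 : bos α B ((t + 1) ::ₘ 0) (↑F + ↑A) = bos α B 0 (↑F + ↑(A ++ [t])) := by
    rw [bos_rot]
    congr 1
    rw [← Multiset.coe_add A, ← add_assoc, Multiset.coe_singleton,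
      add_comm ((F : Multiset ℕ) + (A : Multiset ℕ)), Multiset.singleton_add]
  have h2 : fer α F.toFinset F ↑((t + 1) :: B) ↑A = fer α F.toFinset F ↑B ↑(A ++ [t]) := by
    rw [← Multiset.cons_coe, fer_rot]
    congr 1
    rw [← Multiset.coe_add A, add_comm, Multiset.coe_singleton, Multiset.singleton_add]
  have h3 : bos α A (↑((t + 1) :: B) + ↑F) 0 * rowB α t (↑B + (↑F + ↑A)) 0 =
      bos α (A ++ [t]) (↑B + ↑F) 0 := by
    rw [bos_append, ← Multiset.cons_coe, Multiset.cons_add, bos_rot]
    congr 2
    rw [← add_assoc, add_comm]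
  have h4 : Multiset.countP (fun y => y < t + 1) (↑B + (↑F + ↑A) : Multiset ℕ) =
      (B ++ F ++ A).countP (fun y => y < t + 1) := by
    rw [← add_assoc, Multiset.coe_add, Multiset.coe_add, Multiset.coe_countP]
  rw [h1, h2, ← h3, h4]
  ring

/-- (d) -/
lemma VV_zero (α : R) (A F B : List ℕ) : VV α A F (0 :: B) = VV α A F B := by
  unfold VV
  rw [bos, bos_zero, ← Multiset.cons_coe, fer_zero, Multiset.cons_add, bos_zero]
  simp [rowB]

lemma bos_shift (α : R) (A S : List ℕ) (aft : Multiset ℕ) :
    bos α A (↑(S.map Nat.succ) + aft) 0 = bos α A aft ↑S := by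
  induction S generalizing aft with
  | nil =>
    rw [List.map_nil, Multiset.coe_nil, zero_add]
  | cons s S ih =>
    have h : (↑(S.map Nat.succ) : Multiset ℕ) + (s + 1) ::ₘ aft =
        ↑((s :: S).map Nat.succ) + aft := by
      rw [Multiset.add_cons, List.map_cons, ← Multiset.cons_coe, Multiset.cons_add]
    rw [← h, ih, bos_rot, Multiset.cons_coe]

lemma bx_shift (α : R) (x j : ℕ) (aft bef A : Multiset ℕ) :
    bx α (x + 1) (j + 1) (aft.map Nat.succ) (bef.map Nat.succ + A) =
      bx α x j (aft + A) bef := by
  unfold bx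
  rw [Multiset.countP_add, Multiset.countP_add, Multiset.countP_map, Multiset.countP_map]
  have h1 : (Multiset.filter (fun a => j + 1 ≤ a.succ ∧ a.succ < x + 1) bef).card =
      bef.countP (fun y => j ≤ y ∧ y < x) := by
    rw [Multiset.countP_eq_card_filter]
    congr 1
    apply Multiset.filter_congr
    intro y _
    omega
  have h2 : (Multiset.filter (fun a => j + 1 < a.succ ∧ a.succ ≤ x + 1) aft).card =
      aft.countP (fun y => j < y ∧ y ≤ x) := by
    rw [Multiset.countP_eq_card_filter]
    congr 1
    apply Multiset.filter_congr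
    intro y _
    omega
  have h3 : A.countP (fun y => j + 1 ≤ y ∧ y < x + 1) = A.countP (fun y => j < y ∧ y ≤ x) := by
    apply Multiset.countP_congr rfl
    intro y _
    apply propext; omega
  rw [h1, h2, h3, show x + 1 - (j + 1) = x - j by omega]
  push_cast
  ring

/-- Shifting a fermionic row when `0 ∈ T`. -/
lemma rowT_shift_zero (α : R) (T : Finset ℕ) (x : ℕ) (aft bef A : Multiset ℕ) :
    rowT α (insert 0 (T.image Nat.succ)) (x + 1) (aft.map Nat.succ) (bef.map Nat.succ + A) =
      rowT α T x (aft + A) bef := by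
  unfold rowT
  symm
  refine Finset.prod_bij (fun j _ => j + 1) ?_ ?_ ?_ ?_
  · intro j hj
    rw [mem_filter, mem_range] at *
    refine ⟨by omega, ?_⟩
    rw [mem_insert, mem_image]
    rintro (h | ⟨y, hy, h⟩)
    · omega
    · have : y = j := by omega
      rw [this] at hy
      exact hj.2 hy
  · intro a _ b _ h; omega
  · intro j hj
    rw [mem_filter, mem_range, mem_insert, mem_image] at hj
    push Not at hj
    refine ⟨j - 1, ?_, by have := hj.2.1; omega⟩
    rw [mem_filter, mem_range]
    refine ⟨by have := hj.2.1; omega, fun h => ?_⟩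
    exact hj.2.2 (j - 1) h (by have := hj.2.1; omega)
  · intro j _
    rw [bx_shift]

/-- Shifting a fermionic row when `0 ∉ T`. -/
lemma rowT_shift (α : R) (T : Finset ℕ) (x : ℕ) (aft bef A : Multiset ℕ) :
    rowT α (T.image Nat.succ) (x + 1) (aft.map Nat.succ) (bef.map Nat.succ + A) =
      bx α (x + 1) 0 (aft.map Nat.succ) (bef.map Nat.succ + A) * rowT α T x (aft + A) bef := by
  rw [← rowT_shift_zero]
  unfold rowT
  have : (range (x + 1)).filter (· ∉ T.image Nat.succ) =
      insert 0 ((range (x + 1)).filter (· ∉ insert 0 (T.image Nat.succ))) := by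
    ext j
    simp only [mem_filter, mem_range, mem_insert, mem_image]
    constructor
    · rintro ⟨h1, h2⟩
      by_cases h0 : j = 0
      · left; exact h0
      · right
        refine ⟨h1, ?_⟩
        rintro (h | h)
        · exact h0 h
        · exact h2 h
    · rintro (h | ⟨h1, h2⟩)
      · subst h
        refine ⟨by omega, ?_⟩
        rintro ⟨y, _, hy⟩
        omega
      · exact ⟨h1, fun h => h2 (Or.inr h)⟩
  rw [this, prod_insert (by simp)]

lemma fer_shift_zero (α : R) (T : Finset ℕ) (l : List ℕ) (aft A : Multiset ℕ) :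
    fer α (insert 0 (T.image Nat.succ)) (l.map Nat.succ) (aft.map Nat.succ) A =
      fer α T l (aft + A) 0 := by
  induction l generalizing aft with
  | nil => rfl
  | cons x l ih =>
    rw [List.map_cons, fer, fer]
    have h1 := rowT_shift_zero α T x aft (l : Multiset ℕ) A
    rw [Multiset.map_coe] at h1
    have h2 := ih (x ::ₘ aft)
    rw [Multiset.map_cons] at h2
    rw [show Nat.succ x = x + 1 from rfl] at *
    rw [h1, h2, Multiset.cons_add, add_zero]

/-- The product of the first-column factors. -/
def col (α : R) : List ℕ → Multiset ℕ → Multiset ℕ → R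
  | [], _, _ => 1
  | x :: l, aft, A => bx α (x + 1) 0 (aft.map Nat.succ) (↑(l.map Nat.succ) + A) *
      col α l (x ::ₘ aft) A

lemma fer_shift (α : R) (T : Finset ℕ) (l : List ℕ) (aft A : Multiset ℕ) :
    fer α (T.image Nat.succ) (l.map Nat.succ) (aft.map Nat.succ) A =
      col α l aft A * fer α T l (aft + A) 0 := by
  induction l generalizing aft with
  | nil => simp [fer, col]
  | cons x l ih =>
    rw [List.map_cons, fer, fer, col]
    have h1 := rowT_shift α T x aft (l : Multiset ℕ) A
    rw [Multiset.map_coe] at h1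
    have h2 := ih (x ::ₘ aft)
    rw [Multiset.map_cons] at h2
    rw [show Nat.succ x = x + 1 from rfl] at *
    rw [h1, h2, Multiset.cons_add, add_zero]
    ring

/-- (a) -/
lemma VV_shift_zero (α : R) (A S : List ℕ) :
    VV α A (0 :: S.map Nat.succ) [] = VV α [] S A := by
  unfold VV
  have h1 : (0 :: S.map Nat.succ).toFinset = insert 0 (S.toFinset.image Nat.succ) := by
    ext x
    simp
  rw [h1]
  simp only [bos, fer, one_mul, mul_one, Multiset.coe_nil, add_zero, zero_add]
  have h2 : rowT α (insert 0 (S.toFinset.image Nat.succ)) 0 0 (↑(S.map Nat.succ) + ↑A) = 1 := by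
    simp [rowT]
  rw [h2, one_mul, fer_zero]
  have h3 := fer_shift_zero α S.toFinset S 0 (A : Multiset ℕ)
  rw [Multiset.map_zero, zero_add] at h3
  rw [h3, ← Multiset.cons_coe, bos_zero]
  have h4 := bos_shift α A S 0
  rw [add_zero] at h4
  rw [h4, mul_comm]

/-- (b) -/
lemma VV_shift (α : R) (A S : List ℕ) :
    VV α A (S.map Nat.succ) [] = col α S 0 ↑A * VV α [] S A := by
  unfold VV
  have h1 : (S.map Nat.succ).toFinset = S.toFinset.image Nat.succ := by
    ext x
    simp
  rw [h1]
  simp only [bos, one_mul, mul_one, Multiset.coe_nil, add_zero, zero_add]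
  have h3 := fer_shift α S.toFinset S 0 (A : Multiset ℕ)
  rw [Multiset.map_zero, zero_add] at h3
  rw [h3]
  have h4 := bos_shift α A S 0
  rw [add_zero] at h4
  rw [h4]
  ring

end

end Pool.Agent.Helper61.Jack
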