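import Pool.Agent.Helper61.Jack.A3
import Pool.Agent.Helper61.Jack.A5
import Pool.Agent.Helper61.Jack.A6

/-!
# Divisibility of the antisymmetrised nonsymmetric Jack polynomials
-/

set_option autoImplicit false

open MvPolynomial Finset

namespace Pool.Agent.Helper61.Jack

noncomputable section

variable {R : Type*} [CommRing R] [IsDomain R] {N : ℕ} {α : R}

/-! ### Iterated rotation -/

/-- Iterates of `Phi m`. -/
def PhiI (m : ℕ) : ℕ → (MvPolynomial ℕ R →ₗ[R] MvPolynomial ℕ R)
  | 0 => LinearMap.id
  | j + 1 => (PhiI m j).comp (Phi m)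

omit [IsDomain R] in
@[simp] lemma PhiI_zero (m : ℕ) (f : MvPolynomial ℕ R) : PhiI m 0 f = f := rfl

omit [IsDomain R] in
lemma PhiI_succ (m j : ℕ) (f : MvPolynomial ℕ R) : PhiI m (j + 1) f = PhiI m j (Phi m f) := rfl

omit [IsDomain R] in
lemma PhiI_succ' (m j : ℕ) (f : MvPolynomial ℕ R) : PhiI m (j + 1) f = Phi m (PhiI m j f) := by
  induction j generalizing f with
  | zero => rfl
  | succ j ih => rw [PhiI_succ, ih, ← PhiI_succ]

omit [IsDomain R] in
lemma Phi_sw {m a b : ℕ} (ha : a ≠ 0) (ham : a ≤ m) (hb : m < b) (f : MvPolynomial ℕ R) :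
    Phi m (sw a b f) = sw (a - 1) b (Phi m f) := by
  obtain ⟨a', rfl⟩ : ∃ a', a = a' + 1 := ⟨a - 1, by omega⟩
  rw [Phi_apply, Phi_apply, map_mul, rename_X, act_sw, rot_succ (by omega), rot_gt hb,
    Nat.add_sub_cancel, Equiv.swap_apply_of_ne_of_ne (by omega) (by omega)]

omit [IsDomain R] in
lemma PhiI_sw {m b : ℕ} (hb : m < b) (j : ℕ) : ∀ a, j ≤ a → a ≤ m → ∀ f : MvPolynomial ℕ R,
    PhiI m j (sw a b f) = sw (a - j) b (PhiI m j f) := by
  induction j with
  | zero => intro a _ _ f; rfl
  | succ j ih =>
    intro a ha ham f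
    rw [PhiI_succ, Phi_sw (by omega) ham hb, ih (a - 1) (by omega) (by omega), PhiI_succ]
    congr 2
    omega

lemma rot_pow {m : ℕ} (j : ℕ) (hj : j ≤ m + 1) : ∀ i, i ≤ m →
    ((rot m) ^ j) i = if j ≤ i then i - j else m + 1 + i - j := by
  induction j with
  | zero => intro i _; simp
  | succ j ih =>
    intro i hi
    rw [pow_succ', Equiv.Perm.mul_apply, ih (by omega) i hi]
    by_cases h : j ≤ i
    · rw [if_pos h]
      by_cases h2 : j = i
      · subst h2
        rw [Nat.sub_self, rot_zero, if_neg (by omega)]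
        omega
      · rw [if_pos (by omega), rot_apply, if_neg (by omega), if_pos (by omega)]
        omega
    · rw [if_neg h, if_neg (by omega), rot_apply, if_neg (by omega), if_pos (by omega)]
      omega

omit [IsDomain R] in
lemma PhiI_eq (m j : ℕ) (hj : j ≤ m + 1) (f : MvPolynomial ℕ R) :
    PhiI m j f = (∏ i ∈ Ico (m + 1 - j) (m + 1), X i) * act ((rot m) ^ j) f := by
  induction j generalizing f with
  | zero => simp
  | succ j ih =>
    rw [PhiI_succ, ih (by omega), Phi_apply, map_mul, rename_X, rot_pow j (by omega) m le_rfl,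
      if_pos (by omega), act_act, ← pow_succ, ← mul_assoc]
    congr 1
    rw [show m + 1 - j = m + 1 - (j + 1) + 1 by omega]
    rw [show (m - j) = m + 1 - (j + 1) by omega]
    rw [Finset.prod_eq_prod_Ico_succ_bot (show m + 1 - (j + 1) < m + 1 by omega), mul_comm]

omit [IsDomain R] in
lemma PhiI_sw_block {m q r a b : ℕ} (hqr : q + r = m + 1) (ha : a < r) (hb : b < r)
    (f : MvPolynomial ℕ R) :
    PhiI m r (sw (0 + a) (0 + b) f) = sw (q + a) (q + b) (PhiI m r f) := by
  rw [PhiI_eq m r (by omega), PhiI_eq m r (by omega), act_sw, zero_add, zero_add,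
    rot_pow r (by omega) a (by omega), rot_pow r (by omega) b (by omega), if_neg (by omega),
    if_neg (by omega), show m + 1 + a - r = q + a by omega, show m + 1 + b - r = q + b by omega,
    map_mul, map_prod]
  congr 1
  refine Finset.prod_bij' (fun k _ => Equiv.swap (q + a) (q + b) k)
    (fun k _ => Equiv.swap (q + a) (q + b) k) ?_ ?_ ?_ ?_ ?_
  · intro k hk
    rw [mem_Ico] at *
    rw [Equiv.swap_apply_def]; split_ifs <;> omega
  · intro k hk
    rw [mem_Ico] at *
    rw [Equiv.swap_apply_def]; split_ifs <;> omega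
  · intro k _; simp
  · intro k _; simp
  · intro k _
    rw [rename_X, Equiv.swap_apply_self]

omit [IsDomain R] in
lemma coeff_PhiI_zero {m q r i : ℕ} (hqr : q + r = m + 1) (hi : q ≤ i) (hi' : i < q + r)
    (f : MvPolynomial ℕ R) (d : ℕ →₀ ℕ) (hd : d i = 0) : coeff d (PhiI m r f) = 0 := by
  rw [PhiI_eq m r (by omega)]
  have hmem : i ∈ Ico (m + 1 - r) (m + 1) := by rw [mem_Ico]; omega
  rw [← mul_prod_erase _ _ hmem, mul_assoc, coeff_X_mul', if_neg (by simpa using hd)]

omit [IsDomain R] in
lemma coeff_PhiI {m : ℕ} (T : List ℕ) : ∀ (A : List ℕ), A.length + T.length = m + 1 →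
    ∀ f : MvPolynomial ℕ R, coeff (ex (A ++ T.map Nat.succ)) (PhiI m T.length f) =
      coeff (ex (T ++ A)) f := by
  induction T using List.reverseRecOn with
  | nil => intro A _ f; simp
  | append_singleton T t ih =>
    intro A hA f
    rw [List.length_append, List.length_singleton, PhiI_succ', coeff_Phi]
    have hlen : (A ++ T.map Nat.succ).length = m := by
      simp at hA ⊢; omega
    have h1 : A ++ (T ++ [t]).map Nat.succ = (A ++ T.map Nat.succ) ++ [t + 1] := by
      simp
    have h2 : ex (A ++ (T ++ [t]).map Nat.succ) m ≠ 0 := by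
      rw [h1, ex_apply, List.getD_append_right _ _ _ _ (by omega), hlen]
      simp
    rw [if_neg h2, h1]
    have h3 := unrot_ex (A ++ T.map Nat.succ) t
    rw [hlen] at h3
    rw [h3]
    have h4 := ih (t :: A) (by simp at hA ⊢; omega) f
    rw [List.cons_append] at h4
    rw [h4]
    simp

/-! ### The factor of a rotation after antisymmetrisation -/

lemma Asym_PhiI_Aop [CharZero R] {q r m j : ℕ} (hqr : q + r = m + 1) (hm : m + 1 < N)
    (hj : q + j ≤ m) {g : MvPolynomial ℕ R} (hg : BSym (m + 1) N g) (y : R) :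
    Asym q (r + 1) (PhiI m j (Aop N m y g)) =
      (y + (m : R)) • Asym q (r + 1) (PhiI m (j + 1) g) := by
  have hh := hg.Phi
  set h := Phi m g with hdef
  rw [Aop_apply, ← hdef, map_add, map_add, map_smul, map_smul, map_sum, map_sum, PhiI_succ,
    ← hdef]
  have hmem : m + 1 ∈ Ico (m + 1) N := mem_Ico.mpr ⟨le_rfl, hm⟩
  rw [← add_sum_erase _ _ hmem]
  have h1 : Asym q (r + 1) (PhiI m j (sw m (m + 1) h)) = -Asym q (r + 1) (PhiI m j h) := by
    rw [PhiI_sw (by omega) j m (by omega) le_rfl]
    exact Asym_sw q (r + 1) _ _ (by omega) (by omega) (by omega) (by omega) (by omega) _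
  have h2 : ∀ k ∈ (Ico (m + 1) N).erase (m + 1),
      Asym q (r + 1) (PhiI m j (sw m k h)) = 0 := by
    intro k hk
    rw [mem_erase, mem_Ico] at hk
    refine Asym_eq_zero (i := m - j) (j := m + 1) (by omega) (by omega) (by omega) (by omega)
      (by omega) ?_
    rw [← PhiI_sw (by omega) j m (by omega) le_rfl]
    congr 1
    rw [act_sw (Equiv.swap m (m + 1)) m k, Equiv.swap_apply_left,
      Equiv.swap_apply_of_ne_of_ne (by omega) (by omega)]
    exact sw_sw_of_BSym hh (by omega) hk.2.2 (by omega) hm
  rw [h1, sum_congr rfl h2, sum_const_zero]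
  push_cast
  module

omit [IsDomain R] in
lemma evH_add {F L : List ℕ} {f m : ℕ} (hF : ∀ x ∈ F, f < x) (hlen : F.length + L.length = m) :
    evH α (f + 1) (F.map Nat.succ ++ L) + (m : R) =
      ((f + 1 : ℕ) : R) * α + (L.countP (fun x => x < f + 1) : R) := by
  unfold evH
  rw [List.countP_append]
  have h1 : (F.map Nat.succ).countP (fun x => decide (f + 1 ≤ x)) = F.length := by
    rw [List.countP_map]
    rw [List.countP_eq_length]
    intro x hx
    have := hF x hx
    simp only [Function.comp, decide_eq_true_eq]; omega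
  have h2 : L.length = L.countP (fun x => decide (f + 1 ≤ x)) +
      L.countP (fun x => decide (x < f + 1)) := by
    rw [List.length_eq_countP_add_countP (fun x => decide (f + 1 ≤ x))]
    congr 1
    apply List.countP_congr
    intro x _
    simp
  rw [h1, ← hlen]
  have h3 : (L.length : R) = (L.countP (fun x => decide (f + 1 ≤ x)) : R) +
      (L.countP (fun x => decide (x < f + 1)) : R) := by
    rw [← Nat.cast_add, ← h2]
  push_cast
  rw [h3]
  ring

lemma Asym_multi [CharZero R] {q r m : ℕ} (hqr : q + r = m + 1) (hm : m + 1 < N) :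
    ∀ (F L : List ℕ) (j : ℕ), F.Pairwise (· < ·) → F.length + L.length = m + 1 →
      q + j + F.length ≤ m + 1 →
      Asym q (r + 1) (PhiI m j (Jk N α (F.map Nat.succ ++ L))) =
        prodc α F L • Asym q (r + 1) (PhiI m (j + F.length) (Jk N α (L ++ F))) := by
  intro F
  induction F with
  | nil =>
    intro L j _ _ _
    simp [prodc]
  | cons f F ih =>
    intro L j hF hlen hj
    rw [List.pairwise_cons] at hF
    rw [List.length_cons] at hlen hj
    have hlen' : (F.map Nat.succ ++ L).length = m := by
      simp only [List.length_append, List.length_map]; omega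
    rw [List.map_cons, List.cons_append, Nat.succ_eq_add_one, Jk_succ, hlen']
    have hB : BSym (m + 1) N (Jk N α (F.map Nat.succ ++ L ++ [f])) := by
      have := (isE_Jk (N := N) (α := α) (F.map Nat.succ ++ L ++ [f]) (by
        rw [List.length_append, hlen', List.length_singleton]; omega)).sym
      rwa [List.length_append, hlen', List.length_singleton] at this
    rw [Asym_PhiI_Aop (j := j) hqr hm (by omega) hB, evH_add (m := m) hF.1 (by omega), List.append_assoc,
      ih (L ++ [f]) (j + 1) hF.2
        (by rw [List.length_append, List.length_singleton]; omega) (by omega), smul_smul, prodc]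
    have e1 : j + 1 + F.length = j + (f :: F).length := by rw [List.length_cons]; omega
    have e2 : L ++ [f] ++ F = L ++ f :: F := by simp
    rw [e1, e2]

/-- The key reduction. -/
lemma Asym_reduce [CharZero R] (A S : List ℕ) (hS : S.Pairwise (· < ·))
    (hN : A.length + S.length < N) :
    Asym A.length (S.length + 1) (Jk N α (S.map Nat.succ ++ A)) =
      prodc α S A • Nn A.length S.length
        (PhiI (A.length + S.length - 1) S.length (Asym 0 S.length (Jk N α (A ++ S)))) := by
  rcases Nat.eq_zero_or_pos S.length with h0 | h0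
  · have : S = [] := List.eq_nil_of_length_eq_zero h0
    subst this
    simp only [List.length_nil, List.map_nil, List.nil_append, List.append_nil, prodc, one_smul,
      Asym_zero, PhiI_zero]
    rfl
  · set m := A.length + S.length - 1 with hm
    have hqr : A.length + S.length = m + 1 := by omega
    have h1 := Asym_multi (N := N) (α := α) (q := A.length) (r := S.length) hqr (by omega) S A 0 hS
      (by omega) (by omega)
    rw [PhiI_zero, zero_add] at h1
    rw [h1, Asym_succ]
    congr 2
    exact (Asym_intertwine (PhiI m S.length) 0 A.length S.length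
      (fun a b ha hb f => PhiI_sw_block hqr ha hb f) _).symm

end

end Pool.Agent.Helper61.Jack
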