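import Pool.Agent.Helper61.Jack.A3
import Pool.Agent.Helper61.Jack.A5

/-!
# The divisibility theorem
-/

set_option autoImplicit false

open MvPolynomial Finset

namespace Pool.Agent.Helper61.Jack

noncomputable section

variable {R : Type*} [CommRing R]

/-- Auxiliary product. -/
def prodG (α c : R) (A : List ℕ) : List ℕ → ℕ → R
  | [], _ => 1
  | f :: F, p => (((f + 1 : ℕ) : R) * α + (A.countP (fun x => x < f + 1) : R) + (p : R) + c) *
      prodG α c A F (p + 1)

lemma prodc_eq_prodG (α : R) (A : List ℕ) : ∀ (F P : List ℕ), F.Pairwise (· < ·) →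
    (∀ x ∈ P, ∀ f ∈ F, x < f) → prodc α F (A ++ P) = prodG α 0 A F P.length := by
  intro F
  induction F with
  | nil => intro P _ _; rfl
  | cons f F ih =>
    intro P hF hP
    rw [List.pairwise_cons] at hF
    rw [prodc, prodG, List.append_assoc, ih (P ++ [f]) hF.2 (by
      intro x hx g hg
      rcases List.mem_append.mp hx with h | h
      · exact hP x h g (List.mem_cons_of_mem _ hg)
      · rw [List.mem_singleton] at h; rw [h]; exact hF.1 g hg)]
    have h2 : P.countP (fun x => decide (x < f + 1)) = P.length := by
      rw [List.countP_eq_length]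
      intro x hx
      have := hP x hx f List.mem_cons_self
      simp only [decide_eq_true_eq]; omega
    rw [List.countP_append, h2, List.length_append, List.length_singleton]
    push_cast
    ring

lemma col_eq_prodG (α : R) (A : List ℕ) : ∀ (F : List ℕ) (aft : Multiset ℕ),
    F.Pairwise (· < ·) → (∀ x ∈ aft, ∀ f ∈ F, x < f) →
      col α F aft ↑A = prodG α 1 A F (Multiset.card aft) := by
  intro F
  induction F with
  | nil => intro aft _ _; rfl
  | cons f F ih =>
    intro aft hF hP
    rw [List.pairwise_cons] at hF
    rw [col, prodG, ih (f ::ₘ aft) hF.2 (by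
      intro x hx g hg
      rcases Multiset.mem_cons.mp hx with h | h
      · rw [h]; exact hF.1 g hg
      · exact hP x h g (List.mem_cons_of_mem _ hg)), Multiset.card_cons]
    congr 1
    unfold bx
    have h1 : (aft.map Nat.succ).countP (fun y => 0 < y ∧ y ≤ f + 1) = Multiset.card aft := by
      rw [← Multiset.card_map Nat.succ aft, Multiset.countP_eq_card]
      intro y hy
      rw [Multiset.mem_map] at hy
      obtain ⟨x, hx, rfl⟩ := hy
      have := hP x hx f List.mem_cons_self
      omega
    have h2 : (↑(F.map Nat.succ) + (A : Multiset ℕ)).countP (fun y => 0 ≤ y ∧ y < f + 1) =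
        A.countP (fun x => x < f + 1) := by
      rw [Multiset.countP_add, Multiset.coe_countP, Multiset.coe_countP]
      have : (F.map Nat.succ).countP (fun b => decide (0 ≤ b ∧ b < f + 1)) = 0 := by
        rw [List.countP_eq_zero]
        intro y hy
        rw [List.mem_map] at hy
        obtain ⟨x, hx, rfl⟩ := hy
        have := hF.1 x hx
        simp only [decide_eq_true_eq]; omega
      rw [this, zero_add]
      apply List.countP_congr
      intro x _; simp
    rw [h1, h2]
    simp only [Nat.sub_zero]
    ring

lemma prodG_eq (α c : R) (A : List ℕ) : ∀ (F : List ℕ) (p : ℕ), prodG α c A F p =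
    ∏ i ∈ range F.length, (((F.reverse.getD i 0 + 1 : ℕ) : R) * α +
      (A.countP (fun x => x < F.reverse.getD i 0 + 1) : R) +
        ((F.length - 1 - i + p : ℕ) : R) + c) := by
  intro F
  induction F with
  | nil => intro p; rfl
  | cons f F ih =>
    intro p
    rw [prodG, ih, List.length_cons, prod_range_succ, mul_comm]
    congr 1
    · apply prod_congr rfl
      intro i hi
      rw [mem_range] at hi
      have h1 : (f :: F).reverse.getD i 0 = F.reverse.getD i 0 := by
        rw [List.reverse_cons, List.getD_append _ _ _ _ (by simpa using hi)]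
      rw [h1, show F.length - 1 - i + (p + 1) = F.length + 1 - 1 - i + p by omega]
    · have h1 : (f :: F).reverse.getD F.length 0 = f := by
        rw [List.reverse_cons, List.getD_append_right _ _ _ _ (by simp)]
        simp
      rw [h1, show F.length + 1 - 1 - F.length + p = p by omega]

/-! ### Spectral values of the sorted block -/

lemma countP_take_getD (L : List ℕ) (v : ℕ) : ∀ n, n ≤ L.length →
    ((range n).filter (fun j => v ≤ L.getD j 0)).card = (L.take n).countP (v ≤ ·) := by
  intro n
  induction n with
  | zero => intro _; simp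
  | succ n ih =>
    intro hn
    rw [range_add_one, filter_insert, List.take_add_one, List.countP_append]
    have h1 : L.getD n 0 = L[n] := by
      rw [List.getD_eq_getElem (l := L) _ (by omega)]
    have h2 : L[n]? = some L[n] := List.getElem?_eq_getElem (by omega)
    rw [h2, h1, ← ih (by omega)]
    by_cases h : v ≤ L[n]
    · rw [if_pos h, card_insert_of_notMem (by simp)]
      simp [h]
    · rw [if_neg h]
      simp [h]

lemma dec_lt {T : List ℕ} (hT : T.Pairwise (· > ·)) {i j : ℕ} (hij : i < j) (hj : j < T.length) :
    T.getD j 0 < T.getD i 0 := by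
  rw [List.getD_eq_getElem _ _ hj, List.getD_eq_getElem _ _ (show i < T.length by omega)]
  exact List.pairwise_iff_getElem.mp hT i j (by omega) hj hij

lemma getD_map_succ {T : List ℕ} {i : ℕ} (hi : i < T.length) :
    (T.map Nat.succ).getD i 0 = T.getD i 0 + 1 := by
  rw [List.getD_eq_getElem _ _ (by simpa using hi), List.getD_eq_getElem _ _ hi]
  simp

lemma countP_take_dec {T : List ℕ} (hT : T.Pairwise (· > ·)) {i : ℕ} (hi : i < T.length) :
    ((T.map Nat.succ).take i).countP (fun x => decide (T.getD i 0 + 1 ≤ x)) = i := by
  have : i = ((T.map Nat.succ).take i).length := by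
    rw [List.length_take, List.length_map]; omega
  conv_rhs => rw [this]
  rw [List.countP_eq_length]
  intro x hx
  rw [List.mem_take_iff_getElem] at hx
  obtain ⟨k, hk, rfl⟩ := hx
  rw [List.length_map] at hk
  have h1 := dec_lt hT (i := k) (j := i) (by omega) hi
  rw [List.getD_eq_getElem (l := T) (n := k) _ (by omega)] at h1
  simp only [List.getElem_map, decide_eq_true_eq, Nat.succ_eq_add_one]
  omega

lemma countP_drop_dec {T : List ℕ} (hT : T.Pairwise (· > ·)) {i : ℕ} (hi : i < T.length) :
    ((T.map Nat.succ).drop (i + 1)).countP (fun x => decide (T.getD i 0 + 1 < x)) = 0 := by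
  rw [List.countP_eq_zero]
  intro x hx
  rw [List.mem_drop_iff_getElem] at hx
  obtain ⟨k, hk, rfl⟩ := hx
  rw [List.length_map] at hk
  have h1 := dec_lt hT (i := i) (j := i + 1 + k) (by omega) (by omega)
  rw [List.getD_eq_getElem (l := T) (n := i + 1 + k) _ (by omega)] at h1
  simp only [List.getElem_map, decide_eq_true_eq, Nat.succ_eq_add_one]
  omega

lemma getD_block {A' T : List ℕ} {i : ℕ} (hi : i < T.length) :
    (A' ++ T.map Nat.succ).getD (A'.length + i) 0 = T.getD i 0 + 1 := by
  rw [List.getD_append_right _ _ _ _ (by omega), Nat.add_sub_cancel_left, getD_map_succ hi]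

lemma count_block {A' T : List ℕ} (hT : T.Pairwise (· > ·)) {i : ℕ} (hi : i < T.length) :
    ((A' ++ T.map Nat.succ).take (A'.length + i)).countP
      (fun x => decide (T.getD i 0 + 1 ≤ x)) =
      A'.countP (fun x => decide (T.getD i 0 + 1 ≤ x)) + i := by
  rw [List.take_length_add_append, List.countP_append, countP_take_dec hT hi]

lemma evL_block (α : R) {A' T : List ℕ} (hT : T.Pairwise (· > ·)) {i : ℕ} (hi : i < T.length) :
    evL α (A' ++ T.map Nat.succ) (A'.length + i) = ((T.getD i 0 + 1 : ℕ) : R) * α -
      ((A'.countP (fun x => decide (T.getD i 0 + 1 ≤ x)) : ℕ) : R) - (i : R) := by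
  unfold evL
  rw [getD_block hi, count_block hT hi]
  have h : (A' ++ T.map Nat.succ).drop (A'.length + i + 1) = (T.map Nat.succ).drop (i + 1) := by
    rw [show A'.length + i + 1 = A'.length + (i + 1) by omega, List.drop_length_add_append]
  rw [h, countP_drop_dec hT hi]
  push_cast
  ring

lemma count_compl (A : List ℕ) (f : ℕ) :
    A.countP (fun x => decide (x < f)) + A.countP (fun x => decide (f ≤ x)) = A.length := by
  rw [List.length_eq_countP_add_countP (fun x => decide (x < f))]
  congr 1
  apply List.countP_congr
  intro x _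
  simp

/-- The spectral product, `c = 0` for `z + 1` and `c = 1` for `z`. -/
lemma spec_prod (α c : R) (A S : List ℕ) (g : ℕ → R)
    (hg : ∀ i, i < S.length → g i = ((S.reverse.getD i 0 + 1 : ℕ) : R) * α -
      ((A.countP (fun x => decide (S.reverse.getD i 0 + 1 ≤ x)) : ℕ) : R) - (i : R)) :
    ∏ i ∈ range S.length, (g i - (-((A.length + S.length : ℕ) : R) + 1 - c)) =
      prodG α c A S 0 := by
  rw [prodG_eq]
  apply prod_congr rfl
  intro i hi
  rw [mem_range] at hi
  rw [hg i hi]
  have h1 := count_compl A (S.reverse.getD i 0 + 1)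
  have h2 : ((A.length : ℕ) : R) = ((A.countP (fun x => decide (x < S.reverse.getD i 0 + 1)) : ℕ) : R) +
      ((A.countP (fun x => decide (S.reverse.getD i 0 + 1 ≤ x)) : ℕ) : R) := by
    rw [← h1]; push_cast; ring
  have h3 : (S.length : R) = ((S.length - 1 - i : ℕ) : R) + 1 + (i : R) := by
    have : S.length = (S.length - 1 - i) + 1 + i := by omega
    conv_lhs => rw [this]
    push_cast
    ring
  push_cast
  rw [h2, h3]
  ring

end

end Pool.Agent.Helper61.Jack
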