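import Pool.Agent.Helper61.Jack.A4
import Pool.Agent.Helper61.Jack.A7
import Pool.Agent.Helper61.Jack.A8
import Pool.Agent.Helper61.Jack.A9

/-!
# The divisibility theorem, continued
-/

set_option autoImplicit false

open MvPolynomial Finset

namespace Pool.Agent.Helper61.Jack

noncomputable section

variable {R : Type*} [CommRing R] [IsDomain R] {N : ℕ} {α : R}

lemma swap_not_le {q i j : ℕ} {e : ℕ →₀ ℕ} (hj : j < q) (hji : j < i) (hi : i < N)
    (he : e j < e i) : ¬ Le N (fun k => k ≤ q) e (pm (Equiv.swap i j) e) := by
  intro h
  have h1 := h.sd (j + 1) (by show j + 1 ≤ q; omega) (e i)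
  have h2 := hts_pair (N := N) (k := j + 1) (t := e i) (i := i) (j := j) hi (by omega) (by omega)
    (d := pm (Equiv.swap i j) e) (e := e) (by
      intro l h1 h2
      rw [pm_swap_apply, Equiv.swap_apply_of_ne_of_ne h1 h2])
  rw [pm_swap_apply, pm_swap_apply, Equiv.swap_apply_left, Equiv.swap_apply_right] at h2
  rw [if_neg (by omega), if_pos (by omega)] at h2
  omega

/-- The action of `Xop` on the leading coefficient. -/
lemma coeff_Xop {q : ℕ} {z : R} {e : ℕ →₀ ℕ} : ∀ (r : ℕ), q + r ≤ N →
    (∀ i, i < r → ∀ j, q + i < j → j < N → e j ≤ e (q + i)) →
    (∀ i, i < r → ∀ j, j < q + i → e j < e (q + i) → j < q) →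
    ∀ (f : MvPolynomial ℕ R), PSup (Le N (fun k => k ≤ q) e) f →
    coeff e (Xop N α q z r f) =
      (∏ i ∈ range r, (((e (q + i) : R) * α -
        (((range (q + i)).filter (fun j => e (q + i) ≤ e j)).card : R)) - z)) * coeff e f := by
  intro r
  induction r with
  | zero => intro _ _ _ f _; simp
  | succ r ih =>
    intro hr h1 h2 f hf
    rw [Xop_succ, ih (by omega) (fun i hi => h1 i (by omega)) (fun i hi => h2 i (by omega)) _
      ((xi_PSup (by omega) hf).sub (hf.smul z)), coeff_sub, coeff_smul,
      coeff_xi (by omega) (Nat.zero_le q) hf (h1 r (by omega)) ?_, prod_range_succ]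
    · simp only [smul_eq_mul]; ring
    · intro j hj hej
      by_contra h
      exact swap_not_le (h2 r (by omega) j hj hej) hj (by omega) hej (hf _ h)

/-- The eigenvalues on all variables. -/
def evA (α : R) (l : List ℕ) (i : ℕ) : R :=
  if i < l.length then evL α l.reverse i else -(i : R)

lemma Jk_evA (l : List ℕ) (hl : l.length ≤ N) (i : ℕ) (hi : i < N) :
    xi N α i (Jk N α l) = evA α l i • Jk N α l := by
  unfold evA
  split_ifs with h
  · exact (isE_Jk l hl).eig i h
  · exact (isE_Jk l hl).out i (by omega) hi

omit [IsDomain R] in
lemma Aop_sw {m i j : ℕ} (hi : i < m) (hj : j < m) (y : R) (f : MvPolynomial ℕ R) :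
    Aop N m y (sw (i + 1) (j + 1) f) = sw i j (Aop N m y f) := by
  have h : Phi m (sw (i + 1) (j + 1) f) = sw i j (Phi m f) := by
    rw [Phi_apply, Phi_apply, act_sw, rot_succ hi, rot_succ hj, map_mul, rename_X,
      Equiv.swap_apply_of_ne_of_ne (by omega) (by omega)]
  rw [Aop_apply, Aop_apply, h, map_add, map_smul, map_sum]
  congr 1
  apply sum_congr rfl
  intro k hk
  rw [mem_Ico] at hk
  rw [act_sw (Equiv.swap i j) m k, Equiv.swap_apply_of_ne_of_ne (a := i) (b := j) (x := m)
    (by omega) (by omega), Equiv.swap_apply_of_ne_of_ne (a := i) (b := j) (x := k)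
    (by omega) (by omega)]

omit [IsDomain R] in
lemma Aop_Asym {m q r : ℕ} (h : q + r ≤ m) (y : R) (f : MvPolynomial ℕ R) :
    Asym q r (Aop N m y f) = Aop N m y (Asym (q + 1) r f) := by
  refine (Asym_intertwine (Aop N m y) (q + 1) q r ?_ f).symm
  intro a b ha hb f
  rw [show q + 1 + a = q + a + 1 by omega, show q + 1 + b = q + b + 1 by omega]
  exact Aop_sw (by omega) (by omega) y f

omit [IsDomain R] in
lemma coeff_Aop_ex (L : List ℕ) (t : ℕ) (y : R) (f : MvPolynomial ℕ R) :
    coeff (ex (L ++ [t + 1])) (Aop N L.length y f) =
      (y + (L.length : R) + 1) * coeff (ex (t :: L)) f := by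
  have h1 : ex (L ++ [t + 1]) L.length = t + 1 := by
    rw [ex_apply, List.getD_append_right _ _ _ _ le_rfl]; simp
  have h2 : ∀ k ∈ Ico (L.length + 1) N,
      coeff (ex (L ++ [t + 1])) (sw L.length k (Phi L.length f)) = 0 := by
    intro k hk
    rw [mem_Ico] at hk
    rw [coeff_sw, coeff_Phi, if_pos]
    rw [pm_swap_apply, Equiv.swap_apply_left]
    apply ex_out
    simp only [List.length_append, List.length_singleton]; omega
  rw [Aop_apply, coeff_add, coeff_smul, coeff_sum, sum_congr rfl h2, sum_const_zero, add_zero,
    coeff_Phi, if_neg (by rw [h1]; omega), unrot_ex]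
  simp only [smul_eq_mul]
  try push_cast
  try ring

omit [IsDomain R] in
lemma evH_add_len (v : ℕ) (l : List ℕ) :
    evH α v l + (l.length : R) + 1 = (v : R) * α + 1 + (l.countP (fun y => y < v) : R) := by
  unfold evH
  have h := count_compl l v
  have h2 : (l.length : R) = ((l.countP (fun x => decide (x < v)) : ℕ) : R) +
      ((l.countP (fun x => decide (v ≤ x)) : ℕ) : R) := by
    rw [← h]; push_cast; ring
  rw [h2]
  ring

omit [IsDomain R] in
lemma coeff_Nn_PhiI {q r : ℕ} (hqr : 0 < q + r) (e : ℕ →₀ ℕ) (he : e (q + r) = 0)
    (f : MvPolynomial ℕ R) :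
    coeff e (Nn q r (PhiI (q + r - 1) r f)) = coeff e (PhiI (q + r - 1) r f) := by
  rw [Nn_apply, coeff_sub, coeff_sum]
  have h : ∀ i ∈ Ico q (q + r), coeff e (sw i (q + r) (PhiI (q + r - 1) r f)) = 0 := by
    intro i hi
    rw [mem_Ico] at hi
    rw [coeff_sw]
    apply coeff_PhiI_zero (i := i) (by omega) hi.1 hi.2
    rw [pm_swap_apply, Equiv.swap_apply_left, he]
  rw [sum_congr rfl h, sum_const_zero, sub_zero]

omit [IsDomain R] in
/-- The leading coefficient after a shift. -/
lemma coeff_shift (A S : List ℕ) (f : MvPolynomial ℕ R) :
    coeff (ex (A.reverse ++ S.reverse.map Nat.succ))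
      (Nn A.length S.length (PhiI (A.length + S.length - 1) S.length f)) =
      coeff (ex (S.reverse ++ A.reverse)) f := by
  rcases Nat.eq_zero_or_pos (A.length + S.length) with h | h
  · have hA : A = [] := List.eq_nil_of_length_eq_zero (by omega)
    have hS : S = [] := List.eq_nil_of_length_eq_zero (by omega)
    subst hA hS
    simp [Nn_apply]
  · rw [coeff_Nn_PhiI h]
    · have := coeff_PhiI (m := A.length + S.length - 1) S.reverse A.reverse
        (by rw [List.length_reverse, List.length_reverse]; omega) f
      rw [List.length_reverse] at this
      exact this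
    · apply ex_out
      simp

lemma exists_map_succ {F : List ℕ} (h : ∀ x ∈ F, 0 < x) : ∃ S : List ℕ, F = S.map Nat.succ := by
  refine ⟨F.map Nat.pred, ?_⟩
  rw [List.map_map]
  conv_lhs => rw [← List.map_id F]
  apply List.map_congr_left
  intro x hx
  have := h x hx
  simp only [id, Function.comp, Nat.succ_eq_add_one, Nat.pred_eq_sub_one]; omega

lemma pairwise_of_map_succ {S : List ℕ} (h : (S.map Nat.succ).Pairwise (· < ·)) :
    S.Pairwise (· < ·) := by
  rw [List.pairwise_map] at h
  exact h.imp (fun h => Nat.succ_lt_succ_iff.mp h)

lemma sum_map_succ' (S : List ℕ) : (S.map Nat.succ).sum = S.sum + S.length := by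
  induction S with
  | nil => rfl
  | cons a S ih => simp only [List.map_cons, List.sum_cons, List.length_cons, ih]; omega

/-- The divisibility theorem. -/
theorem divis [CharZero R] (hα : Gen α) (n : ℕ) : ∀ (A F B : List ℕ), F.Pairwise (· < ·) →
    A.length + F.length + B.length < N →
    2 * ((B ++ F ++ A).sum + (B ++ F ++ A).length) + (if B = [] then 1 else 0) = n →
    ∃ K : MvPolynomial ℕ R,
      Asym A.length F.length (Jk N α (B ++ F ++ A)) = PT α A B F • K ∧
      coeff (ex (B ++ F ++ A).reverse) K = VV α A F B := by
  induction n using Nat.strong_induction_on with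
  | _ n IH =>
  intro A F B hF hN hn
  match B, hN, hn with
  | 0 :: B, hN, hn =>
    obtain ⟨K, h1, h2⟩ := IH _ (by
      rw [← hn]
      simp only [List.cons_append, List.sum_cons, List.length_cons]
      split_ifs <;> omega) A F B hF (by rw [List.length_cons] at hN; omega) rfl
    refine ⟨K, ?_, ?_⟩
    · rw [List.cons_append, List.cons_append, Jk_zero, h1, ← Multiset.cons_coe, PT_zero]
    · rw [List.cons_append, List.cons_append, List.reverse_cons, ex_append_zero, h2, VV_zero]
  | (t + 1) :: B, hN, hn =>
    rw [List.length_cons] at hN
    obtain ⟨K, h1, h2⟩ := IH _ (by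
      rw [← hn]
      simp only [List.cons_append, List.sum_cons, List.length_cons, List.sum_append,
        List.length_append, List.sum_nil, List.length_nil]
      split_ifs <;> simp_all <;> omega) (A ++ [t]) F B hF
      (by rw [List.length_append, List.length_singleton]; omega) rfl
    set l := B ++ F ++ A with hl
    have hl2 : B ++ F ++ (A ++ [t]) = l ++ [t] := by rw [hl, List.append_assoc]; simp
    rw [hl2] at h1 h2
    refine ⟨Aop N l.length (evH α (t + 1) l) K, ?_, ?_⟩
    · rw [List.cons_append, List.cons_append, ← hl, Jk_succ, Aop_Asym (by
        rw [hl]; simp only [List.length_append]; omega)]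
      rw [List.length_append, List.length_singleton] at h1
      rw [h1, map_smul, ← Multiset.cons_coe, ← PT_rot]
      congr 2
      rw [← Multiset.coe_add, Multiset.coe_singleton, add_comm, Multiset.singleton_add]
    · rw [List.cons_append, List.cons_append, ← hl, List.reverse_cons]
      have h3 := coeff_Aop_ex (N := N) l.reverse t (evH α (t + 1) l) K
      rw [List.length_reverse] at h3
      rw [h3]
      have h4 : (l ++ [t]).reverse = t :: l.reverse := by simp
      rw [h4] at h2
      rw [h2, evH_add_len, VV_rot]
  | [], hN, hn =>
    simp only [List.nil_append, if_true, List.length_nil, add_zero] at hN hn ⊢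
    match F, hF, hN, hn with
    | [], hF, hN, hn =>
      by_cases hA : A = []
      · subst hA
        refine ⟨1, ?_, ?_⟩
        · simp [PT]
        · simp [VV, bos, fer, ex, coeff_one]
      · obtain ⟨K, h1, h2⟩ := IH _ (by
          rw [← hn]
          simp only [List.append_nil, List.nil_append, if_neg hA]; omega) [] [] A List.Pairwise.nil
          (by simpa using hN) rfl
        simp only [List.append_nil, List.nil_append, List.length_nil, Asym_zero, PT, one_smul,
          List.length_nil] at h1 h2 ⊢
        refine ⟨K, h1, ?_⟩
        rw [h2]
        simp [VV, bos, fer]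
    | 0 :: F, hF, hN, hn =>
      rw [List.pairwise_cons] at hF
      obtain ⟨S, rfl⟩ := exists_map_succ (F := F) (fun x hx => hF.1 x hx)
      have hS := pairwise_of_map_succ hF.2
      rw [List.length_cons, List.length_map] at hN
      obtain ⟨K, h1, h2⟩ := IH _ (by
        rw [← hn]
        simp only [List.cons_append, List.sum_cons, List.length_cons, List.sum_append,
          List.length_append, List.sum_nil, List.length_nil, sum_map_succ', List.length_map]
        split_ifs <;> omega) [] S A hS (by simp only [List.length_nil]; omega) rfl
      rw [List.length_nil, List.append_nil] at h1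
      rw [List.append_nil, List.reverse_append] at h2
      refine ⟨Nn A.length S.length (PhiI (A.length + S.length - 1) S.length K), ?_, ?_⟩
      · rw [List.length_cons, List.length_map, List.cons_append, Jk_zero,
          Asym_reduce A S hS (by omega), h1, map_smul, map_smul, smul_smul]
        congr 1
        rw [PT, Multiset.coe_nil, PT_shift, prodc_eq_cr α S A hS]
      · rw [List.cons_append, List.reverse_cons, ex_append_zero, List.reverse_append,
          ← List.map_reverse, coeff_shift, h2, VV_shift_zero]
    | (f + 1) :: F, hF, hN, hn =>
      obtain ⟨S, hSF⟩ := exists_map_succ (F := (f + 1) :: F) (fun x hx => by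
        rcases List.mem_cons.mp hx with h | h
        · omega
        · rw [List.pairwise_cons] at hF
          have := hF.1 x h
          omega)
      rw [hSF] at hF hN hn ⊢
      have hS := pairwise_of_map_succ hF
      have hSpos : 0 < S.length := by
        have := congrArg List.length hSF
        rw [List.length_cons, List.length_map] at this
        omega
      rw [List.length_map] at hN
      obtain ⟨K, h1, h2⟩ := IH _ (by
        rw [← hn]
        simp only [List.sum_append, List.length_append, List.sum_nil, List.length_nil,
          sum_map_succ', List.length_map]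
        split_ifs <;> omega) [] S A hS (by simp only [List.length_nil]; omega) rfl
      rw [List.length_nil, List.append_nil] at h1
      rw [List.append_nil, List.reverse_append] at h2
      set J := Jk N α (S.map Nat.succ ++ A) with hJdef
      set q := A.length with hq
      set r := S.length with hr
      set z : R := -((q + r : ℕ) : R) with hz
      have hlen : (S.map Nat.succ ++ A).length = q + r := by
        rw [List.length_append, List.length_map]; omega
      have hJ : ∀ i, i < N → xi N α i J = evA α (S.map Nat.succ ++ A) i • J :=
        fun i hi => Jk_evA _ (by omega) i hi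
      set G := Nn q r (PhiI (q + r - 1) r K) with hG
      have hE : Nn q r (Asym q r J) = (prodc α S A * PT α ↑A 0 (S.map Nat.succ)) • G := by
        rw [← Asym_succ, hJdef, hq, hr, Asym_reduce A S hS (by omega), h1, map_smul, map_smul,
          smul_smul, PT_shift]
        rfl
      have hmem := (Xop_Asym hJ q (z + 1) r (by omega)).1
      have hXa := (Xop_Asym hJ q (z + 1) r (by omega)).2
      have hlast : xi N α (q + r) (Asym q r J) = z • Asym q r J := by
        have h3 := Asym_intertwine (xi N α (q + r)) q q r
          (fun a b ha hb f => xi_sw_far (by omega) (by omega) (by omega) f) J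
        rw [h3, hJ (q + r) (by omega), evA, if_neg (by omega), map_smul]
      have hH := Hecke_main hJ q z r (by omega) (Asym q r J) hmem
        (fun i j hi hi' hj hj' hij => sw_Asym q r i j hi hi' hj hj' hij J) hlast
      have hSrev : S.reverse.Pairwise (· > ·) := by
        rw [List.pairwise_reverse]
        exact hS
      have hrev : (S.map Nat.succ ++ A).reverse = A.reverse ++ S.reverse.map Nat.succ := by
        rw [List.reverse_append, List.map_reverse]
      have hev : ∀ i, i < r → evA α (S.map Nat.succ ++ A) (q + i) =
          ((S.reverse.getD i 0 + 1 : ℕ) : R) * α -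
            ((A.countP (fun x => decide (S.reverse.getD i 0 + 1 ≤ x)) : ℕ) : R) - (i : R) := by
        intro i hi
        have h4 := evL_block α (A' := A.reverse) hSrev (i := i) (by rwa [List.length_reverse])
        rw [List.length_reverse, List.countP_reverse] at h4
        rw [evA, if_pos (by omega), hrev, h4]
      have hprod : ∏ i ∈ range r, (evA α (S.map Nat.succ ++ A) (q + i) - (z + 1)) =
          prodc α S A := by
        have h5 := spec_prod α 0 A S (fun i => evA α (S.map Nat.succ ++ A) (q + i)) hev
        have h6 := prodc_eq_prodG α A S [] hS (by simp)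
        rw [List.append_nil, List.length_nil] at h6
        rw [h6, ← h5]
        apply prod_congr rfl
        intro i _
        rw [hz, sub_zero]
      rw [hprod] at hXa
      rw [hH.symm, hE, map_smul] at hXa
      have hc0 : prodc α S A ≠ 0 := prodc_ne_zero hα S A
      have hEK : Asym q r J = PT α ↑A 0 (S.map Nat.succ) • Xop N α q z r G := by
        have h7 : prodc α S A • Asym q r J =
            prodc α S A • (PT α ↑A 0 (S.map Nat.succ) • Xop N α q z r G) := by
          rw [← hXa, smul_smul]
        exact smul_right_injective _ hc0 h7
      refine ⟨Xop N α q z r G, ?_, ?_⟩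
      · rw [List.length_map]
        exact hEK
      · set e := ex (S.map Nat.succ ++ A).reverse with he
        have hGsup : PSup (Le N (fun k => k ≤ q) e) G := by
          have h8 : PSup (Le N (fun _ => True) e) J := PSup_Jk _ (by omega)
          have h9 : PSup (Le N (fun k => k ≤ q) e) J :=
            h8.mono (fun d hd => ⟨hd.out, hd.tot, fun k _ t => hd.sd k trivial t⟩)
          have h10 := PSup.Asym (r + 1) (by omega) (q := q) (fun k hk => Or.inl hk) h9
          rw [Asym_succ, hE] at h10
          exact PSup.of_smul (mul_ne_zero hc0 (PT_ne_zero hα _ _ _ hF)) h10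
        have hee : ∀ i, i < r → e (q + i) = S.reverse.getD i 0 + 1 := by
          intro i hi
          have := getD_block (A' := A.reverse) (T := S.reverse) (i := i)
            (by rwa [List.length_reverse])
          rw [List.length_reverse] at this
          rw [he, hrev, ex_apply, this]
        rw [coeff_Xop r (by omega) ?_ ?_ G hGsup]
        · have h11 : coeff e G = VV α [] S A := by
            rw [hG, he, hrev, coeff_shift, h2]
          rw [h11, VV_shift]
          congr 1
          have h12 := col_eq_prodG α A S 0 hS (by simp)
          rw [Multiset.card_zero] at h12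
          have h13 := spec_prod α 1 A S (fun i => (e (q + i) : R) * α -
            (((range (q + i)).filter (fun j => e (q + i) ≤ e j)).card : R)) ?_
          · rw [h12, ← h13]
            apply prod_congr rfl
            intro i _
            rw [hz]
            ring
          · intro i hi
            have h14 := count_block (A' := A.reverse) hSrev (i := i) (by rwa [List.length_reverse])
            rw [List.length_reverse, List.countP_reverse, ← hrev] at h14
            have h15 := countP_take_getD (S.map Nat.succ ++ A).reverse
              (S.reverse.getD i 0 + 1) (q + i) (by rw [List.length_reverse]; omega)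
            rw [h14] at h15
            have h16 : ((range (q + i)).filter (fun j => e (q + i) ≤ e j)).card =
                A.countP (fun x => decide (S.reverse.getD i 0 + 1 ≤ x)) + i := by
              rw [← h15, hee i hi]
              rfl
            rw [h16, hee i hi]
            push_cast
            ring
        · intro i hi j hj hjN
          rw [hee i hi]
          by_cases hj2 : j < q + r
          · obtain ⟨k, rfl⟩ : ∃ k, j = q + k := ⟨j - q, by omega⟩
            rw [hee k (by omega)]
            have := dec_lt hSrev (i := i) (j := k) (by omega) (by rw [List.length_reverse]; omega)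
            omega
          · rw [he, ex_out _ _ (by rw [List.length_reverse]; omega)]
            omega
        · intro i hi j hj hej
          by_contra hjq
          obtain ⟨k, rfl⟩ : ∃ k, j = q + k := ⟨j - q, by omega⟩
          rw [hee i hi, hee k (by omega)] at hej
          have := dec_lt hSrev (i := k) (j := i) (by omega) (by rw [List.length_reverse]; omega)
          omega

end

end Pool.Agent.Helper61.Jack
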