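import Pool.Agent.Helper61.Jack.A8

/-!
# Symmetrisation over the remaining variables
-/

set_option autoImplicit false

open MvPolynomial Finset

namespace Pool.Agent.Helper61.Jack

noncomputable section

variable {R : Type*} [CommRing R]

/-- `f + ∑_{q ≤ i < q + r} s_{i, q + r} f`. -/
def Pn (q r : ℕ) : MvPolynomial ℕ R →ₗ[R] MvPolynomial ℕ R :=
  LinearMap.id + ∑ i ∈ Ico q (q + r), (sw i (q + r)).toLinearMap

lemma Pn_apply (q r : ℕ) (f : MvPolynomial ℕ R) :
    Pn q r f = f + ∑ i ∈ Ico q (q + r), sw i (q + r) f := by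
  simp [Pn, LinearMap.sum_apply]

/-- Symmetrisation over the positions `q, …, q + r - 1`. -/
def Symm (q : ℕ) : ℕ → (MvPolynomial ℕ R →ₗ[R] MvPolynomial ℕ R)
  | 0 => LinearMap.id
  | r + 1 => (Pn q r).comp (Symm q r)

@[simp] lemma Symm_zero (q : ℕ) (f : MvPolynomial ℕ R) : Symm q 0 f = f := rfl
lemma Symm_succ (q r : ℕ) (f : MvPolynomial ℕ R) : Symm q (r + 1) f = Pn q r (Symm q r f) := rfl

/-- Intertwining. -/
lemma Symm_intertwine (T : MvPolynomial ℕ R →ₗ[R] MvPolynomial ℕ R) (q q' : ℕ) (r : ℕ)
    (h : ∀ a b, a < r → b < r → ∀ f, T (sw (q + a) (q + b) f) = sw (q' + a) (q' + b) (T f))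
    (f : MvPolynomial ℕ R) : T (Symm q r f) = Symm q' r (T f) := by
  induction r generalizing f with
  | zero => rfl
  | succ r ih =>
    rw [Symm_succ, Symm_succ, Pn_apply, Pn_apply, map_add, map_sum,
      ih (fun a b ha hb f => h a b (by omega) (by omega) f)]
    congr 1
    have e1 : ∀ (q : ℕ) (G : ℕ → MvPolynomial ℕ R),
        ∑ i ∈ Ico q (q + r), G i = ∑ a ∈ range r, G (q + a) := by
      intro q G
      rw [Finset.sum_Ico_eq_sum_range]
      simp
    rw [e1, e1]
    apply sum_congr rfl
    intro a ha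
    rw [mem_range] at ha
    rw [h a r (by omega) (by omega), ih (fun a b ha hb f => h a b (by omega) (by omega) f)]

/-- Symmetry of the result. -/
lemma sw_Symm (q r : ℕ) : ∀ (i j : ℕ), q ≤ i → i < q + r → q ≤ j → j < q + r →
    ∀ f : MvPolynomial ℕ R, sw i j (Symm q r f) = Symm q r f := by
  induction r with
  | zero => intro i j hi hi'; omega
  | succ r ih =>
    have key : ∀ j, q ≤ j → j < q + r → ∀ f : MvPolynomial ℕ R,
        sw j (q + r) (Symm q (r + 1) f) = Symm q (r + 1) f := by
      intro j hj hj' f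
      rw [Symm_succ, Pn_apply]
      set g := Symm q r f with hg
      have hmem : j ∈ Ico q (q + r) := mem_Ico.mpr ⟨hj, hj'⟩
      rw [← add_sum_erase _ _ hmem]
      rw [map_add, map_add, map_sum, sw_sw]
      have h1 : ∀ i ∈ (Ico q (q + r)).erase j, sw j (q + r) (sw i (q + r) g) =
          sw i (q + r) g := by
        intro i hi
        rw [mem_erase, mem_Ico] at hi
        have h2 : sw i (q + r) (sw i j g) = sw (q + r) j (sw i (q + r) g) := by
          rw [act_sw (Equiv.swap i (q + r)) i j, Equiv.swap_apply_left,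
            Equiv.swap_apply_of_ne_of_ne (by omega) (by omega)]
        rw [ih i j hi.2.1 hi.2.2 hj hj'] at h2
        rw [sw_comm j (q + r), ← h2]
      rw [sum_congr rfl h1]
      abel
    intro i j hi hi' hj hj' f
    by_cases h1 : i = q + r
    · subst h1
      by_cases h2 : j = q + r
      · subst h2; rw [sw_self]
      · rw [sw_comm]
        exact key j hj (by omega) f
    · by_cases h2 : j = q + r
      · subst h2
        exact key i hi (by omega) f
      · have hi2 : i < q + r := by omega
        have hj2 : j < q + r := by omega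
        rw [Symm_succ, Pn_apply, map_add, map_sum, ih i j hi hi2 hj hj2]
        congr 1
        refine Finset.sum_bij' (fun k _ => Equiv.swap i j k) (fun k _ => Equiv.swap i j k)
            ?_ ?_ ?_ ?_ ?_
        · intro k hk
          rw [mem_Ico] at *
          rw [Equiv.swap_apply_def]; split_ifs <;> omega
        · intro k hk
          rw [mem_Ico] at *
          rw [Equiv.swap_apply_def]; split_ifs <;> omega
        · intro k _; simp
        · intro k _; simp
        · intro k _
          rw [act_sw, ih i j hi hi2 hj hj2,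
            Equiv.swap_apply_of_ne_of_ne (a := i) (b := j) (x := q + r) (by omega) (by omega)]

lemma Pn_sw {q r i j : ℕ} (hi : q ≤ i) (hi' : i < q + r) (hj : q ≤ j) (hj' : j < q + r)
    (f : MvPolynomial ℕ R) : Pn q r (sw i j f) = sw i j (Pn q r f) := by
  rw [Pn_apply, Pn_apply, map_add, map_sum]
  congr 1
  refine Finset.sum_bij' (fun k _ => Equiv.swap i j k) (fun k _ => Equiv.swap i j k)
    ?_ ?_ ?_ ?_ ?_
  · intro k hk
    rw [mem_Ico] at *
    rw [Equiv.swap_apply_def]; split_ifs <;> omega
  · intro k hk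
    rw [mem_Ico] at *
    rw [Equiv.swap_apply_def]; split_ifs <;> omega
  · intro k _; simp
  · intro k _; simp
  · intro k _
    have h := act_sw (Equiv.swap i j) (Equiv.swap i j k) (q + r) f
    rw [Equiv.swap_apply_self,
      Equiv.swap_apply_of_ne_of_ne (a := i) (b := j) (x := q + r) (by omega) (by omega)] at h
    exact h.symm

lemma Symm_succ' (q r : ℕ) (f : MvPolynomial ℕ R) : Symm q (r + 1) f = Symm q r (Pn q r f) := by
  rw [Symm_succ]
  exact Symm_intertwine (Pn q r) q q r
    (fun a b ha hb f => Pn_sw (by omega) (by omega) (by omega) (by omega) f) f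

/-- Symmetry in the argument. -/
lemma Symm_sw (q r : ℕ) : ∀ (i j : ℕ), q ≤ i → i < q + r → q ≤ j → j < q + r →
    ∀ f : MvPolynomial ℕ R, Symm q r (sw i j f) = Symm q r f := by
  induction r with
  | zero => intro i j hi hi'; omega
  | succ r ih =>
    have key : ∀ j, q ≤ j → j < q + r → ∀ f : MvPolynomial ℕ R,
        Symm q (r + 1) (sw j (q + r) f) = Symm q (r + 1) f := by
      intro j hj hj' f
      have hmem : j ∈ Ico q (q + r) := mem_Ico.mpr ⟨hj, hj'⟩
      rw [Symm_succ', Symm_succ', Pn_apply, Pn_apply, ← add_sum_erase _ _ hmem,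
        ← add_sum_erase _ (fun i => sw i (q + r) f) hmem, sw_sw]
      simp only [map_add, map_sum]
      have h1 : ∀ i ∈ (Ico q (q + r)).erase j, Symm q r (sw i (q + r) (sw j (q + r) f)) =
          Symm q r (sw i (q + r) f) := by
        intro i hi
        rw [mem_erase, mem_Ico] at hi
        have h2 : sw i (q + r) (sw j (q + r) f) = sw j i (sw i (q + r) f) := by
          rw [act_sw (Equiv.swap i (q + r)) j (q + r), Equiv.swap_apply_right,
            Equiv.swap_apply_of_ne_of_ne (by omega) (by omega)]
        rw [h2, ih j i hj hj' hi.2.1 hi.2.2]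
      rw [sum_congr rfl h1]
      abel
    intro i j hi hi' hj hj' f
    by_cases h1 : i = q + r
    · subst h1
      by_cases h2 : j = q + r
      · subst h2; rw [sw_self]
      · rw [sw_comm]
        exact key j hj (by omega) f
    · by_cases h2 : j = q + r
      · subst h2
        exact key i hi (by omega) f
      · rw [Symm_succ, ih i j hi (by omega) hj (by omega), ← Symm_succ]

/-- Symmetrisation of a symmetric function. -/
lemma Symm_of_sym (q r : ℕ) {f : MvPolynomial ℕ R} (hf : BSym q (q + r) f) :
    Symm q r f = (Nat.factorial r : R) • f := by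
  induction r with
  | zero => simp
  | succ r ih =>
    have h1 := ih (fun i j hi hi' hj hj' => hf i j hi (by omega) hj (by omega))
    rw [Symm_succ, h1, map_smul, Pn_apply]
    have h2 : ∀ i ∈ Ico q (q + r), sw i (q + r) f = f := by
      intro i hi
      rw [mem_Ico] at hi
      exact hf i (q + r) hi.1 (by omega) (by omega) (by omega)
    rw [sum_congr rfl h2, sum_const, Nat.card_Ico, Nat.add_sub_cancel_left,
      ← Nat.cast_smul_eq_nsmul R, Nat.factorial_succ]
    push_cast
    module

/-! ### The operators `C_n` -/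

/-- `h + ∑_{n < k < N} s_{n k} h`. -/
def Cn (N n : ℕ) : MvPolynomial ℕ R →ₗ[R] MvPolynomial ℕ R :=
  LinearMap.id + ∑ k ∈ Ico (n + 1) N, (sw n k).toLinearMap

lemma Cn_apply (N n : ℕ) (f : MvPolynomial ℕ R) :
    Cn N n f = f + ∑ k ∈ Ico (n + 1) N, sw n k f := by
  simp [Cn, LinearMap.sum_apply]

lemma BSym.Cn {N n : ℕ} {f : MvPolynomial ℕ R} (hf : BSym (n + 1) N f) :
    BSym n N (Cn N n f) := by
  have h1 : ∀ i j, n < i → i < N → n < j → j < N → sw i j (Jack.Cn N n f) = Jack.Cn N n f := by
    intro i j hi hiN hj hjN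
    rw [Cn_apply, map_add, map_sum, hf i j hi hiN hj hjN]
    congr 1
    refine Finset.sum_bij' (fun k _ => Equiv.swap i j k) (fun k _ => Equiv.swap i j k)
      ?_ ?_ ?_ ?_ ?_
    · intro k hk
      rw [mem_Ico] at *
      refine ⟨?_, (swap_lt hiN hjN k).mpr hk.2⟩
      rw [Equiv.swap_apply_def]; split_ifs <;> omega
    · intro k hk
      rw [mem_Ico] at *
      refine ⟨?_, (swap_lt hiN hjN k).mpr hk.2⟩
      rw [Equiv.swap_apply_def]; split_ifs <;> omega
    · intro k _; simp
    · intro k _; simp
    · intro k _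
      rw [act_sw, hf i j hi hiN hj hjN, Equiv.swap_apply_of_ne_of_ne (by omega) (by omega)]
  have h2 : ∀ j, n < j → j < N → sw n j (Jack.Cn N n f) = Jack.Cn N n f := by
    intro j hj hjN
    have hmem : j ∈ Ico (n + 1) N := mem_Ico.mpr ⟨hj, hjN⟩
    rw [Cn_apply, ← add_sum_erase _ _ hmem, map_add, map_add, map_sum, sw_sw]
    have h3 : ∀ k ∈ (Ico (n + 1) N).erase j, sw n j (sw n k f) = sw n k f := by
      intro k hk
      rw [mem_erase, mem_Ico] at hk
      rw [act_sw (Equiv.swap n j) n k, Equiv.swap_apply_left,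
        Equiv.swap_apply_of_ne_of_ne (by omega) (by omega)]
      exact sw_sw_of_BSym hf (by omega) hk.2.2 hj hjN
    rw [sum_congr rfl h3]
    abel
  intro i j hi hiN hj hjN
  by_cases hin : i = n
  · subst hin
    by_cases hjn : j = i
    · subst hjn; rw [sw_self]
    · exact h2 j (by omega) hjN
  · by_cases hjn : j = n
    · subst hjn
      rw [sw_comm]
      exact h2 i (by omega) hiN
    · exact h1 i j (by omega) hiN (by omega) hjN

/-- `C_m C_{m + 1} ⋯ C_{m + j - 1}`. -/
def CC (N m : ℕ) : ℕ → (MvPolynomial ℕ R →ₗ[R] MvPolynomial ℕ R)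
  | 0 => LinearMap.id
  | j + 1 => (CC N m j).comp (Cn N (m + j))

@[simp] lemma CC_zero (N m : ℕ) (f : MvPolynomial ℕ R) : CC N m 0 f = f := rfl
lemma CC_succ (N m j : ℕ) (f : MvPolynomial ℕ R) : CC N m (j + 1) f = CC N m j (Cn N (m + j) f) :=
  rfl

lemma BSym.CC {N m j : ℕ} {f : MvPolynomial ℕ R} (hf : BSym (m + j) N f) :
    BSym m N (CC N m j f) := by
  induction j generalizing f with
  | zero => exact hf
  | succ j ih =>
    rw [CC_succ]
    exact ih (BSym.Cn (n := m + j) hf)

lemma Symm_Cn {N m n : ℕ} (hn : m ≤ n) (hnN : n < N) (f : MvPolynomial ℕ R) :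
    Symm m (N - m) (Cn N n f) = ((N - n : ℕ) : R) • Symm m (N - m) f := by
  rw [Cn_apply, map_add, map_sum]
  have h : ∀ k ∈ Ico (n + 1) N, Symm m (N - m) (sw n k f) = Symm m (N - m) f := by
    intro k hk
    rw [mem_Ico] at hk
    exact Symm_sw m (N - m) n k hn (by omega) (by omega) (by omega) f
  rw [sum_congr rfl h, sum_const, Nat.card_Ico, ← Nat.cast_smul_eq_nsmul R,
    show N - n = (N - (n + 1)) + 1 by omega]
  push_cast
  module

/-- The product of the factors of `CC`. -/
def facC (N m : ℕ) : ℕ → ℕ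
  | 0 => 1
  | j + 1 => (N - (m + j)) * facC N m j

lemma facC_pos {N m j : ℕ} (h : m + j ≤ N) : 0 < facC N m j := by
  induction j with
  | zero => exact Nat.one_pos
  | succ j ih =>
    rw [facC]
    exact Nat.mul_pos (by omega) (ih (by omega))

lemma Symm_CC {N m j : ℕ} (hj : m + j ≤ N) (f : MvPolynomial ℕ R) :
    Symm m (N - m) (CC N m j f) = (facC N m j : R) • Symm m (N - m) f := by
  induction j generalizing f with
  | zero => simp [facC]
  | succ j ih =>
    rw [CC_succ, ih (by omega), Symm_Cn (by omega) (by omega), smul_smul, facC]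
    congr 1
    push_cast
    ring

/-- The relation between `CC` and the full symmetrisation. -/
lemma fact_CC {N m j : ℕ} (hj : m + j ≤ N) {f : MvPolynomial ℕ R} (hf : BSym (m + j) N f) :
    (Nat.factorial (N - m) : R) • CC N m j f = (facC N m j : R) • Symm m (N - m) f := by
  rw [← Symm_CC hj, Symm_of_sym m (N - m)]
  rw [Nat.add_sub_cancel' (by omega)]
  exact hf.CC

/-! ### Rotations under the symmetrisation -/

lemma Symm_PhiI_Aop {N m μ j : ℕ} (hμ : μ < N) (hj : m + j ≤ μ) (y : R)
    (g : MvPolynomial ℕ R) :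
    Symm m (N - m) (PhiI μ j (Aop N μ y g)) =
      (y + (N : R)) • Symm m (N - m) (PhiI μ (j + 1) g) := by
  rw [Aop_apply, map_add, map_add, map_smul, map_smul, map_sum, map_sum, ← PhiI_succ]
  have h : ∀ k ∈ Ico (μ + 1) N, Symm m (N - m) (PhiI μ j (sw μ k (Phi μ g))) =
      Symm m (N - m) (PhiI μ (j + 1) g) := by
    intro k hk
    rw [mem_Ico] at hk
    rw [PhiI_sw (by omega) j μ (by omega) le_rfl, ← PhiI_succ]
    exact Symm_sw m (N - m) _ _ (by omega) (by omega) (by omega) (by omega) _
  rw [sum_congr rfl h, sum_const, Nat.card_Ico, ← Nat.cast_smul_eq_nsmul R]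
  have h2 : (N : R) = ((μ + 1 : ℕ) : R) + ((N - (μ + 1) : ℕ) : R) := by
    rw [← Nat.cast_add]; congr 1; omega
  rw [h2]
  module

/-- Products of the factors. -/
def prodS (N : ℕ) (α : R) : List ℕ → List ℕ → R
  | [], _ => 1
  | a :: A, L => (evH α (a + 1) (A.map Nat.succ ++ L) + (N : R)) * prodS N α A (L ++ [a])

lemma prodS_ne_zero [IsDomain R] {N : ℕ} {α : R} (hα : Gen α) (A L : List ℕ)
    (hN : A.length + L.length ≤ N) : prodS N α A L ≠ 0 := by
  induction A generalizing L with
  | nil => exact one_ne_zero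
  | cons a A ih =>
    rw [List.length_cons] at hN
    rw [prodS]
    refine mul_ne_zero ?_ (ih _ (by rw [List.length_append, List.length_singleton]; omega))
    unfold evH
    have hc : (A.map Nat.succ ++ L).countP (fun x => decide (a + 1 ≤ x)) ≤ N := by
      refine le_trans List.countP_le_length ?_
      rw [List.length_append, List.length_map]
      omega
    have := hα (a + 1) (N - (A.map Nat.succ ++ L).countP (fun x => decide (a + 1 ≤ x))) (by omega)
    intro h0
    apply this
    rw [Nat.cast_sub hc, ← h0]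
    ring

lemma Symm_multi {N m μ : ℕ} {α : R} (hμ : μ < N) : ∀ (A L : List ℕ) (j : ℕ),
    A.length + L.length = μ + 1 → m + j + A.length ≤ μ + 1 →
      Symm m (N - m) (PhiI μ j (Jk N α (A.map Nat.succ ++ L))) =
        prodS N α A L • Symm m (N - m) (PhiI μ (j + A.length) (Jk N α (L ++ A))) := by
  intro A
  induction A with
  | nil =>
    intro L j _ _
    simp [prodS]
  | cons a A ih =>
    intro L j hlen hj
    rw [List.length_cons] at hlen hj
    have hlen' : (A.map Nat.succ ++ L).length = μ := by
      simp only [List.length_append, List.length_map]; omega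
    rw [List.map_cons, List.cons_append, Nat.succ_eq_add_one, Jk_succ, hlen',
      Symm_PhiI_Aop hμ (by omega), List.append_assoc, ih (L ++ [a]) (j + 1)
        (by rw [List.length_append, List.length_singleton]; omega) (by omega), smul_smul, prodS]
    have e1 : j + 1 + A.length = j + (a :: A).length := by rw [List.length_cons]; omega
    have e2 : L ++ [a] ++ A = L ++ a :: A := by simp
    rw [e1, e2]

end

end Pool.Agent.Helper61.Jack
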