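import Pool.Agent.Helper61.Jack.A11

/-!
# The integral symmetrised polynomial and its leading coefficient
-/

set_option autoImplicit false

open MvPolynomial Finset

namespace Pool.Agent.Helper61.Jack

noncomputable section

/-! ### A rigidity lemma -/

lemma hts_split {N k t : ℕ} (hk : k ≤ N) (c : ℕ → ℕ) :
    hts N k t c = hts N 0 t c + ∑ i ∈ range k, (if t ≤ c i then 1 else 0) := by
  unfold hts
  have h1 : ∑ i ∈ range k, (if t ≤ c i then 1 else 0) =
      ∑ i ∈ range N, (if i < k then (if t ≤ c i then 1 else 0) else 0) := by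
    rw [← Finset.sum_filter (fun i => i < k)]
    congr 1
    ext i
    simp only [mem_filter, mem_range]
    omega
  rw [h1, ← sum_add_distrib]
  apply sum_congr rfl
  intro i _
  simp only [Nat.not_lt_zero, if_false]
  split_ifs <;> omega

lemma sum_Ico_split {m N : ℕ} (ℓ : ℕ) (h : m + ℓ ≤ N) (G : ℕ → ℕ) :
    ∑ k ∈ Ico m N, G k = ∑ i ∈ range ℓ, G (m + i) + ∑ k ∈ Ico (m + ℓ) N, G k := by
  rw [← Finset.sum_Ico_consecutive G (show m ≤ m + ℓ by omega) h]
  congr 1
  rw [Finset.sum_Ico_eq_sum_range]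
  simp

lemma rigid {N m ℓ : ℕ} (hM : m + ℓ ≤ N) {e d c e' : ℕ → ℕ}
    (he1 : ∀ i, i < ℓ → 1 ≤ e (m + i)) (hemono : ∀ i j, i ≤ j → j < ℓ → e (m + i) ≤ e (m + j))
    (he0 : ∀ k, m + ℓ ≤ k → e k = 0)
    (he'1 : ∀ i, i < ℓ → e' i = e (m + i) - 1) (he'2 : ∀ i, i < m → e' (ℓ + i) = e i)
    (he'3 : ∀ k, m + ℓ ≤ k → e' k = 0)
    (hc1 : ∀ i, i < ℓ → 1 ≤ d (m + i) ∧ c i = d (m + i) - 1)
    (hc2 : ∀ i, i < m → c (ℓ + i) = d i) (hc3 : ∀ k, m + ℓ ≤ k → c k = d k)
    (hd : ∀ i, i < m → d i = e i)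
    (hG : ∀ G : ℕ → ℕ, ∑ k ∈ Ico m N, G (d k) = ∑ k ∈ Ico m N, G (e k))
    (hle : ∀ k, k ≤ ℓ → ∀ t, hts N k t c ≤ hts N k t e') :
    ∀ i, i < ℓ → d (m + i) = e (m + i) := by
  -- the zero entries
  have hd0 : ∀ k, m + ℓ ≤ k → k < N → d k = 0 := by
    have h1 := hG (fun x => if 1 ≤ x then 1 else 0)
    rw [sum_Ico_split ℓ hM, sum_Ico_split ℓ hM] at h1
    have h2 : ∑ i ∈ range ℓ, (if 1 ≤ d (m + i) then 1 else 0) =
        ∑ i ∈ range ℓ, (if 1 ≤ e (m + i) then 1 else 0) := by
      apply sum_congr rfl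
      intro i hi
      rw [mem_range] at hi
      rw [if_pos (hc1 i hi).1, if_pos (he1 i hi)]
    have h3 : ∑ k ∈ Ico (m + ℓ) N, (if 1 ≤ e k then 1 else 0) = 0 := by
      apply sum_eq_zero
      intro k hk
      rw [mem_Ico] at hk
      rw [he0 k hk.1, if_neg (by omega)]
    rw [h2, h3] at h1
    have h4 : ∑ k ∈ Ico (m + ℓ) N, (if 1 ≤ d k then 1 else 0) = 0 := by omega
    intro k hk hkN
    have h5 := (Finset.sum_eq_zero_iff.mp h4) k (mem_Ico.mpr ⟨hk, hkN⟩)
    by_contra h6
    rw [if_pos (by omega)] at h5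
    omega
  -- the total truncated sums
  have htot : ∀ t, hts N 0 t c = hts N 0 t e' := by
    intro t
    have h1 := hG (fun x => x - 1 - t)
    rw [sum_Ico_split ℓ hM, sum_Ico_split ℓ hM] at h1
    have h2 : ∑ k ∈ Ico (m + ℓ) N, (d k - 1 - t) = 0 := by
      apply sum_eq_zero
      intro k hk
      rw [mem_Ico] at hk
      rw [hd0 k hk.1 hk.2]; omega
    have h3 : ∑ k ∈ Ico (m + ℓ) N, (e k - 1 - t) = 0 := by
      apply sum_eq_zero
      intro k hk
      rw [mem_Ico] at hk
      rw [he0 k hk.1]; omega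
    rw [h2, h3, add_zero, add_zero] at h1
    have key : ∀ f : ℕ → ℕ, hts N 0 t f = ∑ i ∈ range ℓ, (f i - t) +
        ∑ i ∈ range m, (f (ℓ + i) - t) + ∑ k ∈ Ico (m + ℓ) N, (f k - t) := by
      intro f
      unfold hts
      simp only [Nat.not_lt_zero, if_false, add_zero]
      rw [← Nat.Ico_zero_eq_range, ← Finset.sum_Ico_consecutive _ (Nat.zero_le _) hM,
        ← Finset.sum_Ico_consecutive (fun i => f i - t) (Nat.zero_le ℓ) (show ℓ ≤ m + ℓ by omega)]
      congr 2
      · rw [Nat.Ico_zero_eq_range]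
      · rw [Finset.sum_Ico_eq_sum_range]
        simp
    rw [key c, key e']
    have a1 : ∑ i ∈ range ℓ, (c i - t) = ∑ i ∈ range ℓ, (d (m + i) - 1 - t) := by
      apply sum_congr rfl
      intro i hi
      rw [mem_range] at hi
      rw [(hc1 i hi).2]
    have a2 : ∑ i ∈ range ℓ, (e' i - t) = ∑ i ∈ range ℓ, (e (m + i) - 1 - t) := by
      apply sum_congr rfl
      intro i hi
      rw [mem_range] at hi
      rw [he'1 i hi]
    have a3 : ∑ i ∈ range m, (c (ℓ + i) - t) = ∑ i ∈ range m, (e' (ℓ + i) - t) := by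
      apply sum_congr rfl
      intro i hi
      rw [mem_range] at hi
      rw [hc2 i hi, he'2 i hi, hd i hi]
    have a4 : ∑ k ∈ Ico (m + ℓ) N, (c k - t) = ∑ k ∈ Ico (m + ℓ) N, (e' k - t) := by
      apply sum_congr rfl
      intro k hk
      rw [mem_Ico] at hk
      rw [hc3 k hk.1, he'3 k hk.1, hd0 k hk.1 hk.2]
    rw [a1, a2, a3, a4, h1]
  intro i
  induction i using Nat.strong_induction_on with
  | _ i ih =>
  intro hi
  rcases lt_trichotomy (d (m + i)) (e (m + i)) with hlt | heq | hgt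
  · exfalso
    set v := d (m + i) with hv
    have h1 := hG (fun x => if 1 ≤ x ∧ x ≤ v then 1 else 0)
    have hiN : m + i ≤ N := by omega
    rw [sum_Ico_split i hiN, sum_Ico_split i hiN] at h1
    have h2 : ∑ j ∈ range i, (if 1 ≤ d (m + j) ∧ d (m + j) ≤ v then 1 else 0) =
        ∑ j ∈ range i, (if 1 ≤ e (m + j) ∧ e (m + j) ≤ v then 1 else 0) := by
      apply sum_congr rfl
      intro j hj
      rw [mem_range] at hj
      rw [ih j hj (by omega)]
    have h3 : ∑ k ∈ Ico (m + i) N, (if 1 ≤ e k ∧ e k ≤ v then 1 else 0) = 0 := by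
      apply sum_eq_zero
      intro k hk
      rw [mem_Ico] at hk
      by_cases hkM : k < m + ℓ
      · have := hemono i (k - m) (by omega) (by omega)
        rw [Nat.add_sub_cancel' (by omega)] at this
        rw [if_neg (by omega)]
      · rw [he0 k (by omega), if_neg (by omega)]
    rw [h2, h3] at h1
    have h4 : ∑ k ∈ Ico (m + i) N, (if 1 ≤ d k ∧ d k ≤ v then 1 else 0) = 0 := by omega
    have h5 := (Finset.sum_eq_zero_iff.mp h4) (m + i) (mem_Ico.mpr ⟨le_rfl, by omega⟩)
    rw [if_pos ⟨(hc1 i hi).1, le_rfl⟩] at h5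
    omega
  · exact heq
  · exfalso
    have h1 := hle (i + 1) (by omega) (d (m + i) - 1)
    rw [hts_split (k := i + 1) (c := c) (by omega), hts_split (k := i + 1) (c := e') (by omega),
      htot, sum_range_succ, sum_range_succ] at h1
    have h2 : ∑ x ∈ range i, (if d (m + i) - 1 ≤ c x then 1 else 0) =
        ∑ x ∈ range i, (if d (m + i) - 1 ≤ e' x then 1 else 0) := by
      apply sum_congr rfl
      intro x hx
      rw [mem_range] at hx
      rw [(hc1 x (by omega)).2, he'1 x (by omega), ih x hx (by omega)]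
    rw [h2, if_pos (by rw [(hc1 i hi).2]), if_neg (by rw [he'1 i hi]; have := he1 i hi; omega)] at h1
    omega

variable {R : Type*} [CommRing R] {N : ℕ} {α : R}

/-- Supports after rotations. -/
lemma coeff_PhiI_ne {μ : ℕ} (j : ℕ) (hj : j ≤ μ + 1) (f : MvPolynomial ℕ R) (d : ℕ →₀ ℕ)
    (h : coeff d (PhiI μ j f) ≠ 0) : ∃ c : ℕ →₀ ℕ, coeff c f ≠ 0 ∧
      (∀ i, i < j → 1 ≤ d (μ + 1 - j + i) ∧ c i = d (μ + 1 - j + i) - 1) ∧
      (∀ i, i < μ + 1 - j → c (j + i) = d i) ∧ (∀ i, μ < i → c i = d i) := by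
  induction j generalizing d with
  | zero =>
    refine ⟨d, h, fun i hi => absurd hi (by omega), ?_, fun i _ => rfl⟩
    intro i _
    rw [zero_add]
  | succ j ih =>
    rw [PhiI_succ', coeff_Phi] at h
    by_cases hdm : d μ = 0
    · rw [if_pos hdm] at h; exact absurd rfl h
    · rw [if_neg hdm] at h
      obtain ⟨c, hc, h1, h2, h3⟩ := ih (by omega) _ h
      refine ⟨c, hc, ?_, ?_, ?_⟩
      · intro i hi
        by_cases hij : i < j
        · have := h1 i hij
          rw [unrot_apply, if_neg (by omega), if_pos (by omega),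
            show μ + 1 - j + i - 1 = μ + 1 - (j + 1) + i by omega] at this
          exact this
        · have hij' : i = j := by omega
          subst hij'
          have := h2 0 (by omega)
          rw [add_zero, unrot_apply, if_pos rfl] at this
          rw [show μ + 1 - (i + 1) + i = μ by omega]
          exact ⟨by omega, this⟩
      · intro i hi
        have := h2 (i + 1) (by omega)
        rw [unrot_apply, if_neg (by omega), if_pos (by omega), Nat.add_sub_cancel] at this
        rw [← this]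
        congr 1
        omega
      · intro i hi
        rw [h3 i hi, unrot_apply, if_neg (by omega), if_neg (by omega)]

lemma CC_succ' (m j : ℕ) (f : MvPolynomial ℕ R) :
    CC N m (j + 1) f = Cn N m (CC N (m + 1) j f) := by
  induction j generalizing f with
  | zero => rfl
  | succ j ih =>
    rw [CC_succ, ih, CC_succ (m := m + 1), show m + 1 + j = m + (j + 1) by omega]

lemma coeff_Cn (n : ℕ) (f : MvPolynomial ℕ R) (d : ℕ →₀ ℕ) :
    coeff d (Cn N n f) = coeff d f + ∑ k ∈ Ico (n + 1) N, coeff (pm (Equiv.swap n k) d) f := by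
  rw [Cn_apply, coeff_add, coeff_sum]
  congr 1
  apply sum_congr rfl
  intro k _
  rw [coeff_sw]

/-- Supports after the operators `C_n`. -/
lemma coeff_CC_ne {m : ℕ} (r : ℕ) : ∀ s, m ≤ s → s + r ≤ N → ∀ (h : MvPolynomial ℕ R)
    (d : ℕ →₀ ℕ), coeff d (CC N s r h) ≠ 0 → ∃ d' : ℕ →₀ ℕ, coeff d' h ≠ 0 ∧
      (∀ i, i < s → d' i = d i) ∧
      (∀ G : ℕ → ℕ, ∑ k ∈ Ico m N, G (d' k) = ∑ k ∈ Ico m N, G (d k)) := by
  induction r with
  | zero =>
    intro s _ _ h d hd
    exact ⟨d, hd, fun i _ => rfl, fun G => rfl⟩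
  | succ r ih =>
    intro s hs hsN h d hd
    rw [CC_succ', coeff_Cn] at hd
    have : coeff d (CC N (s + 1) r h) ≠ 0 ∨ ∃ k ∈ Ico (s + 1) N,
        coeff (pm (Equiv.swap s k) d) (CC N (s + 1) r h) ≠ 0 := by
      by_contra hcon
      push Not at hcon
      apply hd
      rw [hcon.1, zero_add]
      exact sum_eq_zero hcon.2
    rcases this with h1 | ⟨k, hk, h1⟩
    · obtain ⟨d', h2, h3, h4⟩ := ih (s + 1) (by omega) (by omega) h d h1
      exact ⟨d', h2, fun i hi => h3 i (by omega), h4⟩
    · rw [mem_Ico] at hk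
      obtain ⟨d', h2, h3, h4⟩ := ih (s + 1) (by omega) (by omega) h _ h1
      refine ⟨d', h2, ?_, ?_⟩
      · intro i hi
        rw [h3 i (by omega), pm_swap_apply, Equiv.swap_apply_of_ne_of_ne (by omega) (by omega)]
      · intro G
        rw [h4 G]
        refine Finset.sum_bij' (fun l _ => Equiv.swap s k l) (fun l _ => Equiv.swap s k l)
          ?_ ?_ ?_ ?_ ?_
        · intro l hl
          rw [mem_Ico] at *
          rw [Equiv.swap_apply_def]; split_ifs <;> omega
        · intro l hl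
          rw [mem_Ico] at *
          rw [Equiv.swap_apply_def]; split_ifs <;> omega
        · intro l _; simp
        · intro l _; simp
        · intro l _
          rw [pm_swap_apply]

/-- The number of ways. -/
def cnt (N : ℕ) (e : ℕ →₀ ℕ) (p : ℕ) : ℕ := ((Ico p N).filter (fun k => e k = e p)).card

lemma pm_swap_eq_self {i j : ℕ} {e : ℕ →₀ ℕ} (h : e i = e j) : pm (Equiv.swap i j) e = e := by
  ext k
  rw [pm_swap_apply, Equiv.swap_apply_def]
  split_ifs with h1 h2
  · rw [h1, h]
  · rw [h2, h]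
  · rfl

/-- The leading coefficient of `CC`. -/
lemma coeff_CC_eq {m M : ℕ} {h : MvPolynomial ℕ R} {e : ℕ →₀ ℕ}
    (hU : ∀ d' : ℕ →₀ ℕ, coeff d' h ≠ 0 → (∀ i, i < m → d' i = e i) →
      (∀ G : ℕ → ℕ, ∑ k ∈ Ico m N, G (d' k) = ∑ k ∈ Ico m N, G (e k)) →
      ∀ i, i < M → d' i = e i) : ∀ r s, m ≤ s → s + r = M → M ≤ N →
    coeff e (CC N s r h) = ((∏ i ∈ range r, cnt N e (s + i) : ℕ) : R) * coeff e h := by
  intro r
  induction r with
  | zero => intro s _ _ _; simp
  | succ r ih =>
    intro s hs hsr hM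
    rw [CC_succ', coeff_Cn, ih (s + 1) (by omega) (by omega) hM]
    have h1 : ∀ k ∈ Ico (s + 1) N, coeff (pm (Equiv.swap s k) e) (CC N (s + 1) r h) =
        if e k = e s then ((∏ i ∈ range r, cnt N e (s + 1 + i) : ℕ) : R) * coeff e h else 0 := by
      intro k hk
      rw [mem_Ico] at hk
      by_cases hks : e k = e s
      · rw [if_pos hks, pm_swap_eq_self hks.symm, ih (s + 1) (by omega) (by omega) hM]
      · rw [if_neg hks]
        by_contra hne
        obtain ⟨d', h2, h3, h4⟩ := coeff_CC_ne (m := m) r (s + 1) (by omega) (by omega) h _ hne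
        have h5 := hU d' h2 ?_ ?_ s (by omega)
        · rw [h3 s (by omega), pm_swap_apply, Equiv.swap_apply_left] at h5
          exact hks h5
        · intro i hi
          rw [h3 i (by omega), pm_swap_apply,
            Equiv.swap_apply_of_ne_of_ne (by omega) (by omega)]
        · intro G
          rw [h4 G]
          refine Finset.sum_bij' (fun l _ => Equiv.swap s k l) (fun l _ => Equiv.swap s k l)
            ?_ ?_ ?_ ?_ ?_
          · intro l hl
            rw [mem_Ico] at *
            rw [Equiv.swap_apply_def]; split_ifs <;> omega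
          · intro l hl
            rw [mem_Ico] at *
            rw [Equiv.swap_apply_def]; split_ifs <;> omega
          · intro l _; simp
          · intro l _; simp
          · intro l _
            rw [pm_swap_apply]
    rw [sum_congr rfl h1, ← Finset.sum_filter, sum_const, ← Nat.cast_smul_eq_nsmul R,
      prod_range_succ', add_zero]
    have h2 : cnt N e s = ((Ico (s + 1) N).filter (fun k => e k = e s)).card + 1 := by
      unfold cnt
      have : Ico s N = insert s (Ico (s + 1) N) := by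
        ext k; simp only [mem_insert, mem_Ico]; omega
      rw [this, filter_insert, if_pos rfl, card_insert_of_notMem (by simp)]
    have h3 : ∏ i ∈ range r, cnt N e (s + (i + 1)) = ∏ i ∈ range r, cnt N e (s + 1 + i) := by
      apply prod_congr rfl
      intro i _
      congr 1
      omega
    rw [h2, h3]
    push_cast
    simp only [smul_eq_mul]
    ring

end

end Pool.Agent.Helper61.Jack
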