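import Pool.Agent.Helper61.Jack.A10
import Pool.Agent.Helper61.Jack.A12

/-!
# Construction of the integral polynomial
-/

set_option autoImplicit false

open MvPolynomial Finset

namespace Pool.Agent.Helper61.Jack

noncomputable section

variable {R : Type*} [CommRing R] {N : ℕ} {α : R}

lemma sw_Asym_disj {q r i j : ℕ} (hi : i < q ∨ q + r ≤ i) (hj : j < q ∨ q + r ≤ j)
    (f : MvPolynomial ℕ R) : sw i j (Asym q r f) = Asym q r (sw i j f) := by
  refine Asym_intertwine (sw i j).toLinearMap q q r ?_ f
  intro a b ha hb f
  show sw i j (sw (q + a) (q + b) f) = sw (q + a) (q + b) (sw i j f)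
  rw [act_sw (Equiv.swap i j) (q + a) (q + b),
    Equiv.swap_apply_of_ne_of_ne (a := i) (b := j) (x := q + a) (by omega) (by omega),
    Equiv.swap_apply_of_ne_of_ne (a := i) (b := j) (x := q + b) (by omega) (by omega)]

lemma Asym_Symm_comm {q r q' r' : ℕ} (h : q + r ≤ q') (f : MvPolynomial ℕ R) :
    Asym q r (Symm q' r' f) = Symm q' r' (Asym q r f) := by
  refine Symm_intertwine (Asym q r) q' q' r' ?_ f
  intro a b ha hb f
  exact (sw_Asym_disj (by omega) (by omega) f).symm

lemma PhiI_sw_block' {μ ℓ m a b : ℕ} (hqr : ℓ + m = μ + 1) (ha : a < m) (hb : b < m)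
    (f : MvPolynomial ℕ R) :
    PhiI μ ℓ (sw (ℓ + a) (ℓ + b) f) = sw (0 + a) (0 + b) (PhiI μ ℓ f) := by
  rw [PhiI_eq μ ℓ (by omega), PhiI_eq μ ℓ (by omega), act_sw, zero_add, zero_add,
    rot_pow ℓ (by omega) (ℓ + a) (by omega), rot_pow ℓ (by omega) (ℓ + b) (by omega),
    if_pos (by omega), if_pos (by omega), Nat.add_sub_cancel_left, Nat.add_sub_cancel_left,
    map_mul, map_prod]
  congr 1
  apply prod_congr rfl
  intro k hk
  rw [mem_Ico] at hk
  rw [rename_X, Equiv.swap_apply_of_ne_of_ne (by omega) (by omega)]

lemma BSym.PhiI {μ : ℕ} (j : ℕ) {f : MvPolynomial ℕ R} (hf : BSym (μ + 1) N f) :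
    BSym (μ + 1) N (PhiI μ j f) := by
  induction j with
  | zero => exact hf
  | succ j ih =>
    rw [PhiI_succ']
    exact BSym.Phi ih

/-- The exponent of the superpartition. -/
def exW (A F : List ℕ) : ℕ →₀ ℕ := ex (F.reverse ++ A.reverse.map Nat.succ)

lemma inc_le {L : List ℕ} (hL : L.Pairwise (· ≤ ·)) {i j : ℕ} (hij : i ≤ j) (hj : j < L.length) :
    L.getD i 0 ≤ L.getD j 0 := by
  rw [List.getD_eq_getElem _ _ hj, List.getD_eq_getElem _ _ (show i < L.length by omega)]
  rcases Nat.lt_or_ge i j with h | h
  · exact List.pairwise_iff_getElem.mp hL i j (by omega) hj h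
  · have : i = j := by omega
    subst this
    exact le_rfl

theorem W_exists [IsDomain R] [CharZero R] (hα : Gen α) (A F : List ℕ)
    (hA : A.Pairwise (· ≥ ·)) (hF : F.Pairwise (· < ·)) (hN : A.length + F.length < N) :
    ∃ W : MvPolynomial ℕ R,
      Asym 0 F.length (CC N F.length A.length (Jk N α (A.map Nat.succ ++ F))) =
        (prodS N α A F * PT α ↑A 0 F) • W ∧
      BSym F.length N W ∧
      coeff (exW A F) W = ((∏ i ∈ range A.length, cnt N (exW A F) (F.length + i) : ℕ) : R) *
        VV α A F [] := by
  rcases Nat.eq_zero_or_pos (A.length + F.length) with h0 | hpos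
  · have hA0 : A = [] := List.eq_nil_of_length_eq_zero (by omega)
    have hF0 : F = [] := List.eq_nil_of_length_eq_zero (by omega)
    subst hA0 hF0
    refine ⟨1, ?_, ?_, ?_⟩
    · simp [prodS, PT]
    · intro i j _ _ _ _; simp
    · simp [VV, bos, fer, exW, ex, coeff_one]
  · obtain ⟨K, hK1, hK2⟩ := divis (N := N) hα _ A F [] hF (by simpa using hN) rfl
    simp only [List.nil_append, Multiset.coe_nil] at hK1 hK2
    rw [List.reverse_append] at hK2
    set ℓ := A.length with hℓ
    set m := F.length with hm
    obtain ⟨μ, hμ⟩ : ∃ μ, ℓ + m = μ + 1 := ⟨ℓ + m - 1, by omega⟩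
    have hPT : PT α (↑A) 0 F ≠ 0 := PT_ne_zero hα _ _ _ hF
    -- symmetry of K
    have hKs : BSym (μ + 1) N K := by
      intro i j hi hiN hj hjN
      have h1 : BSym (F ++ A).length N (Jk N α (F ++ A)) :=
        (isE_Jk (F ++ A) (by rw [List.length_append]; omega)).sym
      rw [List.length_append] at h1
      have h2 : PT α (↑A) 0 F • sw i j K = PT α (↑A) 0 F • K := by
        rw [← map_smul, ← hK1, sw_Asym_disj (by omega) (by omega),
          h1 i j (by omega) hiN (by omega) hjN]
      exact smul_right_injective _ hPT h2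
    have hsup : PSup (Le N (fun k => k ≤ ℓ) (ex (A.reverse ++ F.reverse))) K := by
      have h8 : PSup (Le N (fun _ => True) (ex (F ++ A).reverse)) (Jk N α (F ++ A)) :=
        PSup_Jk _ (by rw [List.length_append]; omega)
      rw [List.reverse_append] at h8
      have h9 : PSup (Le N (fun k => k ≤ ℓ) (ex (A.reverse ++ F.reverse))) (Jk N α (F ++ A)) :=
        h8.mono (fun d hd => ⟨hd.out, hd.tot, fun k _ t => hd.sd k trivial t⟩)
      have h10 := PSup.Asym m (by omega) (q := ℓ) (fun k hk => Or.inl hk) h9
      rw [hK1] at h10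
      exact PSup.of_smul hPT h10
    set h := PhiI μ ℓ K with hh
    have hhs : BSym (m + ℓ) N h := by
      rw [show m + ℓ = μ + 1 by omega]
      exact BSym.PhiI ℓ hKs
    have hJs : BSym (m + ℓ) N (Jk N α (A.map Nat.succ ++ F)) := by
      have := (isE_Jk (N := N) (α := α) (A.map Nat.succ ++ F)
        (by rw [List.length_append, List.length_map]; omega)).sym
      rw [List.length_append, List.length_map] at this
      rwa [show m + ℓ = ℓ + m by omega]
    have hfac : (Nat.factorial (N - m) : R) ≠ 0 := by
      exact_mod_cast Nat.factorial_ne_zero _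
    refine ⟨CC N m ℓ h, ?_, hhs.CC, ?_⟩
    · have e1 := fact_CC (m := m) (j := ℓ) (by omega) hJs
      have e2 := fact_CC (m := m) (j := ℓ) (by omega) hhs
      have e3 := Symm_multi (N := N) (m := m) (μ := μ) (α := α) (by omega) A F 0 (by omega)
        (by omega)
      rw [PhiI_zero, zero_add] at e3
      have e4 : Asym 0 m (PhiI μ ℓ (Jk N α (F ++ A))) = PhiI μ ℓ (Asym ℓ m (Jk N α (F ++ A))) :=
        (Asym_intertwine (PhiI μ ℓ) ℓ 0 m
          (fun a b ha hb f => PhiI_sw_block' hμ ha hb f) _).symm
      have e5 : (Nat.factorial (N - m) : R) • Asym 0 m (CC N m ℓ (Jk N α (A.map Nat.succ ++ F))) =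
          (Nat.factorial (N - m) : R) • ((prodS N α A F * PT α ↑A 0 F) • CC N m ℓ h) := by
        rw [← map_smul, e1, map_smul, e3, map_smul, Asym_Symm_comm (by omega), e4, hK1, map_smul,
          map_smul, smul_comm (Nat.factorial (N - m) : R) (prodS N α A F * PT α ↑A 0 F), e2]
        simp only [smul_smul]
        congr 1
        ring
      exact smul_right_injective _ hfac e5
    · have hlenF : F.reverse.length = m := by rw [List.length_reverse]
      have hlenA : A.reverse.length = ℓ := by rw [List.length_reverse]
      have hArev : A.reverse.Pairwise (· ≤ ·) := by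
        rw [List.pairwise_reverse]; exact hA
      have he : ∀ i, i < ℓ → exW A F (m + i) = A.reverse.getD i 0 + 1 := by
        intro i hi
        have := getD_block (A' := F.reverse) (T := A.reverse) (i := i) (by omega)
        rw [hlenF] at this
        exact this
      have he0 : ∀ k, m + ℓ ≤ k → exW A F k = 0 := by
        intro k hk
        apply ex_out
        rw [List.length_append, List.length_map, hlenF, hlenA]
        exact hk
      have hem : ∀ i, i < m → exW A F i = F.reverse.getD i 0 := by
        intro i hi
        show (F.reverse ++ A.reverse.map Nat.succ).getD i 0 = _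
        rw [List.getD_append _ _ _ _ (by omega)]
      have hcK : coeff (exW A F) h = VV α A F [] := by
        have := coeff_PhiI (m := μ) A.reverse F.reverse (by omega) K
        rw [hlenA] at this
        rw [hh, exW, this, hK2]
      rw [← hcK]
      refine coeff_CC_eq (m := m) (M := m + ℓ) ?_ ℓ m le_rfl rfl (by omega)
      intro d' hd' hdm hG i hi
      by_cases him : i < m
      · exact hdm i him
      · obtain ⟨c, hc, h1, h2, h3⟩ := coeff_PhiI_ne ℓ (by omega) K d' hd'
        rw [show μ + 1 - ℓ = m by omega] at h1 h2
        have hle := hsup c hc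
        have := rigid (N := N) (m := m) (ℓ := ℓ) (by omega) (e := exW A F) (d := d') (c := c)
          (e' := ex (A.reverse ++ F.reverse))
          (fun i hi => by rw [he i hi]; omega)
          (fun i j hij hj => by
            rw [he i (by omega), he j hj]
            have := inc_le hArev hij (by omega)
            omega)
          he0
          (fun i hi => by
            rw [he i hi, ex_apply, List.getD_append _ _ _ _ (by omega)]
            omega)
          (fun i hi => by
            rw [hem i hi, ex_apply, List.getD_append_right _ _ _ _ (by omega)]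
            rw [hlenA, Nat.add_sub_cancel_left])
          (fun k hk => by
            apply ex_out
            rw [List.length_append, hlenF, hlenA]
            omega)
          h1 h2 (fun k hk => h3 k (by omega)) hdm hG
          (fun k hk t => hle.sd k hk t) (i - m) (by omega)
        rw [Nat.add_sub_cancel' (by omega)] at this
        exact this

end

end Pool.Agent.Helper61.Jack
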