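import Pool.Agent.Helper61.Jack.A1

/-!
# The rotation operator and nonsymmetric eigenfunctions
-/

set_option autoImplicit false

open MvPolynomial Finset

namespace Pool.Agent.Helper61.Jack

noncomputable section

variable {R : Type*} [CommRing R] [IsDomain R]

/-- The rotation `0 ↦ m`, `i ↦ i - 1` for `1 ≤ i ≤ m`. -/
def rot (m : ℕ) : Equiv.Perm ℕ where
  toFun i := if i = 0 then m else if i ≤ m then i - 1 else i
  invFun i := if i = m then 0 else if i < m then i + 1 else i
  left_inv i := by
    show (if (if i = 0 then m else if i ≤ m then i - 1 else i) = m then 0 else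
      if (if i = 0 then m else if i ≤ m then i - 1 else i) < m then
      (if i = 0 then m else if i ≤ m then i - 1 else i) + 1 else
      (if i = 0 then m else if i ≤ m then i - 1 else i)) = i
    by_cases h0 : i = 0
    · rw [if_pos h0, if_pos rfl, h0]
    · rw [if_neg h0]
      by_cases h1 : i ≤ m
      · rw [if_pos h1, if_neg (by omega), if_pos (by omega)]; omega
      · rw [if_neg h1, if_neg (by omega), if_neg (by omega)]
  right_inv i := by
    show (if (if i = m then 0 else if i < m then i + 1 else i) = 0 then m else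
      if (if i = m then 0 else if i < m then i + 1 else i) ≤ m then
      (if i = m then 0 else if i < m then i + 1 else i) - 1 else
      (if i = m then 0 else if i < m then i + 1 else i)) = i
    by_cases h0 : i = m
    · rw [if_pos h0, if_pos rfl, h0]
    · rw [if_neg h0]
      by_cases h1 : i < m
      · rw [if_pos h1, if_neg (by omega), if_pos (by omega)]; omega
      · rw [if_neg h1, if_neg (by omega), if_neg (by omega)]

lemma rot_apply (m i : ℕ) : rot m i = if i = 0 then m else if i ≤ m then i - 1 else i := rfl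

@[simp] lemma rot_zero (m : ℕ) : rot m 0 = m := by simp [rot_apply]

lemma rot_succ {m i : ℕ} (h : i < m) : rot m (i + 1) = i := by
  rw [rot_apply, if_neg (by omega), if_pos (by omega)]; omega

lemma rot_gt {m i : ℕ} (h : m < i) : rot m i = i := by
  rw [rot_apply, if_neg (by omega), if_neg (by omega)]

lemma rot_lt {m N : ℕ} (h : m < N) (k : ℕ) : rot m k < N ↔ k < N := by
  rw [rot_apply]; split_ifs <;> omega

lemma swap_lt {i j N : ℕ} (hi : i < N) (hj : j < N) (k : ℕ) : Equiv.swap i j k < N ↔ k < N := by
  rw [Equiv.swap_apply_def]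
  split_ifs with h1 h2
  · subst h1; simp [hi, hj]
  · subst h2; simp [hi, hj]
  · rfl

/-- `f ↦ x_m f(x_m, x_0, …, x_{m-1}; x_{m+1}, …)`. -/
def Phi (m : ℕ) : MvPolynomial ℕ R →ₗ[R] MvPolynomial ℕ R :=
  (LinearMap.mulLeft R (X m)).comp (act (rot m)).toLinearMap

omit [IsDomain R] in
lemma Phi_apply (m : ℕ) (f : MvPolynomial ℕ R) : Phi m f = X m * act (rot m) f := rfl

/-- Symmetric in the variables `x_M, …, x_{N-1}`. -/
def BSym (M N : ℕ) (f : MvPolynomial ℕ R) : Prop :=
  ∀ i j, M ≤ i → i < N → M ≤ j → j < N → sw i j f = f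

omit [IsDomain R] in
lemma sw_Phi_of_gt {m i j : ℕ} (hi : m < i) (hj : m < j) (f : MvPolynomial ℕ R) :
    sw i j (Phi m f) = Phi m (sw i j f) := by
  rw [Phi_apply, Phi_apply, map_mul, rename_X, act_sw, rot_gt hi, rot_gt hj,
    Equiv.swap_apply_of_ne_of_ne (by omega) (by omega)]

omit [IsDomain R] in
lemma BSym.Phi {m N : ℕ} {f : MvPolynomial ℕ R} (hf : BSym (m + 1) N f) :
    BSym (m + 1) N (Phi m f) := by
  intro i j hi hiN hj hjN
  rw [sw_Phi_of_gt (by omega) (by omega), hf i j hi hiN hj hjN]

variable {N : ℕ} {α : R}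

lemma xi_Phi_lt {m i : ℕ} (hi : i < m) (hm : m < N) (f : MvPolynomial ℕ R) :
    xi N α i (Phi m f) = Phi m (xi N α (i + 1) f) := by
  rw [xi_apply, xi_apply, Phi_apply, Dop_X_other α (by omega) hm, Phi_apply, map_sub, map_sum,
    sum_range_succ']
  have h1 : Dop N α i (act (rot m) f) = act (rot m) (Dop N α (i + 1) f) := by
    rw [act_Dop α (rot_lt hm), rot_succ hi]
  have h2 : sw m i (act (rot m) f) = act (rot m) (sw (i + 1) 0 f) := by
    rw [act_sw, rot_succ hi, rot_zero, sw_comm]
  have h3 : ∀ j ∈ range i, sw i j (X m * act (rot m) f) =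
      X m * act (rot m) (sw (i + 1) (j + 1) f) := by
    intro j hj
    rw [mem_range] at hj
    rw [map_mul, rename_X, Equiv.swap_apply_of_ne_of_ne (by omega) (by omega), act_sw, rot_succ hi,
      rot_succ (by omega)]
  rw [sum_congr rfl h3, ← mul_sum, h1, h2]
  ring

lemma range_erase_eq {m N : ℕ} (hm : m < N) : (range N).erase m = range m ∪ Ico (m + 1) N := by
  ext k; simp only [mem_erase, mem_range, mem_union, mem_Ico]; omega

lemma xi_Phi_self {m : ℕ} (hm : m < N) (f : MvPolynomial ℕ R) :
    xi N α m (Phi m f) = Phi m (xi N α 0 f) + α • Phi m f +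
      ∑ k ∈ Ico (m + 1) N, sw m k (Phi m f) := by
  rw [xi_apply, xi_apply, Phi_apply, Dop_X_self, Phi_apply, range_erase_eq hm,
    sum_union (by
      rw [disjoint_left]; intro k; simp only [mem_range, mem_Ico]; omega)]
  have h1 : Dop N α m (act (rot m) f) = act (rot m) (Dop N α 0 f) := by
    rw [act_Dop α (rot_lt hm), rot_zero]
  rw [h1]
  simp only [range_zero, sum_empty, sub_zero]
  ring

lemma xi_Phi_gt {m v : ℕ} (hv : m < v) (hvN : v < N) (f : MvPolynomial ℕ R) :
    xi N α v (Phi m f) = Phi m (xi N α v f) - sw v m (Phi m f) := by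
  have hm : m < N := by omega
  rw [xi_apply, xi_apply, Phi_apply, Dop_X_other α (by omega) hm, Phi_apply, map_sub, map_sum]
  have h1 : Dop N α v (act (rot m) f) = act (rot m) (Dop N α v f) := by
    rw [act_Dop α (rot_lt hm), rot_gt hv]
  have h2 : sw m v (act (rot m) f) = act (rot m) (sw v 0 f) := by
    rw [act_sw, rot_gt hv, rot_zero, sw_comm]
  have hmem : m ∈ range v := mem_range.mpr hv
  have hmem0 : 0 ∈ range v := mem_range.mpr (by omega)
  rw [← add_sum_erase _ _ hmem, ← add_sum_erase _ (fun j => act (rot m) (sw v j f)) hmem0]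
  have h3 : ∑ j ∈ (range v).erase m, sw v j (X m * act (rot m) f) =
      X m * ∑ j ∈ (range v).erase 0, act (rot m) (sw v j f) := by
    rw [mul_sum]
    symm
    refine Finset.sum_bij' (fun j _ => rot m j) (fun j _ => (rot m).symm j) ?_ ?_ ?_ ?_ ?_
    · intro j hj
      rw [mem_erase, mem_range] at *
      refine ⟨fun h => hj.1 ?_, (rot_lt hv j).mpr hj.2⟩
      rw [← rot_zero m] at h
      exact (rot m).injective h
    · intro j hj
      rw [mem_erase, mem_range] at *
      refine ⟨fun h => hj.1 ?_, ?_⟩
      · rw [Equiv.symm_apply_eq, rot_zero] at h; exact h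
      · rw [← rot_lt hv]; simpa using hj.2
    · intro j _; simp
    · intro j _; simp
    · intro j hj
      rw [mem_erase, mem_range] at hj
      have hjm : rot m j ≠ m := by
        intro h; rw [← rot_zero m] at h; exact hj.1 ((rot m).injective (by simpa using h))
      have hne : m ≠ rot m j := Ne.symm hjm
      rw [map_mul, rename_X, Equiv.swap_apply_of_ne_of_ne (by omega) hne, act_sw, rot_gt hv]
  rw [h3, h1, h2]
  ring

/-- The rotation operator on block functions. -/
def Aop (N m : ℕ) (y : R) : MvPolynomial ℕ R →ₗ[R] MvPolynomial ℕ R :=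
  (y + ((m + 1 : ℕ) : R)) • Phi m + ∑ k ∈ Ico (m + 1) N, (sw m k).toLinearMap.comp (Phi m)

omit [IsDomain R] in
lemma Aop_apply (N m : ℕ) (y : R) (f : MvPolynomial ℕ R) :
    Aop N m y f = (y + ((m + 1 : ℕ) : R)) • Phi m f + ∑ k ∈ Ico (m + 1) N, sw m k (Phi m f) := by
  simp [Aop, LinearMap.sum_apply]

omit [IsDomain R] in
lemma sw_sw_of_BSym {m k j : ℕ} {g : MvPolynomial ℕ R} (hg : BSym (m + 1) N g) (hk : m < k)
    (hkN : k < N) (hj : m < j) (hjN : j < N) :
    sw j k (sw m j g) = sw m k g := by
  rw [act_sw, Equiv.swap_apply_left, Equiv.swap_apply_of_ne_of_ne (by omega) (by omega),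
    hg j k hj hjN hk hkN]

omit [IsDomain R] in
lemma BSym.Aop {m : ℕ} {f : MvPolynomial ℕ R} (hf : BSym (m + 1) N f) (y : R) :
    BSym (m + 1) N (Aop N m y f) := by
  intro i j hi hiN hj hjN
  have hg := hf.Phi
  rw [Aop_apply, map_add, map_smul, map_sum, hg i j hi hiN hj hjN]
  congr 1
  refine Finset.sum_bij' (fun k _ => Equiv.swap i j k) (fun k _ => Equiv.swap i j k) ?_ ?_ ?_ ?_ ?_
  · intro k hk
    rw [mem_Ico] at *
    refine ⟨?_, (swap_lt hiN hjN k).mpr hk.2⟩
    rw [Equiv.swap_apply_def]; split_ifs <;> omega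
  · intro k hk
    rw [mem_Ico] at *
    refine ⟨?_, (swap_lt hiN hjN k).mpr hk.2⟩
    rw [Equiv.swap_apply_def]; split_ifs <;> omega
  · intro k _; simp
  · intro k _; simp
  · intro k _
    rw [act_sw, hg i j hi hiN hj hjN, Equiv.swap_apply_of_ne_of_ne (by omega) (by omega)]

/-- Joint eigenfunction for the block `[0, M)`, with zero rows outside of the block. -/
structure IsE (N : ℕ) (α : R) (M : ℕ) (e : ℕ → R) (f : MvPolynomial ℕ R) : Prop where
  eig : ∀ i, i < M → xi N α i f = e i • f
  sym : BSym M N f
  last : M < N → xi N α M f = -(M : R) • f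

lemma xi_sw_last {m k : ℕ} {g : MvPolynomial ℕ R} (hg : BSym (m + 1) N g) (hk : m < k)
    (hkN : k < N) (h : xi N α k g = -(k : R) • g - sw k m g) :
    xi N α m (sw m k g) = -((m + 1 : ℕ) : R) • sw m k g := by
  have h1 : Dop N α m (sw m k g) = sw m k (Dop N α k g) := by
    rw [act_Dop α (swap_lt (by omega) hkN), Equiv.swap_apply_right]
  have h2 : ∀ j ∈ range m, sw m j (sw m k g) = sw m k (sw k j g) := by
    intro j hj
    rw [mem_range] at hj
    rw [act_sw (Equiv.swap m k) k j, Equiv.swap_apply_right,
      Equiv.swap_apply_of_ne_of_ne (by omega) (by omega)]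
  rw [xi_apply, h1, sum_congr rfl h2, ← map_sum, ← map_sub]
  rw [xi_apply] at h
  have h3 : ∑ j ∈ range k, sw k j g = ∑ j ∈ range m, sw k j g + sw k m g +
      ((k - (m + 1) : ℕ) : R) • g := by
    have : range k = range (m + 1) ∪ Ico (m + 1) k := by
      ext j; simp only [mem_range, mem_union, mem_Ico]; omega
    rw [this, sum_union (by
      rw [disjoint_left]; intro k; simp only [mem_range, mem_Ico]; omega), sum_range_succ]
    congr 1
    rw [sum_congr rfl (g := fun _ => g) (by
      intro j hj; rw [mem_Ico] at hj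
      exact hg k j (by omega) hkN hj.1 (by omega))]
    rw [sum_const, Nat.card_Ico, ← Nat.cast_smul_eq_nsmul R]
  have h4 : Dop N α k g - ∑ j ∈ range m, sw k j g = -((m + 1 : ℕ) : R) • g := by
    have h5 : Dop N α k g = -(k : R) • g - sw k m g + ∑ j ∈ range k, sw k j g := by
      rw [← h]; ring
    rw [h5, h3]
    have hc : ((k - (m + 1) : ℕ) : R) = (k : R) - ((m + 1 : ℕ) : R) := by
      rw [Nat.cast_sub (by omega)]
    rw [hc, sub_smul]
    simp only [neg_smul]
    abel
  rw [h4, map_smul]

/-- The main step: rotation of an eigenfunction. -/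
theorem IsE.rotate {m : ℕ} (hm : m < N) {e : ℕ → R} {f : MvPolynomial ℕ R}
    (hf : IsE N α (m + 1) e f) :
    IsE N α (m + 1) (fun i => if i < m then e (i + 1) else e 0 + α) (Aop N m (e 0 + α) f) := by
  set y := e 0 + α with hy
  set g := Phi m f with hgdef
  have hg : BSym (m + 1) N g := hf.sym.Phi
  have hxm : xi N α m g = y • g + ∑ k ∈ Ico (m + 1) N, sw m k g := by
    rw [hgdef, xi_Phi_self hm, hf.eig 0 (by omega), map_smul, ← add_smul]
  -- eigenvalues of `f` at all outer positions
  have hout : ∀ v, m + 1 ≤ v → v < N → xi N α v f = -(v : R) • f := by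
    intro v hv
    induction v, hv using Nat.le_induction with
    | base => intro h; exact hf.last h
    | succ v hv ih =>
      intro hvN
      have ih := ih (by omega)
      have hs : sw v (v + 1) f = f := hf.sym v (v + 1) hv (by omega) (by omega) hvN
      have h1 : Dop N α (v + 1) f = sw v (v + 1) (Dop N α v f) := by
        rw [act_Dop α (swap_lt (by omega) hvN), Equiv.swap_apply_left, hs]
      have h2 : ∀ j ∈ range v, sw (v + 1) j f = sw v (v + 1) (sw v j f) := by
        intro j hj
        rw [mem_range] at hj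
        rw [act_sw (Equiv.swap v (v + 1)) v j, Equiv.swap_apply_left,
          Equiv.swap_apply_of_ne_of_ne (by omega) (by omega), hs]
      rw [xi_apply, sum_range_succ, h1, sum_congr rfl h2, ← map_sum, sw_comm (v + 1) v, hs,
        ← sub_sub, ← map_sub, ← xi_apply, ih, map_smul, hs]
      push_cast
      rw [neg_add, add_smul]
      simp only [neg_smul, one_smul]
      abel
  have hxv : ∀ v, m < v → v < N → xi N α v g = -(v : R) • g - sw v m g := by
    intro v hv hvN
    rw [hgdef, xi_Phi_gt hv hvN, hout v hv hvN, map_smul]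
  refine ⟨?_, hf.sym.Aop _, ?_⟩
  · intro i hi
    by_cases him : i < m
    · rw [if_pos him, Aop_apply, map_add, map_smul, map_sum, ← hgdef]
      have h1 : xi N α i g = e (i + 1) • g := by
        rw [hgdef, xi_Phi_lt him hm, hf.eig (i + 1) (by omega), map_smul]
      have h2 : ∀ k ∈ Ico (m + 1) N, xi N α i (sw m k g) = e (i + 1) • sw m k g := by
        intro k hk
        rw [mem_Ico] at hk
        have h3 : Dop N α i (sw m k g) = sw m k (Dop N α i g) := by
          rw [act_Dop α (swap_lt hm hk.2), Equiv.swap_apply_of_ne_of_ne (by omega) (by omega)]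
        have h4 : ∀ j ∈ range i, sw i j (sw m k g) = sw m k (sw i j g) := by
          intro j hj
          rw [mem_range] at hj
          rw [act_sw (Equiv.swap m k) i j, Equiv.swap_apply_of_ne_of_ne (by omega) (by omega),
            Equiv.swap_apply_of_ne_of_ne (by omega) (by omega)]
        rw [xi_apply, h3, sum_congr rfl h4, ← map_sum, ← map_sub, ← xi_apply, h1, map_smul]
      rw [h1, sum_congr rfl h2, smul_add, smul_sum, smul_comm]
    · have : i = m := by omega
      subst this
      rw [if_neg him, Aop_apply, map_add, map_smul, map_sum, ← hgdef, hxm]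
      have h2 : ∀ k ∈ Ico (i + 1) N, xi N α i (sw i k g) = -((i + 1 : ℕ) : R) • sw i k g := by
        intro k hk
        rw [mem_Ico] at hk
        exact xi_sw_last hg (by omega) hk.2 (hxv k (by omega) hk.2)
      rw [sum_congr rfl h2, ← smul_sum]
      module
  · intro hMN
    rw [Aop_apply, ← hgdef, map_add, map_smul, map_sum]
    have hmem : m + 1 ∈ Ico (m + 1) N := mem_Ico.mpr ⟨le_rfl, hMN⟩
    have hIco : (Ico (m + 1) N).erase (m + 1) = Ico (m + 2) N := by
      ext k; simp only [mem_erase, mem_Ico]; omega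
    rw [← add_sum_erase _ _ hmem, hIco, ← add_sum_erase _ (fun k => sw m k g) hmem, hIco]
    rw [← add_sum_erase _ _ hmem, hIco] at hxm
    have h1 : xi N α (m + 1) g = -((m + 1 : ℕ) : R) • g - sw m (m + 1) g := by
      rw [hxv (m + 1) (by omega) hMN, sw_comm]
    -- `ξ_M g_M`
    have h2 : xi N α (m + 1) (sw m (m + 1) g) =
        y • sw m (m + 1) g + ∑ k ∈ Ico (m + 2) N, sw m k g := by
      have h3 : Dop N α (m + 1) (sw m (m + 1) g) = sw m (m + 1) (Dop N α m g) := by
        rw [act_Dop α (swap_lt hm hMN), Equiv.swap_apply_left]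
      have h4 : ∀ j ∈ range m, sw (m + 1) j (sw m (m + 1) g) = sw m (m + 1) (sw m j g) := by
        intro j hj
        rw [mem_range] at hj
        rw [act_sw (Equiv.swap m (m + 1)) m j, Equiv.swap_apply_left,
          Equiv.swap_apply_of_ne_of_ne (by omega) (by omega)]
      have h5 : ∀ k ∈ Ico (m + 2) N, sw m (m + 1) (sw m k g) = sw m k g := by
        intro k hk
        rw [mem_Ico] at hk
        rw [act_sw (Equiv.swap m (m + 1)) m k, Equiv.swap_apply_left,
          Equiv.swap_apply_of_ne_of_ne (by omega) (by omega)]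
        exact sw_sw_of_BSym hg (by omega) hk.2 (by omega) hMN
      rw [xi_apply, sum_range_succ, h3, sum_congr rfl h4, ← map_sum, ← sub_sub, ← map_sub,
        ← xi_apply, hxm, map_add, map_add, map_smul, map_sum, sum_congr rfl h5, sw_comm (m + 1) m,
        sw_sw]
      abel
    have h6 : ∀ k ∈ Ico (m + 2) N, xi N α (m + 1) (sw m k g) = -((m + 2 : ℕ) : R) • sw m k g := by
      intro k hk
      rw [mem_Ico] at hk
      have h3 : Dop N α (m + 1) (sw m k g) = sw m k (Dop N α (m + 1) g) := by
        rw [act_Dop α (swap_lt hm hk.2), Equiv.swap_apply_of_ne_of_ne (by omega) (by omega)]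
      have h4 : ∀ j ∈ range m, sw (m + 1) j (sw m k g) = sw m k (sw (m + 1) j g) := by
        intro j hj
        rw [mem_range] at hj
        rw [act_sw (Equiv.swap m k) (m + 1) j, Equiv.swap_apply_of_ne_of_ne (by omega) (by omega),
          Equiv.swap_apply_of_ne_of_ne (by omega) (by omega)]
      have h5 : sw (m + 1) m (sw m k g) = sw m k g := by
        have := act_sw (Equiv.swap m k) (m + 1) k g
        rw [Equiv.swap_apply_right, Equiv.swap_apply_of_ne_of_ne (by omega) (by omega)] at this
        rw [← this, hg (m + 1) k (by omega) hMN (by omega) hk.2]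
      rw [xi_apply, sum_range_succ, h3, sum_congr rfl h4, h5, ← map_sum]
      have h7 : Dop N α (m + 1) g - ∑ j ∈ range m, sw (m + 1) j g =
          -((m + 1 : ℕ) : R) • g := by
        rw [xi_apply, sum_range_succ, sw_comm m (m + 1)] at h1
        have := congrArg (fun z => z + sw (m + 1) m g) h1
        simp only [sub_add_cancel] at this
        rw [← this]; abel
      rw [← sub_sub, ← map_sub, h7, map_smul]
      push_cast
      simp only [neg_add, add_smul, neg_smul, one_smul]
      have : (2 : R) • sw m k g = sw m k g + sw m k g := by rw [two_smul]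
      rw [this]
      abel
    rw [h1, h2, sum_congr rfl h6, ← smul_sum]
    push_cast
    module

end

end Pool.Agent.Helper61.Jack
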