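import Pool.Agent.Helper61.Jack.A2

/-!
# Integral nonsymmetric Jack polynomials and antisymmetrisation
-/

set_option autoImplicit false

open MvPolynomial Finset

namespace Pool.Agent.Helper61.Jack

noncomputable section

variable {R : Type*} [CommRing R] [IsDomain R]

section eig

variable {N : ℕ} {α : R}

lemma IsE.out {M : ℕ} {e : ℕ → R} {f : MvPolynomial ℕ R} (hf : IsE N α M e f) :
    ∀ v, M ≤ v → v < N → xi N α v f = -(v : R) • f := by
  intro v hv
  induction v, hv using Nat.le_induction with
  | base => intro h; exact hf.last h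
  | succ v hv ih =>
    intro hvN
    have ih := ih (by omega)
    have hs : sw v (v + 1) f = f := hf.sym v (v + 1) hv (by omega) (by omega) hvN
    have h1 : Dop N α (v + 1) f = sw v (v + 1) (Dop N α v f) := by
      rw [act_Dop α (swap_lt (by omega) hvN), Equiv.swap_apply_left, hs]
    have h2 : ∀ j ∈ range v, sw (v + 1) j f = sw v (v + 1) (sw v j f) := by
      intro j hj
      rw [mem_range] at hj
      rw [act_sw (Equiv.swap v (v + 1)) v j, Equiv.swap_apply_left,
        Equiv.swap_apply_of_ne_of_ne (by omega) (by omega), hs]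
    rw [xi_apply, sum_range_succ, h1, sum_congr rfl h2, ← map_sum, sw_comm (v + 1) v, hs,
      ← sub_sub, ← map_sub, ← xi_apply, ih, map_smul, hs]
    push_cast
    module

/-- Spectral value of the row `i` of the composition `L`. -/
def evL (α : R) (L : List ℕ) (i : ℕ) : R :=
  (L.getD i 0 : R) * α - ((L.take i).countP (L.getD i 0 ≤ ·) : R)
    - ((L.drop (i + 1)).countP (L.getD i 0 < ·) : R)

/-- Spectral value of the last row (of length `v`), the other rows being the entries of `l`. -/
def evH (α : R) (v : ℕ) (l : List ℕ) : R := (v : R) * α - (l.countP (v ≤ ·) : R)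

/-- The integral nonsymmetric Jack polynomial of the composition `l.reverse`. -/
def Jk (N : ℕ) (α : R) : List ℕ → MvPolynomial ℕ R
  | [] => 1
  | 0 :: l => Jk N α l
  | (t + 1) :: l => Aop N l.length (evH α (t + 1) l) (Jk N α (l ++ [t]))
termination_by l => l.sum + l.length
decreasing_by all_goals (simp; try omega)

omit [IsDomain R] in
@[simp] lemma Jk_nil : Jk N α [] = 1 := by rw [Jk]
omit [IsDomain R] in
@[simp] lemma Jk_zero (l : List ℕ) : Jk N α (0 :: l) = Jk N α l := by rw [Jk]
omit [IsDomain R] in
lemma Jk_succ (t : ℕ) (l : List ℕ) :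
    Jk N α ((t + 1) :: l) = Aop N l.length (evH α (t + 1) l) (Jk N α (l ++ [t])) := by rw [Jk]

lemma xi_one (i : ℕ) : xi N α i (1 : MvPolynomial ℕ R) = -(i : R) • 1 := by
  rw [xi_apply, Dop_apply]
  have h1 : ∀ j ∈ (range N).erase i, X j * dd i j (1 : MvPolynomial ℕ R) = 0 := by
    intro j hj
    rw [mem_erase] at hj
    rw [dd_unique (Ne.symm hj.1) (q := 0) (by simp), mul_zero]
  rw [sum_congr rfl h1]
  simp only [map_one, sum_const_zero, sum_const, card_range]
  rw [pderiv_one, mul_zero, smul_zero, ← Nat.cast_smul_eq_nsmul R]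
  module

omit [IsDomain R] in
lemma evL_append_zero {L : List ℕ} {i : ℕ} (hi : i < L.length) :
    evL α (L ++ [0]) i = evL α L i := by
  unfold evL
  have h1 : (L ++ [0]).getD i 0 = L.getD i 0 := by
    rw [List.getD_append _ _ _ _ hi]
  rw [h1, List.take_append_of_le_length hi.le, List.drop_append_of_le_length (by omega),
    List.countP_append]
  simp

omit [IsDomain R] in
lemma evL_append_last (L : List ℕ) (v : ℕ) : evL α (L ++ [v]) L.length = evH α v L := by
  unfold evL evH
  simp

omit [IsDomain R] in
lemma evH_reverse (v : ℕ) (l : List ℕ) : evH α v l.reverse = evH α v l := by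
  unfold evH
  rw [List.countP_reverse]

omit [IsDomain R] in
lemma evL_rotate_lt {L : List ℕ} {t i : ℕ} (hi : i < L.length) :
    evL α (L ++ [t + 1]) i = evL α (t :: L) (i + 1) := by
  unfold evL
  have h1 : (L ++ [t + 1]).getD i 0 = L.getD i 0 := by
    rw [List.getD_append _ _ _ _ hi]
  rw [h1, List.take_append_of_le_length hi.le, List.drop_append_of_le_length (by omega),
    List.countP_append, List.getD_cons_succ, List.take_succ_cons, List.drop_succ_cons]
  simp only [List.countP_cons, List.countP_nil, Nat.lt_succ_iff]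
  push_cast
  ring

omit [IsDomain R] in
lemma evL_cons_zero (L : List ℕ) (t : ℕ) : evL α (t :: L) 0 + α = evH α (t + 1) L := by
  unfold evL evH
  simp only [List.getD_cons_zero, List.take_zero, List.countP_nil, List.drop_succ_cons,
    List.drop_zero]
  have : (fun x => decide (t < x)) = (fun x => decide (t + 1 ≤ x)) := by
    funext x; rfl
  rw [this]
  push_cast
  ring

/-- `Jk l` is a joint eigenfunction of the operators `xi`. -/
theorem isE_Jk (l : List ℕ) (hl : l.length ≤ N) :
    IsE N α l.length (evL α l.reverse) (Jk N α l) := by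
  match l with
  | [] =>
    rw [Jk_nil]
    refine ⟨fun i hi => absurd hi (by simp), ?_, ?_⟩
    · intro i j _ _ _ _; simp
    · intro _; exact xi_one 0
  | 0 :: l =>
    rw [Jk_zero]
    have ih := isE_Jk l (by simp at hl; omega)
    have hlN : l.length < N := by simp at hl; omega
    refine ⟨?_, ?_, ?_⟩
    · intro i hi
      rw [List.length_cons] at hi
      rw [List.reverse_cons]
      by_cases h : i < l.length
      · rw [ih.eig i h, evL_append_zero (by simpa using h)]
      · have : i = l.length := by omega
        subst this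
        rw [ih.last hlN]
        have := evL_append_last (α := α) l.reverse 0
        rw [List.length_reverse] at this
        rw [this, evH_reverse]
        unfold evH
        simp
    · intro i j hi hiN hj hjN
      exact ih.sym i j (by simp at hi; omega) hiN (by simp at hj; omega) hjN
    · intro h
      exact ih.out _ (by simp) h
  | (t + 1) :: l =>
    rw [Jk_succ]
    have ih := isE_Jk (l ++ [t]) (by simpa using hl)
    have hlen : (l ++ [t]).length = l.length + 1 := by simp
    rw [hlen] at ih
    have hlN : l.length < N := by simp at hl; omega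
    have h := ih.rotate hlN
    have hrev : (l ++ [t]).reverse = t :: l.reverse := by simp
    rw [hrev, evL_cons_zero, evH_reverse] at h
    rw [List.length_cons]
    refine ⟨?_, h.sym, h.last⟩
    intro i hi
    rw [h.eig i hi]
    congr 1
    rw [List.reverse_cons]
    by_cases h : i < l.length
    · rw [if_pos h, evL_rotate_lt (by simpa using h)]
    · have : i = l.length := by omega
      subst this
      rw [if_neg h]
      have := evL_append_last (α := α) l.reverse (t + 1)
      rw [List.length_reverse, evH_reverse] at this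
      rw [this]
termination_by l.sum + l.length
decreasing_by all_goals (simp; try omega)

end eig

section asym

/-- `f - ∑_{q ≤ i < q + r} s_{i, q + r} f`. -/
def Nn (q r : ℕ) : MvPolynomial ℕ R →ₗ[R] MvPolynomial ℕ R :=
  LinearMap.id - ∑ i ∈ Ico q (q + r), (sw i (q + r)).toLinearMap

omit [IsDomain R] in
lemma Nn_apply (q r : ℕ) (f : MvPolynomial ℕ R) :
    Nn q r f = f - ∑ i ∈ Ico q (q + r), sw i (q + r) f := by
  simp [Nn, LinearMap.sum_apply]

/-- Antisymmetrisation over the positions `q, …, q + r - 1`. -/
def Asym (q : ℕ) : ℕ → (MvPolynomial ℕ R →ₗ[R] MvPolynomial ℕ R)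
  | 0 => LinearMap.id
  | r + 1 => (Nn q r).comp (Asym q r)

omit [IsDomain R] in
@[simp] lemma Asym_zero (q : ℕ) (f : MvPolynomial ℕ R) : Asym q 0 f = f := rfl
omit [IsDomain R] in
lemma Asym_succ (q r : ℕ) (f : MvPolynomial ℕ R) : Asym q (r + 1) f = Nn q r (Asym q r f) := rfl

omit [IsDomain R] in
/-- Intertwining: a linear map which intertwines the swaps intertwines the antisymmetrisers. -/
lemma Asym_intertwine (T : MvPolynomial ℕ R →ₗ[R] MvPolynomial ℕ R) (q q' : ℕ) (r : ℕ)
    (h : ∀ a b, a < r → b < r → ∀ f, T (sw (q + a) (q + b) f) = sw (q' + a) (q' + b) (T f))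
    (f : MvPolynomial ℕ R) : T (Asym q r f) = Asym q' r (T f) := by
  induction r generalizing f with
  | zero => rfl
  | succ r ih =>
    rw [Asym_succ, Asym_succ, Nn_apply, Nn_apply, map_sub, map_sum,
      ih (fun a b ha hb f => h a b (by omega) (by omega) f)]
    congr 1
    have e1 : ∀ (q : ℕ) (G : ℕ → MvPolynomial ℕ R),
        ∑ i ∈ Ico q (q + r), G i = ∑ a ∈ range r, G (q + a) := by
      intro q G
      rw [Finset.sum_Ico_eq_sum_range]
      simp
    rw [e1, e1]
    apply sum_congr rfl
    intro a ha
    rw [mem_range] at ha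
    rw [h a r (by omega) (by omega), ih (fun a b ha hb f => h a b (by omega) (by omega) f)]

omit [IsDomain R] in
/-- Antisymmetry of the result. -/
lemma sw_Asym (q r : ℕ) : ∀ (i j : ℕ), q ≤ i → i < q + r → q ≤ j → j < q + r → i ≠ j →
    ∀ f : MvPolynomial ℕ R, sw i j (Asym q r f) = -Asym q r f := by
  induction r with
  | zero => intro i j hi hi'; omega
  | succ r ih =>
    -- the case of `j = q + r`
    have key : ∀ j, q ≤ j → j < q + r → ∀ f : MvPolynomial ℕ R,
        sw j (q + r) (Asym q (r + 1) f) = -Asym q (r + 1) f := by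
      intro j hj hj' f
      rw [Asym_succ, Nn_apply]
      set g := Asym q r f with hg
      have hmem : j ∈ Ico q (q + r) := mem_Ico.mpr ⟨hj, hj'⟩
      rw [← add_sum_erase _ _ hmem]
      rw [map_sub, map_add, map_sum, sw_sw]
      have h1 : ∀ i ∈ (Ico q (q + r)).erase j, sw j (q + r) (sw i (q + r) g) =
          -sw i (q + r) g := by
        intro i hi
        rw [mem_erase, mem_Ico] at hi
        have h2 : sw i (q + r) (sw i j g) = sw (q + r) j (sw i (q + r) g) := by
          rw [act_sw (Equiv.swap i (q + r)) i j, Equiv.swap_apply_left,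
            Equiv.swap_apply_of_ne_of_ne (by omega) (by omega)]
        rw [ih i j hi.2.1 hi.2.2 hj hj' hi.1, map_neg] at h2
        rw [sw_comm j (q + r), ← h2]
      rw [sum_congr rfl h1, sum_neg_distrib]
      abel
    intro i j hi hi' hj hj' hij f
    by_cases h1 : i = q + r
    · subst h1
      rw [sw_comm]
      exact key j hj (by omega) f
    · by_cases h2 : j = q + r
      · subst h2
        exact key i hi (by omega) f
      · have hi2 : i < q + r := by omega
        have hj2 : j < q + r := by omega
        rw [Asym_succ, Nn_apply, map_sub, map_sum, ih i j hi hi2 hj hj2 hij]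
        have : ∑ k ∈ Ico q (q + r), sw i j (sw k (q + r) (Asym q r f)) =
            -∑ k ∈ Ico q (q + r), sw k (q + r) (Asym q r f) := by
          rw [← sum_neg_distrib]
          refine Finset.sum_bij' (fun k _ => Equiv.swap i j k) (fun k _ => Equiv.swap i j k)
            ?_ ?_ ?_ ?_ ?_
          · intro k hk
            rw [mem_Ico] at *
            rw [Equiv.swap_apply_def]; split_ifs <;> omega
          · intro k hk
            rw [mem_Ico] at *
            rw [Equiv.swap_apply_def]; split_ifs <;> omega
          · intro k _; simp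
          · intro k _; simp
          · intro k _
            rw [act_sw, ih i j hi hi2 hj hj2 hij, map_neg,
              Equiv.swap_apply_of_ne_of_ne (a := i) (b := j) (x := q + r) (by omega) (by omega)]
        rw [this]
        abel

omit [IsDomain R] in
lemma Nn_sw {q r i j : ℕ} (hi : q ≤ i) (hi' : i < q + r) (hj : q ≤ j) (hj' : j < q + r)
    (f : MvPolynomial ℕ R) : Nn q r (sw i j f) = sw i j (Nn q r f) := by
  rw [Nn_apply, Nn_apply, map_sub, map_sum]
  congr 1
  refine Finset.sum_bij' (fun k _ => Equiv.swap i j k) (fun k _ => Equiv.swap i j k)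
    ?_ ?_ ?_ ?_ ?_
  · intro k hk
    rw [mem_Ico] at *
    rw [Equiv.swap_apply_def]; split_ifs <;> omega
  · intro k hk
    rw [mem_Ico] at *
    rw [Equiv.swap_apply_def]; split_ifs <;> omega
  · intro k _; simp
  · intro k _; simp
  · intro k _
    have h := act_sw (Equiv.swap i j) (Equiv.swap i j k) (q + r) f
    rw [Equiv.swap_apply_self,
      Equiv.swap_apply_of_ne_of_ne (a := i) (b := j) (x := q + r) (by omega) (by omega)] at h
    exact h.symm

omit [IsDomain R] in
lemma Asym_succ' (q r : ℕ) (f : MvPolynomial ℕ R) : Asym q (r + 1) f = Asym q r (Nn q r f) := by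
  rw [Asym_succ]
  exact Asym_intertwine (Nn q r) q q r
    (fun a b ha hb f => Nn_sw (by omega) (by omega) (by omega) (by omega) f) f

omit [IsDomain R] in
/-- Antisymmetry in the argument. -/
lemma Asym_sw (q r : ℕ) : ∀ (i j : ℕ), q ≤ i → i < q + r → q ≤ j → j < q + r → i ≠ j →
    ∀ f : MvPolynomial ℕ R, Asym q r (sw i j f) = -Asym q r f := by
  induction r with
  | zero => intro i j hi hi'; omega
  | succ r ih =>
    have key : ∀ j, q ≤ j → j < q + r → ∀ f : MvPolynomial ℕ R,
        Asym q (r + 1) (sw j (q + r) f) = -Asym q (r + 1) f := by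
      intro j hj hj' f
      have hmem : j ∈ Ico q (q + r) := mem_Ico.mpr ⟨hj, hj'⟩
      rw [Asym_succ', Asym_succ', Nn_apply, Nn_apply, ← add_sum_erase _ _ hmem,
        ← add_sum_erase _ (fun i => sw i (q + r) f) hmem, sw_sw]
      simp only [map_sub, map_add, map_sum]
      have h1 : ∀ i ∈ (Ico q (q + r)).erase j, Asym q r (sw i (q + r) (sw j (q + r) f)) =
          -Asym q r (sw i (q + r) f) := by
        intro i hi
        rw [mem_erase, mem_Ico] at hi
        have h2 : sw i (q + r) (sw j (q + r) f) = sw j i (sw i (q + r) f) := by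
          rw [act_sw (Equiv.swap i (q + r)) j (q + r), Equiv.swap_apply_right,
            Equiv.swap_apply_of_ne_of_ne (by omega) (by omega)]
        rw [h2, ih j i hj hj' hi.2.1 hi.2.2 (Ne.symm hi.1)]
      rw [sum_congr rfl h1, sum_neg_distrib]
      abel
    intro i j hi hi' hj hj' hij f
    by_cases h1 : i = q + r
    · subst h1
      rw [sw_comm]
      exact key j hj (by omega) f
    · by_cases h2 : j = q + r
      · subst h2
        exact key i hi (by omega) f
      · rw [Asym_succ, ih i j hi (by omega) hj (by omega) hij, map_neg, ← Asym_succ]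

lemma Asym_eq_zero [CharZero R] {q r i j : ℕ} (hi : q ≤ i) (hi' : i < q + r) (hj : q ≤ j)
    (hj' : j < q + r) (hij : i ≠ j) {f : MvPolynomial ℕ R} (hf : sw i j f = f) :
    Asym q r f = 0 := by
  have h := Asym_sw q r i j hi hi' hj hj' hij f
  rw [hf] at h
  exact self_eq_neg.mp h

end asym

end

end Pool.Agent.Helper61.Jack
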