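import Pool.Agent.Helper61.Jack.A3

/-!
# The identity `∏ (ξ_i - z) N' G = ∏ (ξ_i - z - 1) G` in the degenerate affine Hecke algebra
-/

set_option autoImplicit false

open MvPolynomial Finset

namespace Pool.Agent.Helper61.Jack

noncomputable section

variable {R : Type*} [CommRing R] [IsDomain R] {N : ℕ} {α : R}

lemma xi_sw_far {a b j : ℕ} (ha : a < N) (hb : b < N) (h : (j < a ∧ j < b) ∨ (a < j ∧ b < j))
    (f : MvPolynomial ℕ R) : xi N α j (sw a b f) = sw a b (xi N α j f) := by
  have hj : Equiv.swap a b j = j := Equiv.swap_apply_of_ne_of_ne (by omega) (by omega)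
  have h1 : Dop N α j (sw a b f) = sw a b (Dop N α j f) := by
    rw [act_Dop α (swap_lt ha hb), hj]
  rw [xi_apply, xi_apply, h1, map_sub, map_sum]
  congr 1
  refine Finset.sum_bij' (fun k _ => Equiv.swap a b k) (fun k _ => Equiv.swap a b k)
    ?_ ?_ ?_ ?_ ?_
  · intro k hk
    rw [mem_range] at *
    rw [Equiv.swap_apply_def]; split_ifs <;> omega
  · intro k hk
    rw [mem_range] at *
    rw [Equiv.swap_apply_def]; split_ifs <;> omega
  · intro k _; simp
  · intro k _; simp
  · intro k _
    have h := act_sw (Equiv.swap a b) j (Equiv.swap a b k) f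
    rw [Equiv.swap_apply_self, hj] at h
    exact h.symm

lemma xi_sw_left {i : ℕ} (hi : i + 1 < N) (f : MvPolynomial ℕ R) :
    xi N α i (sw i (i + 1) f) = sw i (i + 1) (xi N α (i + 1) f) + f := by
  have h1 : Dop N α i (sw i (i + 1) f) = sw i (i + 1) (Dop N α (i + 1) f) := by
    rw [act_Dop α (swap_lt (by omega) hi), Equiv.swap_apply_right]
  have h2 : ∀ j ∈ range i, sw i j (sw i (i + 1) f) = sw i (i + 1) (sw (i + 1) j f) := by
    intro j hj
    rw [mem_range] at hj
    rw [act_sw (Equiv.swap i (i + 1)) (i + 1) j, Equiv.swap_apply_right,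
      Equiv.swap_apply_of_ne_of_ne (by omega) (by omega)]
  rw [xi_apply, xi_apply, h1, sum_congr rfl h2, sum_range_succ, sw_comm (i + 1) i, map_sub,
    map_add, sw_sw, map_sum]
  abel

lemma xi_sw_right {i : ℕ} (hi : i + 1 < N) (f : MvPolynomial ℕ R) :
    xi N α (i + 1) (sw i (i + 1) f) = sw i (i + 1) (xi N α i f) - f := by
  have h1 : Dop N α (i + 1) (sw i (i + 1) f) = sw i (i + 1) (Dop N α i f) := by
    rw [act_Dop α (swap_lt (by omega) hi), Equiv.swap_apply_left]
  have h2 : ∀ j ∈ range i, sw (i + 1) j (sw i (i + 1) f) = sw i (i + 1) (sw i j f) := by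
    intro j hj
    rw [mem_range] at hj
    rw [act_sw (Equiv.swap i (i + 1)) i j, Equiv.swap_apply_left,
      Equiv.swap_apply_of_ne_of_ne (by omega) (by omega)]
  rw [xi_apply, xi_apply, h1, sum_range_succ, sum_congr rfl h2, sw_comm (i + 1) i, sw_sw, map_sub,
    map_sum]
  abel

/-- Words in the adjacent swaps applied to `J`. -/
def wordAct (w : List ℕ) (J : MvPolynomial ℕ R) : MvPolynomial ℕ R :=
  w.foldr (fun k g => sw k (k + 1) g) J

/-- The span of the permutations of `J`. -/
def Mod (N : ℕ) (J : MvPolynomial ℕ R) : Submodule R (MvPolynomial ℕ R) :=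
  Submodule.span R {f | ∃ w : List ℕ, (∀ k ∈ w, k + 1 < N) ∧ f = wordAct w J}

omit [IsDomain R] in
lemma self_mem_Mod (J : MvPolynomial ℕ R) : J ∈ Mod N J :=
  Submodule.subset_span ⟨[], by simp, rfl⟩

omit [IsDomain R] in
lemma Mod_adj {J v : MvPolynomial ℕ R} (hv : v ∈ Mod N J) {k : ℕ} (hk : k + 1 < N) :
    sw k (k + 1) v ∈ Mod N J := by
  unfold Mod at hv
  induction hv using Submodule.span_induction with
  | mem x hx =>
    obtain ⟨w, hw, rfl⟩ := hx
    refine Submodule.subset_span ⟨k :: w, ?_, rfl⟩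
    intro l hl
    rcases List.mem_cons.mp hl with h | h
    · rw [h]; exact hk
    · exact hw l h
  | zero => rw [map_zero]; exact Submodule.zero_mem _
  | add x y _ _ hx hy => rw [map_add]; exact Submodule.add_mem _ hx hy
  | smul c x _ hx => rw [map_smul]; exact Submodule.smul_mem _ _ hx

omit [IsDomain R] in
/-- Generation of the swaps by the adjacent swaps. -/
lemma swap_induction {P : ℕ → ℕ → Prop} {q n : ℕ}
    (hadj : ∀ k, q ≤ k → k + 1 < n → P k (k + 1))
    (hrefl : ∀ i, P i i)
    (hsymm : ∀ i j, P i j → P j i)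
    (hconj : ∀ i j, q ≤ i → i < j → j + 1 < n → P i j → P j (j + 1) → P i (j + 1)) :
    ∀ i j, q ≤ i → i < n → q ≤ j → j < n → P i j := by
  have key : ∀ d i, q ≤ i → i + d < n → P i (i + d) := by
    intro d
    induction d with
    | zero => intro i _ _; exact hrefl i
    | succ d ih =>
      intro i hi hid
      rcases Nat.eq_zero_or_pos d with h | h
      · subst h; exact hadj i hi hid
      · exact hconj i (i + d) hi (by omega) (by omega) (ih i hi (by omega))
          (hadj (i + d) (by omega) (by omega))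
  intro i j hi hi' hj hj'
  rcases le_total i j with h | h
  · obtain ⟨d, rfl⟩ := Nat.exists_eq_add_of_le h
    exact key d i hi (by omega)
  · obtain ⟨d, rfl⟩ := Nat.exists_eq_add_of_le h
    exact hsymm _ _ (key d j hj (by omega))

omit [IsDomain R] in
lemma sw_conj {i j : ℕ} (h : i < j) (f : MvPolynomial ℕ R) :
    sw i (j + 1) f = sw j (j + 1) (sw i j (sw j (j + 1) f)) := by
  rw [act_sw (Equiv.swap j (j + 1)) i j, sw_sw, Equiv.swap_apply_left,
    Equiv.swap_apply_of_ne_of_ne (by omega) (by omega)]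

omit [IsDomain R] in
lemma Mod_sw {J : MvPolynomial ℕ R} {i j : ℕ} (hi : i < N) (hj : j < N) :
    ∀ {v : MvPolynomial ℕ R}, v ∈ Mod N J → sw i j v ∈ Mod N J := by
  refine swap_induction (P := fun i j => ∀ {v : MvPolynomial ℕ R}, v ∈ Mod N J →
    sw i j v ∈ Mod N J) (q := 0) (n := N) ?_ ?_ ?_ ?_ i j (Nat.zero_le _) hi (Nat.zero_le _) hj
  · intro k _ hk v hv; exact Mod_adj hv hk
  · intro i v hv; rwa [sw_self]
  · intro i j h v hv; rw [sw_comm]; exact h hv
  · intro i j _ hij hj h1 h2 v hv
    rw [sw_conj hij]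
    exact h2 (h1 (h2 hv))

lemma Mod_xi {J : MvPolynomial ℕ R} {e : ℕ → R} (hJ : ∀ i, i < N → xi N α i J = e i • J)
    {v : MvPolynomial ℕ R} (hv : v ∈ Mod N J) : ∀ {i : ℕ}, i < N → xi N α i v ∈ Mod N J := by
  unfold Mod at hv
  induction hv using Submodule.span_induction with
  | mem x hx =>
    obtain ⟨w, hw, rfl⟩ := hx
    induction w with
    | nil =>
      intro i hi
      show xi N α i J ∈ _
      rw [hJ i hi]
      exact Submodule.smul_mem _ _ (self_mem_Mod J)
    | cons k w ih =>
      intro i hi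
      have hk : k + 1 < N := hw k (by simp)
      have hw' : ∀ k ∈ w, k + 1 < N := fun l hl => hw l (List.mem_cons_of_mem _ hl)
      have ih : ∀ {i : ℕ}, i < N → xi N α i (wordAct w J) ∈ Mod N J := ih hw'
      have hmem : wordAct w J ∈ Mod N J := Submodule.subset_span ⟨w, hw', rfl⟩
      show xi N α i (sw k (k + 1) (wordAct w J)) ∈ _
      by_cases h1 : i = k
      · subst h1
        rw [xi_sw_left hk]
        exact Submodule.add_mem _ (Mod_adj (ih hk) hk) hmem
      · by_cases h2 : i = k + 1
        · subst h2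
          rw [xi_sw_right hk]
          exact Submodule.sub_mem _ (Mod_adj (ih (by omega)) hk) hmem
        · rw [xi_sw_far (by omega) hk (by omega)]
          exact Mod_adj (ih hi) hk
  | zero => intro i _; rw [map_zero]; exact Submodule.zero_mem _
  | add x y _ _ hx hy => intro i hi; rw [map_add]; exact Submodule.add_mem _ (hx hi) (hy hi)
  | smul c x _ hx => intro i hi; rw [map_smul]; exact Submodule.smul_mem _ _ (hx hi)

/-- The operators `xi` commute on `Mod N J`. -/
lemma Mod_comm {J : MvPolynomial ℕ R} {e : ℕ → R} (hJ : ∀ i, i < N → xi N α i J = e i • J)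
    {v : MvPolynomial ℕ R} (hv : v ∈ Mod N J) : ∀ {i j : ℕ}, i < N → j < N →
      xi N α i (xi N α j v) = xi N α j (xi N α i v) := by
  unfold Mod at hv
  induction hv using Submodule.span_induction with
  | mem x hx =>
    obtain ⟨w, hw, rfl⟩ := hx
    induction w with
    | nil =>
      intro i j hi hj
      show xi N α i (xi N α j J) = xi N α j (xi N α i J)
      rw [hJ i hi, hJ j hj, map_smul, map_smul, hJ i hi, hJ j hj, smul_comm]
    | cons k w ih =>
      have hk : k + 1 < N := hw k (by simp)
      have hw' : ∀ k ∈ w, k + 1 < N := fun l hl => hw l (List.mem_cons_of_mem _ hl)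
      have ih : ∀ {i j : ℕ}, i < N → j < N →
        xi N α i (xi N α j (wordAct w J)) = xi N α j (xi N α i (wordAct w J)) := ih hw'
      have key : ∀ {i j : ℕ}, i < N → j < N → i < j →
          xi N α i (xi N α j (sw k (k + 1) (wordAct w J))) =
            xi N α j (xi N α i (sw k (k + 1) (wordAct w J))) := by
        set u := wordAct w J
        intro i j hi hj hij
        by_cases h1 : i = k
        · subst h1
          by_cases h2 : j = i + 1
          · subst h2
            rw [xi_sw_right hk, xi_sw_left hk, map_sub, map_add, xi_sw_left hk, xi_sw_right hk,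
              ih (i := i) (j := i + 1) (by omega) hk]
            abel
          · rw [xi_sw_left hk, xi_sw_far (by omega) hk (by omega), map_add, xi_sw_left hk,
              xi_sw_far (by omega) hk (by omega), ih (i := i + 1) (j := j) hk hj]
        · by_cases h2 : i = k + 1
          · subst h2
            rw [xi_sw_right hk, xi_sw_far (by omega) hk (by omega), map_sub, xi_sw_right hk,
              xi_sw_far (by omega) hk (by omega), ih (i := k) (j := j) (by omega) hj]
          · rw [xi_sw_far (j := i) (by omega) hk (by omega)]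
            by_cases h3 : j = k
            · subst h3
              rw [xi_sw_left hk, xi_sw_left hk, map_add, xi_sw_far (by omega) hk (by omega),
                ih (i := i) (j := j + 1) (by omega) hk]
            · by_cases h4 : j = k + 1
              · subst h4
                rw [xi_sw_right hk, xi_sw_right hk, map_sub, xi_sw_far (by omega) hk (by omega),
                  ih (i := i) (j := k) (by omega) (by omega)]
              · rw [xi_sw_far (j := j) (by omega) hk (by omega),
                  xi_sw_far (j := j) (by omega) hk (by omega),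
                  xi_sw_far (j := i) (by omega) hk (by omega), ih hi hj]
      intro i j hi hj
      rcases lt_trichotomy i j with h | h | h
      · exact key hi hj h
      · subst h; rfl
      · exact (key hj hi h).symm
  | zero => intro i j _ _; simp only [map_zero]
  | add x y _ _ hx hy => intro i j hi hj; simp only [map_add, hx hi hj, hy hi hj]
  | smul c x _ hx => intro i j hi hj; simp only [map_smul, hx hi hj]

/-- The product `∏_{q ≤ i < q + r} (ξ_i - z)`. -/
def Xop (N : ℕ) (α : R) (q : ℕ) (z : R) : ℕ → (MvPolynomial ℕ R →ₗ[R] MvPolynomial ℕ R)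
  | 0 => LinearMap.id
  | r + 1 => (Xop N α q z r).comp (xi N α (q + r) - z • LinearMap.id)

@[simp] lemma Xop_zero (q : ℕ) (z : R) (f : MvPolynomial ℕ R) : Xop N α q z 0 f = f := rfl

lemma Xop_succ (q : ℕ) (z : R) (r : ℕ) (f : MvPolynomial ℕ R) :
    Xop N α q z (r + 1) f = Xop N α q z r (xi N α (q + r) f - z • f) := rfl

lemma Xop_mem {J : MvPolynomial ℕ R} {e : ℕ → R} (hJ : ∀ i, i < N → xi N α i J = e i • J)
    (q : ℕ) (z : R) (r : ℕ) (hr : q + r ≤ N) : ∀ {v : MvPolynomial ℕ R}, v ∈ Mod N J →
      Xop N α q z r v ∈ Mod N J := by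
  induction r with
  | zero => intro v hv; exact hv
  | succ r ih =>
    intro v hv
    rw [Xop_succ]
    exact ih (by omega) (Submodule.sub_mem _ (Mod_xi hJ hv (by omega)) (Submodule.smul_mem _ _ hv))

lemma Xop_sw_out (q : ℕ) (z : R) (r : ℕ) {a b : ℕ} (ha : q + r ≤ a) (haN : a < N) (hb : q + r ≤ b)
    (hbN : b < N) (v : MvPolynomial ℕ R) :
    Xop N α q z r (sw a b v) = sw a b (Xop N α q z r v) := by
  induction r generalizing v with
  | zero => rfl
  | succ r ih =>
    rw [Xop_succ, Xop_succ, xi_sw_far haN hbN (by omega), ← map_smul, ← map_sub,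
      ih (by omega) (by omega)]

lemma Xop_adj {J : MvPolynomial ℕ R} {e : ℕ → R} (hJ : ∀ i, i < N → xi N α i J = e i • J)
    (q : ℕ) (z : R) (r : ℕ) (hr : q + r ≤ N) {k : ℕ} (hk : q ≤ k) (hk' : k + 1 < q + r) :
    ∀ {v : MvPolynomial ℕ R}, v ∈ Mod N J →
      Xop N α q z r (sw k (k + 1) v) = sw k (k + 1) (Xop N α q z r v) := by
  induction r with
  | zero => omega
  | succ r ih =>
    intro v hv
    by_cases h : k + 1 < q + r
    · rw [Xop_succ, Xop_succ, xi_sw_far (by omega) (by omega) (by omega), ← map_smul, ← map_sub,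
        ih (by omega) h]
      exact Submodule.sub_mem _ (Mod_xi hJ hv (by omega)) (Submodule.smul_mem _ _ hv)
    · obtain ⟨r', rfl⟩ : ∃ r', r = r' + 1 := ⟨r - 1, by omega⟩
      have hkr : k = q + r' := by omega
      subst hkr
      rw [Xop_succ, Xop_succ, Xop_succ, Xop_succ]
      rw [← Xop_sw_out q z r' (by omega) (by omega) (by omega) (by omega)]
      congr 1
      have e1 : q + (r' + 1) = q + r' + 1 := by omega
      rw [e1]
      have hc := Mod_comm hJ hv (i := q + r') (j := q + r' + 1) (by omega) (by omega)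
      simp only [map_sub, map_smul, xi_sw_right (show q + r' + 1 < N by omega),
        xi_sw_left (show q + r' + 1 < N by omega), smul_sub, smul_add, hc]
      abel

lemma Xop_sw {J : MvPolynomial ℕ R} {e : ℕ → R} (hJ : ∀ i, i < N → xi N α i J = e i • J)
    (q : ℕ) (z : R) (r : ℕ) (hr : q + r ≤ N) {i j : ℕ} (hi : q ≤ i) (hi' : i < q + r)
    (hj : q ≤ j) (hj' : j < q + r) :
    ∀ {v : MvPolynomial ℕ R}, v ∈ Mod N J →
      Xop N α q z r (sw i j v) = sw i j (Xop N α q z r v) := by
  refine swap_induction (P := fun i j => ∀ {v : MvPolynomial ℕ R}, v ∈ Mod N J →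
    Xop N α q z r (sw i j v) = sw i j (Xop N α q z r v)) (q := q) (n := q + r) ?_ ?_ ?_ ?_
    i j hi hi' hj hj'
  · intro k hk hk' v hv; exact Xop_adj hJ q z r hr hk hk' hv
  · intro i v hv; rw [sw_self, sw_self]
  · intro i j h v hv; rw [sw_comm]; exact h hv
  · intro i j hi hij hj h1 h2 v hv
    rw [sw_conj hij, sw_conj hij, h2 (Mod_sw (by omega) (by omega) (Mod_sw (by omega) (by omega) hv)),
      h1 (Mod_sw (by omega) (by omega) hv), h2 hv]

omit [IsDomain R] in
/-- `N'` recursion on antisymmetric functions. -/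
lemma Nn_rec {q r : ℕ} {h : MvPolynomial ℕ R}
    (hh : ∀ i j, q ≤ i → i < q + (r + 1) → q ≤ j → j < q + (r + 1) → i ≠ j → sw i j h = -h) :
    Nn q (r + 1) h = h - Nn q r (sw (q + r) (q + r + 1) h) := by
  rw [Nn_apply, Nn_apply]
  have e1 : Ico q (q + (r + 1)) = insert (q + r) (Ico q (q + r)) := by
    ext k; simp only [mem_insert, mem_Ico]; omega
  rw [e1, sum_insert (by simp)]
  have h2 : ∀ i ∈ Ico q (q + r), sw i (q + r) (sw (q + r) (q + r + 1) h) =
      -sw i (q + r + 1) h := by
    intro i hi
    rw [mem_Ico] at hi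
    have h3 : sw i (q + r) (sw (q + r) (q + r + 1) h) =
        sw i (q + r + 1) (sw i (q + r) h) := by
      rw [act_sw (Equiv.swap i (q + r)) (q + r) (q + r + 1), Equiv.swap_apply_right,
        Equiv.swap_apply_of_ne_of_ne (by omega) (by omega)]
    rw [h3, hh i (q + r) (by omega) (by omega) (by omega) (by omega) (by omega), map_neg]
  rw [sum_congr rfl h2, sum_neg_distrib, show q + (r + 1) = q + r + 1 by omega]
  abel

omit [IsDomain R] in
lemma Mod_Nn {J : MvPolynomial ℕ R} {q r : ℕ} (hqr : q + r < N) {v : MvPolynomial ℕ R}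
    (hv : v ∈ Mod N J) : Nn q r v ∈ Mod N J := by
  rw [Nn_apply]
  refine Submodule.sub_mem _ hv (Submodule.sum_mem _ ?_)
  intro i hi
  rw [mem_Ico] at hi
  exact Mod_sw (by omega) hqr hv

lemma Hecke_U {J : MvPolynomial ℕ R} {e : ℕ → R} (hJ : ∀ i, i < N → xi N α i J = e i • J)
    (q : ℕ) (z : R) : ∀ (r : ℕ), q + (r + 1) ≤ N → ∀ (G : MvPolynomial ℕ R), G ∈ Mod N J →
      (∀ i j, q ≤ i → i < q + (r + 1) → q ≤ j → j < q + (r + 1) → i ≠ j → sw i j G = -G) →
      Nn q r (Xop N α q z r G) = Xop N α q z (r + 1) G - Xop N α q (z + 1) (r + 1) G := by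
  intro r
  induction r with
  | zero =>
    intro _ G hG hanti
    rw [Xop_zero, Nn_apply, Xop_succ, Xop_succ]
    simp only [Xop_zero, add_zero, Ico_self, sum_empty, sub_zero]
    module
  | succ r ih =>
    intro hr G hG hanti
    have hmem : Xop N α q z (r + 1) G ∈ Mod N J := Xop_mem hJ q z (r + 1) (by omega) hG
    have hh : ∀ i j, q ≤ i → i < q + (r + 1) → q ≤ j → j < q + (r + 1) → i ≠ j →
        sw i j (Xop N α q z (r + 1) G) = -Xop N α q z (r + 1) G := by
      intro i j hi hi' hj hj' hij
      rw [← Xop_sw hJ q z (r + 1) (by omega) hi hi' hj hj' hG,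
        hanti i j hi (by omega) hj (by omega) hij, map_neg]
    rw [Nn_rec hh]
    set G1 := xi N α (q + (r + 1)) G - (z + 1) • G with hG1
    have hG1mem : G1 ∈ Mod N J := Submodule.sub_mem _ (Mod_xi hJ hG (by omega))
      (Submodule.smul_mem _ _ hG)
    have hG1anti : ∀ i j, q ≤ i → i < q + (r + 1) → q ≤ j → j < q + (r + 1) → i ≠ j →
        sw i j G1 = -G1 := by
      intro i j hi hi' hj hj' hij
      have h1 := hanti i j hi (by omega) hj (by omega) hij
      rw [hG1, map_sub, map_smul, ← xi_sw_far (by omega) (by omega) (by omega), h1, map_neg]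
      module
    have h2 : sw (q + r) (q + r + 1) (Xop N α q z (r + 1) G) = -Xop N α q z r G1 := by
      rw [Xop_succ, ← Xop_sw_out q z r (by omega) (by omega) (by omega) (by omega), ← map_neg]
      congr 1
      have h3 := xi_sw_right (α := α) (show q + r + 1 < N by omega) G
      rw [hanti (q + r) (q + r + 1) (by omega) (by omega) (by omega) (by omega) (by omega),
        map_neg] at h3
      have h4 : sw (q + r) (q + r + 1) (xi N α (q + r) G) = -xi N α (q + r + 1) G + G := by
        rw [h3]; abel
      rw [map_sub, map_smul, h4, hanti (q + r) (q + r + 1) (by omega) (by omega) (by omega)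
        (by omega) (by omega), hG1, show q + (r + 1) = q + r + 1 by omega]
      module
    rw [h2, map_neg, sub_neg_eq_add, ih (by omega) G1 hG1mem hG1anti]
    rw [Xop_succ q z (r + 1) G, Xop_succ q (z + 1) (r + 1) G, hG1]
    have h5 : xi N α (q + (r + 1)) G - z • G = G + (xi N α (q + (r + 1)) G - (z + 1) • G) := by
      module
    rw [h5, map_add]
    abel

lemma Xop_Nn {J : MvPolynomial ℕ R} {e : ℕ → R} (hJ : ∀ i, i < N → xi N α i J = e i • J)
    (q : ℕ) (z : R) (r : ℕ) (hr : q + (r + 1) ≤ N) {v : MvPolynomial ℕ R} (hv : v ∈ Mod N J) :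
    Xop N α q z (r + 1) (Nn q r v) = Nn q r (Xop N α q z (r + 1) v) := by
  rw [Nn_apply, Nn_apply, map_sub, map_sum]
  congr 1
  apply sum_congr rfl
  intro i hi
  rw [mem_Ico] at hi
  exact Xop_sw hJ q z (r + 1) hr (by omega) (by omega) (by omega) (by omega) hv

/-- The Hecke algebra identity. -/
theorem Hecke_main {J : MvPolynomial ℕ R} {e : ℕ → R} (hJ : ∀ i, i < N → xi N α i J = e i • J)
    (q : ℕ) (z : R) (r : ℕ) (hr : q + r < N) (G : MvPolynomial ℕ R) (hG : G ∈ Mod N J)
    (hanti : ∀ i j, q ≤ i → i < q + r → q ≤ j → j < q + r → i ≠ j → sw i j G = -G)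
    (hlast : xi N α (q + r) G = z • G) :
    Xop N α q z r (Nn q r G) = Xop N α q (z + 1) r G := by
  cases r with
  | zero => rw [Nn_apply]; simp
  | succ r =>
    rw [Nn_rec hanti, map_sub]
    have hs : sw (q + r) (q + r + 1) G ∈ Mod N J := Mod_sw (by omega) (by omega) hG
    rw [Xop_Nn hJ q z r (by omega) hs]
    have h1 : Xop N α q z (r + 1) (sw (q + r) (q + r + 1) G) = Xop N α q z r G := by
      rw [Xop_succ, xi_sw_left (by omega), show q + r + 1 = q + (r + 1) by omega, hlast,
        map_smul]
      congr 1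
      abel
    rw [h1, Hecke_U hJ q z r (by omega) G hG hanti]
    abel

/-- `Xop` on an antisymmetrised eigenfunction. -/
lemma Xop_Asym {J : MvPolynomial ℕ R} {e : ℕ → R} (hJ : ∀ i, i < N → xi N α i J = e i • J)
    (q : ℕ) (z : R) (r : ℕ) (hr : q + r ≤ N) :
    Asym q r J ∈ Mod N J ∧
      Xop N α q z r (Asym q r J) = (∏ i ∈ range r, (e (q + i) - z)) • Asym q r J := by
  have hmem : ∀ r', q + r' ≤ N → ∀ {v : MvPolynomial ℕ R}, v ∈ Mod N J →
      Asym q r' v ∈ Mod N J := by
    intro r'
    induction r' with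
    | zero => intro _ v hv; exact hv
    | succ r' ih =>
      intro h v hv
      rw [Asym_succ]
      exact Mod_Nn (by omega) (ih (by omega) hv)
  refine ⟨hmem r hr (self_mem_Mod J), ?_⟩
  have hcomm : ∀ r', r' ≤ r → ∀ {v : MvPolynomial ℕ R}, v ∈ Mod N J →
      Xop N α q z r (Asym q r' v) = Asym q r' (Xop N α q z r v) := by
    intro r'
    induction r' with
    | zero => intro _ v _; rfl
    | succ r' ih =>
      intro h v hv
      rw [Asym_succ, Asym_succ, Nn_apply, Nn_apply, map_sub, map_sum, ih (by omega) hv]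
      congr 1
      apply sum_congr rfl
      intro i hi
      rw [mem_Ico] at hi
      rw [Xop_sw hJ q z r hr (by omega) (by omega) (by omega) (by omega) (hmem r' (by omega) hv),
        ih (by omega) hv]
  rw [hcomm r le_rfl (self_mem_Mod J), ← map_smul]
  congr 1
  clear hcomm
  induction r with
  | zero => simp
  | succ r ih =>
    rw [Xop_succ, hJ (q + r) (by omega), ← sub_smul, map_smul, ih (by omega), smul_smul,
      prod_range_succ, mul_comm]

end

end Pool.Agent.Helper61.Jack
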