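import Pool.Agent.Helper61.Jack.A13

/-!
# The formal model: polynomials in the variables and in formal power sums
-/

set_option autoImplicit false

open MvPolynomial Finset

namespace Pool.Agent.Helper61.Jack

noncomputable section

variable {R : Type*} [CommRing R]

/-- Supports of the integral polynomial. -/
lemma W_sup [IsDomain R] {N : ℕ} {α : R} (A F : List ℕ) (hN : A.length + F.length < N)
    {W : MvPolynomial ℕ R} {c : R} (hc : c ≠ 0)
    (h : Asym 0 F.length (CC N F.length A.length (Jk N α (A.map Nat.succ ++ F))) = c • W) :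
    PSup (Le N (fun k => k = 0 ∨ k = F.length) (exW A F)) W := by
  have h1 : PSup (Le N (fun k => k = 0 ∨ k = F.length) (exW A F))
      (Jk N α (A.map Nat.succ ++ F)) := by
    have := PSup_Jk (N := N) (α := α) (A.map Nat.succ ++ F)
      (by rw [List.length_append, List.length_map]; omega)
    rw [List.reverse_append, ← List.map_reverse] at this
    exact this.mono (fun d hd => ⟨hd.out, hd.tot, fun k _ t => hd.sd k trivial t⟩)
  have h2 : ∀ r s, F.length ≤ s → s + r ≤ N → ∀ f : MvPolynomial ℕ R,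
      PSup (Le N (fun k => k = 0 ∨ k = F.length) (exW A F)) f →
      PSup (Le N (fun k => k = 0 ∨ k = F.length) (exW A F)) (CC N s r f) := by
    intro r
    induction r with
    | zero => intro s _ _ f hf; exact hf
    | succ r ih =>
      intro s hs hsN f hf
      rw [CC_succ]
      refine ih s hs (by omega) _ ?_
      rw [Cn_apply]
      refine hf.add (PSup.sum ?_)
      intro k hk
      rw [mem_Ico] at hk
      refine PSup.sw ?_ hf
      intro d hd
      refine hd.swap (by omega) hk.2 ?_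
      intro k' hk'
      omega
  have h3 := PSup.Asym F.length (q := 0) (by omega) (fun k hk => by omega)
    (h2 A.length F.length le_rfl (by omega) _ h1)
  rw [h] at h3
  exact PSup.of_smul hc h3

/-! ### The formal model -/

/-- The formal model. -/
abbrev FV (R : Type*) [CommRing R] := (ℕ →₀ ℕ) →₀ MvPolynomial ℕ R

/-- Basis elements. -/
def bb (μ ν : ℕ →₀ ℕ) : FV R := Finsupp.single μ (monomial ν 1)

/-- Power sums. -/
def Pw (N k : ℕ) : MvPolynomial ℕ R := ∑ j ∈ range N, X j ^ k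

/-- Products of power sums. -/
def psm (N : ℕ) (μ : ℕ →₀ ℕ) : MvPolynomial ℕ R := ∏ r ∈ range N, Pw N (r + 1) ^ (μ r)

/-- Evaluation. -/
def ev (N : ℕ) : FV R →ₗ[R] MvPolynomial ℕ R :=
  Finsupp.lsum R (fun μ => LinearMap.mulRight R (psm N μ))

lemma ev_single (N : ℕ) (μ : ℕ →₀ ℕ) (a : MvPolynomial ℕ R) :
    ev N (Finsupp.single μ a) = a * psm N μ := by
  unfold ev
  rw [Finsupp.lsum_single]
  rfl

/-- Coefficientwise operators. -/
def lift (T : MvPolynomial ℕ R →ₗ[R] MvPolynomial ℕ R) : FV R →ₗ[R] FV R :=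
  Finsupp.mapRange.linearMap T

lemma lift_single (T : MvPolynomial ℕ R →ₗ[R] MvPolynomial ℕ R) (μ : ℕ →₀ ℕ)
    (a : MvPolynomial ℕ R) : lift T (Finsupp.single μ a) = Finsupp.single μ (T a) := by
  unfold lift
  rw [Finsupp.mapRange.linearMap_apply, Finsupp.mapRange_single]

/-- Division by a power of a variable. -/
def divX (i k : ℕ) : MvPolynomial ℕ R →ₗ[R] MvPolynomial ℕ R where
  toFun f := f.divMonomial (Finsupp.single i k)
  map_add' f g := add_divMonomial f g _
  map_smul' c f := by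
    ext m
    simp [coeff_divMonomial]

lemma coeff_divX (i k : ℕ) (f : MvPolynomial ℕ R) (d : ℕ →₀ ℕ) :
    coeff d (divX i k f) = coeff (Finsupp.single i k + d) f := coeff_divMonomial _ _ _

lemma divX_monomial (i k : ℕ) (ν : ℕ →₀ ℕ) :
    divX i k (monomial ν (1 : R)) =
      if k ≤ ν i then monomial (ν - Finsupp.single i k) 1 else 0 := by
  classical
  ext d
  rw [coeff_divX, coeff_monomial]
  by_cases h : k ≤ ν i
  · rw [if_pos h, coeff_monomial]
    congr 1
    apply propext
    constructor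
    · intro h1
      rw [h1, add_tsub_cancel_left]
    · intro h1
      rw [← h1, add_tsub_cancel_of_le (Finsupp.single_le_iff.mpr h)]
  · rw [if_neg h, coeff_zero, if_neg]
    intro h1
    apply h
    rw [h1]
    simp

/-- Raising operator. -/
def Up (N : ℕ) (α : R) (i : ℕ) : FV R →ₗ[R] FV R :=
  Finsupp.lsum R (fun μ => ∑ r ∈ range N, (Finsupp.lsingle (μ - Finsupp.single r 1)).comp
    ((α * ((r + 1 : ℕ) : R) * (μ r : R)) • LinearMap.mulLeft R (X i ^ (r + 1))))

lemma Up_single (N : ℕ) (α : R) (i : ℕ) (μ : ℕ →₀ ℕ) (a : MvPolynomial ℕ R) :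
    Up N α i (Finsupp.single μ a) = ∑ r ∈ range N, Finsupp.single (μ - Finsupp.single r 1)
      ((α * ((r + 1 : ℕ) : R) * (μ r : R)) • (X i ^ (r + 1) * a)) := by
  unfold Up
  rw [Finsupp.lsum_single, LinearMap.sum_apply]
  rfl

/-- Lowering operator. -/
def Dn (N : ℕ) (i : ℕ) : FV R →ₗ[R] FV R :=
  Finsupp.lsum R (fun μ => ∑ r ∈ range N, (Finsupp.lsingle (μ + Finsupp.single r 1)).comp
    (divX i (r + 1)))

lemma Dn_single (N : ℕ) (i : ℕ) (μ : ℕ →₀ ℕ) (a : MvPolynomial ℕ R) :
    Dn N i (Finsupp.single μ a) = ∑ r ∈ range N, Finsupp.single (μ + Finsupp.single r 1)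
      (divX i (r + 1) a) := by
  unfold Dn
  rw [Finsupp.lsum_single, LinearMap.sum_apply]
  rfl

/-! ### The form -/

/-- The standard form on polynomials. -/
def ip : MvPolynomial ℕ R →ₗ[R] MvPolynomial ℕ R →ₗ[R] R :=
  (basisMonomials ℕ R).constr R (fun ν => lcoeff R ν)

lemma ip_monomial_left (ν : ℕ →₀ ℕ) (f : MvPolynomial ℕ R) :
    ip (monomial ν (1 : R)) f = coeff ν f := by
  have h := (basisMonomials ℕ R).constr_basis R (fun ν => lcoeff R ν) ν
  rw [coe_basisMonomials] at h
  unfold ip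
  rw [h]
  rfl

lemma ip_monomial (ν ν' : ℕ →₀ ℕ) :
    ip (monomial ν (1 : R)) (monomial ν' 1) = if ν = ν' then 1 else 0 := by
  classical
  rw [ip_monomial_left, coeff_monomial]
  simp only [eq_comm]

lemma linMap_ext {M : Type*} [AddCommMonoid M] [Module R M]
    {S T : MvPolynomial ℕ R →ₗ[R] M} (h : ∀ ν, S (monomial ν 1) = T (monomial ν 1)) : S = T := by
  apply (basisMonomials ℕ R).ext
  intro ν
  rw [coe_basisMonomials]
  exact h ν

lemma ip_symm (f g : MvPolynomial ℕ R) : ip f g = ip g f := by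
  have h : (ip : MvPolynomial ℕ R →ₗ[R] MvPolynomial ℕ R →ₗ[R] R) = ip.flip := by
    apply linMap_ext
    intro ν
    apply linMap_ext
    intro ν'
    rw [LinearMap.flip_apply, ip_monomial, ip_monomial]
    simp only [eq_comm]
  have h2 := congrArg (fun T => T f g) h
  simpa using h2

lemma ip_monomial_right (ν : ℕ →₀ ℕ) (f : MvPolynomial ℕ R) :
    ip f (monomial ν (1 : R)) = coeff ν f := by
  rw [ip_symm, ip_monomial_left]

/-- Adjoint operators on polynomials: it is enough to check the monomials. -/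
lemma ip_adj {S T : MvPolynomial ℕ R →ₗ[R] MvPolynomial ℕ R}
    (h : ∀ ν ν', ip (S (monomial ν (1 : R))) (monomial ν' 1) =
      ip (monomial ν 1) (T (monomial ν' 1))) (f g : MvPolynomial ℕ R) :
    ip (S f) g = ip f (T g) := by
  have h1 : ip.comp S = (ip.flip.comp T).flip := by
    apply linMap_ext
    intro ν
    apply linMap_ext
    intro ν'
    exact h ν ν'
  have h2 := congrArg (fun T => T f g) h1
  simpa using h2

lemma ip_divX (i k : ℕ) (f g : MvPolynomial ℕ R) : ip (X i ^ k * f) g = ip f (divX i k g) := by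
  have := ip_adj (S := LinearMap.mulLeft R (X i ^ k)) (T := divX (R := R) i k) ?_ f g
  · exact this
  · intro ν ν'
    rw [LinearMap.mulLeft_apply, X_pow_eq_monomial, monomial_mul, one_mul, ip_monomial_left,
      ip_monomial_left, coeff_divX]

lemma ip_sw (i j : ℕ) (f g : MvPolynomial ℕ R) : ip (sw i j f) g = ip f (sw i j g) := by
  have := ip_adj (S := (sw i j).toLinearMap) (T := (sw i j).toLinearMap) ?_ f g
  · exact this
  · intro ν ν'
    show ip (sw i j (monomial ν 1)) _ = ip _ (sw i j (monomial ν' 1))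
    rw [sw_monomial, ip_monomial_left, ip_monomial_left, coeff_sw]

/-- The weights. -/
def wt (N : ℕ) (α : R) (μ : ℕ →₀ ℕ) : R :=
  ∏ r ∈ range N, ((Nat.factorial (μ r) : R) * (α * ((r + 1 : ℕ) : R)) ^ (μ r))

lemma wt_add (N : ℕ) (α : R) (μ : ℕ →₀ ℕ) {r : ℕ} (hr : r < N) :
    wt N α (μ + Finsupp.single r 1) = α * ((r + 1 : ℕ) : R) * ((μ r + 1 : ℕ) : R) * wt N α μ := by
  unfold wt
  have hmem : r ∈ range N := mem_range.mpr hr
  rw [← mul_prod_erase _ _ hmem, ← mul_prod_erase (range N)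
    (fun r => (Nat.factorial (μ r) : R) * (α * ((r + 1 : ℕ) : R)) ^ (μ r)) hmem]
  have h1 : ∏ x ∈ (range N).erase r,
      ((Nat.factorial ((μ + Finsupp.single r 1 : ℕ →₀ ℕ) x) : R) *
      (α * ((x + 1 : ℕ) : R)) ^ ((μ + Finsupp.single r 1 : ℕ →₀ ℕ) x)) =
      ∏ x ∈ (range N).erase r, ((Nat.factorial (μ x) : R) * (α * ((x + 1 : ℕ) : R)) ^ (μ x)) := by
    apply prod_congr rfl
    intro x hx
    rw [mem_erase] at hx
    rw [Finsupp.add_apply, Finsupp.single_eq_of_ne hx.1, add_zero]
  rw [h1, Finsupp.add_apply, Finsupp.single_eq_same, Nat.factorial_succ, pow_succ]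
  push_cast
  ring

/-- The form on the formal model. -/
def Bf (N : ℕ) (α : R) : FV R →ₗ[R] FV R →ₗ[R] R :=
  Finsupp.lsum R (fun μ => wt N α μ • (LinearMap.lcomp R R (Finsupp.lapply μ)).comp ip)

lemma Bf_single_left (N : ℕ) (α : R) (μ : ℕ →₀ ℕ) (a : MvPolynomial ℕ R) (g : FV R) :
    Bf N α (Finsupp.single μ a) g = wt N α μ * ip a (g μ) := by
  unfold Bf
  rw [Finsupp.lsum_single]
  rfl

lemma Bf_single (N : ℕ) (α : R) (μ μ' : ℕ →₀ ℕ) (a a' : MvPolynomial ℕ R) :
    Bf N α (Finsupp.single μ a) (Finsupp.single μ' a') =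
      if μ = μ' then wt N α μ * ip a a' else 0 := by
  classical
  rw [Bf_single_left, Finsupp.single_apply]
  by_cases h : μ = μ'
  · rw [if_pos h, if_pos h.symm]
  · rw [if_neg h, if_neg (Ne.symm h), map_zero, mul_zero]

lemma Bf_adj {N : ℕ} {α : R} {S T : FV R →ₗ[R] FV R}
    (h : ∀ μ a μ' a', Bf N α (S (Finsupp.single μ a)) (Finsupp.single μ' a') =
      Bf N α (Finsupp.single μ a) (T (Finsupp.single μ' a'))) (f g : FV R) :
    Bf N α (S f) g = Bf N α f (T g) := by
  have h1 : (Bf N α).comp S = ((Bf N α).flip.comp T).flip := by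
    apply Finsupp.lhom_ext
    intro μ a
    apply Finsupp.lhom_ext
    intro μ' a'
    exact h μ a μ' a'
  have h2 := congrArg (fun T => T f g) h1
  simpa using h2

lemma Bf_symm (N : ℕ) (α : R) (f g : FV R) : Bf N α f g = Bf N α g f := by
  have h1 : Bf N α = (Bf N α).flip := by
    apply Finsupp.lhom_ext
    intro μ a
    apply Finsupp.lhom_ext
    intro μ' a'
    rw [LinearMap.flip_apply, Bf_single, Bf_single, ip_symm a a']
    by_cases h : μ = μ'
    · subst h; rfl
    · rw [if_neg h, if_neg (Ne.symm h)]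
  have h2 := congrArg (fun T => T f g) h1
  simpa using h2

lemma Bf_lift (N : ℕ) (α : R) {S T : MvPolynomial ℕ R →ₗ[R] MvPolynomial ℕ R}
    (h : ∀ a a', ip (S a) a' = ip a (T a')) (f g : FV R) :
    Bf N α (lift S f) g = Bf N α f (lift T g) := by
  apply Bf_adj
  intro μ a μ' a'
  rw [lift_single, lift_single, Bf_single, Bf_single, h]

lemma Bf_Up (N : ℕ) (α : R) (i : ℕ) (f g : FV R) :
    Bf N α (Up N α i f) g = Bf N α f (Dn N i g) := by
  classical
  apply Bf_adj
  intro μ a μ' a'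
  rw [Up_single, Dn_single, map_sum, map_sum, LinearMap.sum_apply]
  apply sum_congr rfl
  intro r hr
  rw [mem_range] at hr
  rw [Bf_single, Bf_single]
  by_cases h0 : μ r = 0
  · have h1 : μ ≠ μ' + Finsupp.single r 1 := by
      intro h
      rw [h, Finsupp.add_apply, Finsupp.single_eq_same] at h0
      omega
    rw [if_neg h1, h0]
    simp
  · by_cases h1 : μ = μ' + Finsupp.single r 1
    · have h2 : μ - Finsupp.single r 1 = μ' := by rw [h1, add_tsub_cancel_right]
      rw [if_pos h1, if_pos h2, h2]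
      rw [map_smul, LinearMap.smul_apply, ip_divX, h1, wt_add N α μ' hr, Finsupp.add_apply,
        Finsupp.single_eq_same]
      simp only [smul_eq_mul]
      ring
    · have h2 : μ - Finsupp.single r 1 ≠ μ' := by
        intro h
        apply h1
        rw [← h, tsub_add_cancel_of_le]
        exact Finsupp.single_le_iff.mpr (by omega)
      rw [if_neg h1, if_neg h2]

lemma Bf_Dn (N : ℕ) (α : R) (i : ℕ) (f g : FV R) :
    Bf N α (Dn N i f) g = Bf N α f (Up N α i g) := by
  rw [Bf_symm, ← Bf_Up, Bf_symm]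

/-! ### The exchange operator -/

/-- The exchange part. -/
def Eop (N : ℕ) (α : R) (i : ℕ) : MvPolynomial ℕ R →ₗ[R] MvPolynomial ℕ R :=
  (basisMonomials ℕ R).constr R (fun ν => ((α - 1) * (ν i : R)) • monomial ν 1 -
    ∑ j ∈ (range N).erase i, ∑ c ∈ range (ν j), monomial (upd ν i j c) 1)

lemma Eop_monomial (N : ℕ) (α : R) (i : ℕ) (ν : ℕ →₀ ℕ) :
    Eop N α i (monomial ν 1) = ((α - 1) * (ν i : R)) • monomial ν 1 -
      ∑ j ∈ (range N).erase i, ∑ c ∈ range (ν j), monomial (upd ν i j c) 1 := by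
  have h := (basisMonomials ℕ R).constr_basis R (fun ν => ((α - 1) * (ν i : R)) • monomial ν 1 -
    ∑ j ∈ (range N).erase i, ∑ c ∈ range (ν j), monomial (upd ν i j c) (1 : R)) ν
  rw [coe_basisMonomials] at h
  exact h

lemma upd_eq_iff' {i j : ℕ} (hij : i ≠ j) {d e : ℕ →₀ ℕ} {c : ℕ} (hc : c ≤ d i + d j) :
    upd d i j c = e ↔ (∀ l, l ≠ i → l ≠ j → d l = e l) ∧ e i = c ∧ e i + e j = d i + d j := by
  constructor
  · intro h
    obtain ⟨h1, h2, h3⟩ := upd_eq_iff hij h
    exact ⟨h1, h2, by omega⟩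
  · rintro ⟨h1, h2, h3⟩
    ext l
    rw [upd_apply]
    split_ifs with h4 h5
    · subst h4; omega
    · subst h5; exact h2.symm
    · exact h1 l h5 h4

lemma ip_Eop_aux {i j : ℕ} (hij : i ≠ j) (ν ν' : ℕ →₀ ℕ) :
    ip (∑ c ∈ range (ν j), monomial (upd ν i j c) (1 : R)) (monomial ν' 1) =
      ip (monomial ν (1 : R)) (∑ c ∈ range (ν' j), monomial (upd ν' i j c) (1 : R)) := by
  classical
  rw [map_sum, LinearMap.sum_apply, map_sum]
  simp only [ip_monomial]
  have h1 : ∀ c ∈ range (ν j), (if upd ν i j c = ν' then (1 : R) else 0) =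
      if c = ν' i then (if (∀ l, l ≠ i → l ≠ j → ν l = ν' l) ∧ ν' i + ν' j = ν i + ν j
        then 1 else 0) else 0 := by
    intro c hc
    rw [mem_range] at hc
    have := upd_eq_iff' hij (d := ν) (e := ν') (c := c) (by omega)
    rw [← ite_and]
    congr 1
    apply propext
    rw [this]
    constructor
    · rintro ⟨a, b, d⟩; exact ⟨b.symm, a, d⟩
    · rintro ⟨a, b, d⟩; exact ⟨b, a.symm, d⟩
  have h2 : ∀ c ∈ range (ν' j), (if ν = upd ν' i j c then (1 : R) else 0) =
      if c = ν i then (if (∀ l, l ≠ i → l ≠ j → ν l = ν' l) ∧ ν' i + ν' j = ν i + ν j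
        then 1 else 0) else 0 := by
    intro c hc
    rw [mem_range] at hc
    have := upd_eq_iff' hij (d := ν') (e := ν) (c := c) (by omega)
    rw [← ite_and]
    congr 1
    apply propext
    rw [eq_comm, this]
    constructor
    · rintro ⟨a, b, d⟩; exact ⟨b.symm, fun l h1 h2 => (a l h1 h2).symm, d.symm⟩
    · rintro ⟨a, b, d⟩; exact ⟨fun l h1 h2 => (b l h1 h2).symm, a.symm, d.symm⟩
  rw [sum_congr rfl h1, sum_congr rfl h2, sum_ite_eq', sum_ite_eq']
  simp only [mem_range]
  by_cases hcond : (∀ l, l ≠ i → l ≠ j → ν l = ν' l) ∧ ν' i + ν' j = ν i + ν j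
  · rw [if_pos hcond]
    congr 1
    apply propext
    have := hcond.2
    omega
  · rw [if_neg hcond]
    simp

lemma ip_Eop (N : ℕ) (α : R) (i : ℕ) (f g : MvPolynomial ℕ R) :
    ip (Eop N α i f) g = ip f (Eop N α i g) := by
  apply ip_adj
  intro ν ν'
  rw [Eop_monomial, Eop_monomial, map_sub, map_sub, LinearMap.sub_apply, map_smul, map_smul,
    LinearMap.smul_apply, map_sum, map_sum, LinearMap.sum_apply]
  congr 1
  · rw [ip_monomial]
    by_cases h : ν = ν'
    · rw [h]
    · rw [if_neg h, smul_zero, smul_zero]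
  · apply sum_congr rfl
    intro j hj
    rw [mem_erase] at hj
    exact ip_Eop_aux (Ne.symm hj.1) ν ν'

/-- The formal operator `D`. -/
def Dh (N : ℕ) (α : R) (i : ℕ) : FV R →ₗ[R] FV R := lift (Eop N α i) + Up N α i + Dn N i

/-- The formal operator `ξ`. -/
def xih (N : ℕ) (α : R) (i : ℕ) : FV R →ₗ[R] FV R :=
  Dh N α i - ∑ j ∈ range i, lift (sw i j).toLinearMap

lemma xih_apply (N : ℕ) (α : R) (i : ℕ) (f : FV R) : xih N α i f =
    lift (Eop N α i) f + Up N α i f + Dn N i f - ∑ j ∈ range i, lift (sw i j).toLinearMap f := by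
  simp [xih, Dh, LinearMap.sum_apply]

lemma Bf_xih (N : ℕ) (α : R) (i : ℕ) (f g : FV R) :
    Bf N α (xih N α i f) g = Bf N α f (xih N α i g) := by
  rw [xih_apply, xih_apply, map_sub, map_sub, map_add, map_add, map_add, map_add, map_sum,
    map_sum, LinearMap.sub_apply, LinearMap.add_apply, LinearMap.add_apply, LinearMap.sum_apply,
    Bf_lift N α (ip_Eop N α i), Bf_Up, Bf_Dn]
  have : ∀ j ∈ range i, Bf N α (lift (sw i j).toLinearMap f) g =
      Bf N α f (lift (sw i j).toLinearMap g) := by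
    intro j _
    refine Bf_lift N α ?_ f g
    intro a a'
    rw [AlgHom.toLinearMap_apply, AlgHom.toLinearMap_apply]
    exact ip_sw i j a a'
  rw [sum_congr rfl this]
  ring

end

end Pool.Agent.Helper61.Jack
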