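import Pool.Agent.Helper61.Jack.B1

/-!
# Evaluation of the formal model
-/

set_option autoImplicit false

open MvPolynomial Finset

namespace Pool.Agent.Helper61.Jack

noncomputable section

variable {R : Type*} [CommRing R]

lemma act_Pw {N : ℕ} {σ : Equiv.Perm ℕ} (hσ : ∀ l, σ l < N ↔ l < N) (k : ℕ) :
    act σ (Pw N k : MvPolynomial ℕ R) = Pw N k := by
  unfold Pw
  rw [map_sum]
  refine Finset.sum_bij' (fun l _ => σ l) (fun l _ => σ.symm l) ?_ ?_ ?_ ?_ ?_
  · intro l hl; rw [mem_range] at *; exact (hσ l).mpr hl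
  · intro l hl; rw [mem_range] at *; rw [← hσ]; simpa using hl
  · intro l _; simp
  · intro l _; simp
  · intro l _; rw [map_pow, rename_X]

lemma act_psm {N : ℕ} {σ : Equiv.Perm ℕ} (hσ : ∀ l, σ l < N ↔ l < N) (μ : ℕ →₀ ℕ) :
    act σ (psm N μ : MvPolynomial ℕ R) = psm N μ := by
  unfold psm
  rw [map_prod]
  apply prod_congr rfl
  intro r _
  rw [map_pow, act_Pw hσ]

lemma sw_psm {N i j : ℕ} (hi : i < N) (hj : j < N) (μ : ℕ →₀ ℕ) :
    sw i j (psm N μ : MvPolynomial ℕ R) = psm N μ := act_psm (swap_lt hi hj) μ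

/-- Extension from the basis. -/
lemma FV_ext {M : Type*} [AddCommMonoid M] [Module R M] {S T : FV R →ₗ[R] M}
    (h : ∀ μ ν, S (bb μ ν) = T (bb μ ν)) : S = T := by
  apply Finsupp.lhom_ext'
  intro μ
  apply linMap_ext
  intro ν
  exact h μ ν

lemma ev_bb (N : ℕ) (μ ν : ℕ →₀ ℕ) : ev N (bb μ ν : FV R) = monomial ν 1 * psm N μ := ev_single _ _ _

/-- Operators which commute with multiplication by symmetric functions. -/
lemma ev_lift {N : ℕ} {T : MvPolynomial ℕ R →ₗ[R] MvPolynomial ℕ R}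
    (h : ∀ a μ, T (a * psm N μ) = T a * psm N μ) (f : FV R) : ev N (lift T f) = T (ev N f) := by
  have h1 : (ev N).comp (lift T) = T.comp (ev N) := by
    apply Finsupp.lhom_ext
    intro μ a
    rw [LinearMap.comp_apply, LinearMap.comp_apply, lift_single, ev_single, ev_single, h]
  exact LinearMap.congr_fun h1 f

lemma ev_lift_sw {N i j : ℕ} (hi : i < N) (hj : j < N) (f : FV R) :
    ev N (lift (sw i j).toLinearMap f) = sw i j (ev N f) := by
  apply ev_lift
  intro a μ
  rw [AlgHom.toLinearMap_apply, AlgHom.toLinearMap_apply, map_mul, sw_psm hi hj]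

lemma ev_lift_Phi {N m : ℕ} (hm : m < N) (f : FV R) :
    ev N (lift (Phi m) f) = Phi m (ev N f) := by
  apply ev_lift
  intro a μ
  rw [Phi_apply, Phi_apply, map_mul, act_psm (rot_lt hm), mul_assoc]

/-! ### Derivatives -/

lemma deriv_prod (D : Derivation R (MvPolynomial ℕ R) (MvPolynomial ℕ R))
    (f : ℕ → MvPolynomial ℕ R) (μ : ℕ →₀ ℕ) (s : Finset ℕ) :
    D (∏ r ∈ s, f r ^ (μ r)) = ∑ r ∈ s, (μ r : MvPolynomial ℕ R) *
      (∏ x ∈ s, f x ^ ((μ - Finsupp.single r 1 : ℕ →₀ ℕ) x)) * D (f r) := by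
  classical
  induction s using Finset.induction_on with
  | empty => simp
  | insert a s ha ih =>
    rw [prod_insert ha, sum_insert ha, Derivation.leibniz, ih, Derivation.leibniz_pow,
      prod_insert ha]
    have h1 : ∀ r ∈ s, (μ r : MvPolynomial ℕ R) *
        (∏ x ∈ insert a s, f x ^ ((μ - Finsupp.single r 1 : ℕ →₀ ℕ) x)) * D (f r) =
        f a ^ (μ a) * ((μ r : MvPolynomial ℕ R) *
          (∏ x ∈ s, f x ^ ((μ - Finsupp.single r 1 : ℕ →₀ ℕ) x)) * D (f r)) := by
      intro r hr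
      have har : a ≠ r := fun h => ha (h ▸ hr)
      rw [prod_insert ha, Finsupp.tsub_apply μ (Finsupp.single r 1) a,
        Finsupp.single_eq_of_ne har, Nat.sub_zero]
      ring
    have h2 : ∏ x ∈ s, f x ^ ((μ - Finsupp.single a 1 : ℕ →₀ ℕ) x) = ∏ x ∈ s, f x ^ (μ x) := by
      apply prod_congr rfl
      intro x hx
      have hxa : x ≠ a := fun h => ha (h ▸ hx)
      rw [Finsupp.tsub_apply, Finsupp.single_eq_of_ne hxa, Nat.sub_zero]
    rw [sum_congr rfl h1, ← mul_sum, h2, Finsupp.tsub_apply, Finsupp.single_eq_same]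
    simp only [smul_eq_mul, nsmul_eq_mul]
    ring

lemma pderiv_Pw {N i : ℕ} (hi : i < N) (r : ℕ) :
    X i * pderiv i (Pw N (r + 1) : MvPolynomial ℕ R) = ((r + 1 : ℕ) : R) • X i ^ (r + 1) := by
  unfold Pw
  rw [map_sum, ← add_sum_erase _ _ (mem_range.mpr hi)]
  have h : ∀ j ∈ (range N).erase i, pderiv i (X j ^ (r + 1) : MvPolynomial ℕ R) = 0 := by
    intro j hj
    rw [mem_erase] at hj
    rw [Derivation.leibniz_pow, pderiv_X_of_ne hj.1]
    simp
  rw [sum_congr rfl h, sum_const_zero, add_zero, Derivation.leibniz_pow, pderiv_X_self]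
  simp only [smul_eq_mul, nsmul_eq_mul, mul_one, Nat.add_sub_cancel, smul_eq_C_mul, map_natCast]
  ring

lemma pderiv_psm {N i : ℕ} (hi : i < N) (μ : ℕ →₀ ℕ) :
    X i * pderiv i (psm N μ : MvPolynomial ℕ R) = ∑ r ∈ range N,
      (((r + 1 : ℕ) : R) * (μ r : R)) • (X i ^ (r + 1) * psm N (μ - Finsupp.single r 1)) := by
  unfold psm
  rw [deriv_prod, mul_sum]
  apply sum_congr rfl
  intro r _
  have h := pderiv_Pw (R := R) hi r
  rw [smul_eq_C_mul] at h ⊢
  rw [map_mul, map_natCast C (μ r)]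
  linear_combination (μ r : MvPolynomial ℕ R) *
    (∏ x ∈ range N, Pw N (x + 1) ^ ((μ - Finsupp.single r 1 : ℕ →₀ ℕ) x)) * h

/-! ### The exchange part -/

lemma sum_range_sub_Ico (F : ℕ → MvPolynomial ℕ R) (a b : ℕ) :
    ∑ c ∈ Ico b a, F c - ∑ c ∈ Ico a b, F c = ∑ c ∈ range a, F c - ∑ c ∈ range b, F c := by
  rcases le_total b a with h | h
  · rw [Ico_eq_empty (a := a) (by omega), sum_empty, sub_zero, Finset.sum_Ico_eq_sub _ h]
  · rw [Ico_eq_empty (a := b) (by omega), sum_empty, zero_sub, Finset.sum_Ico_eq_sub _ h]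
    ring

lemma upd_eq_mul {i j : ℕ} (hij : i ≠ j) (ν : ℕ →₀ ℕ) {r : ℕ} (hr : r < ν i) :
    (monomial (upd ν i j (ν i - (r + 1))) (1 : R)) =
      X j ^ (r + 1) * monomial (ν - Finsupp.single i (r + 1)) 1 := by
  rw [X_pow_eq_monomial, monomial_mul, one_mul]
  suffices h : upd ν i j (ν i - (r + 1)) =
      Finsupp.single j (r + 1) + (ν - Finsupp.single i (r + 1)) by rw [h]
  ext l
  rw [upd_apply, Finsupp.add_apply, Finsupp.tsub_apply]
  by_cases h1 : l = j
  · subst h1
    rw [if_pos rfl, Finsupp.single_eq_same, Finsupp.single_eq_of_ne (Ne.symm hij)]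
    omega
  · rw [if_neg h1, Finsupp.single_eq_of_ne h1]
    by_cases h2 : l = i
    · subst h2
      rw [if_pos rfl, Finsupp.single_eq_same]
      omega
    · rw [if_neg h2, Finsupp.single_eq_of_ne h2]
      omega

lemma sum_upd_eq {i j : ℕ} (hij : i ≠ j) (ν : ℕ →₀ ℕ) :
    ∑ c ∈ range (ν i), monomial (upd ν i j c) (1 : R) =
      ∑ r ∈ range (ν i), X j ^ (r + 1) * monomial (ν - Finsupp.single i (r + 1)) 1 := by
  rw [← Finset.sum_range_reflect]
  apply sum_congr rfl
  intro r hr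
  rw [mem_range] at hr
  rw [← upd_eq_mul hij ν hr]
  congr 3
  omega

lemma sum_X_dd [IsDomain R] {N i : ℕ} (hi : i < N) (ν : ℕ →₀ ℕ) (hν : ν i ≤ N) :
    ∑ j ∈ (range N).erase i, X j * dd i j (monomial ν (1 : R)) =
      ∑ r ∈ range N, divX i (r + 1) (monomial ν 1) * Pw N (r + 1) - (ν i : R) • monomial ν 1 -
        ∑ j ∈ (range N).erase i, ∑ c ∈ range (ν j), monomial (upd ν i j c) 1 := by
  have h1 : ∀ j ∈ (range N).erase i, X j * dd i j (monomial ν (1 : R)) =
      ∑ r ∈ range (ν i), X j ^ (r + 1) * monomial (ν - Finsupp.single i (r + 1)) 1 -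
        ∑ c ∈ range (ν j), monomial (upd ν i j c) 1 := by
    intro j hj
    rw [mem_erase] at hj
    rw [X_dd_monomial (Ne.symm hj.1), sum_range_sub_Ico, sum_upd_eq (Ne.symm hj.1)]
  rw [sum_congr rfl h1, sum_sub_distrib]
  congr 1
  rw [sum_comm]
  have h2 : ∀ r ∈ range (ν i), ∑ j ∈ (range N).erase i,
      X j ^ (r + 1) * monomial (ν - Finsupp.single i (r + 1)) (1 : R) =
      divX i (r + 1) (monomial ν 1) * Pw N (r + 1) - monomial ν 1 := by
    intro r hr
    rw [mem_range] at hr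
    rw [divX_monomial, if_pos (by omega), ← sum_mul]
    have h3 : (Pw N (r + 1) : MvPolynomial ℕ R) = X i ^ (r + 1) +
        ∑ j ∈ (range N).erase i, X j ^ (r + 1) := by
      unfold Pw
      rw [add_sum_erase (range N) (fun j => (X j ^ (r + 1) : MvPolynomial ℕ R))
        (mem_range.mpr hi)]
    have h4 : (monomial ν (1 : R)) = X i ^ (r + 1) * monomial (ν - Finsupp.single i (r + 1)) 1 := by
      rw [X_pow_eq_monomial, monomial_mul, one_mul, add_tsub_cancel_of_le]
      exact Finsupp.single_le_iff.mpr (by omega)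
    rw [h3]
    linear_combination h4
  rw [sum_congr rfl h2, sum_sub_distrib, sum_const, card_range, ← Nat.cast_smul_eq_nsmul R]
  congr 1
  have h5 : range N = range (ν i) ∪ Ico (ν i) N := by
    ext k; simp only [mem_range, mem_union, mem_Ico]; omega
  rw [h5, sum_union (by
    rw [disjoint_left]; intro k; simp only [mem_range, mem_Ico]; omega)]
  have h6 : ∀ r ∈ Ico (ν i) N, divX i (r + 1) (monomial ν (1 : R)) * Pw N (r + 1) = 0 := by
    intro r hr
    rw [mem_Ico] at hr
    rw [divX_monomial, if_neg (by omega), zero_mul]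
  rw [sum_congr rfl h6, sum_const_zero, add_zero]

lemma psm_add (N : ℕ) (μ : ℕ →₀ ℕ) {r : ℕ} (hr : r < N) :
    (psm N (μ + Finsupp.single r 1) : MvPolynomial ℕ R) = Pw N (r + 1) * psm N μ := by
  unfold psm
  have hmem : r ∈ range N := mem_range.mpr hr
  rw [← mul_prod_erase _ _ hmem, ← mul_prod_erase (range N) (fun r => Pw N (r + 1) ^ (μ r)) hmem]
  have h1 : ∏ x ∈ (range N).erase r,
      (Pw N (x + 1) : MvPolynomial ℕ R) ^ ((μ + Finsupp.single r 1 : ℕ →₀ ℕ) x) =
      ∏ x ∈ (range N).erase r, Pw N (x + 1) ^ (μ x) := by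
    apply prod_congr rfl
    intro x hx
    rw [mem_erase] at hx
    rw [Finsupp.add_apply, Finsupp.single_eq_of_ne hx.1, add_zero]
  rw [h1, Finsupp.add_apply, Finsupp.single_eq_same, pow_succ]
  ring

/-- Intertwining of the formal operators with the operators on polynomials. -/
lemma ev_xih [IsDomain R] {N i : ℕ} (α : R) (hi : i < N) (μ ν : ℕ →₀ ℕ) (hν : ν i ≤ N) :
    ev N (xih N α i (bb μ ν)) = xi N α i (ev N (bb μ ν)) := by
  rw [xih_apply, map_sub, map_add, map_add, map_sum]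
  have h1 : ∀ j ∈ range i, ev N (lift (sw i j).toLinearMap (bb μ ν)) =
      sw i j (ev N (bb μ ν : FV R)) := by
    intro j hj
    rw [mem_range] at hj
    exact ev_lift_sw hi (by omega) _
  rw [sum_congr rfl h1, xi_apply]
  congr 1
  rw [ev_bb]
  unfold bb
  rw [lift_single, Up_single, Dn_single, map_sum, map_sum, ev_single]
  simp only [ev_single]
  have h2 : ∀ r ∈ range N, divX i (r + 1) (monomial ν (1 : R)) * psm N (μ + Finsupp.single r 1) =
      (divX i (r + 1) (monomial ν 1) * Pw N (r + 1)) * psm N μ := by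
    intro r hr
    rw [mem_range] at hr
    rw [psm_add N μ hr]
    ring
  rw [sum_congr rfl h2, ← sum_mul, Dop_apply]
  have h3 : ∀ j ∈ (range N).erase i, X j * dd i j (monomial ν (1 : R) * psm N μ) =
      psm N μ * (X j * dd i j (monomial ν (1 : R))) := by
    intro j hj
    rw [mem_erase, mem_range] at hj
    rw [mul_comm (monomial ν (1 : R)), dd_mul_of_symm (Ne.symm hj.1) (sw_psm hi hj.2 μ)]
    ring
  rw [sum_congr rfl h3, ← mul_sum, sum_X_dd hi ν hν, Derivation.leibniz]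
  have h4 : X i * (monomial ν (1 : R) • pderiv i (psm N μ : MvPolynomial ℕ R) +
      (psm N μ : MvPolynomial ℕ R) • pderiv i (monomial ν (1 : R))) =
      monomial ν 1 * (X i * pderiv i (psm N μ)) + psm N μ * (X i * pderiv i (monomial ν 1)) := by
    simp only [smul_eq_mul]; ring
  rw [h4, pderiv_psm hi, X_mul_pderiv_monomial, Eop_monomial, ← Nat.cast_smul_eq_nsmul R]
  have h5 : α • (monomial ν (1 : R) * ∑ r ∈ range N, (((r + 1 : ℕ) : R) * (μ r : R)) •
      (X i ^ (r + 1) * psm N (μ - Finsupp.single r 1))) =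
      ∑ r ∈ range N, (α * ((r + 1 : ℕ) : R) * (μ r : R)) • (X i ^ (r + 1) * monomial ν 1) *
        psm N (μ - Finsupp.single r 1) := by
    rw [mul_sum, smul_sum]
    apply sum_congr rfl
    intro r _
    simp only [smul_eq_C_mul, map_mul]
    ring
  rw [smul_add, h5]
  simp only [smul_eq_C_mul, map_mul, map_sub, map_one]
  ring

end

end Pool.Agent.Helper61.Jack
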