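import Pool.Agent.Helper61.Jack.B1

/-!
# Lifts to the formal model
-/

set_option autoImplicit false

open MvPolynomial Finset

namespace Pool.Agent.Helper61.Jack

noncomputable section

variable {R : Type*} [CommRing R]

/-- Supports in the formal model. -/
def FSup (G : (ℕ →₀ ℕ) → (ℕ →₀ ℕ) → Prop) (f : FV R) : Prop :=
  ∀ μ ν, coeff ν (f μ) ≠ 0 → G μ ν

lemma FSup.zero {G : (ℕ →₀ ℕ) → (ℕ →₀ ℕ) → Prop} : FSup G (0 : FV R) := by
  intro μ ν h
  simp at h

lemma FSup.add {G : (ℕ →₀ ℕ) → (ℕ →₀ ℕ) → Prop} {f g : FV R} (hf : FSup G f) (hg : FSup G g) :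
    FSup G (f + g) := by
  intro μ ν h
  rw [Finsupp.add_apply, coeff_add] at h
  by_cases h1 : coeff ν (f μ) = 0
  · rw [h1, zero_add] at h; exact hg μ ν h
  · exact hf μ ν h1

lemma FSup.smul {G : (ℕ →₀ ℕ) → (ℕ →₀ ℕ) → Prop} {f : FV R} (hf : FSup G f) (c : R) :
    FSup G (c • f) := by
  intro μ ν h
  rw [Finsupp.smul_apply, coeff_smul, smul_eq_mul] at h
  exact hf μ ν (right_ne_zero_of_mul h)

lemma FSup.neg {G : (ℕ →₀ ℕ) → (ℕ →₀ ℕ) → Prop} {f : FV R} (hf : FSup G f) : FSup G (-f) := by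
  intro μ ν h
  rw [Finsupp.neg_apply, coeff_neg, neg_ne_zero] at h
  exact hf μ ν h

lemma FSup.sub {G : (ℕ →₀ ℕ) → (ℕ →₀ ℕ) → Prop} {f g : FV R} (hf : FSup G f) (hg : FSup G g) :
    FSup G (f - g) := by
  rw [sub_eq_add_neg]; exact hf.add hg.neg

lemma FSup.sum {G : (ℕ →₀ ℕ) → (ℕ →₀ ℕ) → Prop} {ι : Type*} {s : Finset ι} {F : ι → FV R}
    (h : ∀ i ∈ s, FSup G (F i)) : FSup G (∑ i ∈ s, F i) := by
  classical
  induction s using Finset.induction_on with
  | empty => rw [sum_empty]; exact FSup.zero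
  | insert a s ha ih =>
    rw [sum_insert ha]
    exact (h a (mem_insert_self _ _)).add (ih fun i hi => h i (mem_insert_of_mem hi))

lemma FSup.mono {G G' : (ℕ →₀ ℕ) → (ℕ →₀ ℕ) → Prop} (h : ∀ μ ν, G μ ν → G' μ ν) {f : FV R}
    (hf : FSup G f) : FSup G' f := fun μ ν hn => h μ ν (hf μ ν hn)

lemma FSup.single {G : (ℕ →₀ ℕ) → (ℕ →₀ ℕ) → Prop} {μ : ℕ →₀ ℕ} {a : MvPolynomial ℕ R}
    (h : PSup (G μ) a) : FSup G (Finsupp.single μ a) := by
  classical
  intro μ' ν h'
  rw [Finsupp.single_apply] at h'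
  split_ifs at h' with h1
  · subst h1; exact h ν h'
  · simp at h'

lemma FSup.bb {G : (ℕ →₀ ℕ) → (ℕ →₀ ℕ) → Prop} {μ ν : ℕ →₀ ℕ} (h : G μ ν) :
    FSup G (bb μ ν : FV R) := FSup.single (PSup.monomial h 1)

lemma FV_ind {G : (ℕ →₀ ℕ) → (ℕ →₀ ℕ) → Prop} {Pr : FV R → Prop} (f : FV R) (hf : FSup G f)
    (h0 : Pr 0) (hadd : ∀ f g, Pr f → Pr g → Pr (f + g)) (hs : ∀ (c : R) f, Pr f → Pr (c • f))
    (hb : ∀ μ ν, G μ ν → Pr (bb μ ν)) : Pr f := by
  have hsum : ∀ {ι : Type _} (s : Finset ι) (F : ι → FV R), (∀ i ∈ s, Pr (F i)) →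
      Pr (∑ i ∈ s, F i) := by
    intro ι s F h
    exact Finset.sum_induction F Pr hadd h0 h
  have h1 : f = ∑ μ ∈ f.support, ∑ ν ∈ (f μ).support, coeff ν (f μ) • bb μ ν := by
    conv_lhs => rw [← Finsupp.sum_single f]
    unfold Finsupp.sum
    apply sum_congr rfl
    intro μ _
    conv_lhs => rw [(f μ).as_sum]
    rw [← Finsupp.lsingle_apply (R := R), map_sum]
    apply sum_congr rfl
    intro ν _
    have : (monomial ν (coeff ν (f μ))) = coeff ν (f μ) • monomial ν (1 : R) := by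
      rw [smul_monomial, smul_eq_mul, mul_one]
    rw [this, map_smul]
    rfl
  rw [h1]
  refine hsum _ _ fun μ _ => hsum _ _ fun ν hν => hs _ _ (hb μ ν (hf μ ν ?_))
  exact mem_support_iff.mp hν

/-- Extension of support statements. -/
lemma FSup.linear {G G' : (ℕ →₀ ℕ) → (ℕ →₀ ℕ) → Prop} (T : FV R →ₗ[R] FV R)
    (h : ∀ μ ν, G μ ν → FSup G' (T (Jack.bb μ ν))) {f : FV R} (hf : FSup G f) :
    FSup G' (T f) := by
  refine FV_ind (Pr := fun f => FSup G' (T f)) f hf ?_ ?_ ?_ h
  · rw [map_zero]; exact FSup.zero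
  · intro f g hf hg; rw [map_add]; exact hf.add hg
  · intro c f hf; rw [map_smul]; exact hf.smul c

lemma FSup.ext_of {G : (ℕ →₀ ℕ) → (ℕ →₀ ℕ) → Prop} {M : Type*} [AddCommGroup M] [Module R M]
    (S T : FV R →ₗ[R] M) (h : ∀ μ ν, G μ ν → S (Jack.bb μ ν) = T (Jack.bb μ ν)) {f : FV R}
    (hf : FSup G f) : S f = T f := by
  refine FV_ind (Pr := fun f => S f = T f) f hf ?_ ?_ ?_ h
  · rw [map_zero, map_zero]
  · intro f g hf hg; rw [map_add, map_add, hf, hg]
  · intro c f hf; rw [map_smul, map_smul, hf]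

/-- The basis elements of degree `n` with variables `x_0, …, x_{M-1}`. -/
structure Good (N M n : ℕ) (μ ν : ℕ →₀ ℕ) : Prop where
  out : ∀ i, M ≤ i → ν i = 0
  deg : ∑ i ∈ range N, ν i + ∑ r ∈ range N, (r + 1) * μ r = n
  outp : ∀ r, N ≤ r → μ r = 0

lemma Good.mono {N M M' n : ℕ} (h : M ≤ M') {μ ν : ℕ →₀ ℕ} (hg : Good N M n μ ν) :
    Good N M' n μ ν := ⟨fun i hi => hg.out i (by omega), hg.deg, hg.outp⟩

lemma Good.le {N M n : ℕ} {μ ν : ℕ →₀ ℕ} (hg : Good N M n μ ν) {i : ℕ} (hi : i < N) : ν i ≤ n := by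
  rw [← hg.deg]
  have := Finset.single_le_sum (f := fun i => ν i) (fun _ _ => Nat.zero_le _) (mem_range.mpr hi)
  omega

lemma sum_pm {N : ℕ} {σ : Equiv.Perm ℕ} (hσ : ∀ l, σ l < N ↔ l < N) (ν : ℕ →₀ ℕ) :
    ∑ i ∈ range N, pm σ ν i = ∑ i ∈ range N, ν i := by
  rw [hts_perm hσ (fun i => pm σ ν i)]
  apply sum_congr rfl
  intro i _
  rw [pm_apply, Equiv.symm_apply_apply]

lemma Good.swap {N M n i j : ℕ} (hi : i < M) (hj : j < M) (hMN : M ≤ N) {μ ν : ℕ →₀ ℕ}
    (hg : Good N M n μ ν) : Good N M n μ (pm (Equiv.swap i j) ν) := by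
  refine ⟨?_, ?_, hg.outp⟩
  · intro k hk
    rw [pm_swap_apply, Equiv.swap_apply_of_ne_of_ne (by omega) (by omega)]
    exact hg.out k hk
  · rw [sum_pm (swap_lt (by omega) (by omega))]
    exact hg.deg

lemma FSup_sw {N M n i j : ℕ} (hi : i < M) (hj : j < M) (hMN : M ≤ N) {f : FV R}
    (hf : FSup (Good N M n) f) : FSup (Good N M n) (lift (sw i j).toLinearMap f) := by
  refine FSup.linear _ ?_ hf
  intro μ ν hg
  unfold bb
  rw [lift_single, AlgHom.toLinearMap_apply, sw_monomial]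
  exact FSup.single (PSup.monomial (hg.swap hi hj hMN) 1)

lemma FSup_Phi {N m n : ℕ} (hm : m < N) {f : FV R} (hf : FSup (Good N (m + 1) n) f) :
    FSup (Good N (m + 1) (n + 1)) (lift (Phi m) f) := by
  refine FSup.linear _ ?_ hf
  intro μ ν hg
  unfold bb
  rw [lift_single, Phi_apply, rename_monomial]
  have h1 : (X m : MvPolynomial ℕ R) * monomial (Finsupp.mapDomain (rot m) ν) 1 =
      monomial (Finsupp.single m 1 + pm (rot m) ν) 1 := by
    rw [X, monomial_mul, one_mul]; rfl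
  rw [h1]
  refine FSup.single (PSup.monomial ⟨?_, ?_, hg.outp⟩ 1)
  · intro i hi
    rw [Finsupp.add_apply, Finsupp.single_eq_of_ne (by omega), pm_apply]
    have : (rot m).symm i = i := by
      rw [Equiv.symm_apply_eq, rot_gt (by omega)]
    rw [this, hg.out i hi]
  · simp only [Finsupp.add_apply]
    rw [sum_add_distrib, sum_pm (rot_lt hm)]
    have h2 : ∑ i ∈ range N, (Finsupp.single m 1 : ℕ →₀ ℕ) i = 1 := by
      rw [Finset.sum_eq_single m]
      · simp
      · intro b _ hb; rw [Finsupp.single_eq_of_ne hb]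
      · intro h; exact absurd (mem_range.mpr hm) h
    have := hg.deg
    omega

lemma Good.upd {N M n i j c : ℕ} (hi : i < M) (hMN : M ≤ N) (hij : i ≠ j) (hj : j < N)
    {μ ν : ℕ →₀ ℕ} (hc : c < ν j) (hg : Good N M n μ ν) : Good N M n μ (upd ν i j c) := by
  have hjM : j < M := by
    by_contra h
    have := hg.out j (by omega)
    omega
  refine ⟨?_, ?_, hg.outp⟩
  · intro k hk
    rw [upd_apply, if_neg (by omega), if_neg (by omega)]
    exact hg.out k hk
  · have h1 := sum_pair (N := N) (i := i) (j := j) (by omega) hj hij (d := ν) (e := Jack.upd ν i j c)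
      (by intro l h1 h2; rw [upd_apply, if_neg h2, if_neg h1])
    rw [upd_apply, upd_apply, if_neg hij, if_pos rfl, if_pos rfl] at h1
    have := hg.deg
    omega

lemma sum_add_single {N i k : ℕ} (hi : i < N) (ν : ℕ →₀ ℕ) :
    ∑ l ∈ range N, (ν + Finsupp.single i k : ℕ →₀ ℕ) l = ∑ l ∈ range N, ν l + k := by
  simp only [Finsupp.add_apply]
  rw [sum_add_distrib]
  congr 1
  rw [Finset.sum_eq_single i]
  · simp
  · intro b _ hb; rw [Finsupp.single_eq_of_ne hb]
  · intro h; exact absurd (mem_range.mpr hi) h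

lemma sum_add_single' {N r : ℕ} (hr : r < N) (μ : ℕ →₀ ℕ) :
    ∑ l ∈ range N, (l + 1) * (μ + Finsupp.single r 1 : ℕ →₀ ℕ) l =
      ∑ l ∈ range N, (l + 1) * μ l + (r + 1) := by
  simp only [Finsupp.add_apply, mul_add]
  rw [sum_add_distrib]
  congr 1
  rw [Finset.sum_eq_single r]
  · simp
  · intro b _ hb; rw [Finsupp.single_eq_of_ne hb, mul_zero]
  · intro h; exact absurd (mem_range.mpr hr) h

lemma FSup_xih {N M n i : ℕ} (α : R) (hi : i < M) (hMN : M ≤ N) {f : FV R}
    (hf : FSup (Good N M n) f) : FSup (Good N M n) (xih N α i f) := by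
  rw [xih_apply]
  refine ((FSup.add ?_ ?_).add ?_).sub (FSup.sum ?_)
  · refine FSup.linear _ ?_ hf
    intro μ ν hg
    unfold bb
    rw [lift_single, Eop_monomial]
    refine FSup.single (PSup.sub ((PSup.monomial hg 1).smul _) (PSup.sum ?_))
    intro j hj
    rw [mem_erase, mem_range] at hj
    refine PSup.sum ?_
    intro c hc
    rw [mem_range] at hc
    exact PSup.monomial (hg.upd hi hMN (Ne.symm hj.1) hj.2 hc) 1
  · refine FSup.linear _ ?_ hf
    intro μ ν hg
    unfold bb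
    rw [Up_single]
    refine FSup.sum ?_
    intro r hr
    rw [mem_range] at hr
    by_cases h0 : μ r = 0
    · rw [h0, Nat.cast_zero, mul_zero, zero_smul]
      exact FSup.single PSup.zero
    · rw [X_pow_eq_monomial, monomial_mul, one_mul]
      refine FSup.single ((PSup.monomial ⟨?_, ?_, ?_⟩ 1).smul _)
      · intro k hk
        rw [Finsupp.add_apply, Finsupp.single_eq_of_ne (by omega), zero_add]
        exact hg.out k hk
      · rw [add_comm (Finsupp.single i (r + 1)), sum_add_single (by omega)]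
        have h1 : μ = (μ - Finsupp.single r 1) + Finsupp.single r 1 :=
          (tsub_add_cancel_of_le (Finsupp.single_le_iff.mpr (by omega))).symm
        have h2 := sum_add_single' hr (μ - Finsupp.single r 1)
        rw [← h1] at h2
        have := hg.deg
        omega
      · intro k hk
        rw [Finsupp.tsub_apply, hg.outp k hk, Nat.zero_sub]
  · refine FSup.linear _ ?_ hf
    intro μ ν hg
    unfold bb
    rw [Dn_single]
    refine FSup.sum ?_
    intro r hr
    rw [mem_range] at hr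
    rw [divX_monomial]
    by_cases h0 : r + 1 ≤ ν i
    · rw [if_pos h0]
      refine FSup.single (PSup.monomial ⟨?_, ?_, ?_⟩ 1)
      · intro k hk
        rw [Finsupp.tsub_apply, hg.out k hk, Nat.zero_sub]
      · rw [sum_add_single' hr]
        have h1 : ν = (ν - Finsupp.single i (r + 1)) + Finsupp.single i (r + 1) :=
          (tsub_add_cancel_of_le (Finsupp.single_le_iff.mpr h0)).symm
        have h2 := sum_add_single (N := N) (k := r + 1) (show i < N by omega)
          (ν - Finsupp.single i (r + 1))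
        rw [← h1] at h2
        have := hg.deg
        omega
      · intro k hk
        rw [Finsupp.add_apply, hg.outp k hk, Finsupp.single_eq_of_ne (by omega), add_zero]
    · rw [if_neg h0]
      exact FSup.single PSup.zero
  · intro j hj
    rw [mem_range] at hj
    exact FSup_sw hi (by omega) hMN hf

/-! ### The lift of `C_n` -/

/-- Projection to the polynomials without `x_i`. -/
def proj (i : ℕ) : MvPolynomial ℕ R →ₗ[R] MvPolynomial ℕ R :=
  (basisMonomials ℕ R).constr R (fun ν => if ν i = 0 then monomial ν 1 else 0)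

lemma proj_monomial (i : ℕ) (ν : ℕ →₀ ℕ) :
    proj i (monomial ν (1 : R)) = if ν i = 0 then monomial ν 1 else 0 := by
  have h := (basisMonomials ℕ R).constr_basis R
    (fun ν => if ν i = 0 then monomial ν (1 : R) else 0) ν
  rw [coe_basisMonomials] at h
  exact h

lemma ip_proj (i : ℕ) (f g : MvPolynomial ℕ R) : ip (proj i f) g = ip f (proj i g) := by
  apply ip_adj
  intro ν ν'
  rw [proj_monomial, proj_monomial]
  by_cases h : ν = ν'
  · subst h
    split_ifs <;> simp
  · have h1 : ip (monomial ν (1 : R)) (monomial ν' 1) = 0 := by rw [ip_monomial, if_neg h]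
    split_ifs <;> simp [h1]

/-- The lift of `Cn`. -/
def Ch (N : ℕ) (α : R) (i : ℕ) : FV R →ₗ[R] FV R :=
  (lift (proj i)).comp (xih N α i + (N : R) • LinearMap.id)

lemma Ch_apply (N : ℕ) (α : R) (i : ℕ) (f : FV R) :
    Ch N α i f = lift (proj i) (xih N α i f + (N : R) • f) := rfl

lemma lift_proj_self {N i n : ℕ} {g : FV R} (hg : FSup (Good N i n) g) :
    lift (proj i) g = g := by
  refine FSup.ext_of (lift (proj i)) LinearMap.id ?_ hg
  intro μ ν h
  unfold bb
  rw [lift_single, proj_monomial, if_pos (h.out i le_rfl)]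
  rfl

lemma Bf_Ch {N i n : ℕ} (α : R) {f g : FV R} (hg : FSup (Good N i n) g) :
    Bf N α (Ch N α i f) g = Bf N α f (xih N α i g + (N : R) • g) := by
  rw [Ch_apply, Bf_lift N α (ip_proj i), lift_proj_self hg, map_add, map_add, map_smul,
    LinearMap.add_apply, LinearMap.smul_apply, map_smul, Bf_xih]

lemma FSup_Ch {N i n : ℕ} (α : R) (hi : i < N) {f : FV R} (hf : FSup (Good N (i + 1) n) f) :
    FSup (Good N i n) (Ch N α i f) := by
  rw [Ch_apply]
  have h1 := (FSup_xih α (Nat.lt_succ_self i) hi hf).add (hf.smul (N : R))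
  refine FSup.linear _ ?_ h1
  intro μ ν hg
  unfold bb
  rw [lift_single, proj_monomial]
  split_ifs with h
  · refine FSup.single (PSup.monomial ⟨?_, hg.deg, hg.outp⟩ 1)
    intro k hk
    by_cases hki : k = i
    · rw [hki, h]
    · exact hg.out k (by omega)
  · exact FSup.single PSup.zero

end

end Pool.Agent.Helper61.Jack
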