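import Pool.Agent.Helper61.Jack.B2
import Pool.Agent.Helper61.Jack.B3

/-!
# Lifts of the nonsymmetric Jack polynomials
-/

set_option autoImplicit false

open MvPolynomial Finset

namespace Pool.Agent.Helper61.Jack

noncomputable section

variable {R : Type*} [CommRing R]

/-- The monomial with the `i`-th exponent moved to position `k`. -/
def mvm (ν : ℕ →₀ ℕ) (i k : ℕ) : MvPolynomial ℕ R :=
  X k ^ (ν i) * monomial (ν - Finsupp.single i (ν i)) 1

lemma mvm_self (ν : ℕ →₀ ℕ) (i : ℕ) : (mvm ν i i : MvPolynomial ℕ R) = monomial ν 1 := by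
  unfold mvm
  rw [X_pow_eq_monomial, monomial_mul, one_mul, add_tsub_cancel_of_le]
  exact Finsupp.single_le_iff.mpr le_rfl

lemma mvm_eq_upd {i k : ℕ} (hik : i ≠ k) (ν : ℕ →₀ ℕ) :
    (mvm ν i k : MvPolynomial ℕ R) = monomial (upd ν i k 0) 1 := by
  unfold mvm
  rw [X_pow_eq_monomial, monomial_mul, one_mul]
  suffices h : Finsupp.single k (ν i) + (ν - Finsupp.single i (ν i)) = upd ν i k 0 by rw [h]
  ext l
  rw [upd_apply, Finsupp.add_apply, Finsupp.tsub_apply]
  by_cases h1 : l = k
  · subst h1
    rw [if_pos rfl, Finsupp.single_eq_same, Finsupp.single_eq_of_ne (Ne.symm hik)]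
    omega
  · rw [if_neg h1, Finsupp.single_eq_of_ne h1]
    by_cases h2 : l = i
    · subst h2
      rw [if_pos rfl, Finsupp.single_eq_same]
      omega
    · rw [if_neg h2, Finsupp.single_eq_of_ne h2]
      omega

lemma sum_mvm {N i : ℕ} (ν : ℕ →₀ ℕ) (hν : ν i ≤ N) (μ : ℕ →₀ ℕ) :
    ev N (lift (proj i) (Dn N i (bb μ ν : FV R))) +
      (N : R) • ev N (lift (proj i) (bb μ ν : FV R)) =
      psm N μ * ∑ k ∈ range N, mvm ν i k := by
  unfold bb
  rw [Dn_single, map_sum, map_sum, lift_single, proj_monomial]
  simp only [lift_single, ev_single, divX_monomial]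
  rcases Nat.eq_zero_or_pos (ν i) with h0 | h0
  · have h1 : ∀ r ∈ range N, proj i (if r + 1 ≤ ν i then
        monomial (ν - Finsupp.single i (r + 1)) (1 : R) else 0) *
          psm N (μ + Finsupp.single r 1) = 0 := by
      intro r _
      rw [if_neg (by omega), map_zero, zero_mul]
    have h2 : ∀ k ∈ range N, (mvm ν i k : MvPolynomial ℕ R) = monomial ν 1 := by
      intro k _
      unfold mvm
      rw [h0, pow_zero, one_mul, Finsupp.single_zero, tsub_zero]
    rw [sum_congr rfl h1, sum_congr rfl h2, sum_const_zero, if_pos h0, sum_const, card_range,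
      ← Nat.cast_smul_eq_nsmul R]
    simp only [smul_eq_C_mul]
    ring
  · obtain ⟨a, ha⟩ : ∃ a, ν i = a + 1 := ⟨ν i - 1, by omega⟩
    have hmem : a ∈ range N := mem_range.mpr (by omega)
    rw [Finset.sum_eq_single a]
    · rw [if_pos (by omega), if_neg (by omega), zero_mul, smul_zero, add_zero, proj_monomial,
        if_pos, psm_add N μ (by omega)]
      · unfold mvm Pw
        rw [ha, ← sum_mul]
        ring
      · rw [Finsupp.tsub_apply, Finsupp.single_eq_same]; omega
    · intro b _ hb
      by_cases h1 : b + 1 ≤ ν i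
      · rw [if_pos h1, proj_monomial, if_neg, zero_mul]
        rw [Finsupp.tsub_apply, Finsupp.single_eq_same]; omega
      · rw [if_neg h1, map_zero, zero_mul]
    · intro h; exact absurd hmem h

/-- The lift of `Cn`. -/
lemma ev_Ch {N i n : ℕ} (α : R) (hi : i < N) (hn : n ≤ N) {f : FV R}
    (hf : FSup (Good N (i + 1) n) f) : ev N (Ch N α i f) = Cn N i (ev N f) := by
  refine FSup.ext_of ((ev N).comp (Ch N α i)) ((Cn N i).comp (ev N)) ?_ hf
  intro μ ν hg
  rw [LinearMap.comp_apply, LinearMap.comp_apply, Ch_apply, xih_apply]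
  have hν : ν i ≤ N := (hg.le hi).trans hn
  simp only [map_add, map_sub, map_sum, map_smul]
  have key := sum_mvm (R := R) (N := N) (i := i) ν hν μ
  have hUp : ev N (lift (proj i) (Up N α i (bb μ ν : FV R))) = 0 := by
    unfold bb
    rw [Up_single, map_sum, map_sum]
    apply sum_eq_zero
    intro r _
    rw [lift_single, map_smul, X_pow_eq_monomial, monomial_mul, one_mul, proj_monomial, if_neg,
      smul_zero, Finsupp.single_zero, map_zero]
    rw [Finsupp.add_apply, Finsupp.single_eq_same]; omega
  have hE : ev N (lift (proj i) (lift (Eop N α i) (bb μ ν : FV R))) =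
      -(psm N μ * ∑ j ∈ range i, if 0 < ν j then mvm ν i j else 0) := by
    unfold bb
    rw [lift_single, lift_single, ev_single, Eop_monomial, map_sub, map_smul, map_sum]
    have h1 : ((α - 1) * (ν i : R)) • proj i (monomial ν (1 : R)) = 0 := by
      rw [proj_monomial]
      split_ifs with h
      · rw [h, Nat.cast_zero, mul_zero, zero_smul]
      · rw [smul_zero]
    have h2 : ∀ j ∈ (range N).erase i, proj i (∑ c ∈ range (ν j), monomial (upd ν i j c) (1 : R)) =
        if j < i then (if 0 < ν j then mvm ν i j else 0) else 0 := by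
      intro j hj
      rw [mem_erase, mem_range] at hj
      have hij : i ≠ j := Ne.symm hj.1
      by_cases hji : j < i
      · rw [if_pos hji, map_sum]
        have h3 : ∀ c ∈ range (ν j), proj i (monomial (upd ν i j c) (1 : R)) =
            if c = 0 then mvm ν i j else 0 := by
          intro c _
          rw [proj_monomial, upd_apply, if_neg hij, if_pos rfl]
          by_cases hc : c = 0
          · rw [if_pos hc, if_pos hc, hc, mvm_eq_upd hij]
          · rw [if_neg hc, if_neg hc]
        rw [sum_congr rfl h3, sum_ite_eq']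
        simp only [mem_range]
      · rw [if_neg hji, hg.out j (by omega), range_zero, sum_empty, map_zero]
    rw [h1, sum_congr rfl h2, zero_sub, neg_mul, mul_comm]
    congr 2
    rw [← Finset.sum_filter]
    apply sum_congr _ (fun _ _ => rfl)
    ext k
    simp only [mem_filter, mem_erase, mem_range]
    omega
  have hS : ∑ j ∈ range i, ev N (lift (proj i) (lift (sw i j).toLinearMap (bb μ ν : FV R))) =
      psm N μ * ∑ j ∈ range i, if 0 < ν j then 0 else mvm ν i j := by
    rw [mul_sum]
    apply sum_congr rfl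
    intro j hj
    rw [mem_range] at hj
    have hij : i ≠ j := by omega
    unfold bb
    rw [lift_single, lift_single, ev_single, AlgHom.toLinearMap_apply, sw_monomial, proj_monomial,
      pm_swap_apply, Equiv.swap_apply_left]
    by_cases h0 : ν j = 0
    · rw [if_pos h0, if_neg (by omega), mvm_eq_upd hij, ← upd_swap hij, h0]
      ring
    · rw [if_neg h0, if_pos (by omega)]
      ring
  rw [hUp, hE, hS]
  have hsplit : ∑ k ∈ range N, (mvm ν i k : MvPolynomial ℕ R) =
      ∑ j ∈ range i, (if 0 < ν j then mvm ν i j else 0) +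
      ∑ j ∈ range i, (if 0 < ν j then 0 else mvm ν i j) + ∑ k ∈ Ico i N, mvm ν i k := by
    rw [← sum_add_distrib]
    have h1 : ∀ j ∈ range i, (if 0 < ν j then (mvm ν i j : MvPolynomial ℕ R) else 0) +
        (if 0 < ν j then 0 else mvm ν i j) = mvm ν i j := by
      intro j _
      split_ifs <;> simp
    rw [sum_congr rfl h1]
    rw [← Finset.sum_range_add_sum_Ico _ hi.le]
  have hCn : Cn N i (ev N (bb μ ν : FV R)) = psm N μ * ∑ k ∈ Ico i N, mvm ν i k := by
    rw [ev_bb, Cn_apply, Finset.sum_eq_sum_Ico_succ_bot hi, mvm_self, mul_add, mul_sum]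
    congr 1
    · ring
    · apply sum_congr rfl
      intro k hk
      rw [mem_Ico] at hk
      have hik : i ≠ k := by omega
      rw [map_mul, sw_psm hi hk.2, sw_monomial, mvm_eq_upd hik, ← upd_swap hik,
        hg.out k (by omega)]
      ring
  rw [hCn]
  rw [hsplit] at key
  linear_combination key

lemma ev_xih' [IsDomain R] {N M n i : ℕ} (α : R) (hi : i < N) (hn : n ≤ N) {f : FV R}
    (hf : FSup (Good N M n) f) : ev N (xih N α i f) = xi N α i (ev N f) := by
  refine FSup.ext_of ((ev N).comp (xih N α i)) ((xi N α i).comp (ev N)) ?_ hf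
  intro μ ν hg
  exact ev_xih α hi μ ν ((hg.le hi).trans hn)

lemma Aop_eq {N m : ℕ} (y : R) (f : MvPolynomial ℕ R) :
    Aop N m y f = (y + (m : R)) • Phi m f + Cn N m (Phi m f) := by
  rw [Aop_apply, Cn_apply]
  push_cast
  module

lemma ev_one (N : ℕ) : ev N (bb 0 0 : FV R) = 1 := by
  rw [ev_bb]
  unfold psm
  simp

/-- Lifts of `Jk`. -/
theorem exists_lift {N : ℕ} (α : R) (l : List ℕ) (hl : l.length ≤ N) (hn : l.sum ≤ N) :
    ∃ f : FV R, FSup (Good N l.length l.sum) f ∧ ev N f = Jk N α l := by
  match l with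
  | [] =>
    refine ⟨bb 0 0, FSup.bb ⟨fun i _ => rfl, by simp, fun r _ => rfl⟩, ?_⟩
    rw [ev_one, Jk_nil]
  | 0 :: l =>
    obtain ⟨f, h1, h2⟩ := exists_lift (N := N) α l (by simp at hl; omega) (by simpa using hn)
    refine ⟨f, ?_, ?_⟩
    · have : (0 :: l).sum = l.sum := by simp
      rw [this, List.length_cons]
      exact h1.mono (fun μ ν hg => hg.mono (M' := l.length + 1) (by omega))
    · rw [Jk_zero, h2]
  | (t + 1) :: l =>
    obtain ⟨f, h1, h2⟩ := exists_lift (N := N) α (l ++ [t]) (by simpa using hl)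
      (by simp only [List.sum_cons, List.sum_append, List.sum_nil] at hn ⊢; omega)
    have hlN : l.length < N := by simp at hl; omega
    rw [List.length_append, List.length_singleton] at h1
    have h3 := FSup_Phi hlN h1
    have hs : (l ++ [t]).sum + 1 = ((t + 1) :: l).sum := by
      simp only [List.sum_cons, List.sum_append, List.sum_nil]; omega
    rw [hs] at h3
    refine ⟨(evH α (t + 1) l + (l.length : R)) • lift (Phi l.length) f +
      Ch N α l.length (lift (Phi l.length) f), ?_, ?_⟩
    · rw [List.length_cons]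
      exact (h3.smul _).add ((FSup_Ch α hlN h3).mono
        (fun μ ν hg => hg.mono (M' := l.length + 1) (by omega)))
    · rw [map_add, map_smul, ev_Ch α hlN hn h3, ev_lift_Phi hlN, h2, Jk_succ, Aop_eq]
termination_by l.sum + l.length
decreasing_by all_goals (simp; try omega)

end

end Pool.Agent.Helper61.Jack
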