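import Pool.Agent.Helper61.Jack.B3

/-!
# Injectivity of the evaluation
-/

set_option autoImplicit false

open MvPolynomial Finset

namespace Pool.Agent.Helper61.Jack

noncomputable section

/-- The multiset of the parts. -/
def pmu (N : ℕ) (μ : ℕ →₀ ℕ) : Multiset ℕ := ∑ r ∈ range N, Multiset.replicate (μ r) (r + 1)

/-- Nonzero values in the positions `[M, N)`. -/
def SV (M N : ℕ) (E : ℕ → ℕ) : Multiset ℕ := ((Ico M N).val.map E).filter (· ≠ 0)

lemma mem_pmu {N : ℕ} {μ : ℕ →₀ ℕ} {a : ℕ} (h : a ∈ pmu N μ) : 0 < a := by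
  unfold pmu at h
  rw [Multiset.mem_sum] at h
  obtain ⟨r, _, h⟩ := h
  have := Multiset.eq_of_mem_replicate h
  omega

lemma count_pmu {N : ℕ} (μ : ℕ →₀ ℕ) {r : ℕ} (hr : r < N) : (pmu N μ).count (r + 1) = μ r := by
  unfold pmu
  rw [Multiset.count_sum', Finset.sum_eq_single r]
  · rw [Multiset.count_replicate_self]
  · intro b _ hb
    rw [Multiset.count_replicate, if_neg (by omega)]
  · intro h; exact absurd (mem_range.mpr hr) h

lemma pmu_inj {N : ℕ} {μ μ' : ℕ →₀ ℕ} (h : ∀ r, N ≤ r → μ r = 0) (h' : ∀ r, N ≤ r → μ' r = 0)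
    (he : pmu N μ = pmu N μ') : μ = μ' := by
  ext r
  by_cases hr : r < N
  · rw [← count_pmu μ hr, ← count_pmu μ' hr, he]
  · rw [h r (by omega), h' r (by omega)]

lemma card_pmu (N : ℕ) (μ : ℕ →₀ ℕ) : Multiset.card (pmu N μ) = ∑ r ∈ range N, μ r := by
  unfold pmu
  rw [Multiset.card_sum]
  simp

variable {R : Type*} [CommRing R]

lemma psm_eq (N : ℕ) (μ : ℕ →₀ ℕ) :
    (psm N μ : MvPolynomial ℕ R) = ((pmu N μ).map (Pw N)).prod := by
  unfold psm pmu
  have h : ∀ s : Finset ℕ, (∏ r ∈ s, (Pw N (r + 1) : MvPolynomial ℕ R) ^ (μ r)) =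
      ((∑ r ∈ s, Multiset.replicate (μ r) (r + 1)).map (Pw N)).prod := by
    intro s
    classical
    induction s using Finset.induction_on with
    | empty => simp
    | insert a s ha ih =>
      rw [prod_insert ha, sum_insert ha, Multiset.map_add, Multiset.prod_add, ih,
        Multiset.map_replicate, Multiset.prod_replicate]
  exact h _

/-- Rest of the values. -/
def SV' (M N j : ℕ) (E : ℕ → ℕ) : Multiset ℕ := (((Ico M N).erase j).val.map E).filter (· ≠ 0)

lemma SV_split {M N j : ℕ} (hj : j ∈ Ico M N) (E : ℕ → ℕ) :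
    SV M N E = (if E j ≠ 0 then {E j} else 0) + SV' M N j E := by
  unfold SV SV'
  have h1 : (Ico M N).val = j ::ₘ ((Ico M N).erase j).val := by
    rw [Finset.erase_val]
    exact (Multiset.cons_erase hj).symm
  rw [h1, Multiset.map_cons, Multiset.filter_cons]

lemma SV'_congr {M N j : ℕ} {E E' : ℕ → ℕ} (h : ∀ k, k ≠ j → E k = E' k) :
    SV' M N j E = SV' M N j E' := by
  unfold SV'
  congr 1
  apply Multiset.map_congr rfl
  intro k hk
  rw [Finset.mem_val, mem_erase] at hk
  exact h k hk.1

lemma SV_congr {M N : ℕ} {E E' : ℕ → ℕ} (h : ∀ k, M ≤ k → E k = E' k) :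
    SV M N E = SV M N E' := by
  unfold SV
  congr 1
  apply Multiset.map_congr rfl
  intro k hk
  rw [Finset.mem_val, mem_Ico] at hk
  exact h k hk.1

lemma SV_zero {M N : ℕ} {E : ℕ → ℕ} (h : ∀ k, M ≤ k → E k = 0) : SV M N E = 0 := by
  unfold SV
  rw [Multiset.filter_eq_nil]
  intro a ha
  rw [Multiset.mem_map] at ha
  obtain ⟨k, hk, rfl⟩ := ha
  rw [Finset.mem_val, mem_Ico] at hk
  simpa using h k hk.1

lemma coeff_Pw_mul (N a : ℕ) (f : MvPolynomial ℕ R) (E : ℕ →₀ ℕ) :
    coeff E (Pw N a * f) =
      ∑ j ∈ range N, if a ≤ E j then coeff (E - Finsupp.single j a) f else 0 := by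
  unfold Pw
  rw [sum_mul, coeff_sum]
  apply sum_congr rfl
  intro j _
  rw [X_pow_eq_monomial, coeff_monomial_mul', one_mul]
  congr 1
  apply propext
  exact Finsupp.single_le_iff

lemma coefP {M N : ℕ} {ν : ℕ →₀ ℕ} (hν : ∀ i, M ≤ i → ν i = 0)
    (s : Multiset ℕ) : (∀ a ∈ s, 0 < a) → ∀ E : ℕ →₀ ℕ,
      coeff E (monomial ν (1 : R) * (s.map (Pw N)).prod) ≠ 0 →
      Multiset.card s ≤ Multiset.card (SV M N E) → SV M N E = s ∧ ∀ i, i < M → E i = ν i := by
  classical
  induction s using Multiset.induction_on with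
  | empty =>
    intro _ E hE _
    rw [Multiset.map_zero, Multiset.prod_zero, mul_one, coeff_monomial] at hE
    have h : ν = E := by
      by_contra h
      rw [if_neg h] at hE
      exact hE rfl
    subst h
    exact ⟨SV_zero hν, fun _ _ => rfl⟩
  | cons a s ih =>
    intro ha E hE hcard
    have ih := ih (fun b hb => ha b (Multiset.mem_cons_of_mem hb))
    have ha0 : 0 < a := ha a (Multiset.mem_cons_self a s)
    rw [Multiset.map_cons, Multiset.prod_cons, mul_left_comm, coeff_Pw_mul] at hE
    obtain ⟨j, hj, hne⟩ := Finset.exists_ne_zero_of_sum_ne_zero hE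
    rw [mem_range] at hj
    by_cases haj : a ≤ E j
    · rw [if_pos haj] at hne
      set E' := E - Finsupp.single j a with hE'
      have hEk : ∀ k, k ≠ j → E k = E' k := by
        intro k hk
        rw [hE', Finsupp.tsub_apply, Finsupp.single_eq_of_ne hk, Nat.sub_zero]
      have hEj : E' j = E j - a := by
        rw [hE', Finsupp.tsub_apply, Finsupp.single_eq_same]
      rw [Multiset.card_cons] at hcard
      by_cases hjM : j < M
      · exfalso
        have h1 : SV M N E = SV M N E' := SV_congr (fun k hk => hEk k (by omega))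
        have h2 := (ih E' hne (by rw [← h1]; omega)).1
        rw [h1, h2] at hcard
        omega
      · have hmem : j ∈ Ico M N := mem_Ico.mpr ⟨by omega, hj⟩
        have h1 := SV_split hmem E
        have h2 := SV_split hmem E'
        rw [← SV'_congr hEk] at h2
        rw [if_pos (show E j ≠ 0 by omega)] at h1
        by_cases h0 : E' j = 0
        · rw [if_neg (by simpa using h0), zero_add] at h2
          have h3 : Multiset.card s ≤ Multiset.card (SV M N E') := by
            rw [h1, Multiset.card_add, Multiset.card_singleton] at hcard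
            rw [h2]
            omega
          obtain ⟨h4, h5⟩ := ih E' hne h3
          constructor
          · rw [h1, ← h2, h4, Multiset.singleton_add]
            congr 1
            omega
          · intro i hi
            rw [hEk i (by omega)]
            exact h5 i hi
        · exfalso
          rw [if_pos h0] at h2
          have h3 : Multiset.card (SV M N E) = Multiset.card (SV M N E') := by
            rw [h1, h2, Multiset.card_add, Multiset.card_add, Multiset.card_singleton,
              Multiset.card_singleton]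
          have h4 := (ih E' hne (by omega)).1
          rw [h3, h4] at hcard
          omega
    · rw [if_neg haj] at hne
      exact absurd rfl hne

lemma coefP_pos {M N : ℕ} {ν : ℕ →₀ ℕ} (hν : ∀ i, M ≤ i → ν i = 0)
    (s : Multiset ℕ) : (∀ a ∈ s, 0 < a) → ∀ E : ℕ →₀ ℕ,
      ∃ c : ℕ, coeff E (monomial ν (1 : R) * (s.map (Pw N)).prod) = (c : R) ∧
        (SV M N E = s → (∀ i, i < M → E i = ν i) → (∀ i, N ≤ i → E i = 0) → 0 < c) := by
  classical
  induction s using Multiset.induction_on with
  | empty =>
    intro _ E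
    rw [Multiset.map_zero, Multiset.prod_zero, mul_one, coeff_monomial]
    by_cases h : ν = E
    · exact ⟨1, by rw [if_pos h, Nat.cast_one], fun _ _ _ => Nat.one_pos⟩
    · refine ⟨0, by rw [if_neg h, Nat.cast_zero], ?_⟩
      intro h1 h2 h3
      exfalso
      apply h
      ext i
      by_cases hi : i < M
      · exact (h2 i hi).symm
      · by_cases hiN : i < N
        · rw [hν i (by omega)]
          by_contra h4
          have h5 : E i ∈ SV M N E := by
            unfold SV
            rw [Multiset.mem_filter, Multiset.mem_map]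
            exact ⟨⟨i, by rw [Finset.mem_val, mem_Ico]; omega, rfl⟩, fun h6 => h4 h6.symm⟩
          rw [h1] at h5
          exact absurd h5 (Multiset.notMem_zero _)
        · rw [hν i (by omega), h3 i (by omega)]
  | cons a s ih =>
    intro ha E
    have ih := ih (fun b hb => ha b (Multiset.mem_cons_of_mem hb))
    have ha0 : 0 < a := ha a (Multiset.mem_cons_self a s)
    rw [Multiset.map_cons, Multiset.prod_cons, mul_left_comm, coeff_Pw_mul]
    choose c hc1 hc2 using ih
    refine ⟨∑ j ∈ range N, if a ≤ E j then c (E - Finsupp.single j a) else 0, ?_, ?_⟩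
    · rw [Nat.cast_sum]
      apply sum_congr rfl
      intro j _
      split_ifs with h
      · exact hc1 _
      · rw [Nat.cast_zero]
    · intro h1 h2 h3
      have h4 : a ∈ SV M N E := by rw [h1]; exact Multiset.mem_cons_self a s
      unfold SV at h4
      rw [Multiset.mem_filter, Multiset.mem_map] at h4
      obtain ⟨⟨j, hj, hja⟩, _⟩ := h4
      rw [Finset.mem_val] at hj
      have hj' := hj
      rw [mem_Ico] at hj'
      refine Finset.sum_pos' (fun _ _ => Nat.zero_le _) ⟨j, mem_range.mpr hj'.2, ?_⟩
      rw [if_pos (by omega)]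
      apply hc2
      · have h5 := SV_split hj E
        have h6 := SV_split hj (E - Finsupp.single j a : ℕ →₀ ℕ)
        have hEk : ∀ k, k ≠ j → E k = (E - Finsupp.single j a : ℕ →₀ ℕ) k := by
          intro k hk
          rw [Finsupp.tsub_apply, Finsupp.single_eq_of_ne hk, Nat.sub_zero]
        rw [← SV'_congr hEk, Finsupp.tsub_apply, Finsupp.single_eq_same, hja, Nat.sub_self] at h6
        rw [hja, if_pos (by omega), h1, Multiset.singleton_add] at h5
        rw [h6, if_neg (by simp), zero_add]
        exact ((Multiset.cons_inj_right a).mp h5).symm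
      · intro i hi
        rw [Finsupp.tsub_apply, Finsupp.single_eq_of_ne (by omega), Nat.sub_zero]
        exact h2 i hi
      · intro i hi
        rw [Finsupp.tsub_apply, h3 i hi, Nat.zero_sub]

lemma filter_getD (L : List ℕ) (hL : ∀ a ∈ L, a ≠ 0) : ∀ K, L.length ≤ K →
    ((List.range K).map (fun i => L.getD i 0)).filter (fun x => decide (x ≠ 0)) = L := by
  induction L with
  | nil =>
    intro K _
    rw [List.filter_eq_nil_iff]
    intro a ha
    rw [List.mem_map] at ha
    obtain ⟨i, _, rfl⟩ := ha
    simp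
  | cons x L ih =>
    intro K hK
    obtain ⟨K, rfl⟩ : ∃ K', K = K' + 1 := ⟨K - 1, by rw [List.length_cons] at hK; omega⟩
    rw [List.length_cons] at hK
    rw [List.range_succ_eq_map, List.map_cons, List.filter_cons]
    have h0 : (x :: L).getD 0 0 = x := rfl
    rw [h0, if_pos (by simpa using hL x List.mem_cons_self), List.map_map]
    congr 1
    have : ((fun i => (x :: L).getD i 0) ∘ Nat.succ) = (fun i => L.getD i 0) := by
      funext i
      simp
    rw [this]
    exact ih (fun a ha => hL a (List.mem_cons_of_mem _ ha)) K (by omega)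

/-- The exponent of a basis element. -/
def exE (M : ℕ) (ν : ℕ →₀ ℕ) (L : List ℕ) : ℕ →₀ ℕ := ex ((List.range M).map ν ++ L)

lemma exE_lt {M : ℕ} (ν : ℕ →₀ ℕ) (L : List ℕ) {i : ℕ} (hi : i < M) : exE M ν L i = ν i := by
  unfold exE
  rw [ex_apply, List.getD_append _ _ _ _ (by simpa using hi),
    List.getD_eq_getElem _ _ (by simpa using hi)]
  simp

lemma exE_add {M : ℕ} (ν : ℕ →₀ ℕ) (L : List ℕ) (i : ℕ) : exE M ν L (M + i) = L.getD i 0 := by
  unfold exE
  rw [ex_apply, List.getD_append_right _ _ _ _ (by simp)]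
  simp

lemma SV_exE {M N : ℕ} (ν : ℕ →₀ ℕ) (L : List ℕ) (hL : ∀ a ∈ L, a ≠ 0)
    (hN : M + L.length ≤ N) : SV M N (exE M ν L) = (L : Multiset ℕ) := by
  unfold SV
  have h1 : (Ico M N).val.map (exE M ν L) =
      (((List.range (N - M)).map (fun i => L.getD i 0) : List ℕ) : Multiset ℕ) := by
    have h2 : (Ico M N) = (range (N - M)).map (addLeftEmbedding M) := by
      ext k
      simp only [mem_Ico, mem_map, mem_range, addLeftEmbedding_apply]
      constructor
      · intro h; exact ⟨k - M, by omega, by omega⟩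
      · rintro ⟨a, h1, h2⟩; omega
    rw [h2, Finset.map_val, Multiset.map_map]
    have h3 : ((exE M ν L : ℕ → ℕ) ∘ (addLeftEmbedding M)) = fun i => L.getD i 0 := by
      funext i
      exact exE_add ν L i
    rw [h3]
    rfl
  rw [h1, Multiset.filter_coe, filter_getD L hL (N - M) (by omega)]

/-- Injectivity of the evaluation. -/
theorem ev_inj [IsDomain R] [CharZero R] {N M n : ℕ} (hMN : M + n ≤ N) {f : FV R}
    (hf : FSup (Good N M n) f) (h0 : ev N f = 0) : f = 0 := by
  classical
  by_contra hne
  have hsne : f.support.Nonempty := by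
    rw [Finsupp.support_nonempty_iff]
    exact hne
  obtain ⟨μ, hμ, hmax⟩ := Finset.exists_max_image f.support
    (fun μ => Multiset.card (pmu N μ)) hsne
  have hfμ : f μ ≠ 0 := Finsupp.mem_support_iff.mp hμ
  obtain ⟨ν, hν⟩ := MvPolynomial.ne_zero_iff.mp hfμ
  have hg := hf μ ν hν
  have hdeg := hg.deg
  have hcard : Multiset.card (pmu N μ) ≤ n := by
    rw [card_pmu]
    refine le_trans (Finset.sum_le_sum (g := fun r => (r + 1) * μ r) ?_) (by omega)
    intro r _
    exact Nat.le_mul_of_pos_left _ (by omega)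
  set L := (pmu N μ).toList with hL
  have hLlen : L.length = Multiset.card (pmu N μ) := Multiset.length_toList _
  have hL0 : ∀ a ∈ L, a ≠ 0 := by
    intro a ha
    rw [hL, Multiset.mem_toList] at ha
    have := mem_pmu ha
    omega
  set E := exE M ν L with hE
  have hSV : SV M N E = pmu N μ := by
    rw [hE, SV_exE ν L hL0 (by omega), hL, Multiset.coe_toList]
  have hElt : ∀ i, i < M → E i = ν i := fun i hi => exE_lt ν L hi
  have hEge : ∀ i, N ≤ i → E i = 0 := by
    intro i hi
    rw [hE]
    apply ex_out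
    simp only [List.length_append, List.length_map, List.length_range]
    omega
  -- all other terms vanish
  have key : ∀ μ' ν', coeff ν' (f μ') ≠ 0 → (μ' ≠ μ ∨ ν' ≠ ν) →
      coeff E (monomial ν' (1 : R) * psm N μ') = 0 := by
    intro μ' ν' h1 h2
    by_contra h3
    have hg' := hf μ' ν' h1
    rw [psm_eq] at h3
    have hμ' : μ' ∈ f.support := by
      rw [Finsupp.mem_support_iff]
      intro h4
      rw [h4, coeff_zero] at h1
      exact h1 rfl
    have h4 := coefP (M := M) (N := N) hg'.out (pmu N μ') (fun a ha => mem_pmu ha) E h3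
      (by rw [hSV]; exact hmax μ' hμ')
    rw [hSV] at h4
    have h5 : μ' = μ := pmu_inj hg'.outp hg.outp h4.1.symm
    have h6 : ν' = ν := by
      ext i
      by_cases hi : i < M
      · rw [← h4.2 i hi, hElt i hi]
      · rw [hg'.out i (by omega), hg.out i (by omega)]
    rcases h2 with h2 | h2
    · exact h2 h5
    · exact h2 h6
  have hcoef : coeff E (ev N f) = coeff ν (f μ) * coeff E (monomial ν (1 : R) * psm N μ) := by
    have h1 : ev N f = ∑ μ' ∈ f.support, f μ' * psm N μ' := by
      conv_lhs => rw [← Finsupp.sum_single f]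
      unfold Finsupp.sum
      rw [map_sum]
      apply sum_congr rfl
      intro μ' _
      rw [ev_single]
    have h2 : ∀ μ', coeff E (f μ' * psm N μ') = ∑ ν' ∈ (f μ').support,
        coeff ν' (f μ') * coeff E (monomial ν' (1 : R) * psm N μ') := by
      intro μ'
      conv_lhs => rw [(f μ').as_sum]
      rw [sum_mul, coeff_sum]
      apply sum_congr rfl
      intro ν' _
      have : monomial ν' (coeff ν' (f μ')) = C (coeff ν' (f μ')) * monomial ν' (1 : R) := by
        rw [C_mul_monomial, mul_one]
      rw [this, mul_assoc, coeff_C_mul]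
    rw [h1, coeff_sum, Finset.sum_eq_single μ]
    · rw [h2, Finset.sum_eq_single ν]
      · intro ν' h3 h4
        rw [key μ ν' (mem_support_iff.mp h3) (Or.inr h4), mul_zero]
      · intro h3
        exact absurd (mem_support_iff.mpr hν) h3
    · intro μ' _ h3
      rw [h2]
      apply sum_eq_zero
      intro ν' h4
      rw [key μ' ν' (mem_support_iff.mp h4) (Or.inl h3), mul_zero]
    · intro h3; exact absurd hμ h3
  rw [h0, coeff_zero, psm_eq] at hcoef
  obtain ⟨c, hc1, hc2⟩ := coefP_pos (R := R) (M := M) (N := N) hg.out (pmu N μ)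
    (fun a ha => mem_pmu ha) E
  have hcpos := hc2 hSV hElt hEge
  rw [hc1] at hcoef
  have : (c : R) ≠ 0 := by exact_mod_cast hcpos.ne'
  exact mul_ne_zero hν this hcoef.symm

end

end Pool.Agent.Helper61.Jack
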