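import Pool.Agent.Helper61.Jack.B1

/-!
# Triangularity and orthogonality
-/

set_option autoImplicit false

open MvPolynomial Finset

namespace Pool.Agent.Helper61.Jack

noncomputable section

/-! ### Encoding of exponents -/

/-- The number with the digits `ν` in base `n + 1`. -/
def enc (n M : ℕ) (ν : ℕ → ℕ) : ℕ := ∑ i ∈ range M, (n + 1) ^ i * ν i

lemma enc_inj {n : ℕ} : ∀ (M : ℕ) (ν η : ℕ → ℕ), (∀ i, i < M → ν i ≤ n) → (∀ i, i < M → η i ≤ n) →
    enc n M ν = enc n M η → ∀ i, i < M → ν i = η i := by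
  intro M
  induction M with
  | zero => intro ν η _ _ _ i hi; omega
  | succ M ih =>
    intro ν η hν hη h
    have hdec : ∀ ν : ℕ → ℕ, enc n (M + 1) ν = (n + 1) * enc n M (fun i => ν (i + 1)) + ν 0 := by
      intro ν
      unfold enc
      rw [sum_range_succ', mul_sum]
      congr 1
      · apply sum_congr rfl
        intro i _
        rw [pow_succ]; ring
      · simp
    rw [hdec ν, hdec η] at h
    have h0 : ν 0 = η 0 := by
      have h1 := congrArg (· % (n + 1)) h
      simp only [Nat.mul_add_mod] at h1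
      rwa [Nat.mod_eq_of_lt (by have := hν 0 (by omega); omega),
        Nat.mod_eq_of_lt (by have := hη 0 (by omega); omega)] at h1
    have h2 : enc n M (fun i => ν (i + 1)) = enc n M (fun i => η (i + 1)) := by
      rw [h0] at h
      have h3 : (n + 1) * enc n M (fun i => ν (i + 1)) = (n + 1) * enc n M (fun i => η (i + 1)) := by
        omega
      exact Nat.eq_of_mul_eq_mul_left (by omega) h3
    have h3 := ih (fun i => ν (i + 1)) (fun i => η (i + 1)) (fun i hi => hν (i + 1) (by omega))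
      (fun i hi => hη (i + 1) (by omega)) h2
    intro i hi
    rcases Nat.eq_zero_or_pos i with hi0 | hi0
    · rw [hi0]; exact h0
    · have := h3 (i - 1) (by omega)
      simp only [Nat.sub_add_cancel hi0] at this
      exact this

/-! ### The order -/

/-- `d` is lower than `ν`. -/
def Low (N : ℕ) (ν d : ℕ →₀ ℕ) : Prop :=
  (∑ k ∈ range N, d k ^ 2 < ∑ k ∈ range N, ν k ^ 2) ∨
    (∑ k ∈ range N, d k ^ 2 = ∑ k ∈ range N, ν k ^ 2 ∧
      ∑ k ∈ range N, (N - k) * d k < ∑ k ∈ range N, (N - k) * ν k)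

lemma gsum_pair {N i j : ℕ} (hi : i < N) (hj : j < N) (hij : i ≠ j) {d e : ℕ → ℕ}
    (h : ∀ l, l ≠ i → l ≠ j → d l = e l) (G : ℕ → ℕ → ℕ) :
    ∑ l ∈ range N, G l (d l) + (G i (e i) + G j (e j)) =
      ∑ l ∈ range N, G l (e l) + (G i (d i) + G j (d j)) := by
  have hmi : i ∈ range N := mem_range.mpr hi
  have hmj : j ∈ (range N).erase i := mem_erase.mpr ⟨hij.symm, mem_range.mpr hj⟩
  rw [← add_sum_erase _ _ hmi, ← add_sum_erase _ _ hmj, ← add_sum_erase (range N)
    (fun l => G l (e l)) hmi, ← add_sum_erase _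
    (fun l => G l (e l)) hmj]
  have h2 : ∑ l ∈ ((range N).erase i).erase j, G l (d l) =
      ∑ l ∈ ((range N).erase i).erase j, G l (e l) := by
    apply sum_congr rfl
    intro l hl
    rw [mem_erase, mem_erase] at hl
    rw [h l hl.2.1 hl.1]
  rw [h2]
  omega

lemma Low_strict {N i j c : ℕ} (hi : i < N) (hj : j < N) (hij : i ≠ j) (ν : ℕ →₀ ℕ)
    (hc : (ν j < c ∧ c < ν i) ∨ (ν i < c ∧ c < ν j)) : Low N ν (upd ν i j c) := by
  left
  have h := gsum_pair (N := N) hi hj hij (d := upd ν i j c) (e := ν)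
    (by intro l h1 h2; rw [upd_apply, if_neg h2, if_neg h1]) (fun _ x => x ^ 2)
  rw [upd_apply ν i j c i, upd_apply ν i j c j, if_neg hij, if_pos rfl, if_pos rfl] at h
  have key : c ^ 2 + (ν i + ν j - c) ^ 2 < ν i ^ 2 + ν j ^ 2 := by
    rcases hc with ⟨h1, h2⟩ | ⟨h1, h2⟩
    · obtain ⟨a, rfl⟩ : ∃ a, c = ν j + a := ⟨c - ν j, by omega⟩
      obtain ⟨b, hb⟩ : ∃ b, ν i = ν j + a + b := ⟨ν i - (ν j + a), by omega⟩
      have e1 : ν i + ν j - (ν j + a) = ν j + b := by omega
      rw [e1, hb]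
      have ha : 0 < a := by omega
      have hb' : 0 < b := by omega
      nlinarith [Nat.mul_pos ha hb']
    · obtain ⟨a, rfl⟩ : ∃ a, c = ν i + a := ⟨c - ν i, by omega⟩
      obtain ⟨b, hb⟩ : ∃ b, ν j = ν i + a + b := ⟨ν j - (ν i + a), by omega⟩
      have e1 : ν i + ν j - (ν i + a) = ν i + b := by omega
      rw [e1, hb]
      have ha : 0 < a := by omega
      have hb' : 0 < b := by omega
      nlinarith [Nat.mul_pos ha hb']
  omega

lemma Low_swap {N i j : ℕ} (hij : i < j) (hj : j < N) (ν : ℕ →₀ ℕ) (h : ν j < ν i) :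
    Low N ν (pm (Equiv.swap i j) ν) := by
  right
  have h1 := gsum_pair (N := N) (i := i) (j := j) (by omega) hj (by omega)
    (d := pm (Equiv.swap i j) ν) (e := ν)
    (by intro l h1 h2; rw [pm_swap_apply, Equiv.swap_apply_of_ne_of_ne h1 h2]) (fun _ x => x ^ 2)
  have h2 := gsum_pair (N := N) (i := i) (j := j) (by omega) hj (by omega)
    (d := pm (Equiv.swap i j) ν) (e := ν)
    (by intro l h1 h2; rw [pm_swap_apply, Equiv.swap_apply_of_ne_of_ne h1 h2])
    (fun k x => (N - k) * x)
  rw [pm_swap_apply, pm_swap_apply, Equiv.swap_apply_left, Equiv.swap_apply_right] at h1 h2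
  refine ⟨by omega, ?_⟩
  have key : (N - i) * ν j + (N - j) * ν i < (N - i) * ν i + (N - j) * ν j := by
    obtain ⟨a, ha⟩ : ∃ a, ν i = ν j + a := ⟨ν i - ν j, by omega⟩
    obtain ⟨b, hb⟩ : ∃ b, N - i = N - j + b := ⟨(N - i) - (N - j), by omega⟩
    have ha0 : 0 < a := by omega
    have hb0 : 0 < b := by omega
    rw [ha, hb]
    nlinarith [Nat.mul_pos ha0 hb0]
  omega

variable {R : Type*} [CommRing R]

/-- Genericity with respect to integers. -/
def GenZ (α : R) : Prop := ∀ a b : ℤ, a ≠ 0 → (a : R) * α + (b : R) ≠ 0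

lemma GenZ.gen {α : R} (h : GenZ α) : Gen α := by
  intro a b ha
  have := h a b (by exact_mod_cast ha.ne')
  simpa using this

lemma PSup_sum_upd {P : (ℕ →₀ ℕ) → Prop} {ν : ℕ →₀ ℕ} {i j : ℕ} {s : Finset ℕ}
    (h : ∀ c ∈ s, P (upd ν i j c)) : PSup P (∑ c ∈ s, monomial (upd ν i j c) (1 : R)) :=
  PSup.sum fun c hc => PSup.monomial (h c hc) 1

variable [IsDomain R]

/-- Triangularity of `xi`. -/
lemma xi_triang {N : ℕ} {α : R} {Q : ℕ → Prop} {e : ℕ → ℕ} {i : ℕ} (hi : i < N) {ν : ℕ →₀ ℕ}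
    (hν : Le N Q e ν) : ∃ k : ℤ, PSup (fun d => Low N ν d ∧ Le N Q e d)
      (xi N α i (monomial ν 1) - (α * (ν i : R) + (k : R)) • monomial ν 1) := by
  have hgt : ∀ j ∈ Ico (i + 1) N, ∃ k : ℤ, PSup (fun d => Low N ν d ∧ Le N Q e d)
      (X j * dd i j (monomial ν (1 : R)) - (k : R) • monomial ν 1) := by
    intro j hj
    rw [mem_Ico] at hj
    have hij : i ≠ j := by omega
    rw [X_dd_monomial hij]
    rcases le_or_gt (ν j) (ν i) with h | h
    · refine ⟨0, ?_⟩
      rw [Ico_eq_empty (a := ν i) (by omega), sum_empty, sub_zero, Int.cast_zero, zero_smul,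
        sub_zero]
      apply PSup_sum_upd
      intro c hc
      rw [mem_Ico] at hc
      constructor
      · by_cases hcj : c = ν j
        · rw [hcj, upd_swap hij]
          exact Low_swap (by omega) hj.2 ν (by omega)
        · exact Low_strict hi hj.2 hij ν (by omega)
      · refine hν.mv1 (i := i) (j := j) (by omega) hj.2 ⟨?_, ?_, ?_⟩
        · intro l h1 h2; rw [upd_apply, if_neg h2, if_neg h1]
        · rw [upd_apply, upd_apply, if_neg (by omega), if_pos rfl, if_pos rfl]; omega
        · rw [upd_apply, if_neg (by omega), if_pos rfl]; omega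
    · refine ⟨-1, ?_⟩
      rw [Ico_eq_empty (a := ν j) (by omega), sum_empty, zero_sub,
        Finset.sum_eq_sum_Ico_succ_bot h, upd_self hij]
      have e1 : -((monomial ν (1 : R)) + ∑ k ∈ Ico (ν i + 1) (ν j), monomial (upd ν i j k) 1) -
          ((-1 : ℤ) : R) • monomial ν 1 =
          -∑ k ∈ Ico (ν i + 1) (ν j), monomial (upd ν i j k) 1 := by
        push_cast
        module
      rw [e1]
      apply PSup.neg
      apply PSup_sum_upd
      intro c hc
      rw [mem_Ico] at hc
      constructor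
      · exact Low_strict hi hj.2 hij ν (by omega)
      · refine hν.mv1 (i := i) (j := j) (by omega) hj.2 ⟨?_, ?_, ?_⟩
        · intro l h1 h2; rw [upd_apply, if_neg h2, if_neg h1]
        · rw [upd_apply, upd_apply, if_neg (by omega), if_pos rfl, if_pos rfl]; omega
        · rw [upd_apply, if_neg (by omega), if_pos rfl]; omega
  have hlt : ∀ j ∈ range i, ∃ k : ℤ, PSup (fun d => Low N ν d ∧ Le N Q e d)
      (X i * dd i j (monomial ν (1 : R)) - monomial ν 1 - (k : R) • monomial ν 1) := by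
    intro j hj
    rw [mem_range] at hj
    have hij : i ≠ j := by omega
    rw [X_dd_monomial' hij]
    rcases lt_or_ge (ν j) (ν i) with h | h
    · refine ⟨0, ?_⟩
      obtain ⟨b, hb⟩ : ∃ b, ν i = b + 1 := ⟨ν i - 1, by omega⟩
      have e0 : ∑ c ∈ Ioc (ν j) (ν i), monomial (upd ν i j c) (1 : R) =
          ∑ c ∈ Ioc (ν j) b, monomial (upd ν i j c) (1 : R) + monomial ν 1 := by
        rw [hb, Finset.sum_Ioc_succ_top (by omega), ← hb, upd_self hij]
      rw [e0, Ioc_eq_empty (a := ν i) (by omega), sum_empty]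
      have e1 : ∑ c ∈ Ioc (ν j) b, monomial (upd ν i j c) (1 : R) + monomial ν 1 - 0 -
          monomial ν 1 - ((0 : ℤ) : R) • monomial ν 1 =
          ∑ c ∈ Ioc (ν j) b, monomial (upd ν i j c) (1 : R) := by
        push_cast
        module
      rw [e1]
      apply PSup_sum_upd
      intro c hc
      rw [mem_Ioc] at hc
      constructor
      · exact Low_strict hi (by omega) hij ν (by omega)
      · refine hν.mv2 (i := i) (j := j) (by omega) hi ⟨?_, ?_, ?_⟩
        · intro l h1 h2; rw [upd_apply, if_neg h2, if_neg h1]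
        · rw [upd_apply, upd_apply, if_neg (by omega), if_pos rfl, if_pos rfl]; omega
        · rw [upd_apply, if_neg (by omega), if_pos rfl]; omega
    · refine ⟨-1, ?_⟩
      rw [Ioc_eq_empty (a := ν j) (by omega), sum_empty]
      have e1 : 0 - ∑ c ∈ Ioc (ν i) (ν j), monomial (upd ν i j c) (1 : R) -
          monomial ν 1 - ((-1 : ℤ) : R) • monomial ν 1 =
          -∑ c ∈ Ioc (ν i) (ν j), monomial (upd ν i j c) (1 : R) := by
        push_cast
        module
      rw [e1]
      apply PSup.neg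
      apply PSup_sum_upd
      intro c hc
      rw [mem_Ioc] at hc
      constructor
      · by_cases hcj : c = ν j
        · rw [hcj, upd_swap hij, Equiv.swap_comm]
          exact Low_swap (by omega) hi ν (by omega)
        · exact Low_strict hi (by omega) hij ν (by omega)
      · refine hν.mv2 (i := i) (j := j) (by omega) hi ⟨?_, ?_, ?_⟩
        · intro l h1 h2; rw [upd_apply, if_neg h2, if_neg h1]
        · rw [upd_apply, upd_apply, if_neg (by omega), if_pos rfl, if_pos rfl]; omega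
        · rw [upd_apply, if_neg (by omega), if_pos rfl]; omega
  choose! k1 hk1 using hgt
  choose! k2 hk2 using hlt
  refine ⟨∑ j ∈ Ico (i + 1) N, k1 j + ∑ j ∈ range i, k2 j, ?_⟩
  have e1 : xi N α i (monomial ν 1) -
      (α * (ν i : R) + ((∑ j ∈ Ico (i + 1) N, k1 j + ∑ j ∈ range i, k2 j : ℤ) : R)) •
        monomial ν 1 =
      ∑ j ∈ Ico (i + 1) N, (X j * dd i j (monomial ν (1 : R)) - (k1 j : R) • monomial ν 1) +
      ∑ j ∈ range i, (X i * dd i j (monomial ν (1 : R)) - monomial ν 1 -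
        (k2 j : R) • monomial ν 1) := by
    rw [xi_apply' hi, X_mul_pderiv_monomial, ← Nat.cast_smul_eq_nsmul R]
    simp only [sum_sub_distrib, ← sum_smul]
    push_cast
    module
  rw [e1]
  exact (PSup.sum hk1).add (PSup.sum hk2)

/-! ### The weighted operator -/

/-- The weighted sum of the operators `xi`. -/
def Xi (N : ℕ) (α : R) (M n : ℕ) : MvPolynomial ℕ R →ₗ[R] MvPolynomial ℕ R :=
  ∑ i ∈ range M, (((n + 1) ^ i : ℕ) : R) • xi N α i

lemma Xi_apply (N : ℕ) (α : R) (M n : ℕ) (f : MvPolynomial ℕ R) :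
    Xi N α M n f = ∑ i ∈ range M, (((n + 1) ^ i : ℕ) : R) • xi N α i f := by
  simp [Xi, LinearMap.sum_apply]

/-- The weighted sum of the formal operators. -/
def Xih (N : ℕ) (α : R) (M n : ℕ) : FV R →ₗ[R] FV R :=
  ∑ i ∈ range M, (((n + 1) ^ i : ℕ) : R) • xih N α i

omit [IsDomain R] in
lemma Xih_apply (N : ℕ) (α : R) (M n : ℕ) (f : FV R) :
    Xih N α M n f = ∑ i ∈ range M, (((n + 1) ^ i : ℕ) : R) • xih N α i f := by
  simp [Xih, LinearMap.sum_apply]

lemma Xi_triang {N : ℕ} {α : R} {Q : ℕ → Prop} {e : ℕ → ℕ} {M n : ℕ} (hM : M ≤ N) {ν : ℕ →₀ ℕ}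
    (hν : Le N Q e ν) : ∃ k : ℤ, PSup (fun d => Low N ν d ∧ Le N Q e d)
      (Xi N α M n (monomial ν 1) - (α * (enc n M ν : R) + (k : R)) • monomial ν 1) := by
  have h : ∀ i ∈ range M, ∃ k : ℤ, PSup (fun d => Low N ν d ∧ Le N Q e d)
      (xi N α i (monomial ν 1) - (α * (ν i : R) + (k : R)) • monomial ν 1) := by
    intro i hi
    rw [mem_range] at hi
    exact xi_triang (by omega) hν
  choose! k hk using h
  refine ⟨∑ i ∈ range M, ((n + 1) ^ i : ℕ) * k i, ?_⟩
  have e1 : Xi N α M n (monomial ν 1) - (α * (enc n M ν : R) +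
      ((∑ i ∈ range M, ((n + 1) ^ i : ℕ) * k i : ℤ) : R)) • monomial ν 1 =
      ∑ i ∈ range M, (((n + 1) ^ i : ℕ) : R) •
        (xi N α i (monomial ν 1) - (α * (ν i : R) + (k i : R)) • monomial ν 1) := by
    rw [Xi_apply]
    simp only [smul_sub, sum_sub_distrib, smul_smul]
    rw [← sum_smul]
    congr 2
    unfold enc
    push_cast
    rw [mul_sum, ← sum_add_distrib]
    apply sum_congr rfl
    intro i _
    ring
  rw [e1]
  exact PSup.sum fun i hi => (hk i hi).smul _

/-! ### Torsion -/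

section iter

variable {M : Type*} [AddCommGroup M] [Module R M]

/-- The product of the operators `T - c`. -/
def iter (T : M →ₗ[R] M) (L : List R) (f : M) : M := L.foldr (fun c g => T g - c • g) f

omit [IsDomain R] in
lemma iter_nil (T : M →ₗ[R] M) (f : M) : iter T [] f = f := rfl
omit [IsDomain R] in
lemma iter_cons (T : M →ₗ[R] M) (c : R) (L : List R) (f : M) :
    iter T (c :: L) f = T (iter T L f) - c • iter T L f := rfl
omit [IsDomain R] in
lemma iter_append (T : M →ₗ[R] M) (L L' : List R) (f : M) :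
    iter T (L ++ L') f = iter T L (iter T L' f) := by
  unfold iter; rw [List.foldr_append]
omit [IsDomain R] in
lemma iter_zero (T : M →ₗ[R] M) (L : List R) : iter T L 0 = 0 := by
  induction L with
  | nil => rfl
  | cons c L ih => rw [iter_cons, ih, map_zero, smul_zero, sub_zero]
omit [IsDomain R] in
lemma iter_add (T : M →ₗ[R] M) (L : List R) (f g : M) :
    iter T L (f + g) = iter T L f + iter T L g := by
  induction L with
  | nil => rfl
  | cons c L ih => rw [iter_cons, iter_cons, iter_cons, ih, map_add, smul_add]; abel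
omit [IsDomain R] in
lemma iter_smul (T : M →ₗ[R] M) (L : List R) (a : R) (f : M) :
    iter T L (a • f) = a • iter T L f := by
  induction L with
  | nil => rfl
  | cons c L ih => rw [iter_cons, iter_cons, ih, map_smul, smul_sub, smul_comm]
omit [IsDomain R] in
lemma iter_map (T : M →ₗ[R] M) (L : List R) (f : M) : iter T L (T f) = T (iter T L f) := by
  induction L with
  | nil => rfl
  | cons c L ih => rw [iter_cons, iter_cons, ih, map_sub, map_smul]
omit [IsDomain R] in
lemma iter_comm (T : M →ₗ[R] M) (L L' : List R) (f : M) :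
    iter T L (iter T L' f) = iter T L' (iter T L f) := by
  induction L with
  | nil => rfl
  | cons c L ih =>
    rw [iter_cons, iter_cons, ih, sub_eq_add_neg, sub_eq_add_neg, iter_add, iter_map, ← neg_smul,
      ← neg_smul, iter_smul]

/-- Torsion away from `e`. -/
def Tor (T : M →ₗ[R] M) (e : R) (f : M) : Prop := ∃ L : List R, (∀ c ∈ L, c ≠ e) ∧ iter T L f = 0

omit [IsDomain R] in
lemma Tor.zero (T : M →ₗ[R] M) (e : R) : Tor T e 0 := ⟨[], by simp, rfl⟩
omit [IsDomain R] in
lemma Tor.add {T : M →ₗ[R] M} {e : R} {f g : M} (hf : Tor T e f) (hg : Tor T e g) :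
    Tor T e (f + g) := by
  obtain ⟨L, h1, h2⟩ := hf
  obtain ⟨L', h3, h4⟩ := hg
  refine ⟨L ++ L', ?_, ?_⟩
  · intro c hc
    rcases List.mem_append.mp hc with h | h
    · exact h1 c h
    · exact h3 c h
  · rw [iter_add, iter_append, iter_append, h4, iter_zero, add_zero, iter_comm, h2, iter_zero]
omit [IsDomain R] in
lemma Tor.smul {T : M →ₗ[R] M} {e : R} {f : M} (hf : Tor T e f) (a : R) : Tor T e (a • f) := by
  obtain ⟨L, h1, h2⟩ := hf
  exact ⟨L, h1, by rw [iter_smul, h2, smul_zero]⟩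
omit [IsDomain R] in
lemma Tor.sum {T : M →ₗ[R] M} {e : R} {ι : Type*} {s : Finset ι} {F : ι → M}
    (h : ∀ i ∈ s, Tor T e (F i)) : Tor T e (∑ i ∈ s, F i) := by
  classical
  induction s using Finset.induction_on with
  | empty => rw [sum_empty]; exact Tor.zero T e
  | insert a s ha ih =>
    rw [sum_insert ha]
    exact (h a (mem_insert_self _ _)).add (ih fun i hi => h i (mem_insert_of_mem hi))
omit [IsDomain R] in
lemma Tor.step {T : M →ₗ[R] M} {e c : R} (hc : c ≠ e) {f : M} (hf : Tor T e (T f - c • f)) :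
    Tor T e f := by
  obtain ⟨L, h1, h2⟩ := hf
  refine ⟨L ++ [c], ?_, ?_⟩
  · intro b hb
    rcases List.mem_append.mp hb with h | h
    · exact h1 b h
    · rw [List.mem_singleton] at h; rw [h]; exact hc
  · rw [iter_append]; exact h2

end iter

omit [IsDomain R] in
lemma Tor.of_PSup {P : (ℕ →₀ ℕ) → Prop} {T : MvPolynomial ℕ R →ₗ[R] MvPolynomial ℕ R} {e : R}
    (h : ∀ ν, P ν → Tor T e (monomial ν 1)) {f : MvPolynomial ℕ R} (hf : PSup P f) :
    Tor T e f := by
  have h1 : f = ∑ d ∈ f.support, coeff d f • (MvPolynomial.monomial d (1 : R)) := by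
    conv_lhs => rw [f.as_sum]
    apply sum_congr rfl
    intro d _
    rw [smul_monomial, smul_eq_mul, mul_one]
  rw [h1]
  exact Tor.sum fun d hd => (h d (hf d (mem_support_iff.mp hd))).smul _

lemma Low_wf {N : ℕ} {Pr : (ℕ →₀ ℕ) → Prop} (h : ∀ ν, (∀ d, Low N ν d → Pr d) → Pr ν) :
    ∀ ν, Pr ν := by
  have key : ∀ a b : ℕ, ∀ ν : ℕ →₀ ℕ, ∑ k ∈ range N, ν k ^ 2 = a →
      ∑ k ∈ range N, (N - k) * ν k = b → Pr ν := by
    intro a
    induction a using Nat.strong_induction_on with
    | _ a iha =>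
    intro b
    induction b using Nat.strong_induction_on with
    | _ b ihb =>
    intro ν ha hb
    apply h
    intro d hd
    rcases hd with hd | ⟨hd1, hd2⟩
    · exact iha _ (by omega) _ d rfl rfl
    · exact ihb _ (by omega) d (by omega) rfl
  intro ν
  exact key _ _ ν rfl rfl

/-- All polynomials with supports dominated by `e'` are torsion away from the eigenvalue of `η`. -/
lemma Tor_of_Le {N : ℕ} {α : R} (hα : GenZ α) {Q : ℕ → Prop} {e' : ℕ → ℕ} {M n : ℕ} (hM : M ≤ N)
    {η : ℕ →₀ ℕ} (hη : ∀ ν : ℕ →₀ ℕ, Le N Q e' ν → enc n M ν ≠ enc n M η) (kη : ℤ)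
    {f : MvPolynomial ℕ R} (hf : PSup (Le N Q e') f) :
    Tor (Xi N α M n) (α * (enc n M η : R) + (kη : R)) f := by
  refine Tor.of_PSup (P := Le N Q e') ?_ hf
  refine Low_wf (N := N) (Pr := fun ν => Le N Q e' ν →
    Tor (Xi N α M n) (α * (enc n M η : R) + (kη : R)) (monomial ν 1)) ?_
  intro ν ih hν
  obtain ⟨k, hk⟩ := Xi_triang (α := α) (M := M) (n := n) hM hν
  refine Tor.step (c := α * (enc n M ν : R) + (k : R)) ?_ ?_
  · intro h
    have h1 := hα ((enc n M ν : ℤ) - (enc n M η : ℤ)) (k - kη) (by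
      have := hη ν hν
      omega)
    apply h1
    push_cast
    linear_combination h
  · exact Tor.of_PSup (P := fun d => Low N ν d ∧ Le N Q e' d) (fun d hd => ih d hd.1 hd.2) hk

end

end Pool.Agent.Helper61.Jack
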