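import Pool.Agent.Helper61.Jack.B4
import Pool.Agent.Helper61.Jack.B5
import Pool.Agent.Helper61.Jack.B6

/-!
# Orthogonality
-/

set_option autoImplicit false

open MvPolynomial Finset

namespace Pool.Agent.Helper61.Jack

noncomputable section

lemma sum_getD (L : List ℕ) : ∑ i ∈ range L.length, L.getD i 0 = L.sum := by
  induction L with
  | nil => rfl
  | cons a L ih =>
    rw [List.length_cons, sum_range_succ', List.sum_cons, add_comm]
    congr 1

variable {R : Type*} [CommRing R]

lemma Bf_Xih (N : ℕ) (α : R) (M n : ℕ) (f g : FV R) :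
    Bf N α (Xih N α M n f) g = Bf N α f (Xih N α M n g) := by
  rw [Xih_apply, Xih_apply, map_sum, map_sum, LinearMap.sum_apply]
  apply sum_congr rfl
  intro i _
  rw [map_smul, map_smul, LinearMap.smul_apply, Bf_xih]

lemma FSup_Xih {N M n : ℕ} (α : R) (hMN : M ≤ N) {f : FV R} (hf : FSup (Good N M n) f) :
    FSup (Good N M n) (Xih N α M n f) := by
  rw [Xih_apply]
  refine FSup.sum ?_
  intro i hi
  rw [mem_range] at hi
  exact (FSup_xih α hi hMN hf).smul _

lemma Bf_iter {N : ℕ} {α : R} {M n : ℕ} {J : FV R} {e : R} (hJ : Xih N α M n J = e • J)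
    (L : List R) (G : FV R) :
    Bf N α J (iter (Xih N α M n) L G) = (L.map (fun c => e - c)).prod * Bf N α J G := by
  induction L with
  | nil => simp [iter_nil]
  | cons c L ih =>
    rw [iter_cons, map_sub, map_smul, ← Bf_Xih, hJ, map_smul, LinearMap.smul_apply, ih,
      List.map_cons, List.prod_cons]
    simp only [smul_eq_mul]
    ring

variable [IsDomain R]

lemma ev_Xih {N M n : ℕ} (α : R) (hMN : M ≤ N) (hn : n ≤ N) {f : FV R}
    (hf : FSup (Good N M n) f) : ev N (Xih N α M n f) = Xi N α M n (ev N f) := by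
  rw [Xih_apply, Xi_apply, map_sum]
  apply sum_congr rfl
  intro i hi
  rw [mem_range] at hi
  rw [map_smul, ev_xih' α (by omega) hn hf]

lemma iter_transport {N M n : ℕ} (α : R) (hMN : M ≤ N) (hn : n ≤ N) (L : List R) {f : FV R}
    (hf : FSup (Good N M n) f) : FSup (Good N M n) (iter (Xih N α M n) L f) ∧
      ev N (iter (Xih N α M n) L f) = iter (Xi N α M n) L (ev N f) := by
  induction L with
  | nil => exact ⟨hf, rfl⟩
  | cons c L ih =>
    rw [iter_cons, iter_cons]
    refine ⟨(FSup_Xih α hMN ih.1).sub (ih.1.smul c), ?_⟩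
    rw [map_sub, map_smul, ev_Xih α hMN hn ih.1, ih.2]

/-- Eigenvalues of the lift. -/
lemma Xih_lift [CharZero R] {N : ℕ} (α : R) (l : List ℕ) (hN : l.length + l.sum ≤ N) {J : FV R}
    (hJ : FSup (Good N l.length l.sum) J) (hev : ev N J = Jk N α l) :
    ∃ k : ℤ, Xih N α l.length l.sum J =
      (α * (enc l.sum l.length (ex l.reverse) : R) + (k : R)) • J := by
  have h1 : ∀ i, i < l.length → xih N α i J = evL α l.reverse i • J := by
    intro i hi
    have h2 : ev N (xih N α i J - evL α l.reverse i • J) = 0 := by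
      rw [map_sub, map_smul, ev_xih' α (by omega) (by omega) hJ, hev,
        (isE_Jk l (by omega)).eig i hi, sub_self]
    have h3 := ev_inj hN ((FSup_xih α hi (by omega) hJ).sub (hJ.smul _)) h2
    exact sub_eq_zero.mp h3
  refine ⟨-∑ i ∈ range l.length, ((l.sum + 1) ^ i : ℕ) *
    ((((l.reverse.take i).countP (l.reverse.getD i 0 ≤ ·) : ℕ) : ℤ) +
      (((l.reverse.drop (i + 1)).countP (l.reverse.getD i 0 < ·) : ℕ) : ℤ)), ?_⟩
  rw [Xih_apply]
  have h4 : ∀ i ∈ range l.length, (((l.sum + 1) ^ i : ℕ) : R) • xih N α i J =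
      ((((l.sum + 1) ^ i : ℕ) : R) * evL α l.reverse i) • J := by
    intro i hi
    rw [mem_range] at hi
    rw [h1 i hi, smul_smul]
  rw [sum_congr rfl h4, ← sum_smul]
  congr 1
  unfold enc evL
  generalize l.sum = s
  push_cast
  rw [mul_sum, ← sum_neg_distrib, ← sum_add_distrib]
  apply sum_congr rfl
  intro i _
  rw [ex_apply]
  ring

/-- Orthogonality to all functions with supports not containing the exponent. -/
theorem orth_Jk [CharZero R] {N : ℕ} {α : R} (hα : GenZ α) (l : List ℕ)
    (hN : l.length + l.sum ≤ N) {J : FV R} (hJ : FSup (Good N l.length l.sum) J)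
    (hev : ev N J = Jk N α l) {Q : ℕ → Prop} {e' : ℕ → ℕ} (he' : ∑ i ∈ range N, e' i = l.sum)
    (hne : ¬ Le N Q e' (ex l.reverse)) {G : FV R} (hG : FSup (Good N l.length l.sum) G)
    (hGs : PSup (Le N Q e') (ev N G)) : Bf N α J G = 0 := by
  obtain ⟨k, hk⟩ := Xih_lift α l hN hJ hev
  have hsum : ∑ i ∈ range l.length, ex l.reverse i = l.sum := by
    have := sum_getD l.reverse
    rw [List.length_reverse, List.sum_reverse] at this
    exact this
  have hη : ∀ ν : ℕ →₀ ℕ, Le N Q e' ν →
      enc l.sum l.length ν ≠ enc l.sum l.length (ex l.reverse) := by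
    intro ν hν h
    apply hne
    have h1 := enc_inj l.length ν (ex l.reverse) ?_ ?_ h
    · have h2 : ν = ex l.reverse := by
        have htot := hν.tot
        rw [he'] at htot
        have h3 : ∑ i ∈ Ico l.length N, ν i = 0 := by
          have h4 := Finset.sum_range_add_sum_Ico (fun i => ν i) (show l.length ≤ N by omega)
          have h5 : ∑ i ∈ range l.length, ν i = l.sum := by
            rw [← hsum]
            apply sum_congr rfl
            intro i hi
            exact h1 i (mem_range.mp hi)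
          omega
        ext i
        by_cases hi : i < l.length
        · exact h1 i hi
        · rw [ex_out _ _ (by rw [List.length_reverse]; omega)]
          by_cases hiN : i < N
          · exact (Finset.sum_eq_zero_iff.mp h3) i (mem_Ico.mpr ⟨by omega, hiN⟩)
          · exact hν.out i (by omega)
      rwa [← h2]
    · intro i hi
      have htot := hν.tot
      rw [he'] at htot
      rw [← htot]
      exact Finset.single_le_sum (f := fun i => ν i) (fun _ _ => Nat.zero_le _)
        (mem_range.mpr (by omega))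
    · intro i hi
      rw [← hsum]
      exact Finset.single_le_sum (f := fun i => ex l.reverse i) (fun _ _ => Nat.zero_le _)
        (mem_range.mpr (by omega))
  obtain ⟨L, hL1, hL2⟩ := Tor_of_Le hα (M := l.length) (n := l.sum) (by omega) hη k hGs
  obtain ⟨h1, h2⟩ := iter_transport α (show l.length ≤ N by omega) (show l.sum ≤ N by omega) L hG
  rw [hL2] at h2
  have h3 := ev_inj hN h1 h2
  have h4 := Bf_iter hk L G
  rw [h3, map_zero] at h4
  have h5 : (L.map (fun c => (α * (enc l.sum l.length (ex l.reverse) : R) + (k : R)) - c)).prod ≠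
      0 := by
    apply List.prod_ne_zero
    intro h
    rw [List.mem_map] at h
    obtain ⟨c, hc, h0⟩ := h
    exact hL1 c hc (sub_eq_zero.mp h0).symm
  exact (mul_eq_zero.mp h4.symm).resolve_left h5

/-! ### The lift of `CC` -/

/-- The lift of `CC`. -/
def CCh (N : ℕ) (α : R) (m : ℕ) : ℕ → (FV R →ₗ[R] FV R)
  | 0 => LinearMap.id
  | j + 1 => (CCh N α m j).comp (Ch N α (m + j))

omit [IsDomain R] in
lemma CCh_succ (N : ℕ) (α : R) (m j : ℕ) (f : FV R) :
    CCh N α m (j + 1) f = CCh N α m j (Ch N α (m + j) f) := rfl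

omit [IsDomain R] in
lemma CCh_spec {N m n : ℕ} (α : R) (hn : n ≤ N) (j : ℕ) : m + j ≤ N → ∀ {f : FV R},
    FSup (Good N (m + j) n) f →
    FSup (Good N m n) (CCh N α m j f) ∧ ev N (CCh N α m j f) = CC N m j (ev N f) := by
  induction j with
  | zero => intro _ f hf; exact ⟨hf, rfl⟩
  | succ j ih =>
    intro hj f hf
    rw [CCh_succ, CC_succ]
    have h1 := FSup_Ch α (show m + j < N by omega) hf
    obtain ⟨h2, h3⟩ := ih (by omega) h1
    refine ⟨h2, ?_⟩
    rw [h3, ev_Ch α (show m + j < N by omega) hn hf]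

/-- Adjoint of the lift of `CC`. -/
lemma CCh_adj {N m n : ℕ} (α : R) (hn : n ≤ N) {Q : ℕ → Prop} {e' : ℕ → ℕ} (j : ℕ) :
    m + j ≤ N → ∀ {g : FV R}, FSup (Good N m n) g → PSup (Le N Q e') (ev N g) →
    ∃ G : FV R, FSup (Good N (m + j) n) G ∧ PSup (Le N Q e') (ev N G) ∧
      ∀ f, Bf N α (CCh N α m j f) g = Bf N α f G := by
  induction j with
  | zero => intro _ g hg hgs; exact ⟨g, hg, hgs, fun f => rfl⟩
  | succ j ih =>
    intro hj g hg hgs
    obtain ⟨G, h1, h2, h3⟩ := ih (by omega) hg hgs
    refine ⟨xih N α (m + j) G + (N : R) • G, ?_, ?_, ?_⟩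
    · have h4 : FSup (Good N (m + (j + 1)) n) G := h1.mono (fun μ ν h => h.mono (by omega))
      exact (FSup_xih α (by omega) (by omega) h4).add (h4.smul _)
    · rw [map_add, map_smul, ev_xih' α (by omega) hn h1]
      exact (xi_PSup (by omega) h2).add (h2.smul _)
    · intro f
      rw [CCh_succ, h3, Bf_Ch α h1]

/-- Orthogonality of the symmetrised functions. -/
theorem orthY [CharZero R] {N : ℕ} {α : R} (hα : GenZ α) (A F : List ℕ)
    (hN : (A.map Nat.succ ++ F).length + (A.map Nat.succ ++ F).sum ≤ N) :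
    ∃ Y : FV R, FSup (Good N F.length (A.map Nat.succ ++ F).sum) Y ∧
      ev N Y = CC N F.length A.length (Jk N α (A.map Nat.succ ++ F)) ∧
      ∀ (Q : ℕ → Prop) (e' : ℕ → ℕ), ∑ i ∈ range N, e' i = (A.map Nat.succ ++ F).sum →
        ¬ Le N Q e' (exW A F) → ∀ g : FV R,
          FSup (Good N F.length (A.map Nat.succ ++ F).sum) g → PSup (Le N Q e') (ev N g) →
            Bf N α Y g = 0 := by
  obtain ⟨J, hJ, hev⟩ := exists_lift (N := N) α (A.map Nat.succ ++ F) (by omega) (by omega)
  set n := (A.map Nat.succ ++ F).sum with hn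
  have hlen : (A.map Nat.succ ++ F).length = F.length + A.length := by
    rw [List.length_append, List.length_map]; omega
  have hJ' : FSup (Good N (F.length + A.length) n) J := by rw [← hlen]; exact hJ
  obtain ⟨h1, h2⟩ := CCh_spec α (show n ≤ N by omega) A.length (by omega) hJ'
  refine ⟨CCh N α F.length A.length J, h1, ?_, ?_⟩
  · rw [h2, hev]
  · intro Q e' he' hne g hg hgs
    obtain ⟨G, h3, h4, h5⟩ := CCh_adj α (show n ≤ N by omega) (m := F.length) A.length (by omega)
      hg hgs
    rw [h5]
    refine orth_Jk hα (A.map Nat.succ ++ F) hN hJ hev he' ?_ (by rw [hlen]; exact h3) h4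
    rw [List.reverse_append, ← List.map_reverse]
    exact hne

end

end Pool.Agent.Helper61.Jack
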