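import Pool.Agent.Helper61.Jack.A13

/-!
# Hook products
-/

set_option autoImplicit false

open Finset

namespace Pool.Agent.Helper61.Jack

noncomputable section

variable {R : Type*} [CommRing R]

/-- Product over a multiset, with the number of the previous equal elements. -/
def canon (g : ℕ → ℕ → R) (s : Multiset ℕ) : R :=
  ∏ x ∈ s.toFinset, ∏ i ∈ range (s.count x), g x i

lemma canon_subset (g : ℕ → ℕ → R) {s : Multiset ℕ} {U : Finset ℕ} (h : s.toFinset ⊆ U) :
    canon g s = ∏ x ∈ U, ∏ i ∈ range (s.count x), g x i := by
  unfold canon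
  apply prod_subset h
  intro x _ hx
  rw [Multiset.mem_toFinset] at hx
  rw [Multiset.count_eq_zero_of_notMem hx]
  simp

lemma canon_cons (g : ℕ → ℕ → R) (x : ℕ) (s : Multiset ℕ) :
    canon g (x ::ₘ s) = g x (s.count x) * canon g s := by
  have hU1 : (x ::ₘ s).toFinset ⊆ insert x s.toFinset := by
    rw [Multiset.toFinset_cons]
  rw [canon_subset g hU1, canon_subset g (Finset.subset_insert x s.toFinset)]
  have hx : x ∈ insert x s.toFinset := mem_insert_self _ _
  rw [← mul_prod_erase _ _ hx, ← mul_prod_erase _ (fun y => ∏ i ∈ range (s.count y), g y i) hx,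
    Multiset.count_cons_self, prod_range_succ]
  have h : ∏ y ∈ (insert x s.toFinset).erase x, ∏ i ∈ range ((x ::ₘ s).count y), g y i =
      ∏ y ∈ (insert x s.toFinset).erase x, ∏ i ∈ range (s.count y), g y i := by
    apply prod_congr rfl
    intro y hy
    rw [mem_erase] at hy
    rw [Multiset.count_cons_of_ne hy.1]
  rw [h]
  ring

lemma canon_zero (g : ℕ → ℕ → R) : canon g 0 = 1 := by simp [canon]

/-- List version, with the number of the equal elements after the element. -/
def Hp (g : ℕ → ℕ → R) : List ℕ → R
  | [] => 1
  | x :: l => g x (l.count x) * Hp g l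

lemma Hp_eq (g : ℕ → ℕ → R) (l : List ℕ) : Hp g l = canon g ↑l := by
  induction l with
  | nil => rw [Multiset.coe_nil, canon_zero]; rfl
  | cons x l ih => rw [Hp, ih, ← Multiset.cons_coe, canon_cons, Multiset.coe_count]

lemma Hp_prod (g : ℕ → ℕ → R) (l : List ℕ) :
    ∏ i ∈ range l.length, g (l.getD i 0) ((l.drop (i + 1)).count (l.getD i 0)) = Hp g l := by
  induction l with
  | nil => rfl
  | cons x l ih =>
    rw [List.length_cons, prod_range_succ', Hp, mul_comm]
    congr 1

/-- List version, with the number of the equal elements before the element. -/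
def Hq (g : ℕ → ℕ → R) : List ℕ → Multiset ℕ → R
  | [], _ => 1
  | x :: l, acc => g x (acc.count x) * Hq g l (x ::ₘ acc)

lemma Hq_eq (g : ℕ → ℕ → R) (l : List ℕ) (acc : Multiset ℕ) :
    Hq g l acc * canon g acc = canon g (↑l + acc) := by
  induction l generalizing acc with
  | nil => rw [Multiset.coe_nil, zero_add, Hq, one_mul]
  | cons x l ih =>
    have h := ih (x ::ₘ acc)
    rw [canon_cons] at h
    have e : (↑(x :: l) + acc : Multiset ℕ) = ↑l + x ::ₘ acc := by
      rw [Multiset.add_cons, ← Multiset.cons_coe, Multiset.cons_add]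
    rw [e, ← h, Hq]
    ring

lemma Hq_zero (g : ℕ → ℕ → R) (l : List ℕ) : Hq g l 0 = canon g ↑l := by
  have := Hq_eq g l 0
  rwa [canon_zero, mul_one, add_zero] at this

lemma canon_mul (g h : ℕ → ℕ → R) (s : Multiset ℕ) :
    canon (fun x i => g x i * h x i) s = canon g s * canon h s := by
  unfold canon
  simp only [prod_mul_distrib]

/-! ### The factors of my product -/

/-- The factor of a bosonic row. -/
def gB (α : R) (A F : Multiset ℕ) (x s : ℕ) : R :=
  ∏ j ∈ range x, (((x - j : ℕ) : R) * α + 1 + (A.countP (fun y => j ≤ y ∧ y < x) : R) +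
    (F.countP (fun y => j < y ∧ y ≤ x) : R) + (s : R))

lemma bos_eq_Hq (α : R) (F : Multiset ℕ) : ∀ (l : List ℕ) (acc : Multiset ℕ),
    l.Pairwise (· ≥ ·) → (∀ y ∈ acc, ∀ x ∈ l, x ≤ y) →
      bos α l (acc + F) 0 = Hq (gB α (↑l + acc) F) l acc := by
  intro l
  induction l with
  | nil => intro acc _ _; rfl
  | cons x l ih =>
    intro acc hl hacc
    rw [List.pairwise_cons] at hl
    rw [bos, Hq, ← Multiset.cons_add, ih (x ::ₘ acc) hl.2 (by
      intro y hy z hz
      rcases Multiset.mem_cons.mp hy with h | h
      · rw [h]; exact hl.1 z hz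
      · exact hacc y h z (List.mem_cons_of_mem _ hz))]
    have e1 : (↑l : Multiset ℕ) + x ::ₘ acc = ↑(x :: l) + acc := by
      rw [Multiset.add_cons, ← Multiset.cons_coe, Multiset.cons_add]
    rw [e1]
    congr 1
    unfold rowB gB
    apply prod_congr rfl
    intro j hj
    rw [mem_range] at hj
    unfold bx
    have h1 : (↑(x :: l) + acc : Multiset ℕ).countP (fun y => j ≤ y ∧ y < x) =
        (↑l + 0 : Multiset ℕ).countP (fun y => j ≤ y ∧ y < x) := by
      rw [Multiset.countP_add, ← Multiset.cons_coe, Multiset.countP_cons, add_zero]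
      have : acc.countP (fun y => j ≤ y ∧ y < x) = 0 := by
        rw [Multiset.countP_eq_zero]
        intro y hy
        have := hacc y hy x List.mem_cons_self
        omega
      rw [this, if_neg (by omega), add_zero, add_zero]
    have h2 : (acc + F).countP (fun y => j < y ∧ y ≤ x) =
        acc.count x + F.countP (fun y => j < y ∧ y ≤ x) := by
      rw [Multiset.countP_add]
      congr 1
      rw [Multiset.count]
      apply Multiset.countP_congr rfl
      intro y hy
      have := hacc y hy x List.mem_cons_self
      apply propext; omega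
    rw [h1, h2]
    push_cast
    ring

lemma bos_canon (α : R) (A F : List ℕ) (hA : A.Pairwise (· ≥ ·)) :
    bos α A ↑F 0 = canon (gB α ↑A ↑F) ↑A := by
  have := bos_eq_Hq α (F : Multiset ℕ) A 0 hA (by simp)
  rw [zero_add, add_zero] at this
  rw [this, Hq_zero]

/-- The factor of a fermionic row. -/
def gF (α : R) (T : Finset ℕ) (A : Multiset ℕ) (x : ℕ) : R :=
  ∏ j ∈ (range x).filter (· ∉ T), (((x - j : ℕ) : R) * α + 1 +
    (A.countP (fun y => j ≤ y ∧ y < x) : R) + ((T.filter (fun y => j < y ∧ y < x)).card : R))

lemma fer_eq (α : R) (T : Finset ℕ) (A : Multiset ℕ) : ∀ (l P : List ℕ),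
    (P ++ l).Pairwise (· < ·) → (P ++ l).toFinset = T →
      fer α T l ↑P A = (l.map (gF α T A)).prod := by
  intro l
  induction l with
  | nil => intro P _ _; rfl
  | cons x l ih =>
    intro P hl hT
    have e1 : x ::ₘ (P : Multiset ℕ) = ↑(P ++ [x]) := by
      rw [← Multiset.coe_add, Multiset.coe_singleton, add_comm, Multiset.singleton_add]
    have e2 : P ++ [x] ++ l = P ++ x :: l := by simp
    rw [fer, e1, ih (P ++ [x]) (by rwa [e2]) (by rwa [e2]), List.map_cons, List.prod_cons]
    congr 1
    unfold rowT gF
    apply prod_congr rfl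
    intro j hj
    rw [mem_filter, mem_range] at hj
    unfold bx
    rw [List.pairwise_append, List.pairwise_cons] at hl
    obtain ⟨hP, ⟨hx, hl'⟩, hPl⟩ := hl
    have h1 : (↑l + A : Multiset ℕ).countP (fun y => j ≤ y ∧ y < x) =
        A.countP (fun y => j ≤ y ∧ y < x) := by
      rw [Multiset.countP_add]
      have : (l : Multiset ℕ).countP (fun y => j ≤ y ∧ y < x) = 0 := by
        rw [Multiset.countP_eq_zero]
        intro y hy
        rw [Multiset.mem_coe] at hy
        have := hx y hy
        omega
      rw [this, zero_add]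
    have h2 : (P : Multiset ℕ).countP (fun y => j < y ∧ y ≤ x) =
        (T.filter (fun y => j < y ∧ y < x)).card := by
      have hnd : (P ++ x :: l).Nodup := by
        have : (P ++ x :: l).Pairwise (· < ·) := by
          rw [List.pairwise_append, List.pairwise_cons]; exact ⟨hP, ⟨hx, hl'⟩, hPl⟩
        exact this.imp (fun h => Nat.ne_of_lt h)
      have h3 : T.filter (fun y => j < y ∧ y < x) = (P.filter (fun y => decide (j < y ∧ y ≤ x))).toFinset := by
        ext y
        rw [← hT]
        simp only [mem_filter, List.mem_toFinset, List.mem_append, List.mem_cons, List.mem_filter,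
          decide_eq_true_eq]
        constructor
        · rintro ⟨h4, h5⟩
          rcases h4 with h4 | h4 | h4
          · exact ⟨h4, by omega⟩
          · omega
          · have := hx y h4; omega
        · rintro ⟨h4, h5⟩
          refine ⟨Or.inl h4, h5.1, ?_⟩
          exact hPl y h4 x List.mem_cons_self
      rw [h3, List.toFinset_card_of_nodup, Multiset.coe_countP, List.countP_eq_length_filter]
      rw [List.nodup_append] at hnd
      exact hnd.1.filter _
    rw [h1, h2]

lemma VV_canon (α : R) (A F : List ℕ) (hA : A.Pairwise (· ≥ ·)) (hF : F.Pairwise (· < ·)) :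
    VV α A F [] = (F.map (gF α F.toFinset ↑A)).prod * canon (gB α ↑A ↑F) ↑A := by
  unfold VV
  rw [Multiset.coe_nil, zero_add, bos_canon α A F hA]
  have := fer_eq α F.toFinset (A : Multiset ℕ) F [] (by simpa using hF) (by simp)
  rw [Multiset.coe_nil] at this
  rw [this]
  simp [bos]

/-! ### The factors `cnt` -/

lemma cnt_eq {N : ℕ} (L : List ℕ) (P : List ℕ) (hL : ∀ x ∈ L, 0 < x)
    (hN : P.length + L.length ≤ N) {i : ℕ} (hi : i < L.length) :
    cnt N (ex (P ++ L)) (P.length + i) = (L.drop (i + 1)).count (L.getD i 0) + 1 := by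
  have he : ∀ k, ex (P ++ L) (P.length + k) = L.getD k 0 := by
    intro k
    rw [ex_apply, List.getD_append_right _ _ _ _ (by omega), Nat.add_sub_cancel_left]
  have hpos : 0 < L.getD i 0 := by
    rw [List.getD_eq_getElem _ _ hi]
    exact hL _ (List.getElem_mem hi)
  have key : ∀ (l : List ℕ) (v : ℕ) (K : ℕ), 0 < v → l.length ≤ K →
      ((range K).filter (fun k => l.getD k 0 = v)).card = l.count v := by
    intro l
    induction l with
    | nil =>
      intro v K hv _
      rw [List.count_nil, card_eq_zero, filter_eq_empty_iff]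
      intro k _
      simp only [List.getD_nil]
      omega
    | cons x l ih =>
      intro v K hv hK
      obtain ⟨K, rfl⟩ : ∃ K', K = K' + 1 := ⟨K - 1, by rw [List.length_cons] at hK; omega⟩
      rw [List.length_cons] at hK
      have h1 : (range (K + 1)).filter (fun k => (x :: l).getD k 0 = v) =
          (if x = v then {0} else ∅) ∪
            ((range K).filter (fun k => l.getD k 0 = v)).map ⟨Nat.succ, Nat.succ_injective⟩ := by
        ext k
        simp only [mem_filter, mem_range, mem_union, Finset.mem_map, Function.Embedding.coeFn_mk]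
        constructor
        · rintro ⟨h2, h3⟩
          rcases Nat.eq_zero_or_pos k with h4 | h4
          · left
            subst h4
            simp only [List.getD_cons_zero] at h3
            rw [if_pos h3]; simp
          · right
            refine ⟨k - 1, ⟨by omega, ?_⟩, by simp only [Nat.succ_eq_add_one]; omega⟩
            obtain ⟨k, rfl⟩ : ∃ k', k = k' + 1 := ⟨k - 1, by omega⟩
            simpa using h3
        · rintro (h2 | ⟨a, ⟨h2, h3⟩, rfl⟩)
          · split_ifs at h2 with h4
            · rw [mem_singleton] at h2
              subst h2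
              exact ⟨by omega, by simpa using h4⟩
            · exact absurd h2 (notMem_empty _)
          · exact ⟨by simp only [Nat.succ_eq_add_one]; omega, by simpa using h3⟩
      rw [h1, card_union_of_disjoint, card_map, ih v K hv (by omega), List.count_cons]
      · split_ifs with h2 h3 h3
        · rw [card_singleton, add_comm]
        · simp_all
        · simp_all
        · rw [card_empty, zero_add]; rfl
      · rw [disjoint_left]
        intro a ha hb
        split_ifs at ha
        · rw [mem_singleton] at ha
          simp only [Finset.mem_map, Function.Embedding.coeFn_mk] at hb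
          obtain ⟨b, _, hb⟩ := hb
          omega
        · exact absurd ha (notMem_empty _)
  unfold cnt
  have h1 : (Ico (P.length + i) N).filter (fun k => ex (P ++ L) k = ex (P ++ L) (P.length + i)) =
      ((range (N - (P.length + i))).filter (fun k => (L.drop i).getD k 0 = L.getD i 0)).map
        (addLeftEmbedding (P.length + i)) := by
    ext k
    simp only [mem_filter, mem_Ico, Finset.mem_map, mem_range, addLeftEmbedding_apply]
    constructor
    · rintro ⟨h2, h3⟩
      refine ⟨k - (P.length + i), ⟨by omega, ?_⟩, by omega⟩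
      rw [he] at h3
      rw [← h3]
      have : k = P.length + (i + (k - (P.length + i))) := by omega
      conv_rhs => rw [this, he]
      rw [List.getD_eq_getElem?_getD, List.getD_eq_getElem?_getD, List.getElem?_drop]
    · rintro ⟨a, ⟨h2, h3⟩, rfl⟩
      refine ⟨by omega, ?_⟩
      rw [he, add_assoc, he, ← h3, List.getD_eq_getElem?_getD, List.getD_eq_getElem?_getD,
        List.getElem?_drop]
  rw [h1, card_map, key (L.drop i) (L.getD i 0) _ hpos (by rw [List.length_drop]; omega)]
  have h2 : L.drop i = L.getD i 0 :: L.drop (i + 1) := by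
    rw [List.getD_eq_getElem _ _ hi]
    exact (List.drop_eq_getElem_cons hi)
  rw [h2, List.count_cons_self]

lemma prod_cnt {N : ℕ} (A F : List ℕ) (hN : F.length + A.length ≤ N) :
    ∏ i ∈ range A.length, cnt N (exW A F) (F.length + i) =
      canon (R := ℤ) (fun _ s => (s : ℤ) + 1) ↑A := by
  have h1 : ∀ i ∈ range A.length, (cnt N (exW A F) (F.length + i) : ℤ) =
      ((((A.reverse.map Nat.succ).drop (i + 1)).count ((A.reverse.map Nat.succ).getD i 0) : ℕ) : ℤ)
        + 1 := by
    intro i hi
    rw [mem_range] at hi
    have := cnt_eq (N := N) (A.reverse.map Nat.succ) F.reverse (by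
      intro x hx
      rw [List.mem_map] at hx
      obtain ⟨y, _, rfl⟩ := hx
      omega) (by
        rw [List.length_reverse, List.length_map, List.length_reverse]; exact hN) (i := i)
        (by rw [List.length_map, List.length_reverse]; exact hi)
    rw [List.length_reverse] at this
    unfold exW
    rw [this]
    push_cast
    ring
  push_cast
  rw [prod_congr rfl h1]
  have h2 := Hp_prod (R := ℤ) (fun _ s => (s : ℤ) + 1) (A.reverse.map Nat.succ)
  rw [List.length_map, List.length_reverse] at h2
  rw [h2, Hp_eq]
  have h3 : ((A.reverse.map Nat.succ : List ℕ) : Multiset ℕ) = (A : Multiset ℕ).map Nat.succ := by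
    rw [← Multiset.map_coe, Multiset.coe_reverse]
  rw [h3]
  unfold canon
  rw [Multiset.toFinset_map, prod_image (by intro a _ b _ h; exact Nat.succ_injective h)]
  apply prod_congr rfl
  intro x _
  rw [Multiset.count_map_eq_count' _ _ Nat.succ_injective]

end

end Pool.Agent.Helper61.Jack
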