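import Mathlib

/-!
# Jack superpolynomials: definitions

The definitions follow the problem file `MP_cf8419_co`.
-/

set_option autoImplicit false

open MvPolynomial

namespace Pool.Agent.Helper61.JackSuper

/-- A superpartition of degree `(n|m)`: the set of the `m` fermionic parts (distinct, zero is
allowed) and the multiset of the bosonic parts (positive), with total sum `n`. -/
@[ext] structure SuperPartition (n m : ℕ) where
  /-- the fermionic parts -/
  fer : Finset ℕ
  /-- the bosonic parts -/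
  bos : Multiset ℕ
  card_fer : fer.card = m
  bos_pos : ∀ x ∈ bos, 0 < x
  sum_eq : ∑ x ∈ fer, x + bos.sum = n

/-- The decreasing list of the elements of a multiset. -/
def dec (s : Multiset ℕ) : List ℕ := s.sort (· ≥ ·)

namespace SuperPartition

variable {n m : ℕ}

/-- `(Λ_1, …, Λ_m, Λ_{m+1}, …, Λ_ℓ)`: the fermionic parts in decreasing order followed by the
bosonic parts in decreasing order. -/
def parts (Λ : SuperPartition n m) : List ℕ := dec Λ.fer.val ++ dec Λ.bos

/-- The partition `Λ^*` (all parts sorted; a possible zero stays at the end). -/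
def star (Λ : SuperPartition n m) : List ℕ := dec (Λ.fer.val + Λ.bos)

/-- The partition `Λ^⊛` (the fermionic parts are increased by one). -/
def circ (Λ : SuperPartition n m) : List ℕ := dec (Λ.fer.val.map (· + 1) + Λ.bos)

/-- Comparison of all partial sums. -/
def domList (a b : List ℕ) : Prop := ∀ k : ℕ, (a.take k).sum ≤ (b.take k).sum

/-- Dominance order of superpartitions: `Ω ≤ Λ`. -/
def Dom (Ω Λ : SuperPartition n m) : Prop := domList Ω.star Λ.star ∧ domList Ω.circ Λ.circ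

/-- Length of the column `j ≥ 1` of the diagram with the row lengths `L`. -/
def colLen (L : List ℕ) (j : ℕ) : ℕ := L.countP (fun x => decide (j ≤ x))

/-- The boxes of the diagram of `Λ` which do not lie in both a row containing a circle and a column
containing a circle. The pair `(i, j)` is the box in row `i + 1` and column `j`, with `0 ≤ i` and
`1 ≤ j ≤ Λ^*_{i+1}`. -/
def boxes (Λ : SuperPartition n m) : Finset (ℕ × ℕ) :=
  ((Finset.range Λ.star.length) ×ˢ (Finset.Icc 1 n)).filter (fun b =>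
    b.2 ≤ Λ.star.getD b.1 0 ∧
      ¬ (Λ.star.getD b.1 0 < Λ.circ.getD b.1 0 ∧ colLen Λ.star b.2 < colLen Λ.circ b.2))

/-- The polynomial `v_Λ(α) = ∏ (α a_{Λ^⊛}(s) + l_{Λ^*}(s) + 1)` in `ℤ[α]`, the product over the
boxes `s` of `boxes Λ`. For the box `(i, j)` the arm is `Λ^⊛_{i+1} - j` and the leg is
`(Λ^*)'_j - (i + 1)`. -/
noncomputable def v (Λ : SuperPartition n m) : Polynomial ℤ :=
  ∏ b ∈ Λ.boxes, (Polynomial.C ((Λ.circ.getD b.1 0 : ℤ) - (b.2 : ℤ)) * Polynomial.X +
    Polynomial.C ((colLen Λ.star b.2 : ℤ) - ((b.1 : ℤ) + 1) + 1))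

/-- `z_λ` for the bosonic part. -/
def zee (Λ : SuperPartition n m) : ℕ :=
  ∏ k ∈ Λ.bos.toFinset, k ^ (Λ.bos.count k) * (Λ.bos.count k).factorial

/-- The number of the permutations of the last `N - m` positions which fix the bosonic part of
`Λ` (filled with `N - m - ℓ` zeros). -/
def aut (N : ℕ) (Λ : SuperPartition n m) : ℕ :=
  (N - m - Multiset.card Λ.bos).factorial * ∏ k ∈ Λ.bos.toFinset, (Λ.bos.count k).factorial

end SuperPartition

open SuperPartition

/-- The field `ℚ(α)`. -/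
abbrev K := RatFunc ℚ

/-- The parameter `α`. -/
noncomputable def al : K := RatFunc.X

/-- The polynomials in `N` commuting variables. -/
abbrev Pol (N : ℕ) := MvPolynomial (Fin N) K

/-- The superpolynomials in `N` commuting variables `x_i` and `N` anticommuting variables `θ_i`. -/
abbrev SP (N : ℕ) := ExteriorAlgebra (Pol N) (Fin N → Pol N)

/-- The anticommuting variable `θ_i`. -/
noncomputable def theta {N : ℕ} (i : Fin N) : SP N :=
  ExteriorAlgebra.ι (Pol N) (Pi.single i 1)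

/-- The image under the permutation `σ` of
`θ_1 ⋯ θ_m x_1^{d_1} ⋯ x_N^{d_N}`. -/
noncomputable def term (N m : ℕ) (d : ℕ → ℕ) (σ : Equiv.Perm (Fin N)) : SP N :=
  algebraMap (Pol N) (SP N) (∏ i : Fin N, X (σ i) ^ d i) *
    (((List.finRange N).take m).map (fun i => theta (σ i))).prod

/-- The monomial symmetric superpolynomial `m_Λ` in `N` variables. -/
noncomputable def mon {n m : ℕ} (N : ℕ) (Λ : SuperPartition n m) : SP N :=
  ((aut N Λ : K)⁻¹) • ∑ σ : Equiv.Perm (Fin N), term N m (fun i => Λ.parts.getD i 0) σ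

/-- `p̃_r = ∑ θ_i x_i^r`. -/
noncomputable def ptil (N r : ℕ) : SP N :=
  ∑ i : Fin N, algebraMap (Pol N) (SP N) (X i ^ r) * theta i

/-- `p_s = ∑ x_i^s`. -/
noncomputable def psum (N s : ℕ) : SP N :=
  ∑ i : Fin N, algebraMap (Pol N) (SP N) (X i ^ s)

/-- The power sum `p_Λ = p̃_{Λ_1} ⋯ p̃_{Λ_m} p_{Λ_{m+1}} ⋯ p_{Λ_ℓ}` in `N` variables. -/
noncomputable def pow {n m : ℕ} (N : ℕ) (Λ : SuperPartition n m) : SP N :=
  ((dec Λ.fer.val).map (ptil N)).prod * ((dec Λ.bos).map (psum N)).prod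

/-- The exponent `(Λ_1, …, Λ_m, Λ_{m+1}, …, Λ_ℓ, 0, 0, …)`. -/
def expo {n m : ℕ} (Λ : SuperPartition n m) : ℕ →₀ ℕ := Λ.parts.toFinsupp

/-- Interface (not part of the statement): the coefficient of `x^Ω` in
`det(x_i^{Γ_j})_{i, j < m} p_{Γ^s}(x_0, …, x_{N-1})`. -/
noncomputable def Cmat {n m : ℕ} (N : ℕ) (Γ Ω : SuperPartition n m) : ℤ :=
  coeff (expo Ω) (Matrix.det (Matrix.of fun i j : Fin m =>
      (X (i : ℕ) : MvPolynomial ℕ ℤ) ^ ((dec Γ.fer.val).getD j 0)) *
    (Γ.bos.map (fun s => ∑ k ∈ Finset.range N, (X k : MvPolynomial ℕ ℤ) ^ s)).prod)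

/-- `B` restricts to the scalar product of the problem on the span of the `p_Λ` of degree
`(n|m)`: `⟨p_Λ, p_Ω⟩ = (-1)^{m(m-1)/2} α^ℓ z_{Λ^s} δ_{ΛΩ}` with `ℓ = m + ℓ(Λ^s)`. -/
def IsScalarProduct (n m N : ℕ) (B : SP N →ₗ[K] SP N →ₗ[K] K) : Prop :=
  ∀ Λ Ω : SuperPartition n m, (Λ ≠ Ω → B (pow N Λ) (pow N Ω) = 0) ∧
    B (pow N Λ) (pow N Λ) =
      (-1) ^ (m.choose 2) * al ^ (m + Multiset.card Λ.bos) * (zee Λ : K)

end Pool.Agent.Helper61.JackSuper
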