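import Pool.Agent.Helper61.Jack.C1
import Pool.Agent.Helper61.Jack.Defs

/-!
# The hook product of the diagram
-/

set_option autoImplicit false

open Finset

namespace Pool.Agent.Helper61.Jack

open JackSuper JackSuper.SuperPartition

noncomputable section

lemma dec_coe (s : Multiset ℕ) : (dec s : Multiset ℕ) = s := by
  unfold dec; exact Multiset.sort_eq _ _

lemma dec_sorted (s : Multiset ℕ) : (dec s).Pairwise (· ≥ ·) := by
  unfold dec; exact Multiset.pairwise_sort _ _

lemma dec_length (s : Multiset ℕ) : (dec s).length = Multiset.card s := by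
  unfold dec; exact Multiset.length_sort _

lemma mem_dec {s : Multiset ℕ} {x : ℕ} : x ∈ dec s ↔ x ∈ s := by
  unfold dec; exact Multiset.mem_sort _

/-- Uniqueness of the sorted list. -/
lemma dec_eq_of_sorted {L : List ℕ} {s : Multiset ℕ} (hL : L.Pairwise (· ≥ ·))
    (h : (L : Multiset ℕ) = s) : dec s = L := by
  have hp : (dec s).Perm L := by
    rw [← Multiset.coe_eq_coe, dec_coe, h]
  exact hp.eq_of_pairwise (fun a b _ _ h1 h2 => le_antisymm h2 h1) (dec_sorted s) hL

lemma dec_map_mono {f : ℕ → ℕ} (hf : Monotone f) (s : Multiset ℕ) :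
    dec (s.map f) = (dec s).map f := by
  apply dec_eq_of_sorted
  · rw [List.pairwise_map]
    exact (dec_sorted s).imp (fun h => hf h)
  · rw [← Multiset.map_coe, dec_coe]

variable {n m : ℕ} (Λ : SuperPartition n m)

/-- The codes of the rows. -/
def codes : Multiset ℕ := Λ.fer.val.map (fun x => 2 * x + 1) + Λ.bos.map (fun x => 2 * x)

/-- The decreasing list of the codes. -/
def rws : List ℕ := dec (codes Λ)

lemma star_eq : Λ.star = (rws Λ).map (fun c => c / 2) := by
  unfold rws
  rw [← dec_map_mono (fun a b h => Nat.div_le_div_right h)]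
  unfold JackSuper.SuperPartition.star codes
  congr 1
  rw [Multiset.map_add, Multiset.map_map, Multiset.map_map]
  congr 1
  · conv_lhs => rw [← Multiset.map_id Λ.fer.val]
    apply Multiset.map_congr rfl
    intro x _
    simp only [id, Function.comp]
    omega
  · conv_lhs => rw [← Multiset.map_id Λ.bos]
    apply Multiset.map_congr rfl
    intro x _
    simp only [id, Function.comp]
    omega

lemma circ_eq : Λ.circ = (rws Λ).map (fun c => (c + 1) / 2) := by
  unfold rws
  rw [← dec_map_mono (fun a b h => Nat.div_le_div_right (Nat.succ_le_succ h))]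
  unfold JackSuper.SuperPartition.circ codes
  congr 1
  rw [Multiset.map_add, Multiset.map_map, Multiset.map_map]
  congr 1
  · apply Multiset.map_congr rfl
    intro x _
    simp only [Function.comp]
    omega
  · conv_lhs => rw [← Multiset.map_id Λ.bos]
    apply Multiset.map_congr rfl
    intro x _
    simp only [id, Function.comp]
    omega

lemma getD_map_div (L : List ℕ) (f : ℕ → ℕ) (hf : f 0 = 0) (i : ℕ) :
    (L.map f).getD i 0 = f (L.getD i 0) := by
  by_cases h : i < L.length
  · rw [List.getD_eq_getElem _ _ (by simpa using h), List.getD_eq_getElem _ _ h]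
    simp
  · rw [List.getD_eq_default _ _ (by simpa using h), List.getD_eq_default _ _ (by omega), hf]

lemma colLen_star (j : ℕ) : colLen Λ.star j = (rws Λ).countP (fun c => decide (j ≤ c / 2)) := by
  unfold colLen
  rw [star_eq, List.countP_map]
  rfl

lemma mem_codes {c : ℕ} : c ∈ codes Λ ↔ (c % 2 = 1 ∧ c / 2 ∈ Λ.fer) ∨ (c % 2 = 0 ∧ c / 2 ∈ Λ.bos) := by
  unfold codes
  rw [Multiset.mem_add, Multiset.mem_map, Multiset.mem_map]
  constructor
  · rintro (⟨x, hx, rfl⟩ | ⟨x, hx, rfl⟩)
    · left
      refine ⟨by omega, ?_⟩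
      have : (2 * x + 1) / 2 = x := by omega
      rw [this]; exact hx
    · right
      refine ⟨by omega, ?_⟩
      have : (2 * x) / 2 = x := by omega
      rw [this]; exact hx
  · rintro (⟨h1, h2⟩ | ⟨h1, h2⟩)
    · exact Or.inl ⟨c / 2, h2, by omega⟩
    · exact Or.inr ⟨c / 2, h2, by omega⟩

lemma colLen_lt_iff {j : ℕ} (hj : 1 ≤ j) :
    colLen Λ.star j < colLen Λ.circ j ↔ j - 1 ∈ Λ.fer := by
  have h1 : colLen Λ.circ j = (rws Λ).countP (fun c => decide (j ≤ (c + 1) / 2)) := by
    unfold colLen
    rw [circ_eq, List.countP_map]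
    rfl
  rw [h1, colLen_star]
  have h2 : ∀ L : List ℕ, L.countP (fun c => decide (j ≤ (c + 1) / 2)) =
      L.countP (fun c => decide (j ≤ c / 2)) + L.count (2 * (j - 1) + 1) := by
    intro L
    induction L with
    | nil => rfl
    | cons c L ih =>
      rw [List.countP_cons, List.countP_cons, List.count_cons, ih]
      simp only [decide_eq_true_eq, beq_iff_eq]
      split_ifs <;> omega
  rw [h2]
  constructor
  · intro h
    have h3 : 0 < (rws Λ).count (2 * (j - 1) + 1) := by omega
    rw [List.count_pos_iff] at h3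
    unfold rws at h3
    rw [mem_dec, mem_codes] at h3
    rcases h3 with ⟨_, h4⟩ | ⟨h4, _⟩
    · have : (2 * (j - 1) + 1) / 2 = j - 1 := by omega
      rwa [this] at h4
    · omega
  · intro h
    have h3 : 0 < (rws Λ).count (2 * (j - 1) + 1) := by
      rw [List.count_pos_iff]
      unfold rws
      rw [mem_dec, mem_codes]
      left
      refine ⟨by omega, ?_⟩
      have : (2 * (j - 1) + 1) / 2 = j - 1 := by omega
      rwa [this]
    omega

/-- The row factor. -/
def rowG (c s : ℕ) : Polynomial ℤ :=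
  ∏ j ∈ (Icc 1 (c / 2)).filter (fun j => ¬ (c % 2 = 1 ∧ j - 1 ∈ Λ.fer)),
    (Polynomial.C ((((c + 1) / 2 : ℕ) : ℤ) - (j : ℤ)) * Polynomial.X + Polynomial.C
      (((codes Λ).countP (fun y => y < c ∧ j ≤ y / 2) : ℤ) + (s : ℤ) + 1))

lemma rws_sorted : (rws Λ).Pairwise (· ≥ ·) := dec_sorted _

lemma leg_eq {i : ℕ} (hi : i < (rws Λ).length) {j : ℕ} (hj : j ≤ (rws Λ).getD i 0 / 2) :
    colLen Λ.star j = (i + 1) + ((codes Λ).countP (fun y => y < (rws Λ).getD i 0 ∧ j ≤ y / 2) +
      ((rws Λ).drop (i + 1)).count ((rws Λ).getD i 0)) := by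
  have hs := rws_sorted Λ
  set c := (rws Λ).getD i 0 with hc
  have hci : c = (rws Λ)[i] := by rw [hc, List.getD_eq_getElem _ _ hi]
  rw [colLen_star]
  have h1 : (rws Λ) = (rws Λ).take (i + 1) ++ (rws Λ).drop (i + 1) :=
    (List.take_append_drop _ _).symm
  have htake : ∀ y ∈ (rws Λ).take (i + 1), c ≤ y := by
    intro y hy
    rw [List.mem_take_iff_getElem] at hy
    obtain ⟨k, hk, rfl⟩ := hy
    rw [hci]
    rcases Nat.lt_or_ge k i with h | h
    · exact List.pairwise_iff_getElem.mp hs k i (by omega) hi h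
    · have : k = i := by omega
      subst this
      exact le_rfl
  have hdrop : ∀ y ∈ (rws Λ).drop (i + 1), y ≤ c := by
    intro y hy
    rw [List.mem_drop_iff_getElem] at hy
    obtain ⟨k, hk, rfl⟩ := hy
    rw [hci]
    exact List.pairwise_iff_getElem.mp hs i (i + 1 + k) hi (by omega) (by omega)
  have h2 : (rws Λ).countP (fun y => decide (j ≤ y / 2)) =
      ((rws Λ).take (i + 1)).countP (fun y => decide (j ≤ y / 2)) +
      ((rws Λ).drop (i + 1)).countP (fun y => decide (j ≤ y / 2)) := by
    conv_lhs => rw [h1, List.countP_append]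
  have h3 : ((rws Λ).take (i + 1)).countP (fun y => decide (j ≤ y / 2)) = i + 1 := by
    have : i + 1 = ((rws Λ).take (i + 1)).length := by rw [List.length_take]; omega
    conv_rhs => rw [this]
    rw [List.countP_eq_length]
    intro y hy
    have := htake y hy
    simp only [decide_eq_true_eq]
    omega
  have h4 : ∀ L : List ℕ, (∀ y ∈ L, y ≤ c) → L.countP (fun y => decide (j ≤ y / 2)) =
      L.countP (fun y => decide (y < c ∧ j ≤ y / 2)) + L.count c := by
    intro L hL
    induction L with
    | nil => rfl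
    | cons y L ih =>
      rw [List.countP_cons, List.countP_cons, List.count_cons,
        ih (fun z hz => hL z (List.mem_cons_of_mem _ hz))]
      have := hL y List.mem_cons_self
      simp only [decide_eq_true_eq, beq_iff_eq]
      split_ifs <;> omega
  have h5 : (codes Λ).countP (fun y => y < c ∧ j ≤ y / 2) =
      ((rws Λ).drop (i + 1)).countP (fun y => decide (y < c ∧ j ≤ y / 2)) := by
    have h6 : (codes Λ).countP (fun y => y < c ∧ j ≤ y / 2) =
        (rws Λ).countP (fun y => decide (y < c ∧ j ≤ y / 2)) := by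
      rw [← Multiset.coe_countP]
      unfold rws
      rw [dec_coe]
    rw [h6]
    conv_lhs => rw [h1, List.countP_append]
    have h7 : ((rws Λ).take (i + 1)).countP (fun y => decide (y < c ∧ j ≤ y / 2)) = 0 := by
      rw [List.countP_eq_zero]
      intro y hy
      have := htake y hy
      simp only [decide_eq_true_eq]
      omega
    rw [h7, zero_add]
  rw [h2, h3, h4 _ hdrop, h5]

lemma star_le {i : ℕ} : Λ.star.getD i 0 ≤ n := by
  by_cases h : i < Λ.star.length
  · have h1 : Λ.star.getD i 0 ∈ Λ.star := by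
      rw [List.getD_eq_getElem _ _ h]; exact List.getElem_mem h
    have h2 : Λ.star.sum = n := by
      rw [← Multiset.sum_coe]
      unfold JackSuper.SuperPartition.star
      rw [dec_coe, Multiset.sum_add]
      have h3 := Λ.sum_eq
      rwa [Finset.sum_eq_multiset_sum, Multiset.map_id'] at h3
    exact (List.single_le_sum (fun _ _ => Nat.zero_le _) _ h1).trans h2.le
  · rw [List.getD_eq_default _ _ (by omega)]
    exact Nat.zero_le _

/-- The product over the rows. -/
lemma v_eq_canon : Λ.v = canon (rowG Λ) (codes Λ) := by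
  have h0 : (rws Λ : Multiset ℕ) = codes Λ := dec_coe _
  rw [← h0, ← Hp_eq, ← Hp_prod]
  unfold JackSuper.SuperPartition.v JackSuper.SuperPartition.boxes
  rw [prod_filter, prod_product]
  have hlen : Λ.star.length = (rws Λ).length := by rw [star_eq, List.length_map]
  rw [hlen]
  apply prod_congr rfl
  intro i hi
  rw [mem_range] at hi
  have hst : Λ.star.getD i 0 = (rws Λ).getD i 0 / 2 := by
    rw [star_eq]; exact getD_map_div _ _ rfl i
  have hci : Λ.circ.getD i 0 = ((rws Λ).getD i 0 + 1) / 2 := by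
    rw [circ_eq]; exact getD_map_div _ _ rfl i
  rw [← prod_filter]
  unfold rowG
  have hset : (Icc 1 n).filter (fun j => j ≤ Λ.star.getD i 0 ∧
      ¬ (Λ.star.getD i 0 < Λ.circ.getD i 0 ∧ colLen Λ.star j < colLen Λ.circ j)) =
      (Icc 1 ((rws Λ).getD i 0 / 2)).filter
        (fun j => ¬ ((rws Λ).getD i 0 % 2 = 1 ∧ j - 1 ∈ Λ.fer)) := by
    ext j
    simp only [mem_filter, mem_Icc]
    have hn := star_le Λ (i := i)
    rw [hst] at hn
    constructor
    · rintro ⟨⟨h1, h2⟩, h3, h4⟩
      rw [hst] at h3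
      refine ⟨⟨h1, h3⟩, ?_⟩
      rintro ⟨h5, h6⟩
      apply h4
      rw [colLen_lt_iff Λ h1, hst, hci]
      exact ⟨by omega, h6⟩
    · rintro ⟨⟨h1, h2⟩, h3⟩
      refine ⟨⟨h1, by omega⟩, by rw [hst]; exact h2, ?_⟩
      rintro ⟨h5, h6⟩
      apply h3
      rw [colLen_lt_iff Λ h1] at h6
      rw [hst, hci] at h5
      exact ⟨by omega, h6⟩
  simp only at hset ⊢
  rw [hset]
  apply prod_congr rfl
  intro j hj
  rw [mem_filter, mem_Icc] at hj
  rw [hci, leg_eq Λ hi hj.1.2]
  congr 2
  push_cast
  ring

/-! ### Comparison with the product `VV` -/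

/-- Increasing list of the fermionic parts. -/
def listF : List ℕ := (dec Λ.fer.val).reverse

/-- Decreasing list of the bosonic parts, diminished by one. -/
def listA : List ℕ := (dec Λ.bos).map Nat.pred

lemma listA_succ : (listA Λ).map Nat.succ = dec Λ.bos := by
  unfold listA
  rw [List.map_map]
  conv_rhs => rw [← List.map_id (dec Λ.bos)]
  apply List.map_congr_left
  intro x hx
  have := Λ.bos_pos x (mem_dec.mp hx)
  simp only [Function.comp, id, Nat.succ_eq_add_one, Nat.pred_eq_sub_one]
  omega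

lemma listA_sorted : (listA Λ).Pairwise (· ≥ ·) := by
  unfold listA
  rw [List.pairwise_map]
  exact (dec_sorted _).imp (fun h => Nat.pred_le_pred h)

lemma dec_fer_sorted : (dec Λ.fer.val).Pairwise (· > ·) := by
  have h1 := dec_sorted Λ.fer.val
  have h2 : (dec Λ.fer.val).Nodup := by
    rw [← Multiset.coe_nodup, dec_coe]
    exact Λ.fer.nodup
  rw [List.Nodup] at h2
  exact (h1.and h2).imp (fun h => lt_of_le_of_ne h.1 (Ne.symm h.2))

lemma listF_sorted : (listF Λ).Pairwise (· < ·) := by
  unfold listF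
  rw [List.pairwise_reverse]
  exact dec_fer_sorted Λ

lemma listF_toFinset : (listF Λ).toFinset = Λ.fer := by
  ext x
  unfold listF
  rw [List.mem_toFinset, List.mem_reverse, mem_dec]
  rfl

lemma listF_coe : (listF Λ : Multiset ℕ) = Λ.fer.val := by
  unfold listF
  rw [Multiset.coe_reverse, dec_coe]

lemma listA_coe : (listA Λ : Multiset ℕ).map Nat.succ = Λ.bos := by
  rw [Multiset.map_coe, listA_succ, dec_coe]

lemma listF_length : (listF Λ).length = m := by
  unfold listF
  rw [List.length_reverse, dec_length]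
  exact Λ.card_fer

lemma listA_length : (listA Λ).length = Multiset.card Λ.bos := by
  unfold listA
  rw [List.length_map, dec_length]

lemma canon_add_nodup {R : Type*} [CommRing R] (g : ℕ → ℕ → R) (L : List ℕ) (s : Multiset ℕ)
    (hL : L.Nodup) (hd : ∀ x ∈ L, x ∉ s) :
    canon g (↑L + s) = (L.map (fun x => g x 0)).prod * canon g s := by
  induction L with
  | nil => rw [Multiset.coe_nil, zero_add]; simp
  | cons x L ih =>
    rw [List.nodup_cons] at hL
    rw [← Multiset.cons_coe, Multiset.cons_add, canon_cons,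
      ih hL.2 (fun y hy => hd y (List.mem_cons_of_mem _ hy)), List.map_cons, List.prod_cons]
    have h1 : (↑L + s : Multiset ℕ).count x = 0 := by
      rw [Multiset.count_eq_zero, Multiset.mem_add, Multiset.mem_coe]
      rintro (h | h)
      · exact hL.1 h
      · exact hd x List.mem_cons_self h
    rw [h1]
    ring

lemma canon_map {R : Type*} [CommRing R] (g : ℕ → ℕ → R) {f : ℕ → ℕ} (hf : Function.Injective f)
    (s : Multiset ℕ) : canon g (s.map f) = canon (fun x i => g (f x) i) s := by
  unfold canon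
  rw [Multiset.toFinset_map, prod_image (by intro a _ b _ h; exact hf h)]
  apply prod_congr rfl
  intro x _
  rw [Multiset.count_map_eq_count' _ _ hf]

lemma prod_Icc_shift {R : Type*} [CommRing R] (f : ℕ → R) (p : ℕ → Prop) [DecidablePred p]
    (x : ℕ) : ∏ j ∈ (Icc 1 x).filter (fun j => ¬ p (j - 1)), f j =
      ∏ j ∈ (range x).filter (fun j => ¬ p j), f (j + 1) := by
  symm
  refine Finset.prod_bij (fun j _ => j + 1) ?_ ?_ ?_ ?_
  · intro j hj
    rw [mem_filter, mem_range] at hj
    rw [mem_filter, mem_Icc, Nat.add_sub_cancel]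
    exact ⟨by omega, hj.2⟩
  · intro a _ b _ h; omega
  · intro j hj
    rw [mem_filter, mem_Icc] at hj
    exact ⟨j - 1, by rw [mem_filter, mem_range]; exact ⟨by omega, hj.2⟩, by omega⟩
  · intro j _; rfl

lemma countP_codes (c j : ℕ) : (codes Λ).countP (fun y => y < c ∧ j + 1 ≤ y / 2) =
    Λ.fer.val.countP (fun y => 2 * y + 1 < c ∧ j < y) +
      (listA Λ : Multiset ℕ).countP (fun y => 2 * (y + 1) < c ∧ j ≤ y) := by
  unfold codes
  rw [Multiset.countP_add, Multiset.countP_map, Multiset.countP_map]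
  congr 1
  · rw [Multiset.countP_eq_card_filter]
    congr 1
    apply Multiset.filter_congr
    intro x _
    omega
  · conv_lhs => rw [← listA_coe Λ]
    rw [Multiset.filter_map, Multiset.card_map, Multiset.countP_eq_card_filter]
    congr 1
    apply Multiset.filter_congr
    intro x _
    simp only [Function.comp, Nat.succ_eq_add_one]
    omega

lemma rowG_fer (x : ℕ) : rowG Λ (2 * x + 1) 0 =
    gF (Polynomial.X : Polynomial ℤ) Λ.fer ↑(listA Λ) x := by
  unfold rowG gF
  have h0 : (2 * x + 1) / 2 = x := by omega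
  have h1 : (2 * x + 1) % 2 = 1 := by omega
  rw [h0, h1]
  have h2 : (Icc 1 x).filter (fun j => ¬ (1 = 1 ∧ j - 1 ∈ Λ.fer)) =
      (Icc 1 x).filter (fun j => ¬ (j - 1 ∈ Λ.fer)) := by
    apply filter_congr
    intro j _
    simp
  rw [h2, prod_Icc_shift _ (fun j => j ∈ Λ.fer)]
  apply prod_congr rfl
  intro j hj
  rw [mem_filter, mem_range] at hj
  rw [countP_codes]
  have e1 : ((((2 * x + 1 + 1) / 2 : ℕ) : ℤ) - ((j + 1 : ℕ) : ℤ)) = ((x - j : ℕ) : ℤ) := by
    have : (2 * x + 1 + 1) / 2 = x + 1 := by omega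
    rw [this]
    push_cast [Nat.cast_sub hj.1.le]
    ring
  have e2 : Λ.fer.val.countP (fun y => 2 * y + 1 < 2 * x + 1 ∧ j < y) =
      (Λ.fer.filter (fun y => j < y ∧ y < x)).card := by
    rw [Multiset.countP_eq_card_filter]
    show _ = Multiset.card (Λ.fer.filter (fun y => j < y ∧ y < x)).val
    rw [Finset.filter_val]
    congr 1
    apply Multiset.filter_congr
    intro y _
    omega
  have e3 : (listA Λ : Multiset ℕ).countP (fun y => 2 * (y + 1) < 2 * x + 1 ∧ j ≤ y) =
      (listA Λ : Multiset ℕ).countP (fun y => j ≤ y ∧ y < x) := by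
    apply Multiset.countP_congr rfl
    intro y _
    apply propext; omega
  rw [e1, e2, e3]
  simp only [map_natCast, map_add, map_one]
  push_cast
  ring

lemma rowG_bos (x s : ℕ) : rowG Λ (2 * (x + 1)) s =
    ((s : Polynomial ℤ) + 1) * gB (Polynomial.X : Polynomial ℤ) ↑(listA Λ) ↑(listF Λ) x s := by
  unfold rowG gB
  have h0 : (2 * (x + 1)) / 2 = x + 1 := by omega
  have h1 : (2 * (x + 1)) % 2 = 0 := by omega
  rw [h0, h1]
  have h2 : (Icc 1 (x + 1)).filter (fun j => ¬ (0 = 1 ∧ j - 1 ∈ Λ.fer)) =
      (Icc 1 (x + 1)).filter (fun j => ¬ (False)) := by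
    apply filter_congr
    intro j _
    simp
  rw [h2, prod_Icc_shift _ (fun _ => False)]
  have h3 : (range (x + 1)).filter (fun _ => ¬ False) = range (x + 1) := by simp
  rw [h3, prod_range_succ, mul_comm]
  congr 1
  · rw [countP_codes]
    have e1 : ((((2 * (x + 1) + 1) / 2 : ℕ) : ℤ) - ((x + 1 : ℕ) : ℤ)) = 0 := by
      have : (2 * (x + 1) + 1) / 2 = x + 1 := by omega
      rw [this]
      ring
    have e2 : Λ.fer.val.countP (fun y => 2 * y + 1 < 2 * (x + 1) ∧ x < y) = 0 := by
      rw [Multiset.countP_eq_zero]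
      intro y _
      omega
    have e3 : (listA Λ : Multiset ℕ).countP (fun y => 2 * (y + 1) < 2 * (x + 1) ∧ x ≤ y) = 0 := by
      rw [Multiset.countP_eq_zero]
      intro y _
      omega
    rw [e1, e2, e3]
    simp
  · apply prod_congr rfl
    intro j hj
    rw [mem_range] at hj
    rw [countP_codes]
    have e1 : ((((2 * (x + 1) + 1) / 2 : ℕ) : ℤ) - ((j + 1 : ℕ) : ℤ)) = ((x - j : ℕ) : ℤ) := by
      have : (2 * (x + 1) + 1) / 2 = x + 1 := by omega
      rw [this]
      push_cast [Nat.cast_sub hj.le]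
      ring
    have e2 : Λ.fer.val.countP (fun y => 2 * y + 1 < 2 * (x + 1) ∧ j < y) =
        (listF Λ : Multiset ℕ).countP (fun y => j < y ∧ y ≤ x) := by
      rw [listF_coe]
      apply Multiset.countP_congr rfl
      intro y _
      apply propext; omega
    have e3 : (listA Λ : Multiset ℕ).countP (fun y => 2 * (y + 1) < 2 * (x + 1) ∧ j ≤ y) =
        (listA Λ : Multiset ℕ).countP (fun y => j ≤ y ∧ y < x) := by
      apply Multiset.countP_congr rfl
      intro y _
      apply propext; omega
    rw [e1, e2, e3]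
    push_cast
    simp only [map_add, map_natCast, map_one]
    ring

/-- The hook identity. -/
theorem v_eq {N : ℕ} (hN : m + Multiset.card Λ.bos ≤ N) :
    Λ.v = ((∏ i ∈ range (listA Λ).length,
      cnt N (exW (listA Λ) (listF Λ)) ((listF Λ).length + i) : ℕ) : Polynomial ℤ) *
        VV Polynomial.X (listA Λ) (listF Λ) [] := by
  have h1 := prod_cnt (N := N) (listA Λ) (listF Λ) (by rw [listF_length, listA_length]; exact hN)
  have h2 : ((∏ i ∈ range (listA Λ).length,
      cnt N (exW (listA Λ) (listF Λ)) ((listF Λ).length + i) : ℕ) : Polynomial ℤ) =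
      canon (R := Polynomial ℤ) (fun _ s => (s : Polynomial ℤ) + 1) ↑(listA Λ) := by
    have h3 := congrArg (fun z : ℤ => (z : Polynomial ℤ)) h1
    rw [← Int.cast_natCast]
    rw [show ((((∏ i ∈ range (listA Λ).length,
      cnt N (exW (listA Λ) (listF Λ)) ((listF Λ).length + i) : ℕ) : ℤ)) : Polynomial ℤ) =
        ((canon (R := ℤ) (fun _ s => (s : ℤ) + 1) ↑(listA Λ) : ℤ) : Polynomial ℤ) from h3]
    unfold canon
    push_cast
    rfl
  rw [h2, VV_canon _ _ _ (listA_sorted Λ) (listF_sorted Λ), v_eq_canon]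
  have h4 : codes Λ = (((listF Λ).map (fun x => 2 * x + 1) : List ℕ) : Multiset ℕ) +
      (listA Λ : Multiset ℕ).map (fun x => 2 * (x + 1)) := by
    unfold codes
    rw [← Multiset.map_coe, listF_coe]
    congr 1
    conv_lhs => rw [← listA_coe Λ, Multiset.map_map]
    rfl
  have h5 : ((listF Λ).map (fun x => 2 * x + 1)).Nodup := by
    apply List.Nodup.map
    · intro a b h
      simp only at h
      omega
    · exact (listF_sorted Λ).imp (fun h => Nat.ne_of_lt h)
  conv_lhs => rw [h4]
  rw [canon_add_nodup _ _ _ h5, canon_map _ (f := fun x => 2 * (x + 1)) (by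
    intro a b h
    simp only at h
    omega), List.map_map]
  · have h6 : ((rowG Λ · 0) ∘ fun x => 2 * x + 1) =
        gF (Polynomial.X : Polynomial ℤ) (listF Λ).toFinset ↑(listA Λ) := by
      funext x
      rw [listF_toFinset]
      exact rowG_fer Λ x
    have h7 : (fun x i : ℕ => rowG Λ (2 * (x + 1)) i) = (fun x i : ℕ => ((i : Polynomial ℤ) + 1) *
        gB (Polynomial.X : Polynomial ℤ) ↑(listA Λ) ↑(listF Λ) x i) := by
      funext x i
      exact rowG_bos Λ x i
    rw [h6, h7, canon_mul]
    ring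
  · intro x hx hx'
    rw [List.mem_map] at hx
    rw [Multiset.mem_map] at hx'
    obtain ⟨a, _, rfl⟩ := hx
    obtain ⟨b, _, hb⟩ := hx'
    omega

end

end Pool.Agent.Helper61.Jack
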