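import Pool.Agent.Helper61.Jack.C2

/-!
# Dominance
-/

set_option autoImplicit false

open MvPolynomial Finset

namespace Pool.Agent.Helper61.Jack

open JackSuper JackSuper.SuperPartition

noncomputable section

/-! ### Permutations of the symmetric part -/

lemma pm_swap_ex (P L : List ℕ) (x y : ℕ) :
    pm (Equiv.swap P.length (P.length + 1)) (ex (P ++ x :: y :: L)) = ex (P ++ y :: x :: L) := by
  ext i
  rw [pm_swap_apply, ex_apply, ex_apply]
  rcases lt_trichotomy i P.length with h | h | h
  · rw [Equiv.swap_apply_of_ne_of_ne (by omega) (by omega), List.getD_append _ _ _ _ h,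
      List.getD_append _ _ _ _ h]
  · subst h
    rw [Equiv.swap_apply_left, List.getD_append_right _ _ _ _ (by omega),
      List.getD_append_right _ _ _ _ (by omega)]
    simp
  · by_cases h2 : i = P.length + 1
    · subst h2
      rw [Equiv.swap_apply_right, List.getD_append_right _ _ _ _ (by omega),
        List.getD_append_right _ _ _ _ (by omega)]
      simp
    · rw [Equiv.swap_apply_of_ne_of_ne (by omega) (by omega),
        List.getD_append_right _ _ _ _ (by omega), List.getD_append_right _ _ _ _ (by omega)]
      obtain ⟨k, hk⟩ : ∃ k, i - P.length = k + 2 := ⟨i - P.length - 2, by omega⟩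
      rw [hk]
      simp

lemma coeff_perm {R : Type*} [CommRing R] {N : ℕ} {W : MvPolynomial ℕ R} {L L' : List ℕ}
    (h : L.Perm L') : ∀ P : List ℕ, BSym P.length N W → P.length + L.length ≤ N →
      coeff (ex (P ++ L)) W = coeff (ex (P ++ L')) W := by
  induction h with
  | nil => intro P _ _; rfl
  | cons x h ih =>
    intro P hW hN
    rw [List.length_cons] at hN
    have := ih (P ++ [x]) (fun i j hi hiN hj hjN => hW i j (by
        rw [List.length_append, List.length_singleton] at hi; omega) hiN (by
        rw [List.length_append, List.length_singleton] at hj; omega) hjN)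
      (by rw [List.length_append, List.length_singleton]; omega)
    simpa using this
  | swap x y l =>
    intro P hW hN
    rw [List.length_cons, List.length_cons] at hN
    have h1 := hW P.length (P.length + 1) le_rfl (by omega) (by omega) (by omega)
    conv_lhs => rw [← h1]
    rw [coeff_sw, pm_swap_ex]
  | trans h1 h2 ih1 ih2 =>
    intro P hW hN
    rw [ih1 P hW hN, ih2 P hW (by rw [← h1.length_eq]; exact hN)]

/-! ### Truncated sums of lists -/

lemma sumD (f : ℕ → ℕ) (hf : f 0 = 0) (L : List ℕ) : ∀ K, L.length ≤ K →
    ∑ i ∈ range K, f (L.getD i 0) = (L.map f).sum := by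
  induction L with
  | nil =>
    intro K _
    rw [List.map_nil, List.sum_nil]
    apply sum_eq_zero
    intro i _
    rw [List.getD_nil, hf]
  | cons x L ih =>
    intro K hK
    obtain ⟨K, rfl⟩ : ∃ K', K = K' + 1 := ⟨K - 1, by rw [List.length_cons] at hK; omega⟩
    rw [List.length_cons] at hK
    rw [sum_range_succ', List.map_cons, List.sum_cons, add_comm]
    congr 1
    have := ih K (by omega)
    rw [← this]
    apply sum_congr rfl
    intro i _
    rw [List.getD_cons_succ]

lemma hts_zero_ex {N : ℕ} (L : List ℕ) (hL : L.length ≤ N) (t : ℕ) :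
    hts N 0 t (ex L) = (L.map (· - t)).sum := by
  unfold hts
  rw [← sumD (· - t) (Nat.zero_sub t) L N hL]
  apply sum_congr rfl
  intro i _
  rw [if_neg (by omega), add_zero, ex_apply]

lemma hts_len_ex {N : ℕ} (P L : List ℕ) (hL : P.length + L.length ≤ N) (t : ℕ) :
    hts N P.length t (ex (P ++ L)) = (P.map (· + 1 - t)).sum + (L.map (· - t)).sum := by
  unfold hts
  rw [← Finset.sum_range_add_sum_Ico _ (show P.length ≤ N by omega)]
  congr 1
  · have : ∀ i ∈ range P.length, (ex (P ++ L) i + (if i < P.length then 1 else 0) - t) =
        P.getD i 0 + 1 - t := by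
      intro i hi
      rw [mem_range] at hi
      rw [if_pos hi, ex_apply, List.getD_append _ _ _ _ hi]
    rw [sum_congr rfl this]
    clear this hL
    induction P with
    | nil => rfl
    | cons x P ih =>
      rw [List.length_cons, sum_range_succ', List.map_cons, List.sum_cons, add_comm]
      congr 1
  · rw [Finset.sum_Ico_eq_sum_range, ← sumD (· - t) (Nat.zero_sub t) L (N - P.length) (by omega)]
    apply sum_congr rfl
    intro i _
    rw [if_neg (by omega), add_zero, ex_apply, List.getD_append_right _ _ _ _ (by omega),
      Nat.add_sub_cancel_left]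

lemma domList_of {a b : List ℕ} (hb : b.Pairwise (· ≥ ·))
    (h : ∀ t, (a.map (· - t)).sum ≤ (b.map (· - t)).sum) : domList a b := by
  intro k
  have key1 : ∀ (l : List ℕ) (t : ℕ), l.sum ≤ l.length * t + (l.map (· - t)).sum := by
    intro l t
    induction l with
    | nil => simp
    | cons x l ih =>
      rw [List.sum_cons, List.length_cons, List.map_cons, List.sum_cons, Nat.succ_mul]
      omega
  have key2 : ∀ (l : List ℕ) (t : ℕ), (∀ x ∈ l, t ≤ x) →
      l.sum = l.length * t + (l.map (· - t)).sum := by
    intro l t
    induction l with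
    | nil => intro _; simp
    | cons x l ih =>
      intro hl
      have h1 := hl x List.mem_cons_self
      have h2 := ih (fun y hy => hl y (List.mem_cons_of_mem _ hy))
      rw [List.sum_cons, List.length_cons, List.map_cons, List.sum_cons, Nat.succ_mul]
      omega
  have key3 : ∀ (l : List ℕ) (t : ℕ), ((l.take k).map (· - t)).sum ≤ (l.map (· - t)).sum := by
    intro l t
    conv_rhs => rw [← List.take_append_drop k l, List.map_append, List.sum_append]
    omega
  have h0 : ∀ l : List ℕ, (l.map (· - 0)) = l := by
    intro l
    simp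
  by_cases hk : k < b.length
  · set t := b[k] with ht
    have h1 : ∀ x ∈ b.take k, t ≤ x := by
      intro x hx
      rw [List.mem_take_iff_getElem] at hx
      obtain ⟨j, hj, rfl⟩ := hx
      exact List.pairwise_iff_getElem.mp hb j k (by omega) hk (by omega)
    have h2 := key2 _ t h1
    have h3 : ((b.take k).map (· - t)).sum = (b.map (· - t)).sum := by
      conv_rhs => rw [← List.take_append_drop k b, List.map_append, List.sum_append]
      have : ((b.drop k).map (· - t)).sum = 0 := by
        rw [List.sum_eq_zero_iff]
        intro x hx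
        rw [List.mem_map] at hx
        obtain ⟨y, hy, rfl⟩ := hx
        rw [List.mem_drop_iff_getElem] at hy
        obtain ⟨j, hj, rfl⟩ := hy
        have : b[k + j] ≤ t := by
          rcases Nat.eq_zero_or_pos j with h4 | h4
          · subst h4; exact le_rfl
          · exact List.pairwise_iff_getElem.mp hb k (k + j) hk (by omega) (by omega)
        omega
      omega
    have h4 := key1 (a.take k) t
    have h5 := key3 a t
    have h6 := h t
    have h7 : (b.take k).length = k := by rw [List.length_take]; omega
    have h8 : (a.take k).length ≤ k := by rw [List.length_take]; omega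
    have h9 : (a.take k).length * t ≤ k * t := Nat.mul_le_mul_right t h8
    rw [h7] at h2
    omega
  · rw [List.take_of_length_le (show b.length ≤ k by omega)]
    have h1 := h 0
    rw [h0, h0] at h1
    refine le_trans ?_ h1
    conv_rhs => rw [← List.take_append_drop k a, List.sum_append]
    omega

lemma sum_map_dec (f : ℕ → ℕ) (s : Multiset ℕ) : ((dec s).map f).sum = (s.map f).sum := by
  conv_rhs => rw [← dec_coe s, Multiset.map_coe, Multiset.sum_coe]

variable {n m : ℕ}

/-- Exponents with arbitrary order of the bosonic parts. -/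
lemma Dom_of_Le {N : ℕ} {Ω Λ : SuperPartition n m} {L L' : List ℕ}
    (hL : (L : Multiset ℕ) = Ω.bos) (hL' : (L' : Multiset ℕ) = Λ.bos)
    (hN : m + L.length ≤ N) (hN' : m + L'.length ≤ N)
    (h : Le N (fun k => k = 0 ∨ k = m) (ex (dec Λ.fer.val ++ L')) (ex (dec Ω.fer.val ++ L))) :
    Dom Ω Λ := by
  have hlen : ∀ Γ : SuperPartition n m, (dec Γ.fer.val).length = m := by
    intro Γ; rw [dec_length]; exact Γ.card_fer
  have e1 : ∀ (Γ : SuperPartition n m) (l : List ℕ), (l : Multiset ℕ) = Γ.bos → ∀ f : ℕ → ℕ,
      (l.map f).sum = (Γ.bos.map f).sum := by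
    intro Γ l hl f
    rw [← hl, Multiset.map_coe, Multiset.sum_coe]
  constructor
  · apply domList_of (dec_sorted _)
    intro t
    have h1 := h.sd 0 (Or.inl rfl) t
    rw [hts_zero_ex _ (by rw [List.length_append, hlen]; exact hN) t,
      hts_zero_ex _ (by rw [List.length_append, hlen]; exact hN') t, List.map_append,
      List.map_append, List.sum_append, List.sum_append, sum_map_dec, sum_map_dec, e1 Ω L hL,
      e1 Λ L' hL'] at h1
    unfold JackSuper.SuperPartition.star
    rw [sum_map_dec, sum_map_dec, Multiset.map_add, Multiset.map_add, Multiset.sum_add,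
      Multiset.sum_add]
    exact h1
  · apply domList_of (dec_sorted _)
    intro t
    have h1 := h.sd m (Or.inr rfl) t
    have h2 := hts_len_ex (N := N) (dec Ω.fer.val) L (by rw [hlen]; exact hN) t
    have h3 := hts_len_ex (N := N) (dec Λ.fer.val) L' (by rw [hlen]; exact hN') t
    rw [hlen] at h2 h3
    rw [h2, h3, sum_map_dec, sum_map_dec, e1 Ω L hL, e1 Λ L' hL'] at h1
    unfold JackSuper.SuperPartition.circ
    rw [sum_map_dec, sum_map_dec, Multiset.map_add, Multiset.map_add, Multiset.sum_add,
      Multiset.sum_add, Multiset.map_map, Multiset.map_map]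
    exact h1

lemma getD_eq_of_dom {a b : List ℕ} (h1 : domList a b) (h2 : domList b a) (i : ℕ) :
    a.getD i 0 = b.getD i 0 := by
  have h3 : ∀ k, (a.take k).sum = (b.take k).sum := fun k => le_antisymm (h1 k) (h2 k)
  have h4 : ∀ l : List ℕ, (l.take (i + 1)).sum = (l.take i).sum + l.getD i 0 := by
    intro l
    rw [List.take_add_one, List.sum_append, List.getD_eq_getElem?_getD]
    congr 1
    cases l[i]? <;> simp
  have h5 := h3 (i + 1)
  rw [h4, h4, h3 i] at h5
  omega

lemma count_eq_of_dom {s s' : Multiset ℕ} (h1 : domList (dec s) (dec s'))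
    (h2 : domList (dec s') (dec s)) {j : ℕ} (hj : 1 ≤ j) : s.count j = s'.count j := by
  have h3 := getD_eq_of_dom h1 h2
  have h4 : ∀ u : Multiset ℕ, u.count j = ((dec u).map (fun x => if x = j then 1 else 0)).sum := by
    intro u
    rw [sum_map_dec]
    induction u using Multiset.induction_on with
    | empty => simp
    | cons a u ih =>
      rw [Multiset.count_cons, Multiset.map_cons, Multiset.sum_cons, ih, add_comm]
      congr 1
      simp only [eq_comm]
  have h0 : (fun x => if x = j then 1 else 0) 0 = 0 := by
    show (if 0 = j then 1 else 0) = 0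
    rw [if_neg (by omega)]
  rw [h4, h4, ← sumD (fun x => if x = j then 1 else 0) h0 (dec s)
      (max (dec s).length (dec s').length) (le_max_left _ _),
    ← sumD (fun x => if x = j then 1 else 0) h0 (dec s')
      (max (dec s).length (dec s').length) (le_max_right _ _)]
  apply sum_congr rfl
  intro i _
  rw [h3 i]

/-- The dominance order is antisymmetric. -/
theorem Dom_antisymm {Λ Ω : SuperPartition n m} (h1 : Dom Λ Ω) (h2 : Dom Ω Λ) : Λ = Ω := by
  have hs : ∀ j, 1 ≤ j → Λ.fer.val.count j + Λ.bos.count j = Ω.fer.val.count j + Ω.bos.count j := by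
    intro j hj
    have := count_eq_of_dom h1.1 h2.1 hj
    rwa [Multiset.count_add, Multiset.count_add] at this
  have hc : ∀ j, Λ.fer.val.count j + Λ.bos.count (j + 1) =
      Ω.fer.val.count j + Ω.bos.count (j + 1) := by
    intro j
    have := count_eq_of_dom h1.2 h2.2 (show 1 ≤ j + 1 by omega)
    rwa [Multiset.count_add, Multiset.count_add,
      Multiset.count_map_eq_count' _ _ (fun a b h => Nat.succ_injective h),
      Multiset.count_map_eq_count' _ _ (fun a b h => Nat.succ_injective h)] at this
  have hbig : ∃ M, ∀ j, M ≤ j → Λ.fer.val.count j = 0 ∧ Ω.fer.val.count j = 0 := by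
    refine ⟨(Λ.fer ∪ Ω.fer).sup id + 1, ?_⟩
    intro j hj
    constructor
    · rw [Multiset.count_eq_zero]
      intro h
      have := Finset.le_sup (f := id) (mem_union_left Ω.fer (show j ∈ Λ.fer from h))
      simp only [id] at this
      omega
    · rw [Multiset.count_eq_zero]
      intro h
      have := Finset.le_sup (f := id) (mem_union_right Λ.fer (show j ∈ Ω.fer from h))
      simp only [id] at this
      omega
  obtain ⟨M, hM⟩ := hbig
  have hf : ∀ k j, M ≤ j + k → Λ.fer.val.count j = Ω.fer.val.count j := by
    intro k
    induction k with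
    | zero => intro j hj; rw [(hM j (by omega)).1, (hM j (by omega)).2]
    | succ k ih =>
      intro j hj
      have h3 := ih (j + 1) (by omega)
      have h4 := hs (j + 1) (by omega)
      have h5 := hc j
      omega
  have hf' : Λ.fer = Ω.fer := by
    apply Finset.val_injective
    ext j
    exact hf M j (by omega)
  have hb' : Λ.bos = Ω.bos := by
    ext j
    rcases Nat.eq_zero_or_pos j with h | h
    · subst h
      rw [Multiset.count_eq_zero.mpr (fun h => absurd (Λ.bos_pos 0 h) (lt_irrefl 0)),
        Multiset.count_eq_zero.mpr (fun h => absurd (Ω.bos_pos 0 h) (lt_irrefl 0))]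
    · have := hs j h
      rw [hf'] at this
      omega
  exact SuperPartition.ext hf' hb'

end

end Pool.Agent.Helper61.Jack
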