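import Pool.Agent.Helper61.Jack.B6

/-!
# Antisymmetric polynomials
-/

set_option autoImplicit false

open MvPolynomial Finset

namespace Pool.Agent.Helper61.Jack

noncomputable section

variable {R : Type*} [CommRing R]

/-- Strictly decreasing on `[0, m)` and zero outside. -/
def Dec (m : ℕ) (d : ℕ →₀ ℕ) : Prop := (∀ i j, i < j → j < m → d j < d i)

lemma Dec_unique {m : ℕ} {T T' : ℕ →₀ ℕ} (hT : Dec m T) (hT' : Dec m T')
    (hG : ∀ G : ℕ → ℕ, ∑ k ∈ range m, G (T' k) = ∑ k ∈ range m, G (T k)) :
    ∀ i, i < m → T' i = T i := by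
  have key : ∀ (S S' : ℕ →₀ ℕ), Dec m S → Dec m S' →
      (∀ G : ℕ → ℕ, ∑ k ∈ range m, G (S' k) = ∑ k ∈ range m, G (S k)) →
      ∀ i, i < m → (∀ j, j < i → S' j = S j) → ¬ S' i < S i := by
    intro S S' hS hS' hG i hi hj hlt
    have h1 := hG (fun x => if S i ≤ x then 1 else 0)
    have h2 : ∀ f : ℕ → ℕ, ∑ k ∈ range m, f k = ∑ k ∈ range i, f k + ∑ k ∈ Ico i m, f k :=
      fun f => (Finset.sum_range_add_sum_Ico f hi.le).symm
    rw [h2, h2] at h1
    have h3 : ∑ k ∈ range i, (if S i ≤ S' k then 1 else 0) =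
        ∑ k ∈ range i, (if S i ≤ S k then 1 else 0) := by
      apply sum_congr rfl
      intro k hk
      rw [mem_range] at hk
      rw [hj k hk]
    have h4 : ∑ k ∈ Ico i m, (if S i ≤ S' k then 1 else 0) = 0 := by
      apply sum_eq_zero
      intro k hk
      rw [mem_Ico] at hk
      rw [if_neg]
      rcases Nat.lt_or_ge i k with h | h
      · have := hS' i k h hk.2
        omega
      · have : k = i := by omega
        rw [this]; omega
    rw [h3, h4] at h1
    have h5 : ∑ k ∈ Ico i m, (if S i ≤ S k then 1 else 0) = 0 := by omega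
    have h6 := (Finset.sum_eq_zero_iff.mp h5) i (mem_Ico.mpr ⟨le_rfl, hi⟩)
    rw [if_pos le_rfl] at h6
    omega
  intro i
  induction i using Nat.strong_induction_on with
  | _ i ih =>
  intro hi
  have h1 := key T T' hT hT' hG i hi (fun j hj => ih j hj (by omega))
  have h2 := key T' T hT' hT (fun G => (hG G).symm) i hi (fun j hj => (ih j hj (by omega)).symm)
  omega

lemma coeff_Nn (q r : ℕ) (f : MvPolynomial ℕ R) (d : ℕ →₀ ℕ) :
    coeff d (Nn q r f) = coeff d f - ∑ i ∈ Ico q (q + r), coeff (pm (Equiv.swap i (q + r)) d) f := by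
  rw [Nn_apply, coeff_sub, coeff_sum]
  congr 1
  apply sum_congr rfl
  intro i _
  rw [coeff_sw]

/-- The support of an antisymmetrised monomial. -/
lemma coeff_Asym_ne (T : ℕ →₀ ℕ) : ∀ (r : ℕ) (d : ℕ →₀ ℕ),
    coeff d (Asym 0 r (monomial T (1 : R))) ≠ 0 →
      (∀ k, r ≤ k → d k = T k) ∧
        (∀ G : ℕ → ℕ, ∑ k ∈ range r, G (d k) = ∑ k ∈ range r, G (T k)) := by
  classical
  intro r
  induction r with
  | zero =>
    intro d hd
    rw [Asym_zero, coeff_monomial] at hd
    have : T = d := by
      by_contra h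
      rw [if_neg h] at hd
      exact hd rfl
    subst this
    exact ⟨fun _ _ => rfl, fun _ => rfl⟩
  | succ r ih =>
    intro d hd
    rw [Asym_succ, coeff_Nn, zero_add] at hd
    by_cases h : coeff d (Asym 0 r (monomial T (1 : R))) = 0
    · rw [h, zero_sub, neg_ne_zero] at hd
      obtain ⟨i, hi, hne⟩ := Finset.exists_ne_zero_of_sum_ne_zero hd
      rw [mem_Ico] at hi
      obtain ⟨h1, h2⟩ := ih _ hne
      constructor
      · intro k hk
        rw [← h1 k (by omega), pm_swap_apply, Equiv.swap_apply_of_ne_of_ne (by omega) (by omega)]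
      · intro G
        have h3 : ∑ k ∈ range (r + 1), G (d k) =
            ∑ k ∈ range (r + 1), G (pm (Equiv.swap i r) d k) := by
          rw [hts_perm (N := r + 1) (σ := Equiv.swap i r)
            (swap_lt (i := i) (j := r) (by omega) (by omega)) (fun k => G (d k))]
          apply sum_congr rfl
          intro k _
          rw [pm_swap_apply]
        rw [h3, sum_range_succ, sum_range_succ, h2 G, h1 r le_rfl]
    · obtain ⟨h1, h2⟩ := ih d h
      constructor
      · intro k hk; exact h1 k (by omega)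
      · intro G
        rw [sum_range_succ, sum_range_succ, h2 G, h1 r le_rfl]

lemma coeff_Asym_self {m : ℕ} {T : ℕ →₀ ℕ} (hT : Dec m T) : ∀ r, r ≤ m →
    coeff T (Asym 0 r (monomial T (1 : R))) = 1 := by
  classical
  intro r
  induction r with
  | zero => intro _; rw [Asym_zero, coeff_monomial, if_pos rfl]
  | succ r ih =>
    intro hr
    rw [Asym_succ, coeff_Nn, ih (by omega), zero_add]
    have : ∑ i ∈ Ico 0 r, coeff (pm (Equiv.swap i r) T) (Asym 0 r (monomial T (1 : R))) = 0 := by
      apply sum_eq_zero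
      intro i hi
      rw [mem_Ico] at hi
      by_contra hne
      have h1 := (coeff_Asym_ne T r _ hne).1 r le_rfl
      rw [pm_swap_apply, Equiv.swap_apply_right] at h1
      have := hT i r hi.2 (by omega)
      omega
    rw [this, sub_zero]

lemma coeff_Asym_dec {m : ℕ} {T T' : ℕ →₀ ℕ} (hT : Dec m T) (hT' : Dec m T') :
    coeff T' (Asym 0 m (monomial T (1 : R))) = if T' = T then 1 else 0 := by
  by_cases h : T' = T
  · rw [if_pos h, h, coeff_Asym_self hT m le_rfl]
  · rw [if_neg h]
    by_contra hne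
    obtain ⟨h1, h2⟩ := coeff_Asym_ne T m T' hne
    apply h
    ext i
    by_cases hi : i < m
    · exact Dec_unique hT hT' h2 i hi
    · exact h1 i (by omega)

/-- An antisymmetric polynomial without decreasing exponents is zero. -/
lemma antisym_zero [IsDomain R] [CharZero R] {m : ℕ} {h : MvPolynomial ℕ R}
    (hanti : ∀ i j, i < m → j < m → i ≠ j → sw i j h = -h)
    (hdec : ∀ d, Dec m d → coeff d h = 0) : h = 0 := by
  have key : ∀ (s : ℕ) (d : ℕ →₀ ℕ), ∑ k ∈ range m, k * d k = s → coeff d h = 0 := by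
    intro s
    induction s using Nat.strong_induction_on with
    | _ s ih =>
    intro d hd
    by_cases hD : Dec m d
    · exact hdec d hD
    · unfold Dec at hD
      push Not at hD
      obtain ⟨i, j, hij, hj, hle⟩ := hD
      have h1 := congrArg (coeff d) (hanti i j (by omega) hj (by omega))
      rw [coeff_sw, coeff_neg] at h1
      rcases Nat.lt_or_ge (d i) (d j) with hlt | hge
      · have h2 := gsum_pair (N := m) (i := i) (j := j) (by omega) hj (by omega)
          (d := pm (Equiv.swap i j) d) (e := d)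
          (by intro l h1 h2; rw [pm_swap_apply, Equiv.swap_apply_of_ne_of_ne h1 h2])
          (fun k x => k * x)
        rw [pm_swap_apply, pm_swap_apply, Equiv.swap_apply_left, Equiv.swap_apply_right] at h2
        have h3 : i * d j + j * d i < i * d i + j * d j := by
          obtain ⟨a, ha⟩ : ∃ a, d j = d i + a := ⟨d j - d i, by omega⟩
          obtain ⟨b, hb⟩ : ∃ b, j = i + b := ⟨j - i, by omega⟩
          have ha0 : 0 < a := by omega
          have hb0 : 0 < b := by omega
          rw [ha, hb]
          nlinarith [Nat.mul_pos ha0 hb0]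
        have h4 := ih (∑ k ∈ range m, k * pm (Equiv.swap i j) d k) (by omega) _ rfl
        rw [h4] at h1
        exact neg_eq_zero.mp h1.symm
      · have he : d i = d j := by omega
        rw [pm_swap_eq_self he] at h1
        exact self_eq_neg.mp h1
  ext d
  rw [key _ d rfl, coeff_zero]

/-- Adjointness of the antisymmetrisation on antisymmetric polynomials. -/
lemma ip_Asym {m : ℕ} (f g : MvPolynomial ℕ R)
    (hanti : ∀ i j, i < m → j < m → i ≠ j → sw i j g = -g) : ∀ r, r ≤ m →
    ip (Asym 0 r f) g = (Nat.factorial r : R) * ip f g := by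
  intro r
  induction r with
  | zero => intro _; simp
  | succ r ih =>
    intro hr
    rw [Asym_succ, Nn_apply, map_sub, map_sum, LinearMap.sub_apply, LinearMap.sum_apply,
      ih (by omega)]
    have : ∀ i ∈ Ico 0 (0 + r), ip (sw i (0 + r) (Asym 0 r f)) g = -ip (Asym 0 r f) g := by
      intro i hi
      rw [mem_Ico] at hi
      rw [ip_sw, hanti i (0 + r) (by omega) (by omega) (by omega), map_neg]
    rw [sum_congr rfl this, sum_const, ih (by omega), Nat.card_Ico, Nat.factorial_succ,
      ← Nat.cast_smul_eq_nsmul R]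
    simp only [zero_add, Nat.sub_zero, smul_eq_mul]
    push_cast
    ring

lemma ip_Asym_Asym {m : ℕ} {T T' : ℕ →₀ ℕ} (hT : Dec m T) (hT' : Dec m T') :
    ip (Asym 0 m (monomial T (1 : R))) (Asym 0 m (monomial T' (1 : R))) =
      if T = T' then (Nat.factorial m : R) else 0 := by
  rw [ip_Asym (m := m) _ _ (fun i j hi hj hij => sw_Asym 0 m i j (Nat.zero_le _) (by omega)
    (Nat.zero_le _) (by omega) hij _) m le_rfl, ip_monomial_left, coeff_Asym_dec hT' hT]
  split_ifs <;> simp

/-! ### The determinant -/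

/-- The exponent of the term `σ` of the determinant. -/
def exdet (m : ℕ) (L : List ℕ) (σ : Equiv.Perm (Fin m)) : ℕ →₀ ℕ :=
  ∑ i : Fin m, Finsupp.single ((σ i : Fin m) : ℕ) (L.getD i 0)

lemma exdet_apply {m : ℕ} (L : List ℕ) (σ : Equiv.Perm (Fin m)) (i : Fin m) :
    exdet m L σ ((σ i : Fin m) : ℕ) = L.getD i 0 := by
  unfold exdet
  rw [Finsupp.finsetSum_apply, Finset.sum_eq_single i]
  · rw [Finsupp.single_eq_same]
  · intro j _ hj
    rw [Finsupp.single_eq_of_ne]
    intro h
    apply hj
    exact (σ.injective (Fin.val_injective h)).symm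
  · intro h; exact absurd (mem_univ i) h

lemma exdet_out {m : ℕ} (L : List ℕ) (σ : Equiv.Perm (Fin m)) {k : ℕ} (hk : m ≤ k) :
    exdet m L σ k = 0 := by
  unfold exdet
  rw [Finsupp.finsetSum_apply]
  apply sum_eq_zero
  intro i _
  rw [Finsupp.single_eq_of_ne]
  have := (σ i).2
  omega

lemma exdet_one {m : ℕ} (L : List ℕ) (hL : L.length = m) : exdet m L 1 = ex L := by
  ext k
  by_cases hk : k < m
  · have := exdet_apply L (1 : Equiv.Perm (Fin m)) ⟨k, hk⟩
    simpa [ex_apply] using this
  · rw [exdet_out L 1 (by omega), ex_out L k (by omega)]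

/-- The determinant. -/
def dt (R : Type*) [CommRing R] (m : ℕ) (L : List ℕ) : MvPolynomial ℕ R :=
  Matrix.det (Matrix.of fun i j : Fin m => (X (i : ℕ) : MvPolynomial ℕ R) ^ (L.getD j 0))

lemma dt_eq_sum (m : ℕ) (L : List ℕ) : dt R m L =
    ∑ σ : Equiv.Perm (Fin m), (Equiv.Perm.sign σ : ℤ) • monomial (exdet m L σ) (1 : R) := by
  unfold dt
  rw [Matrix.det_apply]
  apply sum_congr rfl
  intro σ _
  have : (∏ i : Fin m, (Matrix.of fun i j : Fin m => (X (i : ℕ) : MvPolynomial ℕ R) ^
      (L.getD j 0)) (σ i) i) = monomial (exdet m L σ) (1 : R) := by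
    simp only [Matrix.of_apply, X_pow_eq_monomial]
    unfold exdet
    rw [monomial_sum_one]
  rw [this]
  rfl

lemma coeff_dt_dec {m : ℕ} {L : List ℕ} (hL : L.length = m) (hLs : L.Pairwise (· > ·))
    {d : ℕ →₀ ℕ} (hd : Dec m d) : coeff d (dt R m L) = if d = ex L then 1 else 0 := by
  classical
  rw [dt_eq_sum, coeff_sum]
  have h1 : ∀ σ : Equiv.Perm (Fin m), exdet m L σ = d → σ = 1 := by
    intro σ h
    have hmono : StrictMono σ := by
      intro i j hij
      by_contra hle
      have h2 := exdet_apply L σ i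
      have h3 := exdet_apply L σ j
      rw [h] at h2 h3
      have h4 : L.getD j 0 < L.getD i 0 := dec_lt hLs hij (by have := j.2; omega)
      have h5 : (σ j : ℕ) < (σ i : ℕ) := by
        have h6 : σ j ≠ σ i := fun h6 => (ne_of_gt hij) (σ.injective h6)
        have h7 : (σ j : ℕ) ≠ (σ i : ℕ) := fun h7 => h6 (Fin.ext h7)
        have h8 : (σ j : ℕ) ≤ (σ i : ℕ) := by
          have := not_lt.mp hle
          exact this
        omega
      have h9 := hd (σ j) (σ i) h5 (σ i).2
      omega
    have h2 : (σ : Fin m → Fin m) = id := by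
      have := hmono.id_le
      have h3 : StrictMono (σ.symm : Fin m → Fin m) := by
        intro i j hij
        by_contra hle
        have hle' := not_lt.mp hle
        have := hmono.monotone hle'
        rw [Equiv.apply_symm_apply, Equiv.apply_symm_apply] at this
        exact absurd hij (not_lt.mpr this)
      have h4 := h3.id_le
      funext i
      apply le_antisymm
      · have h5 := h4 (σ i)
        rw [Equiv.symm_apply_apply] at h5
        exact h5
      · exact this i
    ext i
    rw [h2]
    rfl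
  by_cases hde : d = ex L
  · rw [if_pos hde, Finset.sum_eq_single 1]
    · rw [coeff_smul, coeff_monomial, exdet_one L hL, if_pos hde.symm]
      simp
    · intro σ _ hσ
      rw [coeff_smul, coeff_monomial, if_neg (fun h => hσ (h1 σ h)), smul_zero]
    · intro h; exact absurd (mem_univ _) h
  · rw [if_neg hde]
    apply sum_eq_zero
    intro σ _
    rw [coeff_smul, coeff_monomial, if_neg, smul_zero]
    intro h
    have := h1 σ h
    rw [this, exdet_one L hL] at h
    exact hde h.symm

lemma sw_dt {m : ℕ} (L : List ℕ) {i j : ℕ} (hi : i < m) (hj : j < m) (hij : i ≠ j) :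
    sw i j (dt R m L) = -dt R m L := by
  unfold dt
  rw [AlgHom.map_det]
  have h1 : (sw i j : MvPolynomial ℕ R →ₐ[R] MvPolynomial ℕ R).mapMatrix
      (Matrix.of fun i j : Fin m => (X (i : ℕ) : MvPolynomial ℕ R) ^ (L.getD j 0)) =
      (Matrix.of fun i j : Fin m => (X (i : ℕ) : MvPolynomial ℕ R) ^ (L.getD j 0)).submatrix
        (Equiv.swap (⟨i, hi⟩ : Fin m) ⟨j, hj⟩) id := by
    ext1 a b
    rw [AlgHom.mapMatrix_apply, Matrix.map_apply, Matrix.submatrix_apply, Matrix.of_apply,
      Matrix.of_apply, map_pow, rename_X]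
    have : Equiv.swap i j (a : ℕ) = ((Equiv.swap (⟨i, hi⟩ : Fin m) ⟨j, hj⟩ a : Fin m) : ℕ) := by
      rw [Equiv.swap_apply_def, Equiv.swap_apply_def]
      by_cases h1 : a = ⟨i, hi⟩
      · subst h1; simp
      · have h1' : (a : ℕ) ≠ i := fun h => h1 (Fin.ext h)
        rw [if_neg h1, if_neg h1']
        by_cases h2 : a = ⟨j, hj⟩
        · subst h2; simp
        · have h2' : (a : ℕ) ≠ j := fun h => h2 (Fin.ext h)
          rw [if_neg h2, if_neg h2']
    rw [this]
    rfl
  rw [h1]
  have h2 := Matrix.det_permute (Equiv.swap (⟨i, hi⟩ : Fin m) ⟨j, hj⟩)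
    (Matrix.of fun i j : Fin m => (X (i : ℕ) : MvPolynomial ℕ R) ^ (L.getD j 0))
  rw [h2, Equiv.Perm.sign_swap (by intro h; exact hij (by simpa using congrArg Fin.val h))]
  simp

lemma dt_eq_Asym [IsDomain R] [CharZero R] {m : ℕ} {L : List ℕ} (hL : L.length = m)
    (hLs : L.Pairwise (· > ·)) : dt R m L = Asym 0 m (monomial (ex L) 1) := by
  have hT : Dec m (ex L) := by
    intro i j hij hj
    rw [ex_apply, ex_apply]
    exact dec_lt hLs hij (by omega)
  have h := antisym_zero (R := R) (m := m) (h := dt R m L - Asym 0 m (monomial (ex L) 1)) ?_ ?_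
  · exact sub_eq_zero.mp h
  · intro i j hi hj hij
    rw [map_sub, sw_dt L hi hj hij, sw_Asym 0 m i j (Nat.zero_le _) (by omega) (Nat.zero_le _)
      (by omega) hij]
    ring
  · intro d hd
    rw [coeff_sub, coeff_dt_dec hL hLs hd, coeff_Asym_dec hT hd, sub_self]

lemma map_dt {S : Type*} [CommRing S] (φ : R →+* S) (m : ℕ) (L : List ℕ) :
    MvPolynomial.map φ (dt R m L) = dt S m L := by
  unfold dt
  rw [RingHom.map_det]
  congr 1
  ext1 a b
  rw [RingHom.mapMatrix_apply, Matrix.map_apply, Matrix.of_apply, Matrix.of_apply, map_pow,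
    MvPolynomial.map_X]

lemma map_Pw {S : Type*} [CommRing S] (φ : R →+* S) (N k : ℕ) :
    MvPolynomial.map φ (Pw N k : MvPolynomial ℕ R) = Pw N k := by
  unfold Pw
  rw [map_sum]
  apply sum_congr rfl
  intro j _
  rw [map_pow, MvPolynomial.map_X]

/-! ### Independence of the number of variables -/

/-- Kill the variables `x_k`, `k ≥ M`. -/
def kil (R : Type*) [CommRing R] (M : ℕ) : MvPolynomial ℕ R →ₐ[R] MvPolynomial ℕ R :=
  aeval (fun k => if k < M then X k else 0)

lemma kil_X (M k : ℕ) : kil R M (X k) = if k < M then X k else 0 := by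
  unfold kil; rw [aeval_X]

lemma coeff_kil {M : ℕ} {e : ℕ →₀ ℕ} (he : ∀ k, M ≤ k → e k = 0) (f : MvPolynomial ℕ R) :
    coeff e (kil R M f) = coeff e f := by
  classical
  have h : (lcoeff R e).comp (kil R M).toLinearMap = lcoeff R e := by
    apply linMap_ext
    intro ν
    rw [LinearMap.comp_apply, AlgHom.toLinearMap_apply]
    show coeff e (kil R M (monomial ν 1)) = coeff e (monomial ν 1)
    have h1 : kil R M (monomial ν (1 : R)) = ν.prod (fun k a => (kil R M (X k)) ^ a) := by
      rw [monomial_eq, map_mul, Finsupp.prod, map_prod]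
      simp only [map_pow]
      unfold kil
      rw [aeval_C, map_one, one_mul]
      rfl
    by_cases hν : ∀ k, M ≤ k → ν k = 0
    · have h2 : kil R M (monomial ν (1 : R)) = monomial ν 1 := by
        rw [h1, monomial_eq, C_1, one_mul]
        apply Finsupp.prod_congr
        intro k hk
        rw [kil_X, if_pos]
        by_contra hkM
        exact (Finsupp.mem_support_iff.mp hk) (hν k (by omega))
      rw [h2]
    · push Not at hν
      obtain ⟨k, hk, hne⟩ := hν
      have h2 : kil R M (monomial ν (1 : R)) = 0 := by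
        rw [h1]
        apply Finset.prod_eq_zero (Finsupp.mem_support_iff.mpr hne)
        show (kil R M (X k)) ^ (ν k) = 0
        rw [kil_X, if_neg (by omega), zero_pow hne]
      rw [h2, coeff_zero, coeff_monomial, if_neg]
      intro h3
      rw [h3] at hne
      exact hne (he k hk)
  exact LinearMap.congr_fun h f

lemma kil_Pw {M N k : ℕ} (hMN : M ≤ N) (hk : 0 < k) : kil R M (Pw N k) = Pw M k := by
  unfold Pw
  rw [map_sum, ← Finset.sum_range_add_sum_Ico _ hMN]
  have h1 : ∀ j ∈ range M, kil R M (X j ^ k) = X j ^ k := by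
    intro j hj
    rw [mem_range] at hj
    rw [map_pow, kil_X, if_pos hj]
  have h2 : ∀ j ∈ Ico M N, kil R M (X j ^ k) = 0 := by
    intro j hj
    rw [mem_Ico] at hj
    rw [map_pow, kil_X, if_neg (by omega), zero_pow hk.ne']
  rw [sum_congr rfl h1, sum_congr rfl h2, sum_const_zero, add_zero]

lemma kil_dt {m M : ℕ} (hm : m ≤ M) (L : List ℕ) : kil R M (dt R m L) = dt R m L := by
  unfold dt
  rw [AlgHom.map_det]
  congr 1
  ext1 a b
  rw [AlgHom.mapMatrix_apply, Matrix.map_apply, Matrix.of_apply, map_pow, kil_X,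
    if_pos (by have := a.2; omega)]

end

end Pool.Agent.Helper61.Jack
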