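import Pool.Agent.Helper61.Jack.B2
import Pool.Agent.Helper61.Jack.C3
import Pool.Agent.Helper72.Jack.Cm

/-!
# Expansion of the antisymmetric vectors
-/

set_option autoImplicit false

open MvPolynomial Finset

namespace Pool.Agent.Helper61.Jack

open JackSuper JackSuper.SuperPartition

noncomputable section

variable {R : Type*} [CommRing R]

lemma lift_apply (T : MvPolynomial ℕ R →ₗ[R] MvPolynomial ℕ R) (f : FV R) (μ : ℕ →₀ ℕ) :
    lift T f μ = T (f μ) := by
  unfold lift
  rw [Finsupp.mapRange.linearMap_apply, Finsupp.mapRange_apply]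

lemma Asym_mul_psm {N : ℕ} (a : MvPolynomial ℕ R) (μ : ℕ →₀ ℕ) : ∀ r, r ≤ N →
    Asym 0 r (a * psm N μ) = Asym 0 r a * psm N μ := by
  intro r
  induction r with
  | zero => intro _; rw [Asym_zero, Asym_zero]
  | succ r ih =>
    intro hr
    rw [Asym_succ, Asym_succ, ih (by omega), Nn_apply, Nn_apply, sub_mul, sum_mul]
    congr 1
    apply sum_congr rfl
    intro i hi
    rw [mem_Ico] at hi
    rw [map_mul, sw_psm (by omega) (by omega)]

lemma ev_lift_Asym {N m : ℕ} (hm : m ≤ N) (f : FV R) :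
    ev N (lift (Asym 0 m) f) = Asym 0 m (ev N f) :=
  ev_lift (fun a μ => Asym_mul_psm a μ m hm) f

lemma FSup_lift_Asym {N m n : ℕ} (hm : m ≤ N) {f : FV R} (hf : FSup (Good N m n) f) :
    FSup (Good N m n) (lift (Asym 0 m) f) := by
  refine FSup.linear _ ?_ hf
  intro μ ν hg
  unfold bb
  rw [lift_single]
  refine FSup.single ?_
  intro d hd
  obtain ⟨h1, h2⟩ := coeff_Asym_ne ν m d hd
  refine ⟨fun i hi => ?_, ?_, hg.outp⟩
  · rw [h1 i hi]; exact hg.out i hi
  · rw [← hg.deg]
    congr 1
    rw [← Finset.sum_range_add_sum_Ico (fun i => d i) hm,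
      ← Finset.sum_range_add_sum_Ico (fun i => ν i) hm, h2 (fun x => x)]
    congr 1
    apply sum_congr rfl
    intro i hi
    rw [mem_Ico] at hi
    exact h1 i hi.1

lemma Bf_lift_Asym (N : ℕ) (α : R) {m : ℕ} {g : FV R}
    (hg : ∀ μ i j, i < m → j < m → i ≠ j → sw i j (g μ) = -(g μ)) (f : FV R) :
    Bf N α (lift (Asym 0 m) f) g = (Nat.factorial m : R) * Bf N α f g := by
  have h1 : ((Bf N α).flip g).comp (lift (Asym 0 m)) = (Nat.factorial m : R) • (Bf N α).flip g := by
    apply Finsupp.lhom_ext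
    intro μ a
    rw [LinearMap.comp_apply, LinearMap.flip_apply, LinearMap.smul_apply, LinearMap.flip_apply,
      lift_single, Bf_single_left, Bf_single_left, ip_Asym (m := m) a (g μ) (hg μ) m le_rfl,
      smul_eq_mul]
    ring
  exact LinearMap.congr_fun h1 f

lemma anti_lift_Asym {m : ℕ} (f : FV R) (μ : ℕ →₀ ℕ) (i j : ℕ) (hi : i < m) (hj : j < m)
    (hij : i ≠ j) : sw i j (lift (Asym 0 m) f μ) = -(lift (Asym 0 m) f μ) := by
  rw [lift_apply]
  exact sw_Asym 0 m i j (Nat.zero_le _) (by omega) (Nat.zero_le _) (by omega) hij _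

variable {n m : ℕ}

/-- The fermionic exponent. -/
def TT (Γ : SuperPartition n m) : ℕ →₀ ℕ := ex (dec Γ.fer.val)

lemma Dec_TT (Γ : SuperPartition n m) : Dec m (TT Γ) := by
  intro i j hij hj
  unfold TT
  rw [ex_apply, ex_apply]
  exact dec_lt (dec_fer_sorted Γ) hij (by rw [dec_length]; exact lt_of_lt_of_eq hj Γ.card_fer.symm)

lemma bos_le (Γ : SuperPartition n m) : ∀ x ∈ Γ.bos, x ≤ n := by
  intro x hx
  have h1 := Multiset.single_le_sum (fun _ _ => Nat.zero_le _) x hx
  have h2 := Γ.sum_eq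
  omega

lemma sum_pmu (N : ℕ) (μ : ℕ →₀ ℕ) : (pmu N μ).sum = ∑ r ∈ range N, (r + 1) * μ r := by
  unfold pmu
  rw [← Multiset.coe_sumAddMonoidHom, map_sum]
  apply sum_congr rfl
  intro r _
  rw [Multiset.coe_sumAddMonoidHom, Multiset.sum_replicate, smul_eq_mul, mul_comm]

lemma good_TT {N : ℕ} (hN : n + m ≤ N) (Γ : SuperPartition n m) :
    Good N m n (muOf Γ.bos) (TT Γ) := by
  have hlen : (dec Γ.fer.val).length = m := by rw [dec_length]; exact Γ.card_fer
  refine ⟨fun i hi => ?_, ?_, ?_⟩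
  · exact ex_out _ _ (by rw [hlen]; exact hi)
  · rw [← sum_pmu, pmu_muOf Γ.bos_pos (fun x hx => le_trans (bos_le Γ x hx) (by omega))]
    have h1 : ∑ i ∈ range N, TT Γ i = ∑ x ∈ Γ.fer, x := by
      have h2 := sumD (fun x => x) rfl (dec Γ.fer.val) N (by rw [hlen]; omega)
      have h3 : ((dec Γ.fer.val).map (fun x => x)).sum = ∑ x ∈ Γ.fer, x := by
        rw [sum_map_dec]
        rfl
      rw [← h3, ← h2]
      rfl
    rw [h1]
    exact Γ.sum_eq
  · intro r hr
    rw [muOf_apply, Multiset.count_eq_zero]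
    intro h
    have := bos_le Γ _ h
    omega

lemma TT_inj {Γ Γ' : SuperPartition n m} (h1 : muOf Γ.bos = muOf Γ'.bos) (h2 : TT Γ = TT Γ') :
    Γ = Γ' := by
  have hb : Γ.bos = Γ'.bos := by
    rw [← pmu_muOf Γ.bos_pos (bos_le Γ), h1, pmu_muOf Γ'.bos_pos (bos_le Γ')]
  have hlen : ∀ Γ : SuperPartition n m, (dec Γ.fer.val).length = m := by
    intro Γ; rw [dec_length]; exact Γ.card_fer
  have hf : dec Γ.fer.val = dec Γ'.fer.val := by
    apply List.ext_getElem (by rw [hlen, hlen])
    intro i h3 h4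
    have h5 := DFunLike.congr_fun h2 i
    unfold TT at h5
    rw [ex_apply, ex_apply, List.getD_eq_getElem _ _ h3, List.getD_eq_getElem _ _ h4] at h5
    exact h5
  have hf' : Γ.fer = Γ'.fer := by
    apply Finset.val_injective
    rw [← JackSuper.dec_coe Γ.fer.val, hf, JackSuper.dec_coe]
  exact SuperPartition.ext hf' hb

lemma exists_SP {N : ℕ} (hN : m ≤ N) {μ d : ℕ →₀ ℕ} (hg : Good N m n μ d) (hd : Dec m d) :
    ∃ Γ : SuperPartition n m, muOf Γ.bos = μ ∧ TT Γ = d := by
  have hinj : Set.InjOn (fun i => d i) (range m : Set ℕ) := by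
    intro i hi j hj hij
    rw [mem_coe, mem_range] at hi hj
    simp only at hij
    rcases lt_trichotomy i j with h | h | h
    · have := hd i j h hj; omega
    · exact h
    · have := hd j i h hi; omega
  have hsum : ∑ x ∈ (range m).image (fun i => d i), x = ∑ i ∈ range N, d i := by
    rw [sum_image hinj, ← Finset.sum_range_add_sum_Ico (fun i => d i) hN]
    have : ∑ k ∈ Ico m N, d k = 0 := by
      apply sum_eq_zero
      intro k hk
      rw [mem_Ico] at hk
      exact hg.out k hk.1
    rw [this, add_zero]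
  refine ⟨⟨(range m).image (fun i => d i), pmu N μ, ?_, fun x hx => mem_pmu hx, ?_⟩, ?_, ?_⟩
  · rw [card_image_of_injOn hinj, card_range]
  · rw [hsum, sum_pmu]; exact hg.deg
  · exact muOf_pmu hg.outp
  · unfold TT
    have h1 : dec ((range m).image (fun i => d i)).val = (List.range m).map (fun i => d i) := by
      apply dec_eq_of_sorted
      · rw [List.pairwise_map]
        have h2 : (List.range m).Pairwise (fun a b => a < b ∧ b < m) := by
          rw [List.pairwise_iff_getElem]
          intro i j hi hj hij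
          rw [List.getElem_range, List.getElem_range]
          rw [List.length_range] at hj
          exact ⟨hij, hj⟩
        exact h2.imp (fun h => (hd _ _ h.1 h.2).le)
      · rw [Finset.image_val_of_injOn hinj]
        rfl
    show ex (dec ((range m).image (fun i => d i)).val) = d
    rw [h1]
    ext i
    rw [ex_apply]
    by_cases hi : i < m
    · rw [List.getD_eq_getElem _ _ (by rw [List.length_map, List.length_range]; exact hi),
        List.getElem_map, List.getElem_range]
    · rw [List.getD_eq_default _ _ (by rw [List.length_map, List.length_range]; omega),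
        hg.out i (by omega)]

/-- The basis vector of `Γ`. -/
def bv (R : Type*) [CommRing R] (Γ : SuperPartition n m) : FV R :=
  Finsupp.single (muOf Γ.bos) (Asym 0 m (monomial (TT Γ) 1))

/-- Expansion of the antisymmetric vectors. -/
theorem expand [IsDomain R] [CharZero R] {N : ℕ} (hN : n + m ≤ N) {g : FV R}
    (hg : FSup (Good N m n) g)
    (hanti : ∀ μ i j, i < m → j < m → i ≠ j → sw i j (g μ) = -(g μ)) :
    g = ∑ Γ : SuperPartition n m, coeff (TT Γ) (g (muOf Γ.bos)) • bv R Γ := by
  classical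
  apply Finsupp.ext
  intro μ
  rw [← sub_eq_zero]
  apply antisym_zero (m := m)
  · intro i j hi hj hij
    rw [map_sub, hanti μ i j hi hj hij, Finsupp.finsetSum_apply, map_sum]
    have : ∀ Γ ∈ (Finset.univ : Finset (SuperPartition n m)),
        sw i j ((coeff (TT Γ) (g (muOf Γ.bos)) • bv R Γ) μ) =
          -((coeff (TT Γ) (g (muOf Γ.bos)) • bv R Γ) μ) := by
      intro Γ _
      rw [Finsupp.smul_apply, map_smul]
      unfold bv
      rw [Finsupp.single_apply]
      split_ifs with h
      · rw [sw_Asym 0 m i j (Nat.zero_le _) (by omega) (Nat.zero_le _) (by omega) hij, smul_neg]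
      · rw [map_zero, smul_zero, neg_zero]
    rw [sum_congr rfl this, sum_neg_distrib]
    ring
  · intro d hd
    rw [coeff_sub, Finsupp.finsetSum_apply, coeff_sum, sub_eq_zero]
    have h1 : ∀ Γ : SuperPartition n m, coeff d ((coeff (TT Γ) (g (muOf Γ.bos)) • bv R Γ) μ) =
        if muOf Γ.bos = μ ∧ TT Γ = d then coeff d (g μ) else 0 := by
      intro Γ
      rw [Finsupp.smul_apply, coeff_smul]
      unfold bv
      rw [Finsupp.single_apply]
      by_cases h : muOf Γ.bos = μ
      · rw [if_pos h, coeff_Asym_dec (Dec_TT Γ) hd]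
        by_cases h2 : TT Γ = d
        · rw [if_pos h2.symm, if_pos ⟨h, h2⟩, h, h2, smul_eq_mul, mul_one]
        · rw [if_neg (Ne.symm h2), if_neg (fun hh => h2 hh.2), smul_zero]
      · rw [if_neg h, if_neg (fun hh => h hh.1), coeff_zero, smul_zero]
    simp only [h1]
    by_cases hc : coeff d (g μ) = 0
    · rw [hc]
      symm
      apply sum_eq_zero
      intro Γ _
      split_ifs <;> rfl
    · obtain ⟨Γ, h2, h3⟩ := exists_SP (by omega) (hg μ d hc) hd
      rw [Finset.sum_eq_single Γ]
      · rw [if_pos ⟨h2, h3⟩]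
      · intro Γ' _ hne
        rw [if_neg]
        rintro ⟨h4, h5⟩
        exact hne (TT_inj (h4.trans h2.symm) (h5.trans h3.symm))
      · intro h; exact absurd (mem_univ _) h

lemma Bf_bv {N : ℕ} (α : R) (Γ Γ' : SuperPartition n m) :
    Bf N α (bv R Γ) (bv R Γ') =
      if Γ = Γ' then (Nat.factorial m : R) * wt N α (muOf Γ.bos) else 0 := by
  classical
  unfold bv
  rw [Bf_single, ip_Asym_Asym (Dec_TT Γ) (Dec_TT Γ')]
  by_cases h : Γ = Γ'
  · subst h
    rw [if_pos rfl, if_pos rfl, if_pos rfl, mul_comm]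
  · rw [if_neg h]
    by_cases h1 : muOf Γ.bos = muOf Γ'.bos
    · rw [if_pos h1, if_neg (fun h2 => h (TT_inj h1 h2)), mul_zero]
    · rw [if_neg h1]

/-- The form in coordinates. -/
lemma Bf_coord {N : ℕ} (α : R) (a b : SuperPartition n m → R) :
    Bf N α (∑ Γ, a Γ • bv R Γ) (∑ Γ, b Γ • bv R Γ) =
      (Nat.factorial m : R) * ∑ Γ, a Γ * b Γ * wt N α (muOf Γ.bos) := by
  rw [show Bf N α (∑ Γ, a Γ • bv R Γ) = ∑ Γ, Bf N α (a Γ • bv R Γ) from map_sum _ _ _,
    LinearMap.sum_apply, mul_sum]
  apply sum_congr rfl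
  intro Γ _
  rw [map_smul, LinearMap.smul_apply, map_sum, Finset.sum_eq_single Γ]
  · rw [map_smul, Bf_bv, if_pos rfl]
    simp only [smul_eq_mul]
    ring
  · intro Γ' _ h
    rw [map_smul, Bf_bv, if_neg (Ne.symm h), smul_zero]
  · intro h; exact absurd (mem_univ _) h

end

end Pool.Agent.Helper61.Jack
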