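import Pool.Agent.Helper61.Jack.B7
import Pool.Agent.Helper61.Jack.C3
import Pool.Agent.Helper61.Jack.C5
import Pool.Agent.Helper72.Jack.Final

/-!
# The integral forms
-/

set_option autoImplicit false

open MvPolynomial Finset

namespace Pool.Agent.Helper61.Jack

open JackSuper JackSuper.SuperPartition

noncomputable section

lemma genZ_X : GenZ (Polynomial.X : Polynomial ℤ) := by
  intro a b ha h
  have h1 := congrArg (fun p => Polynomial.coeff p 1) h
  simp only [Polynomial.coeff_add, Polynomial.coeff_zero] at h1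
  rw [Polynomial.coeff_mul_X, ← Polynomial.C_eq_intCast, ← Polynomial.C_eq_intCast,
    Polynomial.coeff_C, Polynomial.coeff_C] at h1
  simp at h1
  exact ha h1

variable {n m : ℕ}

lemma exW_list (Λ : SuperPartition n m) :
    exW (listA Λ) (listF Λ) = ex (dec Λ.fer.val ++ (dec Λ.bos).reverse) := by
  unfold exW
  rw [List.map_reverse, listA_succ]
  congr 2
  unfold listF
  rw [List.reverse_reverse]

lemma sum_list (Λ : SuperPartition n m) : ((listA Λ).map Nat.succ ++ listF Λ).sum = n := by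
  rw [List.sum_append, listA_succ]
  have h1 : (dec Λ.bos).sum = Λ.bos.sum := by
    conv_rhs => rw [← JackSuper.dec_coe Λ.bos, Multiset.sum_coe]
  have h2 : (listF Λ).sum = ∑ x ∈ Λ.fer, x := by
    have : (listF Λ : Multiset ℕ).sum = Λ.fer.val.sum := by rw [listF_coe]
    rw [Multiset.sum_coe] at this
    rw [this, Finset.sum_eq_multiset_sum, Multiset.map_id']
  rw [h1, h2, add_comm]
  exact Λ.sum_eq

lemma card_bos_le (Λ : SuperPartition n m) : Multiset.card Λ.bos ≤ n := by
  have h1 : Multiset.card Λ.bos ≤ Λ.bos.sum := by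
    have := Multiset.card_nsmul_le_sum (s := Λ.bos) (a := 1) (fun x hx => Λ.bos_pos x hx)
    simpa using this
  have := Λ.sum_eq
  omega

lemma expo_eq (Ω : SuperPartition n m) : expo Ω = ex (dec Ω.fer.val ++ dec Ω.bos) := rfl

lemma Le_refl {N : ℕ} {Q : ℕ → Prop} {e : ℕ →₀ ℕ} (h : ∀ i, N ≤ i → e i = 0) : Le N Q e e :=
  ⟨h, rfl, fun _ _ _ => le_rfl⟩

theorem data {N : ℕ} (hN : 2 * n + m + 1 ≤ N) (Λ : SuperPartition n m) :
    ∃ (Y : FV (Polynomial ℤ)) (W : MvPolynomial ℕ (Polynomial ℤ)) (c : Polynomial ℤ), c ≠ 0 ∧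
      FSup (Good N m n) Y ∧ ev N (lift (Asym 0 m) Y) = c • W ∧
      coeff (expo Λ) W = Λ.v ∧ (∀ Ω : SuperPartition n m, coeff (expo Ω) W ≠ 0 → Dom Ω Λ) ∧
      PSup (Le N (fun k => k = 0 ∨ k = m) (exW (listA Λ) (listF Λ))) W ∧
      (∀ (Q : ℕ → Prop) (e' : ℕ → ℕ), ∑ i ∈ range N, e' i = n →
        ¬ Le N Q e' (exW (listA Λ) (listF Λ)) → ∀ g : FV (Polynomial ℤ), FSup (Good N m n) g →
          PSup (Le N Q e') (ev N g) → Bf N Polynomial.X Y g = 0) := by
  have hb := card_bos_le Λ
  have hA := listA_length Λ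
  have hF := listF_length Λ
  have hs := sum_list Λ
  have hα := genZ_X
  obtain ⟨Y, hY1, hY2, hY3⟩ := orthY (N := N) hα (listA Λ) (listF Λ) (by
    rw [hs, List.length_append, List.length_map]; omega)
  obtain ⟨W, hW1, hW2, hW3⟩ := W_exists (N := N) hα.gen (listA Λ) (listF Λ) (listA_sorted Λ)
    (listF_sorted Λ) (by omega)
  have hc : prodS N Polynomial.X (listA Λ) (listF Λ) *
      PT Polynomial.X ↑(listA Λ) 0 (listF Λ) ≠ 0 :=
    mul_ne_zero (prodS_ne_zero hα.gen _ _ (by omega)) (PT_ne_zero hα.gen _ _ _ (listF_sorted Λ))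
  have hsup := W_sup (listA Λ) (listF Λ) (by omega) hc hW1
  have hv : coeff (exW (listA Λ) (listF Λ)) W = Λ.v := by
    rw [hW3, v_eq Λ (N := N) (by omega)]
  rw [hF] at hY1 hY2 hY3 hW1 hW2 hsup
  rw [hs] at hY1 hY3
  refine ⟨Y, W, _, hc, hY1, ?_, ?_, ?_, hsup, hY3⟩
  · rw [ev_lift_Asym (by omega), hY2, hW1]
  · rw [← hv, exW_list, expo_eq]
    have hlen : (dec Λ.fer.val).length = m := by rw [dec_length]; exact Λ.card_fer
    refine coeff_perm (N := N) (List.reverse_perm _).symm _ ?_ ?_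
    · rw [hlen]; exact hW2
    · rw [hlen, dec_length]; omega
  · intro Ω hΩ
    have h1 := hsup _ hΩ
    rw [exW_list, expo_eq] at h1
    have hb' := card_bos_le Ω
    refine Dom_of_Le (L := dec Ω.bos) (L' := (dec Λ.bos).reverse) (JackSuper.dec_coe _) ?_ ?_ ?_ h1
    · rw [Multiset.coe_reverse, JackSuper.dec_coe]
    · rw [dec_length]; omega
    · rw [List.length_reverse, dec_length]; omega

/-- The interface. -/
theorem main (n m : ℕ) : ∃ w' : SuperPartition n m → SuperPartition n m → Polynomial ℤ,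
    (∀ L, w' L L = v L) ∧ (∀ L O, w' L O ≠ 0 → Dom O L) ∧
    ∀ N, n + m ≤ N →
      LinearIndependent K (mon N : SuperPartition n m → SP N) ∧
      LinearIndependent K (pow N : SuperPartition n m → SP N) ∧
      Submodule.span K (Set.range (pow N : SuperPartition n m → SP N)) =
        Submodule.span K (Set.range (mon N : SuperPartition n m → SP N)) ∧
      (∃ B, IsScalarProduct n m N B) ∧
      ∃ P : SuperPartition n m → SP N, IsJackFamily n m N P ∧
        (∀ P', IsJackFamily n m N P' → P' = P) ∧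
        ∀ L, Polynomial.aeval al (v L) • P L = ∑ O, Polynomial.aeval al (w' L O) • mon N O := by
  classical
  set N1 := 2 * n + m + 1 with hN1
  choose Y W c hc hY hev hv hdom hsup horth using
    fun Λ : SuperPartition n m => data (N := N1) le_rfl Λ
  set u : SuperPartition n m → SuperPartition n m → Polynomial ℤ := fun Λ Γ =>
    coeff (TT Γ) (lift (Asym 0 m) (Y Λ) (muOf Γ.bos)) with hu
  have hexp : ∀ Λ, lift (Asym 0 m) (Y Λ) = ∑ Γ, u Λ Γ • bv (Polynomial ℤ) Γ := fun Λ =>
    expand (N := N1) (by omega) (FSup_lift_Asym (by omega) (hY Λ)) (anti_lift_Asym (Y Λ))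
  have hAYg : ∀ Λ, FSup (Good N1 m n) (lift (Asym 0 m) (Y Λ)) := fun Λ =>
    FSup_lift_Asym (by omega) (hY Λ)
  have hI1 : ∀ Λ Ω, c Λ * coeff (expo Ω) (W Λ) = ∑ Γ, u Λ Γ * ((Cmat N1 Γ Ω : ℤ) : Polynomial ℤ) := by
    intro Λ Ω
    have h1 : coeff (expo Ω) (ev N1 (lift (Asym 0 m) (Y Λ))) = c Λ * coeff (expo Ω) (W Λ) := by
      rw [hev, coeff_smul, smul_eq_mul]
    rw [← h1, hexp, map_sum, coeff_sum]
    apply sum_congr rfl
    intro Γ _
    rw [map_smul, coeff_smul, smul_eq_mul]
    have h2 : coeff (expo Ω) (ev N1 (bv (Polynomial ℤ) Γ)) = ((Cmat N1 Γ Ω : ℤ) : Polynomial ℤ) := by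
      unfold bv
      rw [ev_single, Cmat_cast (by omega)]
      rfl
    rw [h2]
  have horth' : ∀ Λ Λ', ¬ Dom Λ Λ' → ∑ Γ, u Λ Γ * u Λ' Γ * wt N1 Polynomial.X (muOf Γ.bos) = 0 := by
    intro Λ Λ' hnd
    have hm : ((Nat.factorial m : ℕ) : Polynomial ℤ) ≠ 0 := by
      exact_mod_cast Nat.factorial_ne_zero m
    have h1 : Bf N1 Polynomial.X (Y Λ) (lift (Asym 0 m) (Y Λ')) = 0 := by
      refine horth Λ (fun k => k = 0 ∨ k = m) (exW (listA Λ') (listF Λ')) ?_ ?_ _ (hAYg Λ') ?_
      · rw [exW_list]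
        have hb' := card_bos_le Λ'
        have h2 := sumD (fun x => x) rfl (dec Λ'.fer.val ++ (dec Λ'.bos).reverse) N1 (by
          rw [List.length_append, List.length_reverse, dec_length, dec_length]
          have := Λ'.card_fer
          have h3 : Multiset.card Λ'.fer.val = m := this
          omega)
        have h4 : ((dec Λ'.fer.val ++ (dec Λ'.bos).reverse).map (fun x => x)).sum = n := by
          have h5 := Λ'.sum_eq
          rw [Finset.sum_eq_multiset_sum, Multiset.map_id'] at h5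
          rw [List.map_append, List.sum_append, sum_map_dec, List.map_reverse, List.sum_reverse,
            sum_map_dec, Multiset.map_id', Multiset.map_id']
          exact h5
        exact h2.trans h4
      · intro hLe
        apply hnd
        rw [exW_list, exW_list] at hLe
        have hb := card_bos_le Λ
        have hb' := card_bos_le Λ'
        refine Dom_of_Le (N := N1) (L := (dec Λ.bos).reverse) (L' := (dec Λ'.bos).reverse)
          ?_ ?_ ?_ ?_ hLe
        · rw [Multiset.coe_reverse, JackSuper.dec_coe]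
        · rw [Multiset.coe_reverse, JackSuper.dec_coe]
        · rw [List.length_reverse, dec_length]; omega
        · rw [List.length_reverse, dec_length]; omega
      · rw [hev]
        exact (hsup Λ').smul _
    have h2 := Bf_lift_Asym (m := m) N1 (Polynomial.X : Polynomial ℤ)
      (anti_lift_Asym (Y Λ')) (Y Λ)
    rw [h1, mul_zero, hexp Λ, hexp Λ', Bf_coord] at h2
    exact (mul_eq_zero.mp h2).resolve_left hm
  refine wrap N1 (fun Λ Ω => coeff (expo Ω) (W Λ)) (fun Λ Γ => Polynomial.aeval al (u Λ Γ))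
    (fun Λ => Polynomial.aeval al (c Λ)) (fun Λ => aeval_ne_zero (hc Λ)) ?_ ?_ ?_ hv hdom
  · intro N hN Γ Ω
    exact Cmat_indep hN (by omega) Γ Ω
  · intro Λ Ω
    have h1 := congrArg (fun p => Polynomial.aeval al p) (hI1 Λ Ω)
    simp only [map_mul, map_sum, map_intCast] at h1
    exact h1
  · intro Λ Λ' hne
    have h1 : ∑ Γ, u Λ Γ * u Λ' Γ * wt N1 Polynomial.X (muOf Γ.bos) = 0 := by
      by_cases hd : Dom Λ Λ'
      · have h2 : ¬ Dom Λ' Λ := fun h => hne (JackSuper.Dom_antisymm hd h)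
        rw [← horth' Λ' Λ h2]
        apply sum_congr rfl
        intro Γ _
        ring
      · exact horth' Λ Λ' hd
    have h3 := congrArg (fun p => Polynomial.aeval al p) h1
    simp only [map_mul, map_sum, map_zero] at h3
    rw [← h3]
    apply sum_congr rfl
    intro Γ _
    rw [wt_muOf _ (by omega), map_mul, map_pow, Polynomial.aeval_X, map_natCast]

end

end Pool.Agent.Helper61.Jack
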